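import Pool.Agent.Lib.CLN.Base
/-! MP_bd3536_an, row AR.

General area formula with multiplicity. Let `U = {det ≠ 0}`. By the approximation by linear maps
`U` is a countable disjoint union of Borel sets `A m` on which `F` is injective. The sum over the
fibre is `∑' m, G m`, `G m` the extension by zero of `φ` under the measurable embedding `F|(A m)`;
use `lintegral_image_eq_lintegral_abs_det_fderiv_mul` for each `m`.
-/

set_option autoImplicit false

open MeasureTheory
open scoped ENNReal NNReal ComplexConjugate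

namespace Pool.Agent.Lib.CLN

variable {n : ℕ} {d : Fin n → ℕ}

section AR

variable {E : Type*} [NormedAddCommGroup E] [NormedSpace ℝ E]
    [FiniteDimensional ℝ E] [MeasurableSpace E] [BorelSpace E]

open Set Function

theorem exists_partition_injOn {F : E → E} {F' : E → E →L[ℝ] E}
    (hF : ∀ x, HasFDerivAt F (F' x) x) (hF' : Continuous F') :
    ∃ A : ℕ → Set E, (∀ m, MeasurableSet (A m)) ∧ Pairwise (Disjoint on A) ∧
      (⋃ m, A m) = {x | (F' x).det ≠ 0} ∧ ∀ m, InjOn F (A m) := by
  classical
  set U : Set E := {x | (F' x).det ≠ 0} with hU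
  have hUo : IsOpen U := isOpen_ne_fun (ContinuousLinearMap.continuous_det.comp hF') continuous_const
  let r : (E →L[ℝ] E) → ℝ≥0 := fun B =>
    if h : B.det ≠ 0 then
      (if ‖((B.toContinuousLinearEquivOfDetNeZero h).symm : E →L[ℝ] E)‖₊⁻¹ / 2 = 0 then 1 else
        ‖((B.toContinuousLinearEquivOfDetNeZero h).symm : E →L[ℝ] E)‖₊⁻¹ / 2)
    else 1
  have hr : ∀ B, r B ≠ 0 := by
    intro B
    simp only [r]
    split_ifs with h1 h2
    · exact one_ne_zero
    · exact h2
    · exact one_ne_zero
  obtain ⟨t, B, hdis, hmeas, hcov, happ, hex⟩ :=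
    exists_partition_approximatesLinearOn_of_hasFDerivWithinAt F U F'
      (fun x _ => (hF x).hasFDerivWithinAt) r hr
  refine ⟨fun m => U ∩ t m, fun m => hUo.measurableSet.inter (hmeas m), ?_, ?_, ?_⟩
  · intro i j hij
    exact (hdis hij).mono inter_subset_right inter_subset_right
  · rw [← inter_iUnion]
    exact inter_eq_left.2 hcov
  · intro m
    rcases U.eq_empty_or_nonempty with h0 | h0
    · simp [h0]
    · obtain ⟨y, hy, hBy⟩ := hex h0 m
      have hdet : (B m).det ≠ 0 := by rw [hBy]; exact hy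
      have h1 := happ m
      set C := (B m).toContinuousLinearEquivOfDetNeZero hdet with hC
      have hCB : (C : E →L[ℝ] E) = B m := by
        rw [hC]; exact ContinuousLinearMap.coe_toContinuousLinearEquivOfDetNeZero _ _
      rw [← hCB] at h1
      refine h1.injOn ?_
      rcases C.subsingleton_or_nnnorm_symm_pos with h2 | h2
      · exact Or.inl h2
      · right
        have h3 : r (C : E →L[ℝ] E) = ‖(C.symm : E →L[ℝ] E)‖₊⁻¹ / 2 := by
          rw [hCB]
          simp only [r]
          rw [dif_pos hdet, if_neg]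
          rw [← hC]
          have := inv_pos.2 h2
          positivity
        rw [h3]
        exact half_lt_self (inv_pos.2 h2)

/-- The fibre sum as a sum of extensions by zero. -/
theorem tsum_fibre_eq {F : E → E} {U : Set E} {A : ℕ → Set E} (hdis : Pairwise (Disjoint on A))
    (hA : (⋃ m, A m) = U) (hinj : ∀ m, InjOn F (A m)) (φ : E → ℝ≥0∞) (h : E) :
    ∑' y : {y // F y = h ∧ y ∈ U}, φ y =
      ∑' m, extend ((A m).domRestrict F) ((A m).domRestrict φ) 0 h := by
  classical
  have h1 : ∑' y : {y // F y = h ∧ y ∈ U}, φ y =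
      ∑' y : E, ({y | F y = h ∧ y ∈ U} : Set E).indicator φ y :=
    tsum_subtype ({y | F y = h ∧ y ∈ U} : Set E) φ
  have h2 : ∀ y : E, ({y | F y = h ∧ y ∈ U} : Set E).indicator φ y =
      ∑' m, ({y | F y = h ∧ y ∈ A m} : Set E).indicator φ y := by
    intro y
    by_cases hy : F y = h ∧ y ∈ U
    · obtain ⟨m, hm⟩ := mem_iUnion.1 (hA ▸ hy.2)
      rw [indicator_of_mem (show y ∈ ({y | F y = h ∧ y ∈ U} : Set E) from hy),
        tsum_eq_single m, indicator_of_mem (show y ∈ ({y | F y = h ∧ y ∈ A m} : Set E) from ⟨hy.1, hm⟩)]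
      intro m' hm'
      refine indicator_of_notMem ?_ _
      rintro ⟨-, h3⟩
      exact disjoint_left.1 (hdis hm') h3 hm
    · rw [indicator_of_notMem (show y ∉ ({y | F y = h ∧ y ∈ U} : Set E) from hy)]
      symm
      rw [ENNReal.tsum_eq_zero]
      intro m
      refine indicator_of_notMem ?_ _
      rintro ⟨h3, h4⟩
      exact hy ⟨h3, hA ▸ mem_iUnion.2 ⟨m, h4⟩⟩
  rw [h1]
  simp_rw [h2]
  rw [ENNReal.tsum_comm]
  refine tsum_congr fun m => ?_
  by_cases hex : ∃ y ∈ A m, F y = h
  · obtain ⟨y, hy, hyh⟩ := hex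
    have hi : Injective ((A m).domRestrict F) := injOn_iff_injective.1 (hinj m)
    have h4 : extend ((A m).domRestrict F) ((A m).domRestrict φ) 0 h = φ y := by
      have := hi.extend_apply ((A m).domRestrict φ) 0 ⟨y, hy⟩
      simpa [Set.domRestrict_apply, hyh] using this
    rw [h4, tsum_eq_single y]
    · exact indicator_of_mem (show y ∈ ({y | F y = h ∧ y ∈ A m} : Set E) from ⟨hyh, hy⟩) _
    · intro y' hy'
      refine indicator_of_notMem ?_ _
      rintro ⟨h5, h6⟩
      exact hy' (hinj m h6 hy (h5.trans hyh.symm))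
  · have h4 : extend ((A m).domRestrict F) ((A m).domRestrict φ) 0 h = 0 := by
      rw [extend_apply' _ _ _ (by rintro ⟨y, hy⟩; exact hex ⟨y, y.2, hy⟩)]
      rfl
    rw [h4, ENNReal.tsum_eq_zero]
    intro y
    refine indicator_of_notMem ?_ _
    rintro ⟨h5, h6⟩
    exact hex ⟨y, h6, h5⟩

end AR

theorem area_measurable {E : Type*} [NormedAddCommGroup E] [NormedSpace ℝ E]
    [FiniteDimensional ℝ E] [MeasurableSpace E] [BorelSpace E]
    {F : E → E} {F' : E → E →L[ℝ] E} (hF : ∀ x, HasFDerivAt F (F' x) x) (hF' : Continuous F')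
    {φ : E → ℝ≥0∞} (hφ : Measurable φ) :
    Measurable (fun h => ∑' y : {y // F y = h ∧ (F' y).det ≠ 0}, φ y) := by
  obtain ⟨A, hmeas, hdis, hcov, hinj⟩ := exists_partition_injOn hF hF'
  have h1 : (fun h => ∑' y : {y // F y = h ∧ (F' y).det ≠ 0}, φ y) = fun h =>
      ∑' m, Function.extend ((A m).domRestrict F) ((A m).domRestrict φ) 0 h := by
    funext h
    exact tsum_fibre_eq hdis hcov hinj φ h
  rw [h1]
  refine Measurable.ennreal_tsum fun m => ?_
  exact (measurableEmbedding_of_fderivWithin (hmeas m) (fun x _ => (hF x).hasFDerivWithinAt)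
    (hinj m)).measurable_extend (hφ.comp measurable_subtype_coe) measurable_const

theorem area_formula {E : Type*} [NormedAddCommGroup E] [NormedSpace ℝ E]
    [FiniteDimensional ℝ E] [MeasurableSpace E] [BorelSpace E] (μ : Measure E) [μ.IsAddHaarMeasure]
    {F : E → E} {F' : E → E →L[ℝ] E} (hF : ∀ x, HasFDerivAt F (F' x) x) (hF' : Continuous F')
    {φ : E → ℝ≥0∞} (hφ : Measurable φ) :
    ∫⁻ h, ∑' y : {y // F y = h ∧ (F' y).det ≠ 0}, φ y ∂μ =
      ∫⁻ y, ENNReal.ofReal |(F' y).det| * φ y ∂μ := by
  obtain ⟨A, hmeas, hdis, hcov, hinj⟩ := exists_partition_injOn hF hF'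
  have h1 : (fun h => ∑' y : {y // F y = h ∧ (F' y).det ≠ 0}, φ y) = fun h =>
      ∑' m, Function.extend ((A m).domRestrict F) ((A m).domRestrict φ) 0 h := by
    funext h
    exact tsum_fibre_eq hdis hcov hinj φ h
  have hGm : ∀ m, Measurable (Function.extend ((A m).domRestrict F) ((A m).domRestrict φ) 0) :=
    fun m => (measurableEmbedding_of_fderivWithin (hmeas m)
      (fun x _ => (hF x).hasFDerivWithinAt) (hinj m)).measurable_extend
        (hφ.comp measurable_subtype_coe) measurable_const
  have hFc : Continuous F := continuous_iff_continuousAt.2 fun x => (hF x).continuousAt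
  rw [h1, lintegral_tsum fun m => (hGm m).aemeasurable]
  have h2 : ∀ m, ∫⁻ h, Function.extend ((A m).domRestrict F) ((A m).domRestrict φ) 0 h ∂μ =
      ∫⁻ y in A m, ENNReal.ofReal |(F' y).det| * φ y ∂μ := by
    intro m
    have hi : Function.Injective ((A m).domRestrict F) := Set.injOn_iff_injective.1 (hinj m)
    have himg : MeasurableSet (F '' A m) :=
      (hmeas m).image_of_continuousOn_injOn hFc.continuousOn (hinj m)
    have h3 : ∫⁻ h, Function.extend ((A m).domRestrict F) ((A m).domRestrict φ) 0 h ∂μ =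
        ∫⁻ h in F '' A m, Function.extend ((A m).domRestrict F) ((A m).domRestrict φ) 0 h ∂μ := by
      rw [← lintegral_indicator himg]
      refine lintegral_congr fun h => ?_
      by_cases hh : h ∈ F '' A m
      · rw [Set.indicator_of_mem hh]
      · rw [Set.indicator_of_notMem hh, Function.extend_apply' _ _ _ (by
          rintro ⟨y, hy⟩; exact hh ⟨y, y.2, hy⟩)]
        rfl
    rw [h3, lintegral_image_eq_lintegral_abs_det_fderiv_mul μ (hmeas m)
      (fun x _ => (hF x).hasFDerivWithinAt) (hinj m)]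
    refine setLIntegral_congr_fun (hmeas m) fun x hx => ?_
    have := hi.extend_apply ((A m).domRestrict φ) 0 ⟨x, hx⟩
    simp only [Set.domRestrict_apply] at this
    simp only [this]
  simp_rw [h2]
  rw [← lintegral_iUnion hmeas hdis, hcov]
  have hUm : MeasurableSet {x | (F' x).det ≠ 0} := by
    rw [← hcov]; exact MeasurableSet.iUnion hmeas
  rw [← lintegral_indicator hUm]
  refine lintegral_congr fun y => ?_
  by_cases hy : (F' y).det ≠ 0
  · rw [Set.indicator_of_mem (show y ∈ {x | (F' x).det ≠ 0} from hy)]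
  · rw [Set.indicator_of_notMem (show y ∉ {x | (F' x).det ≠ 0} from hy)]
    push Not at hy
    simp [hy]

end Pool.Agent.Lib.CLN
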