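import Pool.Agent.Lib.CLN.BW1
/-! MP_bd3536_an, row EV.

Elementary calculus of `ev`: smoothness, derivative, Euler identity, homogeneity, linearity.
`ev_self`: differentiate `ev h (c z) i = c ^ d i * ev h z i` at `c = 1`.
-/

set_option autoImplicit false

open MeasureTheory
open scoped ENNReal NNReal ComplexConjugate

namespace Pool.Agent.Lib.CLN

variable {n : ℕ} {d : Fin n → ℕ}

private theorem cln_contDiff_coord (j : Fin (n + 1)) :
    ContDiff ℂ ⊤ (fun z : Pt n => z j) :=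
  (EuclideanSpace.proj (𝕜 := ℂ) j).contDiff

theorem contDiff_mon (k : ℕ) (α : Mon n k) : ContDiff ℂ ⊤ (fun z : Pt n => mon k z α) := by
  unfold mon
  exact contDiff_const.mul (contDiff_prod fun j _ => (cln_contDiff_coord j).pow _)

theorem contDiff_ev (h : Sys d) : ContDiff ℂ ⊤ (ev h) := by
  rw [contDiff_euclidean]
  intro i
  show ContDiff ℂ ⊤ (fun z : Pt n => ∑ α : Mon n (d i), h ⟨i, α⟩ * mon (d i) z α)
  exact ContDiff.sum fun α _ => contDiff_const.mul (contDiff_mon _ α)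

theorem hasFDerivAt_ev (h : Sys d) (z : Pt n) :
    HasFDerivAt (ev h) (fderiv ℂ (ev h) z) z ∧
      ∀ (u : Pt n) (i : Fin n), fderiv ℂ (ev h) z u i = dev h z u i := by
  have hd : HasFDerivAt (ev h) (fderiv ℂ (ev h) z) z :=
    ((contDiff_ev h).differentiable (by simp) z).hasFDerivAt
  refine ⟨hd, fun u i => ?_⟩
  have hline : HasDerivAt (fun t : ℂ => z + t • u) u 0 := by
    simpa using ((hasDerivAt_id (0 : ℂ)).smul_const u).const_add z
  have h1 : HasDerivAt (fun t : ℂ => ev h (z + t • u)) (fderiv ℂ (ev h) z u) 0 := by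
    have hd' : HasFDerivAt (ev h) (fderiv ℂ (ev h) z) (z + (0 : ℂ) • u) := by simpa using hd
    exact hd'.comp_hasDerivAt (0 : ℂ) hline
  have h2 : HasDerivAt (fun t : ℂ => ev h (z + t • u) i) (fderiv ℂ (ev h) z u i) 0 := by
    have := ((EuclideanSpace.proj (𝕜 := ℂ) i).hasFDerivAt
      (x := ev h (z + (0 : ℂ) • u))).comp_hasDerivAt (0 : ℂ) h1
    exact this
  have h3 : HasDerivAt (fun t : ℂ => ev h (z + t • u) i) (dev h z u i) 0 := by
    show HasDerivAt (fun t : ℂ => ∑ α : Mon n (d i), h ⟨i, α⟩ * mon (d i) (z + t • u) α)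
      (∑ α : Mon n (d i), h ⟨i, α⟩ * dmon (d i) z u α) 0
    exact HasDerivAt.fun_sum fun α _ => (hasDerivAt_mon (d i) z u α).const_mul _
  exact h2.unique h3

theorem contDiff_dev (h : Sys d) (u : Fin (n + 1) → ℂ) (i : Fin n) :
    ContDiff ℂ ⊤ (fun z : Pt n => dev h z u i) := by
  unfold dev dmon
  exact ContDiff.sum fun α _ => contDiff_const.mul (contDiff_const.mul
    (ContDiff.sum fun j _ => (contDiff_const.mul ((cln_contDiff_coord j).pow _)).mul
      (contDiff_prod fun l _ => (cln_contDiff_coord l).pow _)))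

theorem dev_eq_sum (h : Sys d) (z u : Fin (n + 1) → ℂ) (i : Fin n) :
    dev h z u i = ∑ j, u j * pder h z i j := by
  unfold pder dev
  simp only [Finset.mul_sum]
  rw [Finset.sum_comm]
  refine Finset.sum_congr rfl fun α _ => ?_
  rw [dmon_eq_sum, Finset.mul_sum]
  refine Finset.sum_congr rfl fun j _ => ?_
  ring

private theorem cln_sum_alpha (k : ℕ) (α : Mon n k) :
    ∑ j, (α : Fin (n + 1) → ℕ) j = k :=
  (Finset.mem_piAntidiag.1 α.2).1

theorem dev_self (h : Sys d) (z : Pt n) (i : Fin n) :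
    dev h z z i = (d i : ℂ) * ev h z i := by
  show ∑ α : Mon n (d i), h ⟨i, α⟩ * dmon (d i) z z α =
    (d i : ℂ) * ∑ α : Mon n (d i), h ⟨i, α⟩ * mon (d i) z α
  rw [Finset.mul_sum]
  refine Finset.sum_congr rfl fun α _ => ?_
  have hk : (d i : ℂ) = ∑ j, ((α : Fin (n + 1) → ℕ) j : ℂ) := by
    rw [← Nat.cast_sum, cln_sum_alpha]
  have key : ∑ j, ((α : Fin (n + 1) → ℕ) j : ℂ) * z j * z j ^ ((α : Fin (n + 1) → ℕ) j - 1) *
      ∏ l ∈ Finset.univ.erase j, z l ^ (α : Fin (n + 1) → ℕ) l =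
      (d i : ℂ) * ∏ j, z j ^ (α : Fin (n + 1) → ℕ) j := by
    rw [hk, Finset.sum_mul]
    refine Finset.sum_congr rfl fun j _ => ?_
    rw [← Finset.mul_prod_erase Finset.univ (fun l => z l ^ (α : Fin (n + 1) → ℕ) l)
      (Finset.mem_univ j)]
    rcases Nat.eq_zero_or_pos ((α : Fin (n + 1) → ℕ) j) with h0 | h0
    · simp [h0]
    · obtain ⟨m, hm⟩ := Nat.exists_eq_add_of_lt h0
      rw [hm]
      simp only [Nat.zero_add, Nat.add_sub_cancel]
      ring
  unfold dmon mon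
  rw [key]
  ring

theorem mon_smul (k : ℕ) (c : ℂ) (z : Fin (n + 1) → ℂ) (α : Mon n k) :
    mon k (c • z) α = c ^ k * mon k z α := by
  unfold mon
  simp only [Pi.smul_apply, smul_eq_mul, mul_pow, Finset.prod_mul_distrib,
    Finset.prod_pow_eq_pow_sum, cln_sum_alpha]
  ring

theorem dmon_smul (k : ℕ) (c : ℂ) (z u : Fin (n + 1) → ℂ) (α : Mon n k) :
    dmon k (c • z) u α = c ^ (k - 1) * dmon k z u α := by
  unfold dmon
  rw [mul_left_comm]
  congr 1
  rw [Finset.mul_sum]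
  refine Finset.sum_congr rfl fun j _ => ?_
  simp only [Pi.smul_apply, smul_eq_mul, mul_pow, Finset.prod_mul_distrib,
    Finset.prod_pow_eq_pow_sum]
  rcases Nat.eq_zero_or_pos ((α : Fin (n + 1) → ℕ) j) with h0 | h0
  · simp [h0]
  · have hs : ((α : Fin (n + 1) → ℕ) j - 1) +
        ∑ l ∈ Finset.univ.erase j, (α : Fin (n + 1) → ℕ) l = k - 1 := by
      have h1 := cln_sum_alpha k α
      rw [← Finset.add_sum_erase Finset.univ (fun l => (α : Fin (n + 1) → ℕ) l)
        (Finset.mem_univ j)] at h1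
      omega
    rw [← hs, pow_add]
    ring

theorem ev_smul_pt (h : Sys d) (c : ℂ) (z : Pt n) (i : Fin n) :
    ev h (c • z) i = c ^ d i * ev h z i := by
  show ∑ α : Mon n (d i), h ⟨i, α⟩ * mon (d i) (c • z) α =
    c ^ d i * ∑ α : Mon n (d i), h ⟨i, α⟩ * mon (d i) z α
  rw [Finset.mul_sum]
  refine Finset.sum_congr rfl fun α _ => ?_
  have : mon (d i) (c • z : Pt n) α = c ^ d i * mon (d i) z α := mon_smul (d i) c z α
  rw [this]
  ring

theorem pder_smul_pt (h : Sys d) (c : ℂ) (z : Fin (n + 1) → ℂ) (i : Fin n) (j : Fin (n + 1)) :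
    pder h (c • z) i j = c ^ (d i - 1) * pder h z i j := by
  unfold pder dev
  rw [Finset.mul_sum]
  refine Finset.sum_congr rfl fun α _ => ?_
  rw [dmon_smul]
  ring

theorem ev_add (h h' : Sys d) (z : Pt n) : ev (h + h') z = ev h z + ev h' z := by
  ext i
  show ∑ α : Mon n (d i), (h + h') ⟨i, α⟩ * mon (d i) z α =
    ∑ α : Mon n (d i), h ⟨i, α⟩ * mon (d i) z α + ∑ α : Mon n (d i), h' ⟨i, α⟩ * mon (d i) z α
  rw [← Finset.sum_add_distrib]
  refine Finset.sum_congr rfl fun α _ => ?_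
  rw [PiLp.add_apply]
  ring

theorem ev_smul (a : ℝ) (h : Sys d) (z : Pt n) : ev (a • h) z = a • ev h z := by
  ext i
  rw [PiLp.smul_apply]
  show ∑ α : Mon n (d i), (a • h) ⟨i, α⟩ * mon (d i) z α =
    a • ∑ α : Mon n (d i), h ⟨i, α⟩ * mon (d i) z α
  rw [Finset.smul_sum]
  refine Finset.sum_congr rfl fun α _ => ?_
  rw [PiLp.smul_apply, smul_mul_assoc]

theorem dev_add (h h' : Sys d) (z u : Fin (n + 1) → ℂ) (i : Fin n) :
    dev (h + h') z u i = dev h z u i + dev h' z u i := by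
  unfold dev
  rw [← Finset.sum_add_distrib]
  refine Finset.sum_congr rfl fun α _ => ?_
  rw [PiLp.add_apply]
  ring

theorem dev_smul (a : ℝ) (h : Sys d) (z u : Fin (n + 1) → ℂ) (i : Fin n) :
    dev (a • h) z u i = (a : ℂ) * dev h z u i := by
  unfold dev
  rw [Finset.mul_sum]
  refine Finset.sum_congr rfl fun α _ => ?_
  rw [PiLp.smul_apply, Complex.real_smul]
  ring

end Pool.Agent.Lib.CLN
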