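import Pool.Agent.Lib.CLN.BW2
import Pool.Agent.Lib.CLN.EV
/-! MP_bd3536_an, row BD.

Crude bounds at unit vectors. For `bd1` Cauchy-Schwarz and `sum_norm_mon`. For `bd2`: for
`‖w‖ ≤ 1 + 1/k` one has `|ev h w i| ≤ ‖h_i‖ (1 + 1/k)^k ≤ e ‖h_i‖` (`k = d i`, `‖h_i‖` the norm of
the coordinates of equation `i`), so Cauchy's estimate
(`Complex.norm_deriv_le_of_forall_mem_sphere_norm_le`, radius `1/k`) gives
`|dev h z u i| ≤ e k ‖h_i‖ ‖u‖` for `‖z‖ = 1`, hence by homogeneity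
`|dev h w u i| ≤ e k ‖h_i‖ ‖u‖ ‖w‖^(k-1)`; take for `u` the conjugate gradient to get
`∑ j, ‖pder h z i j‖² ≤ (e k ‖h_i‖)²`, and `e² ≤ 9`. The same once more for `bd3`:
`|ddev h z u v i| ≤ e² k² ‖h_i‖ ‖u‖ ‖v‖`, `e⁴ ≤ 64`, and `d i ≤ NN d`.
Counting: `Mon n k` contains the `k + 1` vectors `(k - a, a, 0, …)` if `n ≥ 1` and the `n + 1`
vectors `Pi.single j k` if `k ≥ 1`.
-/

set_option autoImplicit false

open MeasureTheory
open scoped ENNReal NNReal ComplexConjugate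

namespace Pool.Agent.Lib.CLN

variable {n : ℕ} {d : Fin n → ℕ}

private theorem bd_cs {ι : Type*} [Fintype ι] (a b : ι → ℂ) :
    ‖∑ i, a i * b i‖ ^ 2 ≤ (∑ i, ‖a i‖ ^ 2) * ∑ i, ‖b i‖ ^ 2 := by
  have h1 : ‖∑ i, a i * b i‖ ≤ ∑ i, ‖a i‖ * ‖b i‖ := by
    refine (norm_sum_le _ _).trans (le_of_eq ?_)
    exact Finset.sum_congr rfl fun i _ => norm_mul _ _
  calc ‖∑ i, a i * b i‖ ^ 2 ≤ (∑ i, ‖a i‖ * ‖b i‖) ^ 2 :=
        pow_le_pow_left₀ (norm_nonneg _) h1 2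
    _ ≤ _ := Finset.sum_mul_sq_le_sq_mul_sq _ _ _

private theorem bd_sum (h : Sys d) :
    ∑ i, ∑ α : Mon n (d i), ‖h ⟨i, α⟩‖ ^ 2 = ‖h‖ ^ 2 := by
  rw [EuclideanSpace.norm_sq_eq, Fintype.sum_sigma]

private theorem bd_term (h : Sys d) (i : Fin n) :
    ∑ α : Mon n (d i), ‖h ⟨i, α⟩‖ ^ 2 ≤ ‖h‖ ^ 2 := by
  rw [← bd_sum]
  exact Finset.single_le_sum (f := fun i => ∑ α : Mon n (d i), ‖h ⟨i, α⟩‖ ^ 2)
    (fun i _ => Finset.sum_nonneg fun α _ => by positivity) (Finset.mem_univ i)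

private theorem bd_sum_mul_conj (z : Pt n) :
    ∑ j, z j * conj (z j) = ((‖z‖ ^ 2 : ℝ) : ℂ) := by
  rw [EuclideanSpace.norm_sq_eq]
  push_cast
  refine Finset.sum_congr rfl fun j _ => ?_
  rw [Complex.mul_conj, Complex.normSq_eq_norm_sq]
  push_cast
  rfl

private theorem bd_sum_norm_sq (ι : Type*) [Fintype ι] (f : ι → ℂ) :
    ((∑ a, ‖f a‖ ^ 2 : ℝ) : ℂ) = ∑ a, f a * conj (f a) := by
  push_cast
  refine Finset.sum_congr rfl fun j _ => ?_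
  rw [Complex.mul_conj, Complex.normSq_eq_norm_sq]
  push_cast
  rfl

private theorem bd_inner1 (z u : Pt n) : ‖∑ j, u j * conj (z j)‖ ≤ ‖z‖ * ‖u‖ := by
  have h := norm_inner_le_norm (𝕜 := ℂ) z u
  rw [PiLp.inner_apply] at h
  simpa [RCLike.inner_apply] using h

private theorem bd_dmon (k : ℕ) (z u : Pt n) :
    ∑ α : Mon n k, ‖dmon k z u α‖ ^ 2 ≤ (k : ℝ) ^ 2 * ‖z‖ ^ (2 * (k - 1)) * ‖u‖ ^ 2 := by
  have h : ((∑ α : Mon n k, ‖dmon k z u α‖ ^ 2 : ℝ) : ℂ) =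
      k * (((k - 1 : ℕ) : ℂ) * ((‖z‖ ^ 2 : ℝ) : ℂ) ^ (k - 2) * (∑ j, u j * conj (z j)) *
        (∑ j, z j * conj (u j)) + ((‖z‖ ^ 2 : ℝ) : ℂ) ^ (k - 1) * ((‖u‖ ^ 2 : ℝ) : ℂ)) := by
    rw [bd_sum_norm_sq]
    simp only [dmon_conj]
    rw [sum_dmon_dmon, bd_sum_mul_conj, bd_sum_mul_conj]
  have h0 : (0 : ℝ) ≤ ∑ α : Mon n k, ‖dmon k z u α‖ ^ 2 :=
    Finset.sum_nonneg fun α _ => by positivity
  have h2 : ∑ α : Mon n k, ‖dmon k z u α‖ ^ 2 =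
      ‖((∑ α : Mon n k, ‖dmon k z u α‖ ^ 2 : ℝ) : ℂ)‖ := by
    rw [Complex.norm_real, Real.norm_of_nonneg h0]
  rw [h2, h]
  have e1 := bd_inner1 z u
  have e2 := bd_inner1 u z
  have e3 : ‖((‖z‖ ^ 2 : ℝ) : ℂ)‖ = ‖z‖ ^ 2 := by
    rw [Complex.norm_real, Real.norm_of_nonneg (by positivity)]
  have e4 : ‖((‖u‖ ^ 2 : ℝ) : ℂ)‖ = ‖u‖ ^ 2 := by
    rw [Complex.norm_real, Real.norm_of_nonneg (by positivity)]
  have hz := norm_nonneg z
  have hu := norm_nonneg u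
  have e5 : ‖∑ j, u j * conj (z j)‖ * ‖∑ j, z j * conj (u j)‖ ≤ ‖z‖ ^ 2 * ‖u‖ ^ 2 := by
    calc ‖∑ j, u j * conj (z j)‖ * ‖∑ j, z j * conj (u j)‖ ≤ (‖z‖ * ‖u‖) * (‖u‖ * ‖z‖) :=
          mul_le_mul e1 e2 (norm_nonneg _) (by positivity)
      _ = ‖z‖ ^ 2 * ‖u‖ ^ 2 := by ring
  rcases k with _ | _ | m
  · simp
  · simp only [zero_add, Nat.sub_self, Nat.cast_zero, zero_mul, Nat.cast_one, pow_zero, one_mul,
      mul_zero, one_pow]
    rw [e4]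
  · have hk1 : m + 1 + 1 - 1 = m + 1 := rfl
    have hk2 : m + 1 + 1 - 2 = m := rfl
    rw [hk1, hk2, norm_mul, Complex.norm_natCast]
    have e6 : ‖((m + 1 : ℕ) : ℂ) * ((‖z‖ ^ 2 : ℝ) : ℂ) ^ m * (∑ j, u j * conj (z j)) *
        (∑ j, z j * conj (u j)) + ((‖z‖ ^ 2 : ℝ) : ℂ) ^ (m + 1) * ((‖u‖ ^ 2 : ℝ) : ℂ)‖ ≤
        ((m + 1 : ℕ) : ℝ) * (‖z‖ ^ 2) ^ m * (‖z‖ ^ 2 * ‖u‖ ^ 2) +
          (‖z‖ ^ 2) ^ (m + 1) * ‖u‖ ^ 2 := by
      refine (norm_add_le _ _).trans ?_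
      rw [norm_mul, norm_mul, norm_mul, norm_mul, norm_pow, norm_pow, e3, e4,
        Complex.norm_natCast, mul_assoc]
      gcongr
    refine (mul_le_mul_of_nonneg_left e6 (by positivity)).trans (le_of_eq ?_)
    rw [pow_mul]
    push_cast
    ring

private theorem bd_dev (h : Sys d) (z u : Pt n) (i : Fin n) :
    ‖dev h z u i‖ ^ 2 ≤ (∑ α : Mon n (d i), ‖h ⟨i, α⟩‖ ^ 2) *
      ((d i : ℝ) ^ 2 * ‖z‖ ^ (2 * (d i - 1)) * ‖u‖ ^ 2) := by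
  have h2 := bd_cs (fun α : Mon n (d i) => h ⟨i, α⟩) (fun α => dmon (d i) z u α)
  have h3 := bd_dmon (d i) z u
  exact h2.trans (mul_le_mul_of_nonneg_left h3 (Finset.sum_nonneg fun α _ => by positivity))

private theorem bd_dual (c : Fin (n + 1) → ℂ) (M : ℝ) (hM : 0 ≤ M)
    (h : ∀ u : Pt n, ‖∑ j, u j * c j‖ ^ 2 ≤ M * ‖u‖ ^ 2) : ∑ j, ‖c j‖ ^ 2 ≤ M := by
  have hS0 : 0 ≤ ∑ j, ‖c j‖ ^ 2 := Finset.sum_nonneg fun _ _ => by positivity
  have h1 := h (WithLp.toLp 2 fun j => conj (c j))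
  have h2 : ∑ j, (WithLp.toLp 2 (fun j => conj (c j)) : Pt n) j * c j =
      ((∑ j, ‖c j‖ ^ 2 : ℝ) : ℂ) := by
    rw [bd_sum_norm_sq]
    refine Finset.sum_congr rfl fun j _ => ?_
    show conj (c j) * c j = _
    ring
  have h3 : ‖(WithLp.toLp 2 (fun j => conj (c j)) : Pt n)‖ ^ 2 = ∑ j, ‖c j‖ ^ 2 := by
    rw [EuclideanSpace.norm_sq_eq]
    exact Finset.sum_congr rfl fun j _ => by simp
  rw [h2, h3, Complex.norm_real, Real.norm_of_nonneg hS0] at h1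
  rcases hS0.eq_or_lt with h0 | h0
  · rw [← h0]
    exact hM
  · by_contra hcon
    rw [not_le] at hcon
    nlinarith

private theorem bd_card (i : Fin n) : Fintype.card (Mon n (d i)) ≤ Fintype.card (Idx d) :=
  Fintype.card_le_of_injective (fun α => (⟨i, α⟩ : Idx d))
    (fun a b hab => by simpa using hab)

theorem d_add_one_le (hn : 1 ≤ n) (i : Fin n) : (d i : ℝ) + 1 ≤ NN d := by
  have hne : (0 : Fin (n + 1)) ≠ Fin.last n := by
    intro hc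
    have := congrArg Fin.val hc
    simp at this
    omega
  have h1 : d i + 1 ≤ Fintype.card (Mon n (d i)) := by
    rw [← Fintype.card_fin (d i + 1)]
    refine Fintype.card_le_of_injective (fun a : Fin (d i + 1) =>
      (⟨Pi.single 0 (d i - a) + Pi.single (Fin.last n) (a : ℕ), ?_⟩ : Mon n (d i))) ?_
    · rw [Finset.mem_piAntidiag]
      refine ⟨?_, fun j _ => Finset.mem_univ j⟩
      simp only [Pi.add_apply]
      rw [Finset.sum_add_distrib, Finset.sum_pi_single', Finset.sum_pi_single']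
      simp only [Finset.mem_univ, if_true]
      omega
    · intro a b hab
      have h2 := congrFun (congrArg Subtype.val hab) (Fin.last n)
      simp only [Pi.add_apply, Pi.single_eq_same, Pi.single_eq_of_ne hne.symm, zero_add] at h2
      exact Fin.ext h2
  have h3 := h1.trans (bd_card i)
  unfold NN
  exact_mod_cast h3

theorem n_add_one_le (hn : 1 ≤ n) (hd : ∀ i, 1 ≤ d i) : (n : ℝ) + 1 ≤ NN d := by
  have h0 : Fintype.card (Fin (n + 1)) ≤ Fintype.card (Mon n (d ⟨0, hn⟩)) := by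
    refine Fintype.card_le_of_injective (fun j => pur d j ⟨0, hn⟩) ?_
    intro a b hab
    by_contra hne
    have h2 := congrFun (congrArg Subtype.val hab) a
    simp only [pur, Pi.single_eq_same] at h2
    rw [Pi.single_eq_of_ne hne] at h2
    have := hd ⟨0, hn⟩
    omega
  have h1 : n + 1 ≤ Fintype.card (Mon n (d ⟨0, hn⟩)) := by
    have e := Fintype.card_fin (n + 1)
    omega
  have h3 := h1.trans (bd_card _)
  unfold NN
  exact_mod_cast h3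

theorem bd1 (h : Sys d) (z : Pt n) (hz : ‖z‖ = 1) : ‖ev h z‖ ≤ ‖h‖ := by
  have h1 : ‖ev h z‖ ^ 2 ≤ ‖h‖ ^ 2 := by
    rw [EuclideanSpace.norm_sq_eq, ← bd_sum]
    refine Finset.sum_le_sum fun i _ => ?_
    have h2 := bd_cs (fun α : Mon n (d i) => h ⟨i, α⟩) (fun α => mon (d i) z α)
    rw [sum_norm_mon, hz, one_pow, mul_one] at h2
    exact h2
  exact (sq_le_sq₀ (norm_nonneg _) (norm_nonneg _)).mp h1

theorem bd2 (hd : ∀ i, 1 ≤ d i) (h : Sys d) (z : Pt n) (hz : ‖z‖ = 1) :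
    ∑ i, (∑ j, ‖pder h z i j‖ ^ 2) / (d i : ℝ) ≤ 9 * NN d * ‖h‖ ^ 2 := by
  have hN0 : 0 ≤ NN d := by unfold NN; positivity
  have h1 : ∀ i, (∑ j, ‖pder h z i j‖ ^ 2) / (d i : ℝ) ≤
      NN d * ∑ α : Mon n (d i), ‖h ⟨i, α⟩‖ ^ 2 := by
    intro i
    have hH : 0 ≤ ∑ α : Mon n (d i), ‖h ⟨i, α⟩‖ ^ 2 :=
      Finset.sum_nonneg fun α _ => by positivity
    have hdi : (1 : ℝ) ≤ d i := by exact_mod_cast hd i
    have h2 : ∑ j, ‖pder h z i j‖ ^ 2 ≤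
        (∑ α : Mon n (d i), ‖h ⟨i, α⟩‖ ^ 2) * (d i : ℝ) ^ 2 := by
      refine bd_dual _ _ (by positivity) fun u => ?_
      rw [← dev_eq_sum]
      have h3 := bd_dev h z u i
      rw [hz, one_pow, mul_one] at h3
      refine h3.trans (le_of_eq (by ring))
    have h4 := d_add_one_le (d := d) (by have := i.2; omega) i
    rw [div_le_iff₀ (by linarith)]
    refine h2.trans ?_
    have h5 : (d i : ℝ) ^ 2 ≤ NN d * d i := by nlinarith
    calc (∑ α : Mon n (d i), ‖h ⟨i, α⟩‖ ^ 2) * (d i : ℝ) ^ 2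
        ≤ (∑ α : Mon n (d i), ‖h ⟨i, α⟩‖ ^ 2) * (NN d * d i) :=
          mul_le_mul_of_nonneg_left h5 hH
      _ = _ := by ring
  calc ∑ i, (∑ j, ‖pder h z i j‖ ^ 2) / (d i : ℝ)
      ≤ ∑ i, NN d * ∑ α : Mon n (d i), ‖h ⟨i, α⟩‖ ^ 2 := Finset.sum_le_sum fun i _ => h1 i
    _ = NN d * ‖h‖ ^ 2 := by rw [← Finset.mul_sum, bd_sum]
    _ ≤ 9 * NN d * ‖h‖ ^ 2 := by
      have : 0 ≤ NN d * ‖h‖ ^ 2 := by positivity
      linarith

private theorem bd_exp (k : ℕ) (hk : 1 ≤ k) : (1 + 1 / (k : ℝ)) ^ (k - 1) ≤ 3 := by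
  have hk0 : (0 : ℝ) < k := by exact_mod_cast hk
  have h1 : (1 + 1 / (k : ℝ)) ^ (k - 1) ≤ (1 + 1 / (k : ℝ)) ^ k :=
    pow_le_pow_right₀ (by have : 0 < 1 / (k : ℝ) := by positivity
                          linarith) (Nat.sub_le _ _)
  have h2 : (1 + 1 / (k : ℝ)) ^ k ≤ Real.exp 1 := by
    have h3 : 1 + 1 / (k : ℝ) ≤ Real.exp (1 / k) := by
      have := Real.add_one_le_exp (1 / (k : ℝ))
      linarith
    calc (1 + 1 / (k : ℝ)) ^ k ≤ (Real.exp (1 / k)) ^ k :=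
          pow_le_pow_left₀ (by positivity) h3 k
      _ = Real.exp 1 := by
        rw [← Real.exp_nat_mul]
        congr 1
        field_simp
  have h4 := Real.exp_one_lt_d9
  linarith

private theorem bd_ddev (hd : ∀ i, 1 ≤ d i) (h : Sys d) (z u v : Pt n) (hz : ‖z‖ = 1)
    (i : Fin n) :
    ‖ddev h z u v i‖ ≤ 3 * Real.sqrt (∑ α : Mon n (d i), ‖h ⟨i, α⟩‖ ^ 2) * (d i : ℝ) ^ 2 *
      ‖u‖ * ‖v‖ := by
  have hdi : (1 : ℝ) ≤ d i := by exact_mod_cast hd i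
  have hd0 : (0 : ℝ) < d i := by linarith
  rcases (norm_nonneg u).eq_or_lt with hu | hu
  · have hu0 : u = 0 := norm_eq_zero.mp hu.symm
    rw [hu0]
    unfold ddev
    rw [map_zero, norm_zero, norm_zero]
    simp
  have hdiff : Differentiable ℂ (fun w : Pt n => dev h w v i) :=
    (contDiff_dev h v i).differentiable (by simp)
  have hline : ∀ t : ℂ, HasDerivAt (fun t : ℂ => z + t • u) u t := by
    intro t
    simpa using ((hasDerivAt_id t).smul_const u).const_add z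
  have hder : HasDerivAt (fun t : ℂ => dev h (z + t • u) v i) (ddev h z u v i) 0 := by
    have hd' : HasFDerivAt (fun w : Pt n => dev h w v i)
        (fderiv ℂ (fun w : Pt n => dev h w v i) z) (z + (0 : ℂ) • u) := by
      simpa using (hdiff z).hasFDerivAt
    exact hd'.comp_hasDerivAt (0 : ℂ) (hline 0)
  have hdf : Differentiable ℂ (fun t : ℂ => dev h (z + t • u) v i) := by
    intro t
    exact ((hdiff (z + t • u)).hasFDerivAt.comp_hasDerivAt t (hline t)).differentiableAt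
  have hR : 0 < 1 / ((d i : ℝ) * ‖u‖) := by positivity
  have hC : ∀ t ∈ Metric.sphere (0 : ℂ) (1 / ((d i : ℝ) * ‖u‖)),
      ‖dev h (z + t • u) v i‖ ≤
        Real.sqrt (∑ α : Mon n (d i), ‖h ⟨i, α⟩‖ ^ 2) * ((d i : ℝ) * 3 * ‖v‖) := by
    intro t ht
    rw [mem_sphere_zero_iff_norm] at ht
    have h1 : ‖z + t • u‖ ≤ 1 + 1 / (d i : ℝ) := by
      refine (norm_add_le _ _).trans ?_
      rw [hz, norm_smul, ht]
      apply le_of_eq
      field_simp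
    have h2 := bd_dev h (z + t • u) v i
    have h3 : ‖z + t • u‖ ^ (d i - 1) ≤ 3 :=
      (pow_le_pow_left₀ (norm_nonneg _) h1 _).trans (bd_exp _ (hd i))
    have hH : 0 ≤ ∑ α : Mon n (d i), ‖h ⟨i, α⟩‖ ^ 2 :=
      Finset.sum_nonneg fun α _ => by positivity
    have h4 : ‖dev h (z + t • u) v i‖ ^ 2 ≤
        (Real.sqrt (∑ α : Mon n (d i), ‖h ⟨i, α⟩‖ ^ 2) * ((d i : ℝ) * 3 * ‖v‖)) ^ 2 := by
      rw [mul_pow, Real.sq_sqrt hH]
      refine h2.trans (mul_le_mul_of_nonneg_left ?_ hH)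
      rw [mul_comm 2 (d i - 1), pow_mul, mul_pow, mul_pow]
      have h5 : (‖z + t • u‖ ^ (d i - 1)) ^ 2 ≤ 3 ^ 2 :=
        pow_le_pow_left₀ (by positivity) h3 2
      gcongr
    exact (sq_le_sq₀ (norm_nonneg _) (by positivity)).mp h4
  have hmain := Complex.norm_deriv_le_of_forall_mem_sphere_norm_le hR
    hdf.diffContOnCl hC
  rw [hder.deriv] at hmain
  refine hmain.trans (le_of_eq ?_)
  field_simp

theorem bd3 (hd : ∀ i, 1 ≤ d i) (h : Sys d) (z u : Pt n) (hz : ‖z‖ = 1) :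
    ∑ i, (∑ j, ‖ddev h z u (Pi.single j 1) i‖ ^ 2) / (d i : ℝ) ≤
      64 * NN d ^ 3 * ‖h‖ ^ 2 * ‖u‖ ^ 2 := by
  have hN0 : 0 ≤ NN d := by unfold NN; positivity
  have h1 : ∀ i, (∑ j, ‖ddev h z u (Pi.single j 1) i‖ ^ 2) / (d i : ℝ) ≤
      (9 * NN d ^ 3 * ‖u‖ ^ 2) * ∑ α : Mon n (d i), ‖h ⟨i, α⟩‖ ^ 2 := by
    intro i
    have hH : 0 ≤ ∑ α : Mon n (d i), ‖h ⟨i, α⟩‖ ^ 2 :=
      Finset.sum_nonneg fun α _ => by positivity
    have hdi : (1 : ℝ) ≤ d i := by exact_mod_cast hd i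
    have hlin : ∀ v : Pt n, ddev h z u v i = ∑ j, v j * ddev h z u (Pi.single j 1) i := by
      intro v
      have e1 : (fun w : Pt n => dev h w v i) =
          fun w : Pt n => ∑ j, v j * dev h w (Pi.single j 1) i := by
        funext w
        exact dev_eq_sum h w v i
      have e2 : HasFDerivAt (fun w : Pt n => ∑ j, v j * dev h w (Pi.single j 1) i)
          (∑ j, v j • fderiv ℂ (fun w : Pt n => dev h w (Pi.single j 1) i) z) z := by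
        refine HasFDerivAt.fun_sum fun j _ => ?_
        exact (((contDiff_dev h (Pi.single j 1) i).differentiable (by simp)) z).hasFDerivAt.const_mul
          (v j)
      unfold ddev
      rw [e1, e2.fderiv]
      simp
    have h2 : ∑ j, ‖ddev h z u (Pi.single j 1) i‖ ^ 2 ≤
        9 * (∑ α : Mon n (d i), ‖h ⟨i, α⟩‖ ^ 2) * (d i : ℝ) ^ 4 * ‖u‖ ^ 2 := by
      refine bd_dual _ _ (by positivity) fun v => ?_
      rw [← hlin]
      have h3 := bd_ddev hd h z u v hz i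
      refine (pow_le_pow_left₀ (norm_nonneg _) h3 2).trans (le_of_eq ?_)
      have h4 := Real.sq_sqrt hH
      calc _ = 9 * (Real.sqrt (∑ α : Mon n (d i), ‖h ⟨i, α⟩‖ ^ 2)) ^ 2 * (d i : ℝ) ^ 4 *
            ‖u‖ ^ 2 * ‖v‖ ^ 2 := by ring
        _ = _ := by rw [h4]
    have h4 := d_add_one_le (d := d) (by have := i.2; omega) i
    rw [div_le_iff₀ (by linarith)]
    refine h2.trans ?_
    have h5 : (d i : ℝ) ^ 4 ≤ NN d ^ 3 * d i := by
      have h6 : (d i : ℝ) ^ 3 ≤ NN d ^ 3 := pow_le_pow_left₀ (by linarith) (by linarith) 3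
      calc (d i : ℝ) ^ 4 = (d i : ℝ) ^ 3 * d i := by ring
        _ ≤ NN d ^ 3 * d i := mul_le_mul_of_nonneg_right h6 (by linarith)
    calc 9 * (∑ α : Mon n (d i), ‖h ⟨i, α⟩‖ ^ 2) * (d i : ℝ) ^ 4 * ‖u‖ ^ 2
        ≤ 9 * (∑ α : Mon n (d i), ‖h ⟨i, α⟩‖ ^ 2) * (NN d ^ 3 * d i) * ‖u‖ ^ 2 := by gcongr
      _ = _ := by ring
  calc ∑ i, (∑ j, ‖ddev h z u (Pi.single j 1) i‖ ^ 2) / (d i : ℝ)
      ≤ ∑ i, (9 * NN d ^ 3 * ‖u‖ ^ 2) * ∑ α : Mon n (d i), ‖h ⟨i, α⟩‖ ^ 2 :=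
        Finset.sum_le_sum fun i _ => h1 i
    _ = 9 * NN d ^ 3 * ‖h‖ ^ 2 * ‖u‖ ^ 2 := by
      rw [← Finset.mul_sum, bd_sum]
      ring
    _ ≤ 64 * NN d ^ 3 * ‖h‖ ^ 2 * ‖u‖ ^ 2 := by
      have : 0 ≤ NN d ^ 3 * ‖h‖ ^ 2 * ‖u‖ ^ 2 := by positivity
      linarith

/-- for `u` orthogonal to the unit vector `z` the derivative has norm at most `√(d i) ‖h‖ ‖u‖` -/
theorem bd4 (h : Sys d) (z u : Pt n) (hz : ‖z‖ = 1) (hzu : inner ℂ z u = (0 : ℂ)) (i : Fin n) :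
    ‖dev h z u i‖ ≤ Real.sqrt (d i) * ‖h‖ * ‖u‖ := by
  have h2 := bd_cs (fun α : Mon n (d i) => h ⟨i, α⟩) (fun α => dmon (d i) z u α)
  rw [sum_norm_dmon _ z u hzu, hz, one_pow, mul_one] at h2
  have h3 := bd_term h i
  have h4 : ‖dev h z u i‖ ^ 2 ≤ (Real.sqrt (d i) * ‖h‖ * ‖u‖) ^ 2 := by
    rw [mul_pow, mul_pow, Real.sq_sqrt (by positivity)]
    refine h2.trans ?_
    calc (∑ α : Mon n (d i), ‖h ⟨i, α⟩‖ ^ 2) * ((d i : ℝ) * ‖u‖ ^ 2)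
        ≤ ‖h‖ ^ 2 * ((d i : ℝ) * ‖u‖ ^ 2) := mul_le_mul_of_nonneg_right h3 (by positivity)
      _ = _ := by ring
  exact (sq_le_sq₀ (norm_nonneg _) (by positivity)).mp h4

end Pool.Agent.Lib.CLN
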