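import Pool.Agent.Lib.CLN.Base
/-! MP_bd3536_an, row BW1.

Bombieri-Weyl identities. `sum_mon_mon` is `Finset.sum_pow_eq_sum_piAntidiag`. The derivative of
`t ↦ mon k (z + t u) α` at `t = 0` is `dmon k z u α` (product rule); `sum_mon_dmon` and
`sum_dmon_dmon` follow by differentiating `sum_mon_mon` in `w` and then in `z`.
-/

set_option autoImplicit false

open MeasureTheory
open scoped ENNReal NNReal ComplexConjugate

namespace Pool.Agent.Lib.CLN

variable {n : ℕ} {d : Fin n → ℕ}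

theorem sum_mon_mon (k : ℕ) (z w : Fin (n + 1) → ℂ) :
    ∑ α : Mon n k, mon k z α * mon k w α = (∑ j, z j * w j) ^ k := by
  rw [Finset.sum_pow_eq_sum_piAntidiag,
    ← Finset.sum_coe_sort (Finset.piAntidiag (Finset.univ : Finset (Fin (n + 1))) k)]
  refine Finset.sum_congr rfl fun α _ => ?_
  simp only [mon]
  have h1 : (Real.sqrt (Nat.multinomial Finset.univ (α : Fin (n + 1) → ℕ)) : ℂ) *
      (Real.sqrt (Nat.multinomial Finset.univ (α : Fin (n + 1) → ℕ)) : ℂ) =
      (Nat.multinomial Finset.univ (α : Fin (n + 1) → ℕ) : ℂ) := by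
    rw [← Complex.ofReal_mul, Real.mul_self_sqrt (Nat.cast_nonneg _), Complex.ofReal_natCast]
  simp_rw [mul_pow]
  rw [Finset.prod_mul_distrib]
  linear_combination ((∏ j, z j ^ (α : Fin (n + 1) → ℕ) j) *
    ∏ j, w j ^ (α : Fin (n + 1) → ℕ) j) * h1

theorem mon_conj (k : ℕ) (z : Fin (n + 1) → ℂ) (α : Mon n k) :
    conj (mon k z α) = mon k (fun j => conj (z j)) α := by
  simp only [mon, map_mul, map_prod, map_pow, Complex.conj_ofReal]

theorem dmon_conj (k : ℕ) (z u : Fin (n + 1) → ℂ) (α : Mon n k) :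
    conj (dmon k z u α) = dmon k (fun j => conj (z j)) (fun j => conj (u j)) α := by
  simp only [dmon, map_mul, map_sum, map_prod, map_pow, Complex.conj_ofReal, map_natCast]

theorem dmon_eq_sum (k : ℕ) (z u : Fin (n + 1) → ℂ) (α : Mon n k) :
    dmon k z u α = ∑ j, u j * dmon k z (Pi.single j 1) α := by
  have key : ∀ j : Fin (n + 1), dmon k z (Pi.single j 1) α =
      (Real.sqrt (Nat.multinomial Finset.univ (α : Fin (n + 1) → ℕ)) : ℂ) *
        (((α : Fin (n + 1) → ℕ) j : ℂ) * z j ^ ((α : Fin (n + 1) → ℕ) j - 1) *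
          ∏ l ∈ Finset.univ.erase j, z l ^ (α : Fin (n + 1) → ℕ) l) := by
    intro j
    unfold dmon
    rw [Finset.sum_eq_single j]
    · rw [Pi.single_eq_same, mul_one]
    · intro i _ hij
      rw [Pi.single_eq_of_ne hij]
      ring
    · intro h
      exact absurd (Finset.mem_univ j) h
  simp_rw [key]
  unfold dmon
  rw [Finset.mul_sum]
  refine Finset.sum_congr rfl fun j _ => ?_
  ring

theorem hasDerivAt_mon (k : ℕ) (z u : Fin (n + 1) → ℂ) (α : Mon n k) :
    HasDerivAt (fun t : ℂ => mon k (fun j => z j + t * u j) α) (dmon k z u α) 0 := by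
  unfold mon dmon
  refine HasDerivAt.const_mul _ ?_
  have h1 : ∀ j ∈ (Finset.univ : Finset (Fin (n + 1))),
      HasDerivAt (fun t : ℂ => (z j + t * u j) ^ (α : Fin (n + 1) → ℕ) j)
        (((α : Fin (n + 1) → ℕ) j : ℂ) * (z j + 0 * u j) ^ ((α : Fin (n + 1) → ℕ) j - 1) * u j)
        0 := by
    intro j _
    have h2 : HasDerivAt (fun t : ℂ => z j + t * u j) (u j) 0 := by
      simpa using ((hasDerivAt_id (0 : ℂ)).mul_const (u j)).const_add (z j)
    exact h2.pow _
  have h3 := HasDerivAt.fun_finsetProd h1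
  convert h3 using 1
  refine Finset.sum_congr rfl fun j _ => ?_
  simp only [zero_mul, add_zero, smul_eq_mul]
  ring

private theorem hasDerivAt_lin (z w u : Fin (n + 1) → ℂ) :
    HasDerivAt (fun t : ℂ => ∑ j, z j * (w j + t * u j)) (∑ j, z j * u j) 0 := by
  refine HasDerivAt.fun_sum fun j _ => ?_
  have h2 : HasDerivAt (fun t : ℂ => w j + t * u j) (u j) 0 := by
    simpa using ((hasDerivAt_id (0 : ℂ)).mul_const (u j)).const_add (w j)
  exact h2.const_mul (z j)

theorem sum_mon_dmon (k : ℕ) (z w u : Fin (n + 1) → ℂ) :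
    ∑ α : Mon n k, mon k z α * dmon k w u α =
      k * (∑ j, z j * w j) ^ (k - 1) * ∑ j, z j * u j := by
  have h1 : HasDerivAt (fun t : ℂ => ∑ α : Mon n k, mon k z α * mon k (fun j => w j + t * u j) α)
      (∑ α : Mon n k, mon k z α * dmon k w u α) 0 :=
    HasDerivAt.fun_sum fun α _ => (hasDerivAt_mon k w u α).const_mul _
  have h2 : HasDerivAt (fun t : ℂ => (∑ j, z j * (w j + t * u j)) ^ k)
      (k * (∑ j, z j * (w j + 0 * u j)) ^ (k - 1) * ∑ j, z j * u j) 0 :=
    (hasDerivAt_lin z w u).fun_pow k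
  have h3 : (fun t : ℂ => ∑ α : Mon n k, mon k z α * mon k (fun j => w j + t * u j) α) =
      fun t : ℂ => (∑ j, z j * (w j + t * u j)) ^ k := by
    funext t
    exact sum_mon_mon k z _
  rw [h3] at h1
  have h4 := h1.unique h2
  simpa using h4

theorem sum_dmon_dmon (k : ℕ) (z v w u : Fin (n + 1) → ℂ) :
    ∑ α : Mon n k, dmon k z v α * dmon k w u α =
      k * (((k - 1 : ℕ) : ℂ) * (∑ j, z j * w j) ^ (k - 2) * (∑ j, v j * w j) * (∑ j, z j * u j) +
        (∑ j, z j * w j) ^ (k - 1) * ∑ j, v j * u j) := by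
  have h1 : HasDerivAt (fun t : ℂ => ∑ α : Mon n k, mon k (fun j => z j + t * v j) α *
      dmon k w u α) (∑ α : Mon n k, dmon k z v α * dmon k w u α) 0 :=
    HasDerivAt.fun_sum fun α _ => (hasDerivAt_mon k z v α).mul_const _
  have hl : ∀ y : Fin (n + 1) → ℂ,
      HasDerivAt (fun t : ℂ => ∑ j, (z j + t * v j) * y j) (∑ j, v j * y j) 0 := by
    intro y
    have := hasDerivAt_lin y z v
    simpa only [mul_comm] using this
  have h2 := (((hl w).fun_pow (k - 1)).const_mul (k : ℂ)).mul (hl u)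
  have h3 : (fun t : ℂ => ∑ α : Mon n k, mon k (fun j => z j + t * v j) α * dmon k w u α) =
      fun t : ℂ => (k : ℂ) * (∑ j, (z j + t * v j) * w j) ^ (k - 1) *
        ∑ j, (z j + t * v j) * u j := by
    funext t
    exact sum_mon_dmon k _ w u
  rw [h3] at h1
  have h4 := h1.unique h2
  rw [h4]
  simp only [zero_mul, add_zero]
  have h5 : k - 1 - 1 = k - 2 := by omega
  rw [h5]
  ring

end Pool.Agent.Lib.CLN
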