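import Pool.Agent.Lib.CLN.BW1
/-! MP_bd3536_an, row BW2.

Consequences of BW1 for `w = conj z`, `u ⟂ z`.
-/

set_option autoImplicit false

open MeasureTheory
open scoped ENNReal NNReal ComplexConjugate

namespace Pool.Agent.Lib.CLN

variable {n : ℕ} {d : Fin n → ℕ}

private theorem cln_sum_mul_conj (z : Pt n) :
    ∑ j, z j * conj (z j) = ((‖z‖ ^ 2 : ℝ) : ℂ) := by
  rw [EuclideanSpace.norm_sq_eq]
  push_cast
  refine Finset.sum_congr rfl fun j _ => ?_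
  rw [Complex.mul_conj, Complex.normSq_eq_norm_sq]
  push_cast
  rfl

private theorem cln_inner1 (z u : Pt n) (hzu : inner ℂ z u = (0 : ℂ)) :
    ∑ j, u j * conj (z j) = 0 := by
  have h := hzu
  rw [PiLp.inner_apply] at h
  simpa [RCLike.inner_apply] using h

private theorem cln_inner2 (z u : Pt n) (hzu : inner ℂ z u = (0 : ℂ)) :
    ∑ j, z j * conj (u j) = 0 := by
  have h := congrArg conj (cln_inner1 z u hzu)
  rw [map_sum, map_zero] at h
  rw [← h]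
  refine Finset.sum_congr rfl fun j _ => ?_
  rw [map_mul, Complex.conj_conj]
  ring

private theorem cln_sum_norm_sq (ι : Type*) [Fintype ι] (f : ι → ℂ) :
    ((∑ a, ‖f a‖ ^ 2 : ℝ) : ℂ) = ∑ a, f a * conj (f a) := by
  push_cast
  refine Finset.sum_congr rfl fun j _ => ?_
  rw [Complex.mul_conj, Complex.normSq_eq_norm_sq]
  push_cast
  rfl

theorem sum_norm_mon (k : ℕ) (z : Pt n) :
    ∑ α : Mon n k, ‖mon k z α‖ ^ 2 = ‖z‖ ^ (2 * k) := by
  have h : ((∑ α : Mon n k, ‖mon k z α‖ ^ 2 : ℝ) : ℂ) = ((‖z‖ ^ (2 * k) : ℝ) : ℂ) := by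
    rw [cln_sum_norm_sq]
    simp only [mon_conj]
    rw [sum_mon_mon, cln_sum_mul_conj]
    push_cast
    rw [pow_mul]
  exact_mod_cast h

theorem sum_norm_dmon (k : ℕ) (z u : Pt n) (hzu : inner ℂ z u = (0 : ℂ)) :
    ∑ α : Mon n k, ‖dmon k z u α‖ ^ 2 = k * ‖z‖ ^ (2 * (k - 1)) * ‖u‖ ^ 2 := by
  have h : ((∑ α : Mon n k, ‖dmon k z u α‖ ^ 2 : ℝ) : ℂ) =
      ((k * ‖z‖ ^ (2 * (k - 1)) * ‖u‖ ^ 2 : ℝ) : ℂ) := by
    rw [cln_sum_norm_sq]
    simp only [dmon_conj]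
    rw [sum_dmon_dmon, cln_sum_mul_conj, cln_sum_mul_conj, cln_inner1 z u hzu]
    push_cast
    rw [pow_mul]
    ring
  exact_mod_cast h

theorem sum_dmon_conj_mon (k : ℕ) (z u : Pt n) (hzu : inner ℂ z u = (0 : ℂ)) :
    ∑ α : Mon n k, conj (dmon k z u α) * mon k z α = 0 := by
  have h : ∑ α : Mon n k, conj (dmon k z u α) * mon k z α =
      ∑ α : Mon n k, mon k z α * dmon k (fun j => conj (z j)) (fun j => conj (u j)) α := by
    refine Finset.sum_congr rfl fun α _ => ?_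
    rw [dmon_conj]
    ring
  rw [h, sum_mon_dmon, cln_inner2 z u hzu, mul_zero]

end Pool.Agent.Lib.CLN
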