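import Pool.Agent.Lib.CLN.Base
/-! MP_bd3536_an, row BZ1.

Relation. Let `D = ∏ δ i`. The polynomials of total degree ≤ `K` in `n` variables form a space of
dimension `(K + n).choose n`. The products `u^j F^β`, `j ≤ D`, `j + ∑ δ i β i ≤ K`, lie in it; there
are at least `(D + 1)` times the number of `β` with `∑ δ i β i ≤ K - D`, and that number times
`D` is at least the number `(K - D + n).choose n` of `γ` with `∑ γ i ≤ K - D` (map `γ` to
`γ i / δ i`, fibres of size ≤ `D`). For large `K` this is more than `(K + n).choose n`, so there is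
a nontrivial linear relation, i.e. a nonzero family of polynomials `A j`.
-/

set_option autoImplicit false

open MeasureTheory
open scoped ENNReal NNReal ComplexConjugate

namespace Pool.Agent.Lib.CLN

variable {n : ℕ} {d : Fin n → ℕ}

private def Sx (n m : ℕ) : Finset (Fin n → ℕ) :=
  (Fintype.piFinset (fun _ => Finset.range (m + 1))).filter (fun γ => ∑ i, γ i ≤ m)

private theorem mem_Sx {n m : ℕ} {γ : Fin n → ℕ} : γ ∈ Sx n m ↔ ∑ i, γ i ≤ m := by
  simp only [Sx, Finset.mem_filter, Fintype.mem_piFinset, Finset.mem_range]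
  constructor
  · exact fun h => h.2
  · intro h
    refine ⟨fun i => ?_, h⟩
    have := Finset.single_le_sum (f := γ) (fun j _ => Nat.zero_le _) (Finset.mem_univ i)
    omega

private theorem card_Sx_le (n m : ℕ) : (Sx n m).card ≤ (m + 1) ^ n := by
  refine (Finset.card_filter_le _ _).trans ?_
  simp [Fintype.card_piFinset]

private theorem exists_m (n D : ℕ) (hD : 1 ≤ D) :
    ∃ m, D * (Sx n (m + D)).card < (D + 1) * (Sx n m).card := by
  by_contra hcon
  push Not at hcon
  have h1 : ∀ k : ℕ, (D + 1) ^ k ≤ D ^ k * (Sx n (k * D)).card := by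
    intro k
    induction k with
    | zero =>
      have : (fun _ => 0 : Fin n → ℕ) ∈ Sx n (0 * D) := by
        rw [mem_Sx]; simp
      have := Finset.card_pos.2 ⟨_, this⟩
      simpa using this
    | succ k ih =>
      calc (D + 1) ^ (k + 1) = (D + 1) * (D + 1) ^ k := by ring
        _ ≤ (D + 1) * (D ^ k * (Sx n (k * D)).card) := Nat.mul_le_mul_left _ ih
        _ = D ^ k * ((D + 1) * (Sx n (k * D)).card) := by ring
        _ ≤ D ^ k * (D * (Sx n (k * D + D)).card) := Nat.mul_le_mul_left _ (hcon _)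
        _ = D ^ (k + 1) * (Sx n ((k + 1) * D)).card := by
            rw [show (k + 1) * D = k * D + D by ring]; ring
  have hD0 : (0 : ℝ) < D := by exact_mod_cast hD
  have hr : (1 : ℝ) < ((D : ℝ) + 1) / D := by
    rw [lt_div_iff₀ hD0]; linarith
  have h2 : ∀ k : ℕ, 1 ≤ k → (1 : ℝ) / ((D : ℝ) + 1) ^ n ≤ (k : ℝ) ^ n / (((D : ℝ) + 1) / D) ^ k := by
    intro k hk
    have h3 : ((D : ℝ) + 1) ^ k ≤ (D : ℝ) ^ k * (((D : ℝ) + 1) ^ n * (k : ℝ) ^ n) := by
      have h4 : (D + 1) ^ k ≤ D ^ k * ((D + 1) ^ n * k ^ n) := by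
        refine (h1 k).trans (Nat.mul_le_mul_left _ ?_)
        refine (card_Sx_le _ _).trans ?_
        rw [← mul_pow]
        refine Nat.pow_le_pow_left ?_ _
        nlinarith
      exact_mod_cast h4
    rw [div_pow, div_div_eq_mul_div, div_le_div_iff₀ (by positivity) (by positivity)]
    nlinarith [h3]
  have h3 := tendsto_pow_const_div_const_pow_of_one_lt n hr
  have h4 : (1 : ℝ) / ((D : ℝ) + 1) ^ n ≤ 0 := by
    refine ge_of_tendsto h3 ?_
    filter_upwards [Filter.eventually_ge_atTop 1] with k hk using h2 k hk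
  have : (0 : ℝ) < 1 / ((D : ℝ) + 1) ^ n := by positivity
  linarith

private theorem card_le (n m : ℕ) (δ : Fin n → ℕ) (hδ : ∀ i, 1 ≤ δ i) :
    (Sx n m).card ≤ ((Sx n m).filter (fun β => ∑ i, δ i * β i ≤ m)).card * ∏ i, δ i := by
  have : ∏ i, δ i = (Fintype.piFinset (fun i => Finset.range (δ i))).card := by
    simp [Fintype.card_piFinset]
  rw [this, ← Finset.card_product]
  refine Finset.card_le_card_of_injOn (fun γ => (fun i => γ i / δ i, fun i => γ i % δ i)) ?_ ?_
  · intro γ hγ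
    have hγ := mem_Sx.1 (Finset.mem_coe.1 hγ)
    simp only [Finset.coe_product, Set.mem_prod, Finset.mem_coe, Finset.mem_filter, mem_Sx,
      Fintype.mem_piFinset, Finset.mem_range]
    refine ⟨⟨?_, ?_⟩, fun i => Nat.mod_lt _ (hδ i)⟩
    · exact (Finset.sum_le_sum fun i _ => Nat.div_le_self _ _).trans hγ
    · exact (Finset.sum_le_sum fun i _ => Nat.mul_div_le _ _).trans hγ
  · intro γ _ γ' _ h
    simp only [Prod.mk.injEq] at h
    funext i
    have h1 := congrFun h.1 i
    have h2 := congrFun h.2 i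
    rw [← Nat.div_add_mod (γ i) (δ i), ← Nat.div_add_mod (γ' i) (δ i), h1, h2]

theorem exists_relation (δ : Fin n → ℕ) (hδ : ∀ i, 1 ≤ δ i)
    (F : Fin n → MvPolynomial (Fin n) ℂ) (hF : ∀ i, (F i).totalDegree ≤ δ i)
    (u : MvPolynomial (Fin n) ℂ) (hu : u.totalDegree ≤ 1) :
    ∃ A : Fin ((∏ i, δ i) + 1) → MvPolynomial (Fin n) ℂ, A ≠ 0 ∧
      ∑ j, MvPolynomial.bind₁ F (A j) * u ^ (j : ℕ) = 0 := by
  classical
  obtain ⟨D, hD⟩ : ∃ D, D = ∏ i, δ i := ⟨_, rfl⟩
  rw [← hD]
  have hD1 : 1 ≤ D := by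
    rw [hD]
    exact Finset.one_le_prod' (fun i _ => hδ i)
  obtain ⟨m, hm⟩ := exists_m n D hD1
  obtain ⟨B, hB⟩ : ∃ B, B = (Sx n m).filter (fun β => ∑ i, δ i * β i ≤ m) := ⟨_, rfl⟩
  have hcard : (Sx n (m + D)).card < (D + 1) * B.card := by
    have h1 := card_le n m δ hδ
    rw [← hB, ← hD] at h1
    have h2 : D * (Sx n (m + D)).card < D * ((D + 1) * B.card) := by
      refine hm.trans_le ?_
      calc (D + 1) * (Sx n m).card ≤ (D + 1) * (B.card * D) := Nat.mul_le_mul_left _ h1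
        _ = D * ((D + 1) * B.card) := by ring
    exact lt_of_mul_lt_mul_left h2 (Nat.zero_le _)
  obtain ⟨G, hG⟩ : ∃ G : Fin (D + 1) × B → MvPolynomial (Fin n) ℂ,
    G = fun p => (∏ i, F i ^ (p.2 : Fin n → ℕ) i) * u ^ (p.1 : ℕ) := ⟨_, rfl⟩
  obtain ⟨T, hT⟩ : ∃ T : (Fin (D + 1) × B → ℂ) →ₗ[ℂ] MvPolynomial (Fin n) ℂ,
    T = Fintype.linearCombination ℂ G := ⟨_, rfl⟩
  obtain ⟨Ψ, hΨ⟩ : ∃ Ψ : (Fin (D + 1) × B → ℂ) →ₗ[ℂ] (Sx n (m + D) → ℂ),
    Ψ = LinearMap.pi (fun γ : Sx n (m + D) =>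
      (MvPolynomial.lcoeff ℂ (Finsupp.equivFunOnFinite.symm (γ : Fin n → ℕ))).comp T) := ⟨_, rfl⟩
  have hker : LinearMap.ker Ψ ≠ ⊥ := by
    refine LinearMap.ker_ne_bot_of_finrank_lt ?_
    simp only [Module.finrank_fintype_fun_eq_card, Fintype.card_prod, Fintype.card_fin,
      Fintype.card_coe]
    exact hcard
  obtain ⟨c, hc, hc0⟩ := (Submodule.ne_bot_iff _).1 hker
  have hdeg : (T c).totalDegree ≤ m + D := by
    rw [hT, Fintype.linearCombination_apply]
    refine MvPolynomial.totalDegree_finsetSum_le (fun p _ => ?_)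
    refine (MvPolynomial.totalDegree_smul_le _ _).trans ?_
    rw [hG]
    refine (MvPolynomial.totalDegree_mul _ _).trans (Nat.add_le_add ?_ ?_)
    · refine (MvPolynomial.totalDegree_finsetProd _ _).trans ?_
      have hp : ∑ i, δ i * (p.2 : Fin n → ℕ) i ≤ m := by
        have h1 := p.2.2
        have h2 : (p.2 : Fin n → ℕ) ∈ (Sx n m).filter (fun β => ∑ i, δ i * β i ≤ m) := by
          rw [← hB]; exact h1
        exact (Finset.mem_filter.1 h2).2
      refine le_trans (Finset.sum_le_sum fun i _ => ?_) hp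
      refine (MvPolynomial.totalDegree_pow _ _).trans ?_
      rw [mul_comm]
      exact Nat.mul_le_mul_right _ (hF i)
    · refine (MvPolynomial.totalDegree_pow _ _).trans ?_
      have h1 : (p.1 : ℕ) ≤ D := Nat.lt_succ_iff.1 p.1.2
      calc (p.1 : ℕ) * u.totalDegree ≤ (p.1 : ℕ) * 1 := Nat.mul_le_mul_left _ hu
        _ ≤ D := by omega
  have hT0 : T c = 0 := by
    ext γ
    rw [MvPolynomial.coeff_zero]
    by_cases hγ : ∑ i, γ i ≤ m + D
    · have h1 : (γ : Fin n → ℕ) ∈ Sx n (m + D) := mem_Sx.2 hγ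
      have h2 : Ψ c ⟨γ, h1⟩ = 0 := by
        rw [LinearMap.mem_ker.1 hc]; rfl
      rw [hΨ] at h2
      have h3 : Finsupp.equivFunOnFinite.symm (γ : Fin n → ℕ) = γ := by
        ext i; simp
      simpa [h3] using h2
    · refine MvPolynomial.coeff_eq_zero_of_totalDegree_lt (lt_of_le_of_lt hdeg ?_)
      push Not at hγ
      have h1 : ∑ i ∈ γ.support, γ i = ∑ i, γ i := by
        refine Finset.sum_subset (Finset.subset_univ _) (fun i _ hi => ?_)
        simpa using hi
      rw [h1]; exact hγ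
  refine ⟨fun j => ∑ β : B, MvPolynomial.monomial
    (Finsupp.equivFunOnFinite.symm (β : Fin n → ℕ)) (c (j, β)), ?_, ?_⟩
  · intro h
    refine hc0 ?_
    funext p
    obtain ⟨j, β⟩ := p
    have h1 := congrFun h j
    have h2 := congrArg (MvPolynomial.coeff (Finsupp.equivFunOnFinite.symm (β : Fin n → ℕ))) h1
    simp only [Pi.zero_apply, MvPolynomial.coeff_zero, MvPolynomial.coeff_sum,
      MvPolynomial.coeff_monomial, EmbeddingLike.apply_eq_iff_eq] at h2
    rw [Finset.sum_eq_single β] at h2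
    · simpa using h2
    · intro b _ hb
      rw [if_neg]
      intro h3
      exact hb (Subtype.ext h3)
    · simp
  · have h1 : ∀ j : Fin (D + 1), MvPolynomial.bind₁ F (∑ β : B, MvPolynomial.monomial
        (Finsupp.equivFunOnFinite.symm (β : Fin n → ℕ)) (c (j, β))) * u ^ (j : ℕ)
        = ∑ β : B, c (j, β) • G (j, β) := by
      intro j
      rw [map_sum, Finset.sum_mul]
      refine Finset.sum_congr rfl fun β _ => ?_
      rw [MvPolynomial.bind₁_monomial, hG]
      have h2 : ∏ i ∈ (Finsupp.equivFunOnFinite.symm (β : Fin n → ℕ)).support,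
          F i ^ (Finsupp.equivFunOnFinite.symm (β : Fin n → ℕ)) i
          = ∏ i, F i ^ (β : Fin n → ℕ) i := by
        refine Finset.prod_subset (Finset.subset_univ _) (fun i _ hi => ?_)
        have : (β : Fin n → ℕ) i = 0 := by simpa using hi
        simp [this]
      rw [h2, MvPolynomial.smul_eq_C_mul]
      ring
    rw [Finset.sum_congr rfl fun j _ => h1 j]
    rw [hT, Fintype.linearCombination_apply, Fintype.sum_prod_type] at hT0
    exact hT0

end Pool.Agent.Lib.CLN
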