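import Pool.Agent.Lib.CLN.BZ1
/-! MP_bd3536_an, row BZ2.

Weak Bezout. Suppose a finset `T` of nondegenerate zeros has `D + 1` elements. A linear form `u`
separates them (avoid finitely many hyperplanes). By the inverse function theorem the map
`F : ℂⁿ → ℂⁿ` has local inverses `G ξ` near `0`, one for each `ξ ∈ T`; for `y` near `0` the
numbers `u (G ξ y)` are distinct and are roots of `∑ A j(y) U^j`, a polynomial of degree ≤ `D`, so
all `A j` vanish near `0`, so `A = 0` (`MvPolynomial.funext_set` on a ball or
`AnalyticOnNhd`/`MvPolynomial.funext` after scaling).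
-/

set_option autoImplicit false

open MeasureTheory
open scoped ENNReal NNReal ComplexConjugate

namespace Pool.Agent.Lib.CLN

variable {n : ℕ} {d : Fin n → ℕ}

/-- The strict derivative of the evaluation of a polynomial. -/
private theorem hasStrictFDerivAt_eval (p : MvPolynomial (Fin n) ℂ) (x : Fin n → ℂ) :
    HasStrictFDerivAt (fun x : Fin n → ℂ => MvPolynomial.eval x p)
      (∑ j, MvPolynomial.eval x (MvPolynomial.pderiv j p) •
        (ContinuousLinearMap.proj j : (Fin n → ℂ) →L[ℂ] ℂ)) x := by
  induction p using MvPolynomial.induction_on with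
  | C a =>
    have h : HasStrictFDerivAt (fun _ : Fin n → ℂ => a) (0 : (Fin n → ℂ) →L[ℂ] ℂ) x :=
      hasStrictFDerivAt_const a x
    refine (h.congr_fderiv ?_).congr_of_eventuallyEq ?_
    · ext v
      simp
    · exact Filter.Eventually.of_forall fun y => by simp
  | add p q hp hq =>
    have h := hp.add hq
    refine (h.congr_fderiv ?_).congr_of_eventuallyEq ?_
    · ext v
      simp [add_mul, Finset.sum_add_distrib]
    · exact Filter.Eventually.of_forall fun y => by simp
  | mul_X p i hp =>
    have h := hp.mul (ContinuousLinearMap.proj (R := ℂ) (φ := fun _ : Fin n => ℂ) i).hasStrictFDerivAt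
    refine (h.congr_fderiv ?_).congr_of_eventuallyEq ?_
    · ext v
      have h1 : ∀ j, MvPolynomial.eval x (MvPolynomial.pderiv j (p * MvPolynomial.X i)) =
          MvPolynomial.eval x (MvPolynomial.pderiv j p) * x i +
            MvPolynomial.eval x p * (if i = j then 1 else 0) := by
        intro j
        simp only [MvPolynomial.pderiv_mul, MvPolynomial.pderiv_X, map_add, map_mul,
          MvPolynomial.eval_X]
        by_cases hij : i = j
        · subst hij; simp
        · simp [hij]
      simp only [h1]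
      simp only [_root_.add_apply, _root_.smul_apply,
        ContinuousLinearMap.proj_apply, _root_.sum_apply, smul_eq_mul, add_mul,
        Finset.sum_add_distrib, Finset.mul_sum, mul_ite, mul_one, mul_zero, ite_mul, zero_mul,
        Finset.sum_ite_eq, Finset.mem_univ, if_true]
      rw [add_comm]
      congr 1
      exact Finset.sum_congr rfl fun j _ => by ring
    · exact Filter.Eventually.of_forall fun y => by simp

/-- A linear form separating the points of a finite set. -/
private theorem exists_separating (T : Finset (Fin n → ℂ)) :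
    ∃ c : Fin n → ℂ, Set.InjOn (fun x : Fin n → ℂ => ∑ i, c i * x i) T := by
  classical
  set P : Polynomial ℂ := ∏ q ∈ T.offDiag, ∑ i : Fin n, Polynomial.C (q.1 i - q.2 i) * Polynomial.X ^ (i : ℕ) with hP
  have hP0 : P ≠ 0 := by
    rw [hP, Finset.prod_ne_zero_iff]
    intro q hq h0
    rw [Finset.mem_offDiag] at hq
    apply hq.2.2
    funext i
    have := congrArg (fun p => Polynomial.coeff p (i : ℕ)) h0
    simp only [Polynomial.finsetSum_coeff, Polynomial.coeff_C_mul, Polynomial.coeff_X_pow,
      Polynomial.coeff_zero] at this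
    rw [Finset.sum_eq_single i] at this
    · simpa [sub_eq_zero] using this
    · intro j _ hj
      rw [if_neg]
      · simp
      · intro h; exact hj (Fin.ext h.symm)
    · simp
  obtain ⟨t, ht⟩ : ∃ t : ℂ, ¬ P.IsRoot t := by
    by_contra hcon
    push Not at hcon
    exact hP0 (Polynomial.eq_zero_of_infinite_isRoot P (Set.infinite_univ.mono fun t _ => hcon t))
  refine ⟨fun i => t ^ (i : ℕ), fun x hx y hy hxy => ?_⟩
  by_contra hne
  apply ht
  rw [Polynomial.IsRoot.def, hP, Polynomial.eval_prod, Finset.prod_eq_zero_iff]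
  refine ⟨(x, y), Finset.mem_offDiag.2 ⟨hx, hy, hne⟩, ?_⟩
  simp only [Polynomial.eval_finsetSum, Polynomial.eval_mul, Polynomial.eval_C,
    Polynomial.eval_pow, Polynomial.eval_X]
  have : (∑ i : Fin n, (x i - y i) * t ^ (i : ℕ)) =
      (∑ i : Fin n, t ^ (i : ℕ) * x i) - ∑ i : Fin n, t ^ (i : ℕ) * y i := by
    rw [← Finset.sum_sub_distrib]
    exact Finset.sum_congr rfl fun i _ => by ring
  rw [this]
  simpa [sub_eq_zero] using hxy

theorem bezout (δ : Fin n → ℕ) (hδ : ∀ i, 1 ≤ δ i)
    (F : Fin n → MvPolynomial (Fin n) ℂ) (hF : ∀ i, (F i).totalDegree ≤ δ i)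
    (T : Finset (Fin n → ℂ)) (hT : ∀ x ∈ T, (∀ i, MvPolynomial.eval x (F i) = 0) ∧
      (Matrix.of fun i j => MvPolynomial.eval x (MvPolynomial.pderiv j (F i))).det ≠ 0) :
    T.card ≤ ∏ i, δ i := by
  classical
  by_contra hcard
  push Not at hcard
  obtain ⟨c, hc⟩ := exists_separating T
  set u : MvPolynomial (Fin n) ℂ := ∑ i, MvPolynomial.C (c i) * MvPolynomial.X i with hu
  have hudeg : u.totalDegree ≤ 1 := by
    rw [hu]
    refine MvPolynomial.totalDegree_finsetSum_le fun i _ => ?_
    refine (MvPolynomial.totalDegree_mul _ _).trans ?_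
    simp
  have heu : ∀ x, MvPolynomial.eval x u = ∑ i, c i * x i := by
    intro x; simp [hu]
  obtain ⟨A, hA0, hA⟩ := exists_relation δ hδ F hF u hudeg
  set Fx : (Fin n → ℂ) → (Fin n → ℂ) := fun x i => MvPolynomial.eval x (F i) with hFx
  have hrel : ∀ x, ∑ j : Fin ((∏ i, δ i) + 1), MvPolynomial.eval (Fx x) (A j) *
      MvPolynomial.eval x u ^ (j : ℕ) = 0 := by
    intro x
    have := congrArg (MvPolynomial.eval x) hA
    simp only [map_sum, map_mul, map_pow, map_zero] at this
    convert this using 3
    rw [MvPolynomial.eval, MvPolynomial.eval, MvPolynomial.eval₂Hom_bind₁]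
    rfl
  -- separation
  have hcont : Continuous fun x : Fin n → ℂ => ∑ i, c i * x i := by fun_prop
  obtain ⟨ε, hε, hsep⟩ : ∃ ε > 0, ∀ x ∈ T, ∀ y ∈ T, x ≠ y →
      2 * ε ≤ dist (∑ i, c i * x i) (∑ i, c i * y i) := by
    rcases T.offDiag.eq_empty_or_nonempty with h0 | h0
    · refine ⟨1, one_pos, fun x hx y hy hne => ?_⟩
      have : (x, y) ∈ T.offDiag := Finset.mem_offDiag.2 ⟨hx, hy, hne⟩
      rw [h0] at this
      exact absurd this (Finset.notMem_empty _)
    · obtain ⟨q, hq, hmin⟩ := Finset.exists_min_image T.offDiag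
        (fun q => dist (∑ i, c i * q.1 i) (∑ i, c i * q.2 i)) h0
      rw [Finset.mem_offDiag] at hq
      refine ⟨dist (∑ i, c i * q.1 i) (∑ i, c i * q.2 i) / 2, ?_, fun x hx y hy hne => ?_⟩
      · have : (∑ i, c i * q.1 i) ≠ ∑ i, c i * q.2 i := fun h => hq.2.2 (hc hq.1 hq.2.1 h)
        have := dist_pos.2 this
        linarith
      · have := hmin (x, y) (Finset.mem_offDiag.2 ⟨hx, hy, hne⟩)
        simp only at this
        linarith
  have hmap : ∀ x ∈ T, Filter.map Fx (nhds x) = nhds 0 := by
    intro x hx
    obtain ⟨hx0, hxd⟩ := hT x hx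
    set M : Matrix (Fin n) (Fin n) ℂ :=
      Matrix.of fun i j => MvPolynomial.eval x (MvPolynomial.pderiv j (F i)) with hM
    have hFx0 : Fx x = 0 := funext hx0
    have hd : HasStrictFDerivAt Fx (ContinuousLinearMap.pi fun i =>
        ∑ j, MvPolynomial.eval x (MvPolynomial.pderiv j (F i)) •
          (ContinuousLinearMap.proj j : (Fin n → ℂ) →L[ℂ] ℂ)) x :=
      hasStrictFDerivAt_pi.2 fun i => hasStrictFDerivAt_eval (F i) x
    have hr := hd.map_nhds_eq_of_surj (LinearMap.range_eq_top.2 fun y => ⟨M⁻¹.mulVec y, ?_⟩)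
    · rw [hr, hFx0]
    · have h2 : M.mulVec (M⁻¹.mulVec y) = y := by
        rw [Matrix.mulVec_mulVec, Matrix.mul_nonsing_inv _ (isUnit_iff_ne_zero.2 hxd),
          Matrix.one_mulVec]
      refine Eq.trans ?_ h2
      set w := M⁻¹.mulVec y
      funext i
      simp [Matrix.mulVec, dotProduct, hM]
  set U : (Fin n → ℂ) → Set (Fin n → ℂ) := fun x =>
    {y | dist (∑ i, c i * y i) (∑ i, c i * x i) < ε} with hU
  have hUn : ∀ x, U x ∈ nhds x := by
    intro x
    have := hcont.continuousAt (x := x)
    exact this (Metric.ball_mem_nhds _ hε)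
  have hW : (⋂ x ∈ T, Fx '' U x) ∈ nhds (0 : Fin n → ℂ) := by
    rw [Filter.biInter_finset_mem]
    intro x hx
    rw [← hmap x hx]
    exact Filter.image_mem_map (hUn x)
  have hvan : ∀ y ∈ (⋂ x ∈ T, Fx '' U x), ∀ j, MvPolynomial.eval y (A j) = 0 := by
    intro y hy
    simp only [Set.mem_iInter] at hy
    choose! g hgU hgF using hy
    set Q : Polynomial ℂ := ∑ j : Fin ((∏ i, δ i) + 1),
      Polynomial.C (MvPolynomial.eval y (A j)) * Polynomial.X ^ (j : ℕ) with hQ
    have hQ0 : Q = 0 := by
      refine Polynomial.eq_zero_of_natDegree_lt_card_of_eval_eq_zero' Q (T.image fun x => ∑ i, c i * g x i) ?_ ?_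
      · intro z hz
        obtain ⟨x, hx, rfl⟩ := Finset.mem_image.1 hz
        have := hrel (g x)
        rw [hgF x hx, heu] at this
        simpa [hQ, Polynomial.eval_finsetSum] using this
      · rw [Finset.card_image_of_injOn]
        · refine lt_of_le_of_lt ?_ hcard
          refine Polynomial.natDegree_sum_le_of_forall_le _ _ fun j _ => ?_
          refine (Polynomial.natDegree_C_mul_X_pow_le _ _).trans ?_
          omega
        · intro x hx x' hx' hxx'
          by_contra hne
          have h1 := hsep x hx x' hx' hne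
          have h2 := hgU x hx
          have h3 := hgU x' hx'
          simp only [hU, Set.mem_ofPred_eq] at h2 h3
          simp only at hxx'
          rw [← hxx'] at h3
          have := dist_triangle_left (∑ i, c i * x i) (∑ i, c i * x' i) (∑ i, c i * g x i)
          linarith
    intro j
    have := congrArg (fun p => Polynomial.coeff p (j : ℕ)) hQ0
    simp only [hQ, Polynomial.finsetSum_coeff, Polynomial.coeff_C_mul, Polynomial.coeff_X_pow,
      Polynomial.coeff_zero] at this
    rw [Finset.sum_eq_single j] at this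
    · simpa using this
    · intro i _ hi
      rw [if_neg]
      · simp
      · intro h; exact hi (Fin.ext h.symm)
    · simp
  apply hA0
  funext j
  obtain ⟨r, hr, hrW⟩ := Metric.mem_nhds_iff.1 hW
  refine MvPolynomial.funext_set (fun _ => Metric.ball (0 : ℂ) r) (fun _ => ?_) ?_
  · exact infinite_of_mem_nhds (0 : ℂ) (Metric.ball_mem_nhds _ hr)
  · intro y hy
    simp only [Pi.zero_apply, map_zero]
    refine hvan y (hrW ?_) j
    rw [Metric.mem_ball, dist_pi_lt_iff hr]
    intro i
    exact hy i (Set.mem_univ i)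

end Pool.Agent.Lib.CLN
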