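import Pool.Agent.Lib.CLN.BZ2
import Pool.Agent.Lib.CLN.EV
/-! MP_bd3536_an, row BZ3.

`x ↦ ev h (Zpt k x) i` is the value of a polynomial of total degree ≤ `d i` with partial derivatives
`Jmat`.
-/

set_option autoImplicit false

open MeasureTheory
open scoped ENNReal NNReal ComplexConjugate

namespace Pool.Agent.Lib.CLN

variable {n : ℕ} {d : Fin n → ℕ}

/-- The exponent vector of the dehomogenization of a monomial. -/
private noncomputable def bz3Exp (k : Fin (n + 1)) {m : ℕ} (α : Mon n m) : Fin n →₀ ℕ :=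
  Finsupp.equivFunOnFinite.symm (fun j => (α : Fin (n + 1) → ℕ) (k.succAbove j))

private theorem bz3Exp_apply (k : Fin (n + 1)) {m : ℕ} (α : Mon n m) (j : Fin n) :
    bz3Exp k α j = (α : Fin (n + 1) → ℕ) (k.succAbove j) := rfl

/-- The dehomogenized equations. -/
private noncomputable def bz3Poly (k : Fin (n + 1)) (h : Sys d) (i : Fin n) :
    MvPolynomial (Fin n) ℂ :=
  ∑ α : Mon n (d i), MvPolynomial.monomial (bz3Exp k α)
    (h ⟨i, α⟩ * (Real.sqrt (Nat.multinomial Finset.univ (α : Fin (n + 1) → ℕ)) : ℂ))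

private theorem bz3_eval_monomial (x : Fin n → ℂ) (s : Fin n →₀ ℕ) (a : ℂ) :
    MvPolynomial.eval x (MvPolynomial.monomial s a) = a * ∏ j, x j ^ s j := by
  rw [MvPolynomial.eval_monomial, Finsupp.prod_fintype]
  intro j
  exact pow_zero _

private theorem bz3_totalDegree (k : Fin (n + 1)) (h : Sys d) (i : Fin n) :
    (bz3Poly k h i).totalDegree ≤ d i := by
  refine MvPolynomial.totalDegree_finsetSum_le fun α _ => ?_
  refine (MvPolynomial.totalDegree_monomial_le _ _).trans ?_
  have h1 := (Finset.mem_piAntidiag.1 α.2).1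
  rw [Fin.sum_univ_succAbove _ k] at h1
  have h2 : (bz3Exp k α).sum (fun _ => id) = ∑ j, (α : Fin (n + 1) → ℕ) (k.succAbove j) := by
    rw [Finsupp.sum_fintype]
    · rfl
    · intro _; rfl
  refine le_trans (le_of_eq h2) ?_
  omega

private theorem bz3_eval (k : Fin (n + 1)) (h : Sys d) (x : Fin n → ℂ) (i : Fin n) :
    MvPolynomial.eval x (bz3Poly k h i) = ev h (Zpt k x) i := by
  have h0 : ev h (Zpt k x) i = ∑ α : Mon n (d i), h ⟨i, α⟩ *
      mon (d i) (Fin.insertNth (α := fun _ => ℂ) k (1 : ℂ) x) α := rfl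
  rw [h0, bz3Poly, map_sum]
  refine Finset.sum_congr rfl fun α _ => ?_
  rw [bz3_eval_monomial, mon, Fin.prod_univ_succAbove _ k]
  simp only [Fin.insertNth_apply_same, Fin.insertNth_apply_succAbove, one_pow, one_mul,
    bz3Exp_apply]
  ring

private theorem bz3_pderiv (k : Fin (n + 1)) (h : Sys d) (x : Fin n → ℂ) (i j : Fin n) :
    MvPolynomial.eval x (MvPolynomial.pderiv j (bz3Poly k h i)) =
      pder h (Zpt k x) i (k.succAbove j) := by
  have h0 : pder h (Zpt k x) i (k.succAbove j) = ∑ α : Mon n (d i), h ⟨i, α⟩ *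
      dmon (d i) (Fin.insertNth (α := fun _ => ℂ) k (1 : ℂ) x)
        (Pi.single (k.succAbove j) 1) α := rfl
  rw [h0, bz3Poly, map_sum, map_sum]
  refine Finset.sum_congr rfl fun α _ => ?_
  rw [MvPolynomial.pderiv_monomial, bz3_eval_monomial, dmon]
  rw [Finset.sum_eq_single (k.succAbove j)]
  · have h1 : ∏ l ∈ Finset.univ.erase (k.succAbove j),
        (Fin.insertNth (α := fun _ => ℂ) k (1 : ℂ) x l) ^ (α : Fin (n + 1) → ℕ) l =
        ∏ l ∈ Finset.univ.erase j, x l ^ (α : Fin (n + 1) → ℕ) (k.succAbove l) := by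
      have h2 : (Finset.univ : Finset (Fin (n + 1))).erase (k.succAbove j) =
          insert k ((Finset.univ.erase j).map (Fin.succAboveEmb k)) := by
        ext l
        simp only [Finset.mem_erase, Finset.mem_univ, and_true, Finset.mem_insert,
          Finset.mem_map]
        constructor
        · intro hl
          rcases eq_or_ne l k with h3 | h3
          · exact Or.inl h3
          · obtain ⟨m, rfl⟩ := Fin.exists_succAbove_eq h3
            exact Or.inr ⟨m, fun h4 => hl (by rw [h4]), rfl⟩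
        · rintro (rfl | ⟨m, hm, rfl⟩)
          · exact (Fin.succAbove_ne _ _).symm
          · exact fun h4 => hm (Fin.succAbove_right_injective h4)
      rw [h2, Finset.prod_insert, Finset.prod_map]
      · simp only [Fin.insertNth_apply_same, one_pow, one_mul]
        refine Finset.prod_congr rfl fun l _ => ?_
        exact congrArg (fun c : ℂ => c ^ (α : Fin (n + 1) → ℕ) (k.succAbove l))
          (Fin.insertNth_apply_succAbove (α := fun _ => ℂ) k (1 : ℂ) x l)
      · rw [Finset.mem_map]
        rintro ⟨m, -, hm⟩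
        exact Fin.succAbove_ne k m hm
    rw [h1, Fin.insertNth_apply_succAbove, Pi.single_eq_same,
      ← Finset.mul_prod_erase Finset.univ _ (Finset.mem_univ j)]
    have h5 : ∀ l, (bz3Exp k α - Finsupp.single j 1 : Fin n →₀ ℕ) l =
        (α : Fin (n + 1) → ℕ) (k.succAbove l) - (if j = l then 1 else 0) := by
      intro l
      rw [Finsupp.tsub_apply, Finsupp.single_apply, bz3Exp_apply]
    have h6 : ∏ l ∈ Finset.univ.erase j,
        x l ^ (bz3Exp k α - Finsupp.single j 1 : Fin n →₀ ℕ) l =
        ∏ l ∈ Finset.univ.erase j, x l ^ (α : Fin (n + 1) → ℕ) (k.succAbove l) := by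
      refine Finset.prod_congr rfl fun l hl => ?_
      rw [h5, if_neg (Finset.ne_of_mem_erase hl).symm, Nat.sub_zero]
    rw [h6, h5, if_pos rfl, bz3Exp_apply]
    ring
  · intro l _ hl
    rw [Pi.single_eq_of_ne hl]
    ring
  · intro hl
    exact absurd (Finset.mem_univ _) hl

theorem zset_card (hd : ∀ i, 1 ≤ d i) (k : Fin (n + 1)) (h : Sys d) :
    ∑' _x : zset k h, (1 : ℝ≥0∞) ≤ ∏ i, (d i : ℝ≥0∞) := by
  rw [ENNReal.tsum_eq_iSup_sum]
  refine iSup_le fun s => ?_
  have h1 := bezout d hd (bz3Poly k h) (bz3_totalDegree k h)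
    (s.map (Function.Embedding.subtype _)) (by
      intro x hx
      obtain ⟨y, -, rfl⟩ := Finset.mem_map.1 hx
      have hy := y.2
      refine ⟨fun i => ?_, ?_⟩
      · rw [bz3_eval]
        have h2 := hy.1
        change ev h (Zpt k (y : Fin n → ℂ)) i = 0
        rw [h2]
        rfl
      · have h3 : (Matrix.of fun i j => MvPolynomial.eval (y : Fin n → ℂ)
            (MvPolynomial.pderiv j (bz3Poly k h i))) = Jmat k h (y : Fin n → ℂ) := by
          ext i j
          exact bz3_pderiv k h _ i j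
        change (Matrix.of fun i j => MvPolynomial.eval (y : Fin n → ℂ)
            (MvPolynomial.pderiv j (bz3Poly k h i))).det ≠ 0
        rw [h3]
        exact hy.2)
  rw [Finset.card_map] at h1
  rw [Finset.sum_const, nsmul_eq_mul, mul_one, ← Nat.cast_prod]
  exact_mod_cast h1

end Pool.Agent.Lib.CLN
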