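import Pool.Agent.Lib.CLN.Defs

/-! MP_bd3536_an: auxiliary definitions shared by all rows. -/

set_option autoImplicit false

open MeasureTheory
open scoped ENNReal NNReal ComplexConjugate

namespace Pool.Agent.Lib.CLN

variable {n : ℕ} {d : Fin n → ℕ}

/-- Derivative of `mon k · α` at `z` in the direction `u`. -/
noncomputable def dmon (k : ℕ) (z u : Fin (n + 1) → ℂ) (α : Mon n k) : ℂ :=
  (Real.sqrt (Nat.multinomial Finset.univ (α : Fin (n + 1) → ℕ)) : ℂ) *
    ∑ j, ((α : Fin (n + 1) → ℕ) j : ℂ) * u j * z j ^ ((α : Fin (n + 1) → ℕ) j - 1) *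
      ∏ l ∈ Finset.univ.erase j, z l ^ (α : Fin (n + 1) → ℕ) l

/-- The derivative of equation `i` of `h` at `z` in the direction `u`. -/
noncomputable def dev (h : Sys d) (z u : Fin (n + 1) → ℂ) (i : Fin n) : ℂ :=
  ∑ α : Mon n (d i), h ⟨i, α⟩ * dmon (d i) z u α

/-- The partial derivative of equation `i` of `h` with respect to `X_j`. -/
noncomputable def pder (h : Sys d) (z : Fin (n + 1) → ℂ) (i : Fin n) (j : Fin (n + 1)) : ℂ :=
  dev h z (Pi.single j 1) i

/-- The scaling factor `√(d i) ‖z‖^(d i - 1)` of equation `i`. -/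
noncomputable def scal (d : Fin n → ℕ) (z : Pt n) (i : Fin n) : ℝ :=
  Real.sqrt (d i) * ‖z‖ ^ (d i - 1)

/-- The matrix with first row `conj z` and row `i + 1` the gradient of equation `i` divided by
`√(d i) ‖z‖^(d i - 1)`. -/
noncomputable def Lmat (h : Sys d) (z : Pt n) : Matrix (Fin (n + 1)) (Fin (n + 1)) ℂ :=
  Matrix.of (Fin.cons (fun j => conj (z j)) (fun i j => pder h z i j / (scal d z i : ℂ)))

/-- The Frobenius version of the square of the condition number without the factor `‖h‖`. -/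
noncomputable def NF (h : Sys d) (z : Pt n) : ℝ≥0∞ :=
  if (Lmat h z).det = 0 then ⊤
  else ENNReal.ofReal (∑ i : Fin n, ∑ j, ‖(Lmat h z)⁻¹ j i.succ‖ ^ 2)

/-- The point with coordinate `k` equal to `1` and the other coordinates given by `x`. -/
noncomputable def Zpt (k : Fin (n + 1)) (x : Fin n → ℂ) : Pt n :=
  WithLp.toLp 2 (Fin.insertNth k (1 : ℂ) x)

/-- The Jacobian matrix of `x ↦ ev h (Zpt k x)`. -/
noncomputable def Jmat (k : Fin (n + 1)) (h : Sys d) (x : Fin n → ℂ) : Matrix (Fin n) (Fin n) ℂ :=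
  Matrix.of fun i j => pder h (Zpt k x) i (k.succAbove j)

/-- The nondegenerate zeros in the chart `k`. -/
def zset (k : Fin (n + 1)) (h : Sys d) : Set (Fin n → ℂ) :=
  {x | ev h (Zpt k x) = 0 ∧ (Jmat k h x).det ≠ 0}

/-- The sum of `NF` over the nondegenerate zeros in the chart `k`. -/
noncomputable def Sk (k : Fin (n + 1)) (h : Sys d) : ℝ≥0∞ :=
  ∑' x : zset k h, NF h (Zpt k x)

/-- The sum of `NF` over the nondegenerate zeros, over all charts. -/
noncomputable def SS (h : Sys d) : ℝ≥0∞ := ∑ k, Sk k h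

/-- The exponent vector of the monomial `X_k^(d i)`. -/
def pur (d : Fin n → ℕ) (k : Fin (n + 1)) (i : Fin n) : Mon n (d i) :=
  ⟨Pi.single k (d i), by simp [Finset.mem_piAntidiag]⟩

/-- The coordinates `x` of the point stored in the coordinates `pure` of `y`. -/
def xpart (k : Fin (n + 1)) (y : Idx d → ℂ) : Fin n → ℂ := fun i => y ⟨i, pur d k i⟩

/-- The parametrization of the pairs (system, zero in the chart `k`): the coordinates of `X_k^(d i)`
in `y` are the coordinates of the point, all other coordinates of `y` are coordinates of the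
system. -/
noncomputable def Fmap (k : Fin (n + 1)) (y : Idx d → ℂ) : Idx d → ℂ :=
  fun p => if p.2 = pur d k p.1 then
      - ∑ α ∈ Finset.univ.erase (pur d k p.1), y ⟨p.1, α⟩ * mon (d p.1) (Zpt k (xpart k y)) α
    else y p

/-- The weight `exp(- t² ‖h - ĝ‖²)`. -/
noncomputable def wt (t : ℝ) (h : Sys d) : ℝ≥0∞ :=
  ENNReal.ofReal (Real.exp (-(t ^ 2 * ‖h - gSys d‖ ^ 2)))

/-- The second derivative of equation `i` of `h` at `z` in the directions `u` and `v`. -/
noncomputable def ddev (h : Sys d) (z : Pt n) (u : Pt n) (v : Fin (n + 1) → ℂ) (i : Fin n) : ℂ :=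
  fderiv ℂ (fun w : Pt n => dev h w v i) z u

/-- `Lmat` without the factors `‖z‖^(d i - 1)`; the two agree if `‖z‖ = 1`. -/
noncomputable def Lz (h : Sys d) (z : Pt n) : Matrix (Fin (n + 1)) (Fin (n + 1)) ℂ :=
  Matrix.of (Fin.cons (fun j => conj (z j)) (fun i j => pder h z i j / (Real.sqrt (d i) : ℂ)))

/-- The square of the Frobenius norm of the inverse of `Lz`. -/
noncomputable def Fr (h : Sys d) (z : Pt n) : ℝ := ∑ j, ∑ m, ‖(Lz h z)⁻¹ j m‖ ^ 2

/-- The right side of the differential equation for the continuation of the zero. -/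
noncomputable def Xf (f : Sys d) (s : ℝ) (z : Pt n) : Pt n :=
  - WithLp.toLp 2 ((Lz (seg f s) z)⁻¹.mulVec
      (Fin.cons 0 (fun i => ev (f - gSys d) z i / (Real.sqrt (d i) : ℂ))))

/-- `z` solves the differential equation on `[a, b]`. -/
def IsSol (f : Sys d) (z : ℝ → Pt n) (a b : ℝ) : Prop :=
  ∀ s ∈ Set.Icc a b, (Lz (seg f s) (z s)).det ≠ 0 ∧
    HasDerivWithinAt z (Xf f s (z s)) (Set.Icc a b) s

/-- `N`, as a real number. -/
noncomputable def NN (d : Fin n → ℕ) : ℝ := (Fintype.card (Idx d) : ℝ)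

/-- The constant of the differential inequality. -/
noncomputable def KK (d : Fin n → ℕ) : ℝ := 15 * NN d ^ 2

/-- The first part `[0, sd]` of the homotopy. -/
noncomputable def sd (d : Fin n → ℕ) : ℝ := 1 / (8 * KK d * (1 + (n : ℝ) ^ 2))

end Pool.Agent.Lib.CLN
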