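import Pool.Agent.Lib.CLN.LM1
import Pool.Agent.Lib.CLN.BD
/-! MP_bd3536_an, row LM2.

Condition number and `NF`. `mu_le`: `T y = ∑ i, y i • (column i + 1 of (Lmat h z)⁻¹)`; the
conditions follow from `Lmat h z * (Lmat h z)⁻¹ = 1`; operator norm ≤ Frobenius norm.
`one_le_NF`: column `1` of the inverse is `u` with `u ⟂ z` and `dev h z u 0 = scal d z 0`; use `bd4`
for `z / ‖z‖` (scale invariance `NF_smul_pt`).
`Fr_eq`: column `0` of the inverse is `z` (unit, zero of `h`), because `Lz h z * z = (1, 0, …, 0)`.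
`NF_le_SS`: `z k ≠ 0` for some `k`, `z = z k • Zpt k x`, and one term of the sum `Sk k h`.
-/

set_option autoImplicit false

open MeasureTheory
open scoped ENNReal NNReal ComplexConjugate

namespace Pool.Agent.Lib.CLN

variable {n : ℕ} {d : Fin n → ℕ}

private theorem Lmat_zero (h : Sys d) (z : Pt n) (j : Fin (n + 1)) :
    Lmat h z 0 j = conj (z j) := rfl

private theorem Lmat_succ (h : Sys d) (z : Pt n) (i : Fin n) (j : Fin (n + 1)) :
    Lmat h z i.succ j = pder h z i j / (scal d z i : ℂ) := rfl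

private theorem inv_orth (h : Sys d) (z : Pt n) (hdet : (Lmat h z).det ≠ 0) (m : Fin n) :
    ∑ j, conj (z j) * (Lmat h z)⁻¹ j m.succ = 0 := by
  have h1 : Lmat h z * (Lmat h z)⁻¹ = 1 := Matrix.mul_nonsing_inv _ (isUnit_iff_ne_zero.2 hdet)
  have h2 := congrFun (congrFun h1 0) m.succ
  rw [Matrix.mul_apply, Matrix.one_apply_ne (Fin.succ_ne_zero m).symm] at h2
  rw [← h2]
  rfl

private theorem inv_grad (hd : ∀ i, 1 ≤ d i) (h : Sys d) (z : Pt n) (hz : z ≠ 0)
    (hdet : (Lmat h z).det ≠ 0) (i m : Fin n) :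
    ∑ j, (Lmat h z)⁻¹ j m.succ * pder h z i j = if i = m then (scal d z i : ℂ) else 0 := by
  have h1 : Lmat h z * (Lmat h z)⁻¹ = 1 := Matrix.mul_nonsing_inv _ (isUnit_iff_ne_zero.2 hdet)
  have h2 := congrFun (congrFun h1 i.succ) m.succ
  rw [Matrix.mul_apply, Matrix.one_apply] at h2
  have hs : (scal d z i : ℂ) ≠ 0 := by
    exact_mod_cast (scal_pos hd z hz i).ne'
  have h3 : ∑ j, (Lmat h z)⁻¹ j m.succ * pder h z i j =
      (scal d z i : ℂ) * ∑ j, Lmat h z i.succ j * (Lmat h z)⁻¹ j m.succ := by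
    rw [Finset.mul_sum]
    refine Finset.sum_congr rfl fun j _ => ?_
    rw [Lmat_succ]
    field_simp
  rw [h3, h2]
  by_cases him : i = m
  · subst him
    simp
  · have : i.succ ≠ m.succ := fun h => him (Fin.succ_injective _ h)
    rw [if_neg this, if_neg him, mul_zero]

private theorem NF_eq (h : Sys d) (z : Pt n) (hdet : (Lmat h z).det ≠ 0) :
    NF h z = ENNReal.ofReal (∑ i : Fin n, ∑ j, ‖(Lmat h z)⁻¹ j i.succ‖ ^ 2) := by
  rw [NF, if_neg hdet]

private theorem scal_cast (z : Pt n) (i : Fin n) :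
    (scal d z i : ℂ) = (Real.sqrt (d i) : ℂ) * (‖z‖ : ℂ) ^ (d i - 1) := by
  rw [scal]
  push_cast
  rfl

private theorem inner_eq (z u : Pt n) : inner ℂ z u = ∑ j, conj (z j) * u j := by
  rw [PiLp.inner_apply]
  refine Finset.sum_congr rfl fun j _ => ?_
  rw [RCLike.inner_apply, mul_comm]

/-- the column `i + 1` of the inverse, as a point -/
private noncomputable def col (h : Sys d) (z : Pt n) (m : Fin (n + 1)) : Pt n :=
  WithLp.toLp 2 fun j => (Lmat h z)⁻¹ j m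

private theorem norm_col (h : Sys d) (z : Pt n) (m : Fin (n + 1)) :
    ‖col h z m‖ ^ 2 = ∑ j, ‖(Lmat h z)⁻¹ j m‖ ^ 2 := by
  rw [EuclideanSpace.norm_sq_eq]
  rfl

/-- the map `T` -/
private noncomputable def Tlin (h : Sys d) (z : Pt n) : Tgt n →ₗ[ℂ] Pt n where
  toFun y := ∑ i, y i • col h z i.succ
  map_add' x y := by
    rw [← Finset.sum_add_distrib]
    refine Finset.sum_congr rfl fun i _ => ?_
    rw [PiLp.add_apply, add_smul]
  map_smul' c y := by
    rw [RingHom.id_apply, Finset.smul_sum]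
    refine Finset.sum_congr rfl fun i _ => ?_
    rw [PiLp.smul_apply, smul_smul, smul_eq_mul]

private theorem Tlin_bound (h : Sys d) (z : Pt n) (y : Tgt n) :
    ‖Tlin h z y‖ ≤ Real.sqrt (∑ i : Fin n, ∑ j, ‖(Lmat h z)⁻¹ j i.succ‖ ^ 2) * ‖y‖ := by
  have h1 : ‖Tlin h z y‖ ≤ ∑ i, ‖y i‖ * ‖col h z i.succ‖ := by
    change ‖∑ i, y i • col h z i.succ‖ ≤ _
    refine (norm_sum_le _ _).trans (le_of_eq ?_)
    refine Finset.sum_congr rfl fun i _ => norm_smul _ _
  have h2 := Finset.sum_mul_sq_le_sq_mul_sq Finset.univ (fun i => ‖y i‖)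
    (fun i : Fin n => ‖col h z i.succ‖)
  have h3 : ∑ i : Fin n, ‖col h z i.succ‖ ^ 2 =
      ∑ i : Fin n, ∑ j, ‖(Lmat h z)⁻¹ j i.succ‖ ^ 2 :=
    Finset.sum_congr rfl fun i _ => norm_col h z i.succ
  have h4 : ∑ i, ‖y i‖ ^ 2 = ‖y‖ ^ 2 := (EuclideanSpace.norm_sq_eq y).symm
  rw [h3, h4] at h2
  have h5 : 0 ≤ ∑ i, ‖y i‖ * ‖col h z i.succ‖ :=
    Finset.sum_nonneg fun i _ => mul_nonneg (norm_nonneg _) (norm_nonneg _)
  refine h1.trans ?_
  refine Real.le_sqrt_of_sq_le h2 |>.trans (le_of_eq ?_)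
  rw [Real.sqrt_mul (sq_nonneg _), Real.sqrt_sq (norm_nonneg _), mul_comm]

theorem mu_le (hd : ∀ i, 1 ≤ d i) (h : Sys d) (z : Pt n) (hz : z ≠ 0)
    (hdet : (Lmat h z).det ≠ 0) :
    mu h z ≤ ENNReal.ofReal (‖h‖ * Real.sqrt (NF h z).toReal) := by
  have hnn : 0 ≤ ∑ i : Fin n, ∑ j, ‖(Lmat h z)⁻¹ j i.succ‖ ^ 2 :=
    Finset.sum_nonneg fun i _ => Finset.sum_nonneg fun j _ => sq_nonneg _
  have hNF : (NF h z).toReal = ∑ i : Fin n, ∑ j, ‖(Lmat h z)⁻¹ j i.succ‖ ^ 2 := by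
    rw [NF_eq h z hdet, ENNReal.toReal_ofReal hnn]
  obtain ⟨T, hT⟩ : ∃ T : Tgt n →L[ℂ] Pt n, T = LinearMap.mkContinuous (Tlin h z) _
    (Tlin_bound h z) := ⟨_, rfl⟩
  have hTn : ‖T‖ ≤ Real.sqrt (NF h z).toReal := by
    rw [hT, hNF]
    exact LinearMap.mkContinuous_norm_le _ (Real.sqrt_nonneg _) _
  have hTy : ∀ (y : Tgt n) (j : Fin (n + 1)),
      T y j = ∑ i, y i * (Lmat h z)⁻¹ j i.succ := by
    intro y j
    rw [hT]
    change (∑ i, y i • col h z i.succ) j = _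
    rw [WithLp.ofLp_sum, Finset.sum_apply]
    refine Finset.sum_congr rfl fun i _ => ?_
    rw [PiLp.smul_apply, smul_eq_mul]
    rfl
  have h1 : ∀ y, inner ℂ z (T y) = 0 := by
    intro y
    rw [inner_eq]
    have e1 : ∑ j, conj (z j) * T y j =
        ∑ i, y i * ∑ j, conj (z j) * (Lmat h z)⁻¹ j i.succ := by
      simp_rw [hTy, Finset.mul_sum]
      rw [Finset.sum_comm]
      refine Finset.sum_congr rfl fun i _ => Finset.sum_congr rfl fun j _ => ?_
      ring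
    rw [e1]
    refine Finset.sum_eq_zero fun i _ => ?_
    rw [inv_orth h z hdet i, mul_zero]
  have h2 : ∀ y i, fderiv ℂ (ev h) z (T y) i =
      (Real.sqrt (d i) : ℂ) * (‖z‖ : ℂ) ^ (d i - 1) * y i := by
    intro y i
    rw [(hasFDerivAt_ev h z).2 (T y) i, dev_eq_sum, ← scal_cast]
    have e1 : ∑ j, T y j * pder h z i j =
        ∑ m, y m * ∑ j, (Lmat h z)⁻¹ j m.succ * pder h z i j := by
      simp_rw [hTy, Finset.mul_sum, Finset.sum_mul]
      rw [Finset.sum_comm]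
      refine Finset.sum_congr rfl fun i _ => Finset.sum_congr rfl fun j _ => ?_
      ring
    rw [e1]
    simp_rw [inv_grad hd h z hz hdet i]
    rw [Finset.sum_eq_single i]
    · rw [if_pos rfl]; ring
    · intro m _ hm
      rw [if_neg (Ne.symm hm), mul_zero]
    · intro hi
      exact absurd (Finset.mem_univ i) hi
  refine (iInf_le_of_le T (iInf_le_of_le h1 (iInf_le_of_le h2 le_rfl))).trans ?_
  exact ENNReal.ofReal_le_ofReal (mul_le_mul_of_nonneg_left hTn (norm_nonneg _))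

theorem one_le_NF (hn : 1 ≤ n) (hd : ∀ i, 1 ≤ d i) (h : Sys d) (hh : ‖h‖ ≤ 1) (z : Pt n)
    (hz : z ≠ 0) : 1 ≤ NF h z := by
  by_cases hdet : (Lmat h z).det = 0
  · rw [NF, if_pos hdet]
    exact le_top
  have hzn : ‖z‖ ≠ 0 := norm_ne_zero_iff.2 hz
  have hc : ((‖z‖⁻¹ : ℝ) : ℂ) ≠ 0 := by
    exact_mod_cast inv_ne_zero hzn
  obtain ⟨w, hw⟩ : ∃ w : Pt n, w = ((‖z‖⁻¹ : ℝ) : ℂ) • z := ⟨_, rfl⟩
  have hw1 : ‖w‖ = 1 := by
    rw [hw, norm_smul, Complex.norm_real, Real.norm_eq_abs, abs_of_nonneg (inv_nonneg.2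
      (norm_nonneg _)), inv_mul_cancel₀ hzn]
  have hw0 : w ≠ 0 := by
    intro h0
    rw [h0, norm_zero] at hw1
    exact zero_ne_one hw1
  have hNFw : NF h z = NF h w := by rw [hw, NF_smul_pt hd h _ hc z hz]
  have hdetw : (Lmat h w).det ≠ 0 := by
    intro h0
    rw [hw] at h0
    exact hdet ((det_Lmat_smul hd h _ hc z hz).1 h0)
  rw [hNFw]
  obtain ⟨i0, hi0⟩ : ∃ i0 : Fin n, i0 = ⟨0, hn⟩ := ⟨_, rfl⟩
  have h1 : inner ℂ w (col h w i0.succ) = (0 : ℂ) := by
    rw [inner_eq]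
    exact inv_orth h w hdetw i0
  have h2 : dev h w (col h w i0.succ) i0 = (scal d w i0 : ℂ) := by
    rw [dev_eq_sum]
    have := inv_grad hd h w hw0 hdetw i0 i0
    rw [if_pos rfl] at this
    exact this
  have h3 := bd4 h w (col h w i0.succ) hw1 h1 i0
  rw [h2, Complex.norm_real, Real.norm_eq_abs, abs_of_pos (scal_pos hd w hw0 i0)] at h3
  have h4 : scal d w i0 = Real.sqrt (d i0) := by
    rw [scal, hw1, one_pow, mul_one]
  have h5 : 0 < Real.sqrt (d i0) := by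
    rw [← h4]
    exact scal_pos hd w hw0 i0
  rw [h4] at h3
  have h6 : 1 ≤ ‖col h w i0.succ‖ := by
    have h7 : Real.sqrt (d i0) * ‖h‖ * ‖col h w i0.succ‖ ≤
        Real.sqrt (d i0) * ‖col h w i0.succ‖ := by
      refine mul_le_mul_of_nonneg_right ?_ (norm_nonneg _)
      exact mul_le_of_le_one_right h5.le hh
    have h8 := h3.trans h7
    by_contra h9
    rw [not_le] at h9
    have := mul_lt_mul_of_pos_left h9 h5
    rw [mul_one] at this
    exact absurd h8 (not_le.2 this)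
  rw [NF_eq h w hdetw, ← ENNReal.ofReal_one]
  refine ENNReal.ofReal_le_ofReal ?_
  have h7 : 1 ≤ ‖col h w i0.succ‖ ^ 2 := one_le_pow₀ h6
  rw [norm_col] at h7
  refine h7.trans ?_
  exact Finset.single_le_sum (f := fun i : Fin n => ∑ j, ‖(Lmat h w)⁻¹ j i.succ‖ ^ 2)
    (fun i _ => Finset.sum_nonneg fun j _ => sq_nonneg _) (Finset.mem_univ i0)

theorem Fr_eq (hd : ∀ i, 1 ≤ d i) (h : Sys d) (z : Pt n) (hz : ‖z‖ = 1) (h0 : ev h z = 0)
    (hdet : (Lz h z).det ≠ 0) : ENNReal.ofReal (Fr h z) = 1 + NF h z := by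
  have hL : Lz h z = Lmat h z := Lz_eq h z hz
  rw [hL] at hdet
  have hnn : 0 ≤ ∑ i : Fin n, ∑ j, ‖(Lmat h z)⁻¹ j i.succ‖ ^ 2 :=
    Finset.sum_nonneg fun i _ => Finset.sum_nonneg fun j _ => sq_nonneg _
  have hz2 : ∑ j, ‖z j‖ ^ 2 = 1 := by
    have := EuclideanSpace.norm_sq_eq z
    rw [hz, one_pow] at this
    exact this.symm
  -- `Lmat h z * z = e_0`
  have h1 : (Lmat h z).mulVec (fun j => z j) = Pi.single 0 1 := by
    funext m
    refine Fin.cases ?_ (fun i => ?_) m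
    · rw [Pi.single_eq_same]
      change ∑ j, conj (z j) * z j = 1
      have e1 : ∀ j, conj (z j) * z j = ((‖z j‖ ^ 2 : ℝ) : ℂ) := by
        intro j
        rw [mul_comm, Complex.mul_conj, Complex.normSq_eq_norm_sq]
      rw [Finset.sum_congr rfl fun j _ => e1 j, ← Complex.ofReal_sum, hz2, Complex.ofReal_one]
    · rw [Pi.single_eq_of_ne (Fin.succ_ne_zero i)]
      change ∑ j, pder h z i j / (scal d z i : ℂ) * z j = 0
      have e1 : ∑ j, pder h z i j / (scal d z i : ℂ) * z j =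
          (∑ j, z j * pder h z i j) / (scal d z i : ℂ) := by
        rw [Finset.sum_div]
        refine Finset.sum_congr rfl fun j _ => ?_
        ring
      have e2 := dev_self h z i
      rw [dev_eq_sum, h0] at e2
      rw [e1]
      have e3 : ∑ j, z j * pder h z i j = 0 := by
        rw [e2]
        simp
      rw [e3, zero_div]
  have h2 : ∀ j, (Lmat h z)⁻¹ j 0 = z j := by
    intro j
    have e1 : (Lmat h z)⁻¹.mulVec ((Lmat h z).mulVec (fun j => z j)) = fun j => z j := by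
      rw [Matrix.mulVec_mulVec, Matrix.nonsing_inv_mul _ (isUnit_iff_ne_zero.2 hdet),
        Matrix.one_mulVec]
    rw [h1, Matrix.mulVec_single_one] at e1
    exact congrFun e1 j
  have h3 : Fr h z = 1 + ∑ i : Fin n, ∑ j, ‖(Lmat h z)⁻¹ j i.succ‖ ^ 2 := by
    rw [Fr, hL]
    simp_rw [Fin.sum_univ_succ (n := n) (f := fun m => ‖(Lmat h z)⁻¹ _ m‖ ^ 2)]
    rw [Finset.sum_add_distrib]
    congr 1
    · rw [← hz2]
      refine Finset.sum_congr rfl fun j _ => ?_
      rw [h2]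
    · exact Finset.sum_comm
  rw [h3, NF_eq h z hdet, ENNReal.ofReal_add zero_le_one hnn, ENNReal.ofReal_one]

theorem NF_le_SS (hd : ∀ i, 1 ≤ d i) (h : Sys d) (z : Pt n) (hz : z ≠ 0) (h0 : ev h z = 0)
    (hdet : (Lmat h z).det ≠ 0) : NF h z ≤ SS h := by
  obtain ⟨k, hk⟩ : ∃ k, z k ≠ 0 := by
    by_contra hne
    push Not at hne
    exact hz (by ext j; exact hne j)
  obtain ⟨x, hx⟩ : ∃ x : Fin n → ℂ, x = fun j => z (k.succAbove j) / z k := ⟨_, rfl⟩
  have hzx : z = z k • Zpt k x := by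
    ext j
    rw [PiLp.smul_apply, smul_eq_mul]
    change z j = z k * (Fin.insertNth k (1 : ℂ) x : Fin (n + 1) → ℂ) j
    refine Fin.succAboveCases k ?_ (fun i => ?_) j
    · rw [Fin.insertNth_apply_same, mul_one]
    · rw [Fin.insertNth_apply_succAbove, hx]
      field_simp
  have hZ := Zpt_ne_zero k x
  have hNF : NF h z = NF h (Zpt k x) := by
    conv_lhs => rw [hzx]
    exact NF_smul_pt hd h _ hk _ hZ
  have hev : ev h (Zpt k x) = 0 := by
    ext i
    have e1 := ev_smul_pt h (z k) (Zpt k x) i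
    rw [← hzx, h0] at e1
    have e2 : (z k) ^ d i * ev h (Zpt k x) i = 0 := e1.symm
    rcases mul_eq_zero.1 e2 with e3 | e3
    · exact absurd e3 (pow_ne_zero _ hk)
    · exact e3
  have hdetZ : (Lmat h (Zpt k x)).det ≠ 0 := by
    intro e0
    have := (det_Lmat_smul hd h (z k) hk (Zpt k x) hZ).2 e0
    rw [← hzx] at this
    exact hdet this
  have hJ : (Jmat k h x).det ≠ 0 := by
    intro e0
    have e1 := det_Lmat hd k h x hev
    rw [e0, norm_zero, zero_pow two_ne_zero, zero_mul] at e1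
    have e2 : 0 < ‖(Lmat h (Zpt k x)).det‖ ^ 2 * ∏ i, scal d (Zpt k x) i ^ 2 := by
      refine mul_pos (pow_pos (norm_pos_iff.2 hdetZ) _) ?_
      exact Finset.prod_pos fun i _ => pow_pos (scal_pos hd _ hZ i) _
    rw [← e1] at e2
    exact lt_irrefl _ e2
  rw [hNF]
  have h1 : NF h (Zpt k x) ≤ Sk k h :=
    ENNReal.le_tsum (f := fun x : zset k h => NF h (Zpt k x)) ⟨x, hev, hJ⟩
  refine h1.trans ?_
  exact Finset.single_le_sum (f := fun k => Sk k h) (fun _ _ => zero_le) (Finset.mem_univ k)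

end Pool.Agent.Lib.CLN
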