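import Pool.Agent.Lib.CLN.OD2
import Pool.Agent.Lib.CLN.LM2
/-! MP_bd3536_an, row CL.

Length of the solution. `IsLift f z (Xf f · (z ·))`: `mu_le` gives finiteness. Integrand:
`sysSpeed f s ≤ ‖f - ĝ‖ / ‖seg f s‖` (norm of the derivative of `c / ‖c‖` in a real inner product
space), `ptSpeed ≤ ‖ż‖ ≤ √NF ‖f - ĝ‖` (`ż = - ∑ i (ev (f - ĝ) z i/√(d i)) column (i+1)` and `bd1`),
`a = √NF ≥ 1`, `‖seg‖ ≤ 1`: `‖h‖ a √(‖ḣ‖²/‖h‖² + a² ‖ḣ‖²) = a ‖ḣ‖ √(1 + a²‖h‖²) ≤ 2√2 a²`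
(`seg f s ≠ 0` since `det ≠ 0`).
-/

set_option autoImplicit false

open MeasureTheory
open scoped ENNReal NNReal ComplexConjugate

namespace Pool.Agent.Lib.CLN

variable {n : ℕ} {d : Fin n → ℕ}

theorem norm_deriv_normalize {E : Type*} [NormedAddCommGroup E] [InnerProductSpace ℝ E]
    (c : ℝ → E) (c' : E) (s : ℝ) (hc : HasDerivAt c c' s) (h0 : c s ≠ 0) :
    ‖deriv (fun t => (‖c t‖⁻¹ : ℝ) • c t) s‖ ≤ ‖c'‖ / ‖c s‖ := by
  set r : ℝ := ‖c s‖ with hr
  have hr0 : 0 < r := norm_pos_iff.2 h0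
  set p : ℝ := inner ℝ (c s) c' with hp
  have h1 : HasDerivAt (fun t => ‖c t‖ ^ 2) (2 * p) s := hc.norm_sq
  have h2 : HasDerivAt (fun t => Real.sqrt (‖c t‖ ^ 2)) (2 * p / (2 * Real.sqrt (‖c s‖ ^ 2))) s :=
    h1.sqrt (by positivity)
  have h3 : HasDerivAt (fun t => ‖c t‖) (p / r) s := by
    have e : (fun t => Real.sqrt (‖c t‖ ^ 2)) = fun t => ‖c t‖ := by
      funext t
      exact Real.sqrt_sq (norm_nonneg _)
    rw [e, Real.sqrt_sq (norm_nonneg _), ← hr] at h2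
    convert! h2 using 1
    field_simp
  have h4 : HasDerivAt (fun t => (‖c t‖)⁻¹) (-(p / r) / r ^ 2) s := h3.fun_inv hr0.ne'
  have h5 := h4.fun_smul hc
  rw [h5.deriv]
  rw [← hr]
  have h6 : ‖r⁻¹ • c' + (-(p / r) / r ^ 2) • c s‖ ^ 2 ≤ (‖c'‖ / r) ^ 2 := by
    rw [norm_add_sq_real, norm_smul, norm_smul, inner_smul_left, inner_smul_right,
      real_inner_comm, ← hp, ← hr]
    simp only [Real.norm_eq_abs, conj_trivial, mul_pow, sq_abs]
    have e : (r⁻¹) ^ 2 * ‖c'‖ ^ 2 + 2 * (r⁻¹ * (-(p / r) / r ^ 2 * p)) +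
        (-(p / r) / r ^ 2) ^ 2 * r ^ 2 = (‖c'‖ / r) ^ 2 - (p / r ^ 2) ^ 2 := by
      field_simp
      ring
    rw [e]
    nlinarith [sq_nonneg (p / r ^ 2)]
  exact (sq_le_sq₀ (norm_nonneg _) (by positivity)).1 h6

private theorem norm_Xf_le_NF (hd : ∀ i, 1 ≤ d i) (f : Sys d) (s : ℝ) (z : Pt n)
    (hz : ‖z‖ = 1) (hdet : (Lmat (seg f s) z).det ≠ 0) :
    ‖Xf f s z‖ ^ 2 ≤ (NF (seg f s) z).toReal * ‖f - gSys d‖ ^ 2 := by
  have hNF : (NF (seg f s) z).toReal =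
      ∑ i : Fin n, ∑ j, ‖(Lmat (seg f s) z)⁻¹ j i.succ‖ ^ 2 := by
    rw [NF, if_neg hdet, ENNReal.toReal_ofReal]
    positivity
  set M := (Lmat (seg f s) z)⁻¹ with hM
  set w : Fin n → ℂ := fun i => ev (f - gSys d) z i / (Real.sqrt (d i) : ℂ) with hw
  have hw2 : ∑ i, ‖w i‖ ^ 2 ≤ ‖f - gSys d‖ ^ 2 := by
    calc ∑ i, ‖w i‖ ^ 2 ≤ ∑ i, ‖ev (f - gSys d) z i‖ ^ 2 := by
          refine Finset.sum_le_sum fun i _ => ?_
          have h1 : ‖w i‖ = ‖ev (f - gSys d) z i‖ / Real.sqrt (d i) := by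
            rw [hw]
            simp [abs_of_nonneg (Real.sqrt_nonneg _)]
          have h2 : (1 : ℝ) ≤ Real.sqrt (d i) := by
            rw [Real.one_le_sqrt]
            exact_mod_cast hd i
          rw [h1]
          have h3 : ‖ev (f - gSys d) z i‖ / Real.sqrt (d i) ≤ ‖ev (f - gSys d) z i‖ :=
            div_le_self (norm_nonneg _) h2
          gcongr
      _ = ‖ev (f - gSys d) z‖ ^ 2 := by
          rw [EuclideanSpace.norm_sq_eq]
      _ ≤ ‖f - gSys d‖ ^ 2 := by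
          have := bd1 (f - gSys d) z hz
          gcongr
  have hX : ∀ j, Xf f s z j = - ∑ i : Fin n, M j i.succ * w i := by
    intro j
    simp only [Xf, Lz_eq (seg f s) z hz]
    simp [Matrix.mulVec, dotProduct, Fin.sum_univ_succ, ← hM, hw]
  rw [EuclideanSpace.norm_sq_eq, hNF, Finset.sum_comm, Finset.sum_mul]
  refine Finset.sum_le_sum fun j _ => ?_
  rw [hX, norm_neg]
  calc ‖∑ i : Fin n, M j i.succ * w i‖ ^ 2
      ≤ (∑ i : Fin n, ‖M j i.succ‖ * ‖w i‖) ^ 2 := by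
        gcongr
        refine (norm_sum_le _ _).trans (le_of_eq ?_)
        refine Finset.sum_congr rfl fun i _ => ?_
        rw [norm_mul]
    _ ≤ (∑ i : Fin n, ‖M j i.succ‖ ^ 2) * ∑ i, ‖w i‖ ^ 2 :=
        Finset.sum_mul_sq_le_sq_mul_sq _ _ _
    _ ≤ (∑ i : Fin n, ‖M j i.succ‖ ^ 2) * ‖f - gSys d‖ ^ 2 := by
        gcongr

private theorem seg_ne_zero (hn : 1 ≤ n) (h : Sys d) (z : Pt n)
    (hdet : (Lz h z).det ≠ 0) : h ≠ 0 := by
  rintro rfl
  apply hdet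
  refine Matrix.det_eq_zero_of_row_eq_zero (Fin.succ ⟨0, hn⟩) fun j => ?_
  have e : Lz (0 : Sys d) z (Fin.succ ⟨0, hn⟩) j =
      pder (0 : Sys d) z ⟨0, hn⟩ j / (Real.sqrt (d ⟨0, hn⟩) : ℂ) := rfl
  rw [e]
  simp [pder, dev]

theorem C0_le (hn : 1 ≤ n) (hd : ∀ i, 1 ≤ d i) (f : Sys d) (hf : ‖f‖ = 1) (z : ℝ → Pt n)
    (hz0 : z 0 = ptZero n) (hz : IsSol f z 0 1) :
    C0 f ≤ ENNReal.ofReal (2 * Real.sqrt 2) *
      ∫⁻ s in Set.Icc (0 : ℝ) 1, NF (seg f s) (z s) := by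
  have hseg0 : seg f 0 = gSys d := by simp [seg]
  have hinv := sol_inv hd f z 0 1 zero_le_one hz
    (by rw [hz0]; simp [ptZero]) (by rw [hz0, hseg0]; exact ev_start hn hd)
  have hdetL : ∀ s ∈ Set.Icc (0 : ℝ) 1, (Lmat (seg f s) (z s)).det ≠ 0 := by
    intro s hs
    rw [← Lz_eq _ _ (hinv s hs).1]
    exact (hz s hs).1
  have hne : ∀ s ∈ Set.Icc (0 : ℝ) 1, z s ≠ 0 := by
    intro s hs h
    have := (hinv s hs).1
    rw [h, norm_zero] at this
    exact zero_ne_one this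
  have hmu : ∀ s ∈ Set.Icc (0 : ℝ) 1, mu (seg f s) (z s) ≤
      ENNReal.ofReal (‖seg f s‖ * Real.sqrt (NF (seg f s) (z s)).toReal) := fun s hs =>
    mu_le hd _ _ (hne s hs) (hdetL s hs)
  have hlift : IsLift f z (fun s => Xf f s (z s)) :=
    { start := hz0
      ne_zero := hne
      deriv := fun s hs => (hz s hs).2
      zero := fun s hs => (hinv s hs).2
      finite := fun s hs => ((hmu s hs).trans_lt ENNReal.ofReal_lt_top).ne }
  have hC : C0 f ≤ condLength f z (fun s => Xf f s (z s)) := by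
    rw [C0]
    exact iInf_le_of_le z (iInf_le_of_le _ (iInf_le _ hlift))
  refine hC.trans ?_
  rw [condLength, ← lintegral_const_mul' _ _ ENNReal.ofReal_ne_top]
  refine setLIntegral_mono' measurableSet_Icc fun s hs => ?_
  have hnf1 : 1 ≤ NF (seg f s) (z s) :=
    one_le_NF hn hd _ (norm_seg_le hn hd f hf s hs) _ (hne s hs)
  have hnft : NF (seg f s) (z s) ≠ ⊤ := by
    rw [NF, if_neg (hdetL s hs)]
    exact ENNReal.ofReal_ne_top
  set A : ℝ := (NF (seg f s) (z s)).toReal with hA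
  have hNFA : NF (seg f s) (z s) = ENNReal.ofReal A := (ENNReal.ofReal_toReal hnft).symm
  have hA1 : 1 ≤ A := by
    have := (ENNReal.toReal_le_toReal ENNReal.one_ne_top hnft).2 hnf1
    simpa using this
  have hA0 : 0 ≤ A := zero_le_one.trans hA1
  set r : ℝ := ‖seg f s‖ with hr
  have hseg : seg f s ≠ 0 := seg_ne_zero hn _ _ (hz s hs).1
  have hr0 : 0 < r := norm_pos_iff.2 hseg
  have hr1 : r ≤ 1 := norm_seg_le hn hd f hf s hs
  set q : ℝ := ‖f - gSys d‖ with hq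
  have hq0 : 0 ≤ q := norm_nonneg _
  have hq2 : q ≤ 2 := by
    refine (norm_sub_le _ _).trans ?_
    rw [hf, norm_gSys hn hd]
    norm_num
  -- speed of the system
  have hsys : sysSpeed f s ≤ q / r := by
    have hder : HasDerivAt (seg f) (f - gSys d) s := by
      have e : seg f = fun s : ℝ => (1 - s) • gSys d + s • f := rfl
      rw [e]
      have h1 : HasDerivAt (fun s : ℝ => (1 - s) • gSys d) ((-1 : ℝ) • gSys d) s :=
        ((hasDerivAt_id' s).const_sub 1).smul_const _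
      have h2 : HasDerivAt (fun s : ℝ => s • f) ((1 : ℝ) • f) s :=
        (hasDerivAt_id' s).smul_const _
      convert! h1.fun_add h2 using 1
      rw [one_smul, neg_one_smul, sub_eq_neg_add]
    exact norm_deriv_normalize (seg f) (f - gSys d) s hder hseg
  have hsys0 : 0 ≤ sysSpeed f s := norm_nonneg _
  -- speed of the point
  have hpt : ptSpeed (z s) (Xf f s (z s)) ^ 2 ≤ A * q ^ 2 := by
    have h1 := inner_Xf f s (z s) (hz s hs).1
    rw [ptSpeed, h1, (hinv s hs).1]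
    simp only [zero_div, zero_smul, sub_zero, div_one]
    exact norm_Xf_le_NF hd f s (z s) (hinv s hs).1 (hdetL s hs)
  have hmain : r * Real.sqrt A *
      Real.sqrt (sysSpeed f s ^ 2 + ptSpeed (z s) (Xf f s (z s)) ^ 2) ≤
      2 * Real.sqrt 2 * A := by
    have h1 : sysSpeed f s ^ 2 + ptSpeed (z s) (Xf f s (z s)) ^ 2 ≤ (q / r) ^ 2 + A * q ^ 2 := by
      gcongr
    have h2 : Real.sqrt (sysSpeed f s ^ 2 + ptSpeed (z s) (Xf f s (z s)) ^ 2) ≤
        q / r * Real.sqrt (2 * A) := by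
      rw [← Real.sqrt_sq (by positivity : 0 ≤ q / r), ← Real.sqrt_mul (by positivity)]
      apply Real.sqrt_le_sqrt
      refine h1.trans ?_
      have h3 : q ^ 2 ≤ (q / r) ^ 2 := by
        have : q ≤ q / r := by
          rw [le_div_iff₀ hr0]
          nlinarith
        gcongr
      nlinarith [sq_nonneg (q / r)]
    calc r * Real.sqrt A * Real.sqrt (sysSpeed f s ^ 2 + ptSpeed (z s) (Xf f s (z s)) ^ 2)
        ≤ r * Real.sqrt A * (q / r * Real.sqrt (2 * A)) := by gcongr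
      _ = q * (Real.sqrt A * Real.sqrt (2 * A)) := by
          field_simp
      _ = q * (Real.sqrt 2 * A) := by
          rw [Real.sqrt_mul (by norm_num)]
          have := Real.mul_self_sqrt hA0
          linear_combination q * Real.sqrt 2 * this
      _ ≤ 2 * (Real.sqrt 2 * A) := by gcongr
      _ = 2 * Real.sqrt 2 * A := by ring
  calc mu (seg f s) (z s) *
        ENNReal.ofReal (Real.sqrt (sysSpeed f s ^ 2 + ptSpeed (z s) (Xf f s (z s)) ^ 2))
      ≤ ENNReal.ofReal (r * Real.sqrt A) *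
        ENNReal.ofReal (Real.sqrt (sysSpeed f s ^ 2 + ptSpeed (z s) (Xf f s (z s)) ^ 2)) := by
        gcongr
        exact hmu s hs
    _ = ENNReal.ofReal (r * Real.sqrt A *
        Real.sqrt (sysSpeed f s ^ 2 + ptSpeed (z s) (Xf f s (z s)) ^ 2)) := by
        rw [← ENNReal.ofReal_mul (by positivity)]
    _ ≤ ENNReal.ofReal (2 * Real.sqrt 2 * A) := ENNReal.ofReal_le_ofReal hmain
    _ = ENNReal.ofReal (2 * Real.sqrt 2) * NF (seg f s) (z s) := by
        rw [hNFA, ENNReal.ofReal_mul (by positivity)]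

end Pool.Agent.Lib.CLN
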