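import Mathlib

/-! MP_bd3536_an: condition length of the linear homotopy with the start pair (g, e_0). Definitions. -/

set_option autoImplicit false

open MeasureTheory
open scoped ENNReal NNReal ComplexConjugate

namespace Pool.Agent.Lib.CLN

variable {n : ℕ}

/-- The monomials of degree `k` in `X_0, …, X_n`, given by their exponent vectors. -/
abbrev Mon (n k : ℕ) : Type := ↥(Finset.piAntidiag (Finset.univ : Finset (Fin (n + 1))) k)

/-- Index set of the coordinates of a system: an equation `i` and a monomial of degree `d i`. -/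
abbrev Idx (d : Fin n → ℕ) : Type := (i : Fin n) × Mon n (d i)

/-- `ℂ^(n+1)` with its Hermitian inner product. -/
abbrev Pt (n : ℕ) : Type := EuclideanSpace ℂ (Fin (n + 1))

/-- `ℂ^n` with its Hermitian inner product. -/
abbrev Tgt (n : ℕ) : Type := EuclideanSpace ℂ (Fin n)

/-- The systems of degrees `d`, by their coordinates in the orthonormal basis
`√(multinomial coefficient of α) X^α` of the Bombieri-Weyl inner product. -/
abbrev Sys (d : Fin n → ℕ) : Type := EuclideanSpace ℂ (Idx d)

/-- The value at `z` of the basis element `√(multinomial coefficient of α) X^α`. -/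
noncomputable def mon (k : ℕ) (z : Fin (n + 1) → ℂ) (α : Mon n k) : ℂ :=
  (Real.sqrt (Nat.multinomial Finset.univ (α : Fin (n + 1) → ℕ)) : ℂ) *
    ∏ j, z j ^ (α : Fin (n + 1) → ℕ) j

/-- The value of the system `h` at the point `z`. -/
noncomputable def ev {d : Fin n → ℕ} (h : Sys d) (z : Pt n) : Tgt n :=
  WithLp.toLp 2 (fun i => ∑ α : Mon n (d i), h ⟨i, α⟩ * mon (d i) z α)

/-- The normalized condition number: `‖h‖` times the norm of `T`, where `T` is the inverse of the
restriction of `Dh(z)` to the orthogonal complement of `z`, composed with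
`diag(√(d i) ‖z‖^(d i - 1))`; it is `⊤` if that restriction is singular. -/
noncomputable def mu {d : Fin n → ℕ} (h : Sys d) (z : Pt n) : ℝ≥0∞ :=
  ⨅ (T : Tgt n →L[ℂ] Pt n) (_ : ∀ y, inner ℂ z (T y) = 0)
    (_ : ∀ y i, fderiv ℂ (ev h) z (T y) i = (Real.sqrt (d i) : ℂ) * (‖z‖ : ℂ) ^ (d i - 1) * y i),
    ENNReal.ofReal (‖h‖ * ‖T‖)

/-- The start system `g / √n`, `g_i = √(d i) X_0^(d i - 1) X_(i+1)`, a unit vector. -/
noncomputable def gSys (d : Fin n → ℕ) : Sys d :=
  WithLp.toLp 2 (fun p =>
    if (p.2 : Fin (n + 1) → ℕ) = Pi.single 0 (d p.1 - 1) + Pi.single p.1.succ 1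
    then ((Real.sqrt n)⁻¹ : ℂ) else 0)

/-- The linear homotopy from the start system to `f`. -/
noncomputable def seg {d : Fin n → ℕ} (f : Sys d) (s : ℝ) : Sys d :=
  (1 - s) • gSys d + s • f

/-- The start point `e_0`. -/
noncomputable def ptZero (n : ℕ) : Pt n := EuclideanSpace.single 0 1

/-- `z` (with derivative `z'`) is a lift to `ℂ^(n+1) ∖ 0` of a continuation of the zero `e_0` along
the homotopy, with `mu` finite everywhere on it. -/
structure IsLift {d : Fin n → ℕ} (f : Sys d) (z z' : ℝ → Pt n) : Prop where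
  start : z 0 = ptZero n
  ne_zero : ∀ s ∈ Set.Icc (0 : ℝ) 1, z s ≠ 0
  deriv : ∀ s ∈ Set.Icc (0 : ℝ) 1, HasDerivWithinAt z (z' s) (Set.Icc 0 1) s
  zero : ∀ s ∈ Set.Icc (0 : ℝ) 1, ev (seg f s) (z s) = 0
  finite : ∀ s ∈ Set.Icc (0 : ℝ) 1, mu (seg f s) (z s) ≠ ⊤

/-- The speed of the homotopy projected to the unit sphere. -/
noncomputable def sysSpeed {d : Fin n → ℕ} (f : Sys d) (s : ℝ) : ℝ :=
  ‖deriv (fun t => (‖seg f t‖⁻¹ : ℝ) • seg f t) s‖

/-- The Fubini-Study speed of the point of projective space represented by `z`, if `z` moves with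
velocity `z'`: the norm of the part of `z'` orthogonal to `z`, divided by the norm of `z`. -/
noncomputable def ptSpeed (z z' : Pt n) : ℝ :=
  ‖z' - (inner ℂ z z' / inner ℂ z z) • z‖ / ‖z‖

/-- The length of a lift in the condition metric. -/
noncomputable def condLength {d : Fin n → ℕ} (f : Sys d) (z z' : ℝ → Pt n) : ℝ≥0∞ :=
  ∫⁻ s in Set.Icc (0 : ℝ) 1, mu (seg f s) (z s) *
    ENNReal.ofReal (Real.sqrt (sysSpeed f s ^ 2 + ptSpeed (z s) (z' s) ^ 2))

/-- The condition length of the homotopy started at `e_0`; `⊤` if `e_0` has no continuation up to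
`s = 1` with `mu` finite. -/
noncomputable def C0 {d : Fin n → ℕ} (f : Sys d) : ℝ≥0∞ :=
  ⨅ (z : ℝ → Pt n) (z' : ℝ → Pt n) (_ : IsLift f z z'), condLength f z z'

/-- The uniform probability measure on the unit sphere of the space of systems. -/
noncomputable def unif (d : Fin n → ℕ) : Measure (Metric.sphere (0 : Sys d) 1) :=
  ((volume : Measure (Sys d)).toSphere Set.univ)⁻¹ • (volume : Measure (Sys d)).toSphere

end Pool.Agent.Lib.CLN
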