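import Pool.Agent.Lib.CLN.Base

/-! MP_bd3536_an, row FA.

Polar coordinates. `∫ Φ(v) dv = ∫_S ∫_(r>0) Φ(r u) r^(2N-1) dr dσ(u)`
(`Measure.measurePreserving_homeomorphUnitSphereProd`, `Measure.volumeIoiPow`). For `r ≥ δ`
and `x₁ = 2√N/δ`:
`∫_0^x₁ exp(-r²x²) x^(2N-2) dx = r^(1-2N) ∫_0^(r x₁) exp(-u²) u^(2N-2) du ≥ r^(1-2N) Γ(N-1/2)/4`,
because the tail beyond `R = 2√N` is at most
`e^(-R²/2) ∫ exp(-u²/2) u^(2N-2) = e^(-2N) 2^(N-1/2) Γ(N-1/2)/2 ≤ Γ(N-1/2)/4`
(`integral_rpow_mul_exp_neg_mul_rpow`). Hence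
`∫_S ∫_(r>δ) S(r u) dr dσ = ∫_(|v|>δ) S(v) |v|^(1-2N) dv
 ≤ (4/Γ(N-1/2)) ∫_0^x₁ x^(2N-2) ∫ S(v) exp(-x²|v|²) dv dx
 ≤ (4/Γ(N-1/2)) A ∫_0^x₁ x^(2N) x^(-2N) dx ∫ exp(-|v|²) dv = (4/Γ(N-1/2)) A x₁ σ Γ(N)/2`
and `Γ(N) ≤ √N Γ(N-1/2)` (`Real.Gamma_mul_add_mul_le_rpow_Gamma_mul_rpow_Gamma`, `s = N-1/2`,
`t = N+1/2`, `a = b = 1/2`).
-/

set_option autoImplicit false

open MeasureTheory
open scoped ENNReal NNReal ComplexConjugate

namespace Pool.Agent.Lib.CLN

variable {n : ℕ} {d : Fin n → ℕ}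

private theorem fa_gint (m : ℕ) {b : ℝ} (hb : 0 < b) :
    ∫⁻ x in Set.Ioi (0:ℝ), ENNReal.ofReal (x ^ m * Real.exp (-(b * x ^ 2))) =
      ENNReal.ofReal (b ^ (-((m:ℝ) + 1) / 2) * (1 / 2) * Real.Gamma (((m:ℝ) + 1) / 2)) := by
  have hm : (-1:ℝ) < m := by
    have : (0:ℝ) ≤ m := Nat.cast_nonneg m
    linarith
  have h1 := integral_rpow_mul_exp_neg_mul_rpow (p := 2) (q := m) (b := b) two_pos hm hb
  have h2 := integrableOn_rpow_mul_exp_neg_mul_rpow (s := m) (p := 2) (b := b) hm two_pos hb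
  rw [← h1, ofReal_integral_eq_lintegral_ofReal h2 ?_]
  · refine setLIntegral_congr_fun measurableSet_Ioi fun x _ => ?_
    simp [Real.rpow_natCast]
  · filter_upwards [ae_restrict_mem measurableSet_Ioi] with x hx
    exact mul_nonneg (Real.rpow_nonneg (le_of_lt hx) _) (Real.exp_pos _).le

private theorem fa_polar {E : Type*} [NormedAddCommGroup E] [InnerProductSpace ℝ E]
    [FiniteDimensional ℝ E] [MeasurableSpace E] [BorelSpace E] [Nontrivial E]
    (Φ : E → ℝ≥0∞) (hΦ : Measurable Φ) :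
    ∫⁻ v, Φ v = ∫⁻ u : Metric.sphere (0:E) 1, (∫⁻ r in Set.Ioi (0:ℝ),
      ENNReal.ofReal (r ^ (Module.finrank ℝ E - 1)) * Φ (r • (u:E)))
        ∂(volume : Measure E).toSphere := by
  have hmp := (volume : Measure E).measurePreserving_homeomorphUnitSphereProd
  calc ∫⁻ v, Φ v = ∫⁻ v in ({0}ᶜ : Set E), Φ v := by rw [restrict_compl_singleton]
    _ = ∫⁻ v : ({0}ᶜ : Set E), Φ v ∂(Measure.comap Subtype.val volume) :=
        (lintegral_subtype_comap (measurableSet_singleton _).compl Φ).symm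
    _ = ∫⁻ v : ({0}ᶜ : Set E), (fun p : Metric.sphere (0:E) 1 × Set.Ioi (0:ℝ) =>
          Φ ((p.2:ℝ) • (p.1:E))) (homeomorphUnitSphereProd E v)
            ∂(Measure.comap Subtype.val volume) := by
        refine lintegral_congr fun v => ?_
        have hv : ‖(v:E)‖ ≠ 0 := norm_ne_zero_iff.mpr v.2
        simp [smul_smul, hv]
    _ = ∫⁻ p : Metric.sphere (0:E) 1 × Set.Ioi (0:ℝ), Φ ((p.2:ℝ) • (p.1:E))
          ∂((volume : Measure E).toSphere.prod
            (Measure.volumeIoiPow (Module.finrank ℝ E - 1))) :=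
        hmp.lintegral_comp (f := fun p : Metric.sphere (0:E) 1 × Set.Ioi (0:ℝ) =>
          Φ ((p.2:ℝ) • (p.1:E))) (by fun_prop)
    _ = ∫⁻ u, (∫⁻ r : Set.Ioi (0:ℝ), Φ ((r:ℝ) • (u:E))
          ∂(Measure.volumeIoiPow (Module.finrank ℝ E - 1))) ∂(volume : Measure E).toSphere :=
        lintegral_prod _ (by fun_prop)
    _ = _ := by
        refine lintegral_congr fun u => ?_
        have hg : Measurable fun r : Set.Ioi (0:ℝ) => Φ ((r:ℝ) • (u:E)) := by fun_prop
        have hf : Measurable fun r : Set.Ioi (0:ℝ) =>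
            ENNReal.ofReal ((r:ℝ) ^ (Module.finrank ℝ E - 1)) := by fun_prop
        rw [Measure.volumeIoiPow, lintegral_withDensity_eq_lintegral_mul _ hf hg]
        rw [← lintegral_subtype_comap measurableSet_Ioi]
        rfl

private theorem fa_key (k : ℕ) {δ r : ℝ} (hδ : 0 < δ) (hr : δ < r) :
    ENNReal.ofReal (Real.Gamma ((k:ℝ) + 1 / 2) / 4) ≤
      ENNReal.ofReal (r ^ (2 * k + 1)) *
        ∫⁻ x in Set.Ioc (0:ℝ) (2 * Real.sqrt (k + 1) / δ),
          ENNReal.ofReal (x ^ (2 * k) * Real.exp (-(r ^ 2 * x ^ 2))) := by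
  have hr0 : 0 < r := hδ.trans hr
  set G := Real.Gamma ((k:ℝ) + 1 / 2) with hG
  have hG0 : 0 < G := Real.Gamma_pos_of_pos (by positivity)
  set x₁ := 2 * Real.sqrt (k + 1) / δ with hx₁
  have hx0 : 0 < x₁ := by positivity
  have hpow : ∀ c : ℝ, 0 < c → (c * r ^ 2) ^ (-(((2 * k : ℕ):ℝ) + 1) / 2) =
      c ^ (-((k:ℝ) + 1 / 2)) * (r ^ (2 * k + 1))⁻¹ := by
    intro c hc
    rw [Real.mul_rpow hc.le (by positivity)]
    congr 1
    · congr 1
      push_cast; ring
    · rw [← Real.rpow_natCast r 2, ← Real.rpow_mul hr0.le, ← Real.rpow_natCast r (2 * k + 1),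
        ← Real.rpow_neg hr0.le]
      congr 1
      push_cast; ring
  have hΓ : Real.Gamma ((((2 * k : ℕ):ℝ) + 1) / 2) = G := by
    rw [hG]; congr 1; push_cast; ring
  have htot := fa_gint (2 * k) (b := r ^ 2) (by positivity)
  have e1 := hpow 1 one_pos
  rw [one_mul, Real.one_rpow, one_mul] at e1
  rw [hΓ, e1] at htot
  have htail : ∫⁻ x in Set.Ioi x₁, ENNReal.ofReal (x ^ (2 * k) * Real.exp (-(r ^ 2 * x ^ 2))) ≤
      ENNReal.ofReal ((r ^ (2 * k + 1))⁻¹ * (G / 4)) := by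
    have ht2 := fa_gint (2 * k) (b := (1/2) * r ^ 2) (by positivity)
    rw [hΓ, hpow (1/2) (by norm_num)] at ht2
    calc _ ≤ ∫⁻ x in Set.Ioi x₁, ENNReal.ofReal (Real.exp (-(2 * (k + 1)))) *
            ENNReal.ofReal (x ^ (2 * k) * Real.exp (-((1/2) * r ^ 2 * x ^ 2))) := by
          refine setLIntegral_mono' measurableSet_Ioi fun x hx => ?_
          rw [← ENNReal.ofReal_mul (Real.exp_pos _).le]
          refine ENNReal.ofReal_le_ofReal ?_
          rw [mul_left_comm, ← Real.exp_add]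
          refine mul_le_mul_of_nonneg_left (Real.exp_le_exp.mpr ?_) (by
            have : 0 ≤ x := (hx0.trans hx).le
            positivity)
          have h1 : 2 * Real.sqrt (k + 1) ≤ r * x := by
            have : x₁ < x := hx
            have h3 : δ * x₁ = 2 * Real.sqrt (k + 1) := by
              rw [hx₁]; field_simp
            rw [← h3]
            exact mul_le_mul hr.le this.le hx0.le hr0.le
          have h2 : (2 * Real.sqrt (k + 1)) ^ 2 ≤ (r * x) ^ 2 :=
            pow_le_pow_left₀ (by positivity) h1 2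
          have h4 : Real.sqrt ((k:ℝ) + 1) ^ 2 = k + 1 := Real.sq_sqrt (by positivity)
          nlinarith
      _ = ENNReal.ofReal (Real.exp (-(2 * (k + 1)))) * ∫⁻ x in Set.Ioi x₁,
            ENNReal.ofReal (x ^ (2 * k) * Real.exp (-((1/2) * r ^ 2 * x ^ 2))) := by
          rw [lintegral_const_mul _ (by fun_prop)]
      _ ≤ ENNReal.ofReal (Real.exp (-(2 * (k + 1)))) * ∫⁻ x in Set.Ioi (0:ℝ),
            ENNReal.ofReal (x ^ (2 * k) * Real.exp (-((1/2) * r ^ 2 * x ^ 2))) := by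
          gcongr
      _ ≤ _ := by
          rw [ht2, ← ENNReal.ofReal_mul (Real.exp_pos _).le]
          refine ENNReal.ofReal_le_ofReal ?_
          have hq : Real.exp (-(2 * ((k:ℝ) + 1))) * (1/2 : ℝ) ^ (-((k:ℝ) + 1/2)) ≤ 1 / 2 := by
            rw [Real.rpow_def_of_pos (by norm_num), ← Real.exp_add]
            have hl : Real.log (1/2) = - Real.log 2 := by
              rw [one_div, Real.log_inv]
            have hl2 := Real.log_two_lt_d9
            have hl3 := Real.log_two_gt_d9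
            have hk : (0:ℝ) ≤ k := Nat.cast_nonneg k
            have : (1/2:ℝ) = Real.exp (- Real.log 2) := by
              rw [Real.exp_neg, Real.exp_log two_pos]; norm_num
            rw [hl]
            conv_rhs => rw [this]
            refine Real.exp_le_exp.mpr ?_
            nlinarith
          have hR : 0 < (r ^ (2 * k + 1))⁻¹ := by positivity
          calc _ = (Real.exp (-(2 * ((k:ℝ) + 1))) * (1/2 : ℝ) ^ (-((k:ℝ) + 1/2))) *
                ((r ^ (2 * k + 1))⁻¹ * (G / 2)) := by ring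
            _ ≤ (1/2) * ((r ^ (2 * k + 1))⁻¹ * (G / 2)) := by
                refine mul_le_mul_of_nonneg_right hq (by positivity)
            _ = _ := by ring
  have hsplit : ∫⁻ x in Set.Ioi (0:ℝ),
      ENNReal.ofReal (x ^ (2 * k) * Real.exp (-(r ^ 2 * x ^ 2))) =
      (∫⁻ x in Set.Ioc (0:ℝ) x₁, ENNReal.ofReal (x ^ (2 * k) * Real.exp (-(r ^ 2 * x ^ 2)))) +
      ∫⁻ x in Set.Ioi x₁, ENNReal.ofReal (x ^ (2 * k) * Real.exp (-(r ^ 2 * x ^ 2))) := by
    rw [← Set.Ioc_union_Ioi_eq_Ioi hx0.le,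
      lintegral_union measurableSet_Ioi (Set.Ioc_disjoint_Ioi le_rfl)]
  have hR : 0 < r ^ (2 * k + 1) := by positivity
  have hfin : ENNReal.ofReal (G / 4) + ENNReal.ofReal (G / 4) ≤
      ENNReal.ofReal (r ^ (2 * k + 1)) *
        (∫⁻ x in Set.Ioc (0:ℝ) x₁, ENNReal.ofReal (x ^ (2 * k) * Real.exp (-(r ^ 2 * x ^ 2)))) +
      ENNReal.ofReal (G / 4) := by
    calc ENNReal.ofReal (G / 4) + ENNReal.ofReal (G / 4) = ENNReal.ofReal (r ^ (2 * k + 1)) *
          ENNReal.ofReal ((r ^ (2 * k + 1))⁻¹ * (1 / 2) * G) := by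
          rw [← ENNReal.ofReal_add (by positivity) (by positivity), ← ENNReal.ofReal_mul hR.le]
          congr 1
          field_simp
          norm_num
      _ = ENNReal.ofReal (r ^ (2 * k + 1)) *
          ((∫⁻ x in Set.Ioc (0:ℝ) x₁, ENNReal.ofReal (x ^ (2 * k) * Real.exp (-(r ^ 2 * x ^ 2)))) +
          ∫⁻ x in Set.Ioi x₁, ENNReal.ofReal (x ^ (2 * k) * Real.exp (-(r ^ 2 * x ^ 2)))) := by
          rw [← hsplit, htot]
      _ ≤ ENNReal.ofReal (r ^ (2 * k + 1)) *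
          ((∫⁻ x in Set.Ioc (0:ℝ) x₁, ENNReal.ofReal (x ^ (2 * k) * Real.exp (-(r ^ 2 * x ^ 2)))) +
          ENNReal.ofReal ((r ^ (2 * k + 1))⁻¹ * (G / 4))) := by
          gcongr
      _ = _ := by
          rw [mul_add, ← ENNReal.ofReal_mul hR.le]
          congr 2
          field_simp
  exact (ENNReal.add_le_add_iff_right ENNReal.ofReal_ne_top).mp hfin

private theorem fa_gamma (k : ℕ) :
    Real.Gamma ((k:ℝ) + 1) ≤ Real.sqrt (k + 1) * Real.Gamma ((k:ℝ) + 1 / 2) := by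
  have hk : (0:ℝ) ≤ k := Nat.cast_nonneg k
  have h := Real.Gamma_mul_add_mul_le_rpow_Gamma_mul_rpow_Gamma (s := (k:ℝ) + 1/2)
    (t := (k:ℝ) + 1/2 + 1) (a := 1/2) (b := 1/2) (by positivity) (by positivity) (by norm_num)
    (by norm_num) (by norm_num)
  have hG : 0 < Real.Gamma ((k:ℝ) + 1/2) := Real.Gamma_pos_of_pos (by positivity)
  rw [Real.Gamma_add_one (by positivity), Real.mul_rpow (by positivity) hG.le] at h
  have h1 : (1:ℝ)/2 * ((k:ℝ) + 1/2) + 1/2 * ((k:ℝ) + 1/2 + 1) = k + 1 := by ring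
  rw [h1] at h
  refine h.trans ?_
  have h2 : Real.Gamma ((k:ℝ) + 1/2) ^ (1/2:ℝ) * Real.Gamma ((k:ℝ) + 1/2) ^ (1/2:ℝ) =
      Real.Gamma ((k:ℝ) + 1/2) := by
    rw [← Real.rpow_add hG]; norm_num
  calc _ = ((k:ℝ) + 1/2) ^ (1/2:ℝ) * (Real.Gamma ((k:ℝ) + 1/2) ^ (1/2:ℝ) *
        Real.Gamma ((k:ℝ) + 1/2) ^ (1/2:ℝ)) := by ring
    _ = ((k:ℝ) + 1/2) ^ (1/2:ℝ) * Real.Gamma ((k:ℝ) + 1/2) := by rw [h2]
    _ ≤ _ := by
      refine mul_le_mul_of_nonneg_right ?_ hG.le
      rw [← Real.sqrt_eq_rpow]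
      exact Real.sqrt_le_sqrt (by linarith)

theorem far {E : Type*} [NormedAddCommGroup E] [InnerProductSpace ℝ E]
    [FiniteDimensional ℝ E] [MeasurableSpace E] [BorelSpace E] (N : ℕ) (hN : 1 ≤ N)
    (hE : Module.finrank ℝ E = 2 * N) (S : E → ℝ≥0∞) (hS : Measurable S) (A : ℝ≥0∞)
    (hA : ∀ t : ℝ, 0 < t → ∫⁻ v : E, S v * ENNReal.ofReal (Real.exp (-(t ^ 2 * ‖v‖ ^ 2))) ≤
      A * ENNReal.ofReal (t ^ 2) * ∫⁻ v : E, ENNReal.ofReal (Real.exp (-(t ^ 2 * ‖v‖ ^ 2))))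
    (δ : ℝ) (hδ : 0 < δ) :
    ∫⁻ u : Metric.sphere (0 : E) 1, (∫⁻ r in Set.Ioi δ, S (r • (u : E)))
        ∂(volume : Measure E).toSphere ≤
      ENNReal.ofReal (4 * N / δ) * A * (volume : Measure E).toSphere Set.univ := by
  obtain ⟨k, rfl⟩ : ∃ k, N = k + 1 := ⟨N - 1, by omega⟩
  have hnt : Nontrivial E := Module.nontrivial_of_finrank_pos (R := ℝ) (by omega)
  have hdim : Module.finrank ℝ E - 1 = 2 * k + 1 := by omega
  set σ := (volume : Measure E).toSphere with hσ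
  set x₁ := 2 * Real.sqrt (k + 1) / δ with hx₁
  have hx0 : 0 < x₁ := by positivity
  set G := Real.Gamma ((k:ℝ) + 1 / 2) with hG
  have hG0 : 0 < G := Real.Gamma_pos_of_pos (by positivity)
  set W : ℝ → ℝ≥0∞ := fun r => ∫⁻ x in Set.Ioc (0:ℝ) x₁,
          ENNReal.ofReal (x ^ (2 * k) * Real.exp (-(r ^ 2 * x ^ 2))) with hW
  have hWm : Measurable W := by
    rw [hW]
    exact Measurable.lintegral_prod_right' (f := fun p : ℝ × ℝ =>
      ENNReal.ofReal (p.2 ^ (2 * k) * Real.exp (-(p.1 ^ 2 * p.2 ^ 2)))) (by fun_prop)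
  -- the Gaussian integral
  have hgauss : ∀ t : ℝ, 0 < t → ∫⁻ v : E, ENNReal.ofReal (Real.exp (-(t ^ 2 * ‖v‖ ^ 2))) =
      ENNReal.ofReal ((t ^ (2 * k + 2))⁻¹ * (Real.Gamma ((k:ℝ) + 1) / 2)) * σ Set.univ := by
    intro t ht
    rw [fa_polar _ (by fun_prop)]
    have h1 : ∀ u : Metric.sphere (0:E) 1, (∫⁻ r in Set.Ioi (0:ℝ),
        ENNReal.ofReal (r ^ (Module.finrank ℝ E - 1)) *
          ENNReal.ofReal (Real.exp (-(t ^ 2 * ‖r • (u:E)‖ ^ 2)))) =
        ENNReal.ofReal ((t ^ (2 * k + 2))⁻¹ * (Real.Gamma ((k:ℝ) + 1) / 2)) := by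
      intro u
      have h2 := fa_gint (2 * k + 1) (b := t ^ 2) (by positivity)
      have e2 : (t ^ 2) ^ (-(((2 * k + 1 : ℕ):ℝ) + 1) / 2) * (1/2) *
          Real.Gamma ((((2 * k + 1 : ℕ):ℝ) + 1) / 2) =
          (t ^ (2 * k + 2))⁻¹ * (Real.Gamma ((k:ℝ) + 1) / 2) := by
        have e3 : (t ^ 2) ^ (-(((2 * k + 1 : ℕ):ℝ) + 1) / 2) = (t ^ (2 * k + 2))⁻¹ := by
          rw [← Real.rpow_natCast t 2, ← Real.rpow_mul ht.le, ← Real.rpow_natCast t (2 * k + 2),
            ← Real.rpow_neg ht.le]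
          congr 1
          push_cast; ring
        rw [e3]
        have e4 : ((((2 * k + 1 : ℕ):ℝ) + 1) / 2) = (k:ℝ) + 1 := by push_cast; ring
        rw [e4]; ring
      rw [e2] at h2
      rw [← h2]
      refine setLIntegral_congr_fun measurableSet_Ioi fun r hr => ?_
      have hr0 : (0:ℝ) < r := hr
      rw [hdim]
      rw [← ENNReal.ofReal_mul (by positivity), norm_smul, Real.norm_of_nonneg hr0.le]
      have : ‖(u:E)‖ = 1 := by simp
      rw [this, mul_one]
    rw [lintegral_congr h1, lintegral_const]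
  -- main chain
  have hmain : ENNReal.ofReal (G / 4) *
      ∫⁻ u : Metric.sphere (0 : E) 1, (∫⁻ r in Set.Ioi δ, S (r • (u : E))) ∂σ ≤
      A * ENNReal.ofReal (Real.Gamma ((k:ℝ) + 1) / 2 * x₁) * σ Set.univ := by
    calc ENNReal.ofReal (G / 4) *
      ∫⁻ u : Metric.sphere (0 : E) 1, (∫⁻ r in Set.Ioi δ, S (r • (u : E))) ∂σ
        = ∫⁻ u : Metric.sphere (0 : E) 1, (∫⁻ r in Set.Ioi δ,
          ENNReal.ofReal (G / 4) * S (r • (u : E))) ∂σ := by
          rw [← lintegral_const_mul' _ _ ENNReal.ofReal_ne_top]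
          refine lintegral_congr fun u => ?_
          rw [lintegral_const_mul' _ _ ENNReal.ofReal_ne_top]
      _ ≤ ∫⁻ u : Metric.sphere (0 : E) 1, (∫⁻ r in Set.Ioi (0:ℝ),
          ENNReal.ofReal (r ^ (Module.finrank ℝ E - 1)) *
            (S (r • (u:E)) * W ‖r • (u:E)‖)) ∂σ := by
          refine lintegral_mono fun u => ?_
          calc _ ≤ ∫⁻ r in Set.Ioi δ, ENNReal.ofReal (r ^ (Module.finrank ℝ E - 1)) *
                (S (r • (u:E)) * W ‖r • (u:E)‖) := by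
                refine setLIntegral_mono' measurableSet_Ioi fun r hr => ?_
                have hr0 : 0 < r := hδ.trans hr
                have h1 : ‖r • (u:E)‖ = r := by
                  have : ‖(u:E)‖ = 1 := by simp
                  rw [norm_smul, Real.norm_of_nonneg hr0.le, this, mul_one]
                rw [h1, hdim, mul_left_comm, mul_comm (S _)]
                gcongr
                exact fa_key k hδ hr
            _ ≤ _ := by
                gcongr
      _ = ∫⁻ v : E, S v * W ‖v‖ := by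
          rw [hσ, ← fa_polar (fun v : E => S v * W ‖v‖) (hS.mul (hWm.comp measurable_norm))]
      _ = ∫⁻ v : E, ∫⁻ x in Set.Ioc (0:ℝ) x₁, S v *
            ENNReal.ofReal (x ^ (2 * k) * Real.exp (-(‖v‖ ^ 2 * x ^ 2))) := by
          refine lintegral_congr fun v => ?_
          rw [hW, lintegral_const_mul _ (by fun_prop)]
      _ = ∫⁻ x in Set.Ioc (0:ℝ) x₁, ∫⁻ v : E, S v *
            ENNReal.ofReal (x ^ (2 * k) * Real.exp (-(‖v‖ ^ 2 * x ^ 2))) := by
          rw [lintegral_lintegral_swap]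
          refine Measurable.aemeasurable ?_
          exact (hS.comp measurable_fst).mul (by fun_prop)
      _ ≤ ∫⁻ x in Set.Ioc (0:ℝ) x₁, A * ENNReal.ofReal (Real.Gamma ((k:ℝ) + 1) / 2) *
            σ Set.univ := by
          refine setLIntegral_mono' measurableSet_Ioc fun x hx => ?_
          have hx1 : 0 < x := hx.1
          calc ∫⁻ v : E, S v * ENNReal.ofReal (x ^ (2 * k) * Real.exp (-(‖v‖ ^ 2 * x ^ 2)))
              = ENNReal.ofReal (x ^ (2 * k)) *
                ∫⁻ v : E, S v * ENNReal.ofReal (Real.exp (-(x ^ 2 * ‖v‖ ^ 2))) := by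
                rw [← lintegral_const_mul' _ _ ENNReal.ofReal_ne_top]
                refine lintegral_congr fun v => ?_
                rw [ENNReal.ofReal_mul (by positivity), mul_comm (‖v‖ ^ 2)]
                ring
            _ ≤ ENNReal.ofReal (x ^ (2 * k)) * (A * ENNReal.ofReal (x ^ 2) *
                ∫⁻ v : E, ENNReal.ofReal (Real.exp (-(x ^ 2 * ‖v‖ ^ 2)))) := by
                gcongr
                exact hA x hx1
            _ = _ := by
                rw [hgauss x hx1]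
                have e1 : ENNReal.ofReal (x ^ (2 * k)) * ENNReal.ofReal (x ^ 2) *
                    ENNReal.ofReal ((x ^ (2 * k + 2))⁻¹ * (Real.Gamma ((k:ℝ) + 1) / 2)) =
                    ENNReal.ofReal (Real.Gamma ((k:ℝ) + 1) / 2) := by
                  rw [← ENNReal.ofReal_mul (by positivity), ← ENNReal.ofReal_mul (by positivity)]
                  congr 1
                  rw [← pow_add]
                  field_simp
                calc _ = A * (ENNReal.ofReal (x ^ (2 * k)) * ENNReal.ofReal (x ^ 2) *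
                    ENNReal.ofReal ((x ^ (2 * k + 2))⁻¹ * (Real.Gamma ((k:ℝ) + 1) / 2))) *
                      σ Set.univ := by ring
                  _ = _ := by rw [e1]
      _ = _ := by
          rw [setLIntegral_const, Real.volume_Ioc, sub_zero, ENNReal.ofReal_mul (by
            have := Real.Gamma_pos_of_pos (s := (k:ℝ) + 1) (by positivity)
            positivity)]
          ring
  have hfinal : A * ENNReal.ofReal (Real.Gamma ((k:ℝ) + 1) / 2 * x₁) * σ Set.univ ≤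
      ENNReal.ofReal (G / 4) * (ENNReal.ofReal (4 * ((k + 1 : ℕ):ℝ) / δ) * A * σ Set.univ) := by
    have h1 : ENNReal.ofReal (Real.Gamma ((k:ℝ) + 1) / 2 * x₁) ≤
        ENNReal.ofReal (G / 4) * ENNReal.ofReal (4 * ((k + 1 : ℕ):ℝ) / δ) := by
      rw [← ENNReal.ofReal_mul (by positivity)]
      refine ENNReal.ofReal_le_ofReal ?_
      have h2 := fa_gamma k
      have h4 : Real.sqrt ((k:ℝ) + 1) * Real.sqrt ((k:ℝ) + 1) = k + 1 :=
        Real.mul_self_sqrt (by positivity)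
      calc Real.Gamma ((k:ℝ) + 1) / 2 * x₁ ≤ (Real.sqrt (k + 1) * G) / 2 * x₁ := by
            gcongr
        _ = (Real.sqrt ((k:ℝ) + 1) * Real.sqrt ((k:ℝ) + 1)) * G / δ := by
            rw [hx₁]; ring
        _ = _ := by
            rw [h4]; push_cast; ring
    calc _ = A * σ Set.univ * ENNReal.ofReal (Real.Gamma ((k:ℝ) + 1) / 2 * x₁) := by ring
      _ ≤ A * σ Set.univ * (ENNReal.ofReal (G / 4) *
            ENNReal.ofReal (4 * ((k + 1 : ℕ):ℝ) / δ)) := by gcongr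
      _ = _ := by ring
  have hcancel := hmain.trans hfinal
  exact (ENNReal.mul_le_mul_iff_right (by simpa using hG0) ENNReal.ofReal_ne_top).mp hcancel

end Pool.Agent.Lib.CLN
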