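import Pool.Agent.Lib.CLN.OD0
/-! MP_bd3536_an, row OD1.

Uniform local existence on a compact set. The set of the `(s, z)` with `s ∈ Icc 0 1`, `‖z‖ ≤ 1`,
`δ ≤ ‖det‖` is compact, and the flow of the field near each of its points is continuous.
-/

set_option autoImplicit false

open MeasureTheory
open scoped ENNReal NNReal ComplexConjugate

namespace Pool.Agent.Lib.CLN

variable {n : ℕ} {d : Fin n → ℕ}

private theorem cont_det (f : Sys d) :
    Continuous fun p : ℝ × Pt n => (Lz (seg f p.1) p.2).det := by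
  have h1 : Continuous fun p : ℝ × Pt n => Lz (seg f p.1) p.2 :=
    continuous_matrix fun j m => continuous_iff_continuousAt.2 fun p =>
      (contDiffAt_Lz f p j m).continuousAt
  exact h1.matrix_det

/-- Local existence near one point. -/
private theorem local_at (f : Sys d) (p0 : ℝ × Pt n) (hp : (Lz (seg f p0.1) p0.2).det ≠ 0) :
    ∃ r > (0 : ℝ), ∃ ε > (0 : ℝ), ∀ p ∈ Metric.ball p0 r,
      ∃ z : ℝ → Pt n, z p.1 = p.2 ∧ IsSol f z p.1 (p.1 + ε) := by
  obtain ⟨ε, hε, a, r, L, K, hr, hpl⟩ :=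
    IsPicardLindelof.of_contDiffAt_one (contDiffAt_field f p0 hp)
  obtain ⟨α, hα, hcont⟩ := (hpl 0).exists_forall_mem_closedBall_eq_hasDerivWithinAt_continuousOn
  have hr' : (0 : ℝ) < r := hr
  have hU : IsOpen {p : ℝ × Pt n | (Lz (seg f p.1) p.2).det ≠ 0} :=
    isOpen_ne_fun (cont_det f) continuous_const
  have hmem : (p0, (0 : ℝ)) ∈ Metric.closedBall p0 (r : ℝ) ×ˢ Set.Icc (0 - ε) (0 + ε) := by
    refine ⟨Metric.mem_closedBall_self hr'.le, ?_, ?_⟩ <;> simp [hε.le]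
  have h0 : α (p0, 0) = p0 := (hα p0 (Metric.mem_closedBall_self hr'.le)).1
  have hev : ∀ᶠ q in nhdsWithin (p0, (0 : ℝ)) (Metric.closedBall p0 (r : ℝ) ×ˢ Set.Icc (0 - ε) (0 + ε)),
      (Lz (seg f (α q).1) (α q).2).det ≠ 0 := by
    have := hcont (p0, 0) hmem
    refine this.eventually (hU.mem_nhds ?_)
    rw [h0]
    exact hp
  rw [eventually_nhdsWithin_iff, Metric.eventually_nhds_iff] at hev
  obtain ⟨η, hη, hev⟩ := hev
  refine ⟨min r (η / 2), lt_min hr' (by positivity), min ε (η / 2), lt_min hε (by positivity), ?_⟩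
  intro p hpb
  have hpb' : dist p p0 < min (r : ℝ) (η / 2) := hpb
  have hpr : p ∈ Metric.closedBall p0 (r : ℝ) :=
    Metric.mem_closedBall.2 (hpb'.le.trans (min_le_left _ _))
  obtain ⟨hs, hd⟩ := hα p hpr
  set ε' := min ε (η / 2) with hε'
  have hε'0 : 0 < ε' := lt_min hε (by positivity)
  -- the curve
  have hder : ∀ t ∈ Set.Icc (0 : ℝ) ε', HasDerivWithinAt (fun t => α (p, t))
      ((1 : ℝ), Xf f (α (p, t)).1 (α (p, t)).2) (Set.Icc 0 ε') t := by
    intro t ht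
    refine (hd t ⟨by linarith [ht.1], by
      have := ht.2.trans (min_le_left _ _)
      linarith⟩).mono ?_
    intro x hx
    exact ⟨by linarith [hx.1], by
      have := hx.2.trans (min_le_left _ _)
      linarith⟩
  have hfst : ∀ t ∈ Set.Icc (0 : ℝ) ε', (α (p, t)).1 = p.1 + t := by
    have hd1 : ∀ t ∈ Set.Icc (0 : ℝ) ε', HasDerivWithinAt (fun t => (α (p, t)).1 - t) 0
        (Set.Icc 0 ε') t := by
      intro t ht
      have h1 := (hder t ht)
      have h2 : HasDerivWithinAt (fun t => (α (p, t)).1) (1 : ℝ) (Set.Icc 0 ε') t :=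
        (ContinuousLinearMap.fst ℝ ℝ (Pt n)).hasFDerivAt.comp_hasDerivWithinAt t h1
      have h3 := h2.sub (hasDerivWithinAt_id t (Set.Icc 0 ε'))
      rw [sub_self] at h3
      exact h3
    have hconst := constant_of_has_deriv_right_zero (f := fun t => (α (p, t)).1 - t) (a := 0)
      (b := ε') (fun t ht => (hd1 t ht).continuousWithinAt) (fun t ht => by
        exact ((hd1 t ⟨ht.1, ht.2.le⟩).mono_of_mem_nhdsWithin
          (Icc_mem_nhdsGE_of_mem ht)))
    intro t ht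
    have h := hconst t ht
    simp only [hs, sub_zero] at h
    linarith
  refine ⟨fun s => (α (p, s - p.1)).2, ?_, ?_⟩
  · simp only [sub_self, hs]
  · intro s hsI
    have ht : s - p.1 ∈ Set.Icc (0 : ℝ) ε' := ⟨by linarith [hsI.1], by linarith [hsI.2]⟩
    have h1 : (α (p, s - p.1)).1 = s := by
      rw [hfst _ ht]
      ring
    constructor
    · have hdist : dist (p, s - p.1) (p0, (0 : ℝ)) < η := by
        rw [Prod.dist_eq]
        refine max_lt ?_ ?_
        · have := hpb'.trans_le (min_le_right _ _)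
          linarith
        · rw [Real.dist_eq, sub_zero, abs_of_nonneg ht.1]
          have := ht.2.trans (min_le_right _ _)
          linarith
      have h2 := hev hdist ⟨hpr, by linarith [ht.1], by
        have := ht.2.trans (min_le_left _ _)
        linarith⟩
      rw [h1] at h2
      exact h2
    · have h3 := hder _ ht
      have h4 : HasDerivWithinAt (fun t => (α (p, t)).2) (Xf f (α (p, s - p.1)).1 (α (p, s - p.1)).2)
          (Set.Icc 0 ε') (s - p.1) :=
        (ContinuousLinearMap.snd ℝ ℝ (Pt n)).hasFDerivAt.comp_hasDerivWithinAt (s - p.1) h3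
      rw [h1] at h4
      have h5 : HasDerivWithinAt (fun s : ℝ => s - p.1) 1 (Set.Icc p.1 (p.1 + ε')) s :=
        (hasDerivWithinAt_id s _).sub_const p.1
      have hmaps : Set.MapsTo (fun s : ℝ => s - p.1) (Set.Icc p.1 (p.1 + ε')) (Set.Icc 0 ε') :=
        fun x hx => ⟨by linarith [hx.1], by linarith [hx.2]⟩
      have h6 := h4.scomp s h5 hmaps
      rw [one_smul] at h6
      exact h6

/-- A lower bound of the determinant. -/
private theorem det_lower (B : ℝ) : ∃ δ > (0 : ℝ), ∀ (h : Sys d) (z : Pt n),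
    (Lz h z).det ≠ 0 → Fr h z ≤ B → δ ≤ ‖(Lz h z).det‖ := by
  set b : ℝ := Real.sqrt B + 1 with hb
  have hb0 : 0 < b := by positivity
  set D : ℝ := (Nat.factorial (n + 1) : ℝ) * b ^ (n + 1) with hD
  have hD0 : 0 < D := by positivity
  refine ⟨D⁻¹, inv_pos.2 hD0, ?_⟩
  intro h z hdet hF
  have hent : ∀ j m, ‖(Lz h z)⁻¹ j m‖ ≤ b := by
    intro j m
    have h1 : ‖(Lz h z)⁻¹ j m‖ ^ 2 ≤ B := by
      refine le_trans ?_ hF
      rw [Fr]
      refine le_trans ?_ (Finset.single_le_sum (f := fun j => ∑ m, ‖(Lz h z)⁻¹ j m‖ ^ 2)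
        (fun i _ => Finset.sum_nonneg fun _ _ => sq_nonneg _) (Finset.mem_univ j))
      exact Finset.single_le_sum (f := fun m => ‖(Lz h z)⁻¹ j m‖ ^ 2)
        (fun i _ => sq_nonneg _) (Finset.mem_univ m)
    have h2 : ‖(Lz h z)⁻¹ j m‖ ≤ Real.sqrt B := Real.le_sqrt_of_sq_le h1
    linarith
  have hdi : ‖((Lz h z)⁻¹).det‖ ≤ D := by
    have h1 := Matrix.det_le (A := (Lz h z)⁻¹) (abv := NormedField.toAbsoluteValue ℂ) (x := b) hent
    rw [Fintype.card_fin, nsmul_eq_mul] at h1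
    exact h1
  rw [Matrix.det_nonsing_inv, Ring.inverse_eq_inv', norm_inv] at hdi
  have hpos : 0 < ‖(Lz h z).det‖ := norm_pos_iff.2 hdet
  exact inv_le_of_inv_le₀ hpos hdi

theorem local_sol (f : Sys d) (B : ℝ) :
    ∃ ε > 0, ∀ s0 ∈ Set.Icc (0 : ℝ) 1, ∀ z0 : Pt n, ‖z0‖ = 1 →
      (Lz (seg f s0) z0).det ≠ 0 → Fr (seg f s0) z0 ≤ B →
      ∃ z : ℝ → Pt n, z s0 = z0 ∧ IsSol f z s0 (s0 + ε) := by
  obtain ⟨δ, hδ, hlow⟩ := det_lower (d := d) B
  set K : Set (ℝ × Pt n) := {p | p ∈ Set.Icc (0 : ℝ) 1 ×ˢ Metric.closedBall (0 : Pt n) 1 ∧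
    δ ≤ ‖(Lz (seg f p.1) p.2).det‖} with hK
  have hKc : IsCompact K := by
    have h1 : IsCompact (Set.Icc (0 : ℝ) 1 ×ˢ Metric.closedBall (0 : Pt n) 1) :=
      isCompact_Icc.prod (isCompact_closedBall _ _)
    exact h1.inter_right (isClosed_le continuous_const (cont_det f).norm)
  have main : ∃ ε > (0 : ℝ), ∀ p ∈ K, ∃ z : ℝ → Pt n, z p.1 = p.2 ∧ IsSol f z p.1 (p.1 + ε) := by
    have hmono : ∀ (ε ε' a : ℝ) (z : ℝ → Pt n), ε ≤ ε' → IsSol f z a (a + ε') →
        IsSol f z a (a + ε) := by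
      intro ε ε' a z h hz s hs
      have hs' : s ∈ Set.Icc a (a + ε') := ⟨hs.1, by linarith [hs.2]⟩
      exact ⟨(hz s hs').1, (hz s hs').2.mono (Set.Icc_subset_Icc le_rfl (by linarith))⟩
    refine hKc.induction_on (p := fun S => ∃ ε > (0 : ℝ), ∀ p ∈ S, ∃ z : ℝ → Pt n, z p.1 = p.2 ∧
      IsSol f z p.1 (p.1 + ε)) ?_ ?_ ?_ ?_
    · exact ⟨1, one_pos, fun p hp => hp.elim⟩
    · rintro S S' hSS ⟨ε, hε, h⟩
      exact ⟨ε, hε, fun p hp => h p (hSS hp)⟩
    · rintro S S' ⟨ε, hε, h⟩ ⟨ε', hε', h'⟩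
      refine ⟨min ε ε', lt_min hε hε', ?_⟩
      rintro p (hp | hp)
      · obtain ⟨z, hz1, hz2⟩ := h p hp
        exact ⟨z, hz1, hmono _ _ _ _ (min_le_left _ _) hz2⟩
      · obtain ⟨z, hz1, hz2⟩ := h' p hp
        exact ⟨z, hz1, hmono _ _ _ _ (min_le_right _ _) hz2⟩
    · intro p hp
      have hdet : (Lz (seg f p.1) p.2).det ≠ 0 := by
        intro h0
        have := hp.2
        rw [h0, norm_zero] at this
        linarith
      obtain ⟨r, hr, ε, hε, h⟩ := local_at f p hdet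
      exact ⟨Metric.ball p r, mem_nhdsWithin_of_mem_nhds (Metric.ball_mem_nhds p hr), ε, hε, h⟩
  obtain ⟨ε, hε, h⟩ := main
  refine ⟨ε, hε, ?_⟩
  intro s0 hs0 z0 hz0 hdet hF
  exact h (s0, z0) ⟨⟨hs0, by simp [hz0]⟩, hlow _ _ hdet hF⟩

end Pool.Agent.Lib.CLN
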