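import Pool.Agent.Lib.CLN.OD6
import Pool.Agent.Lib.CLN.OD1
/-! MP_bd3536_an, row OD7.

Global existence: with `B` from `apriori` and `ε` from `local_sol f B`, a solution on `[0, b]` from
`e_0` (`b ≤ 1`) extends to `[0, b + ε]` (`HasDerivWithinAt.union` at the junction; both one-sided
derivatives are `Xf f b (z b)`). Start: the constant function on `[0, 0]`. Induct `⌈1/ε⌉` times,
restrict to `[0, 1]`.
-/

set_option autoImplicit false

open MeasureTheory
open scoped ENNReal NNReal ComplexConjugate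

namespace Pool.Agent.Lib.CLN

variable {n : ℕ} {d : Fin n → ℕ}

private lemma isSol_mono {f : Sys d} {z : ℝ → Pt n} {a b c : ℝ} (h : IsSol f z a b) (hc : c ≤ b) :
    IsSol f z a c := fun s hs => by
  have hs' : s ∈ Set.Icc a b := ⟨hs.1, hs.2.trans hc⟩
  exact ⟨(h s hs').1, (h s hs').2.mono (Set.Icc_subset_Icc_right hc)⟩

private lemma isSol_glue {f : Sys d} {z w : ℝ → Pt n} {a b c : ℝ} (hab : a ≤ b) (hbc : b ≤ c)
    (hz : IsSol f z a b) (hw : IsSol f w b c) (h : w b = z b) :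
    IsSol f (fun s => if s ≤ b then z s else w s) a c := by
  set y : ℝ → Pt n := fun s => if s ≤ b then z s else w s with hy
  have hy1 : ∀ s ∈ Set.Icc a b, y s = z s := fun s hs => by simp [hy, hs.2]
  have hy2 : ∀ s ∈ Set.Icc b c, y s = w s := fun s hs => by
    by_cases hsb : s ≤ b
    · have : s = b := le_antisymm hsb hs.1
      simp [hy, this, h]
    · simp [hy, hsb]
  intro s hs
  have hun : Set.Icc a b ∪ Set.Icc b c = Set.Icc a c := Set.Icc_union_Icc_eq_Icc hab hbc
  have key1 : ∀ v : Pt n, (s ∈ Set.Icc a b → v = Xf f s (y s)) →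
      HasDerivWithinAt y v (Set.Icc a b) s := by
    intro v hv
    by_cases hsm : s ∈ Set.Icc a b
    · rw [hv hsm, hy1 s hsm]
      exact (hz s hsm).2.congr hy1 (hy1 s hsm)
    · have : s ∉ closure (Set.Icc a b) := by rwa [isClosed_Icc.closure_eq]
      exact (HasFDerivWithinAt.of_notMem_closure this : HasFDerivWithinAt y (ContinuousLinearMap.toSpanSingleton ℝ v) _ s)
  have key2 : ∀ v : Pt n, (s ∈ Set.Icc b c → v = Xf f s (y s)) →
      HasDerivWithinAt y v (Set.Icc b c) s := by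
    intro v hv
    by_cases hsm : s ∈ Set.Icc b c
    · rw [hv hsm, hy2 s hsm]
      exact (hw s hsm).2.congr hy2 (hy2 s hsm)
    · have : s ∉ closure (Set.Icc b c) := by rwa [isClosed_Icc.closure_eq]
      exact (HasFDerivWithinAt.of_notMem_closure this : HasFDerivWithinAt y (ContinuousLinearMap.toSpanSingleton ℝ v) _ s)
  refine ⟨?_, ?_⟩
  · by_cases hsb : s ≤ b
    · rw [hy1 s ⟨hs.1, hsb⟩]
      exact (hz s ⟨hs.1, hsb⟩).1
    · rw [hy2 s ⟨(not_le.mp hsb).le, hs.2⟩]
      exact (hw s ⟨(not_le.mp hsb).le, hs.2⟩).1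
  · rw [← hun]
    exact (key1 _ (fun _ => rfl)).union (key2 _ (fun _ => rfl))

theorem global_sol (hn : 1 ≤ n) (hd : ∀ i, 1 ≤ d i) (f : Sys d) (hf : ‖f‖ = 1)
    (hE : ∫⁻ s in Set.Icc (sd d) 1, SS (seg f s) ≠ ⊤) :
    ∃ z : ℝ → Pt n, z 0 = ptZero n ∧ IsSol f z 0 1 := by
  obtain ⟨B, hB⟩ := apriori hn hd f hf hE
  obtain ⟨ε, hε, hloc⟩ := local_sol f B
  have hseg0 : seg f 0 = gSys d := by simp [seg]
  have hnorm0 : ‖ptZero n‖ = 1 := by simp [ptZero]
  have step : ∀ m : ℕ, ∃ z : ℝ → Pt n, z 0 = ptZero n ∧ IsSol f z 0 (min (m * ε) 1) := by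
    intro m
    induction m with
    | zero =>
      refine ⟨fun _ => ptZero n, rfl, ?_⟩
      intro s hs
      have h0 : min (((0 : ℕ) : ℝ) * ε) 1 = 0 := by simp
      rw [h0] at hs ⊢
      have hs0 : s = 0 := le_antisymm hs.2 hs.1
      subst hs0
      refine ⟨?_, ?_⟩
      · rw [hseg0]
        exact (Fr_start hn hd).1
      · rw [Set.Icc_self]
        exact HasFDerivWithinAt.singleton
    | succ m ih =>
      obtain ⟨z, hz0, hz⟩ := ih
      set b := min ((m : ℝ) * ε) 1 with hb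
      have hb0 : 0 ≤ b := le_min (by positivity) zero_le_one
      have hb1 : b ≤ 1 := min_le_right _ _
      have hinv := sol_inv hd f z 0 b hb0 hz (by rw [hz0, hnorm0])
        (by rw [hz0, hseg0]; exact ev_start hn hd) b ⟨hb0, le_rfl⟩
      obtain ⟨w, hw0, hw⟩ := hloc b ⟨hb0, hb1⟩ (z b) hinv.1 (hz b ⟨hb0, le_rfl⟩).1
        (hB z b hb0 hb1 hz0 hz)
      have hg := isSol_glue hb0 (by linarith) hz hw hw0
      refine ⟨_, ?_, isSol_mono hg ?_⟩
      · simp [hb0, hz0]
      · rw [hb]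
        push_cast
        rw [add_mul, one_mul]
        rcases le_total ((m : ℝ) * ε) 1 with h | h
        · rw [min_eq_left h]
          exact min_le_left _ _
        · rw [min_eq_right h]
          exact (min_le_right _ _).trans (by linarith)
  obtain ⟨m, hm⟩ := exists_nat_ge (1 / ε)
  obtain ⟨z, hz0, hz⟩ := step m
  have h1 : 1 ≤ (m : ℝ) * ε := by
    rw [div_le_iff₀ hε] at hm
    exact hm
  rw [min_eq_right h1] at hz
  exact ⟨z, hz0, hz⟩

end Pool.Agent.Lib.CLN
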