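import Pool.Agent.Lib.CLN.KR
/-! MP_bd3536_an, row TR.

Transfer from `volume` on `Idx d → ℂ` to `volume` on `Sys d`: the image of the first under `toLp` is
an additive Haar measure, so it is a constant times `volume` (`Measure.isAddHaarMeasure_eq_smul`
or `Measure.addHaarMeasure_unique`; constant neither `0` nor `⊤`); then translate by `gSys d` and sum over `k`.
-/

set_option autoImplicit false

open MeasureTheory
open scoped ENNReal NNReal ComplexConjugate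

namespace Pool.Agent.Lib.CLN

variable {n : ℕ} {d : Fin n → ℕ}

private theorem meas_ofLp : Measurable (fun h : Sys d => (WithLp.ofLp h : Idx d → ℂ)) :=
  (PiLp.continuous_ofLp 2 (fun _ : Idx d => ℂ)).measurable

private theorem Sk_meas' (hd : ∀ i, 1 ≤ d i) (k : Fin (n + 1)) :
    Measurable (fun h : Sys d => Sk k h) := by
  have h1 := (Sk_measurable hd k).comp (meas_ofLp (d := d))
  exact h1

theorem SS_measurable (hd : ∀ i, 1 ≤ d i) : Measurable (SS : Sys d → ℝ≥0∞) := by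
  have h : (SS : Sys d → ℝ≥0∞) = fun h => ∑ k, Sk k h := rfl
  rw [h]
  exact Finset.measurable_sum _ fun k _ => Sk_meas' hd k

private theorem transfer : ∃ c : ℝ≥0∞, c ≠ 0 ∧ c ≠ ⊤ ∧ ∀ G : Sys d → ℝ≥0∞, Measurable G →
    ∫⁻ v : Sys d, G v = c * ∫⁻ h : Idx d → ℂ, G (WithLp.toLp 2 h) := by
  have hT : Measurable (fun h : Idx d → ℂ => (WithLp.toLp 2 h : Sys d)) :=
    (PiLp.continuous_toLp 2 (fun _ : Idx d => ℂ)).measurable
  let L : (Idx d → ℂ) ≃L[ℂ] Sys d := (PiLp.continuousLinearEquiv 2 ℂ (fun _ : Idx d => ℂ)).symm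
  let μ : Measure (Sys d) := (volume : Measure (Idx d → ℂ)).map L
  have : μ.IsAddHaarMeasure := ContinuousLinearEquiv.isAddHaarMeasure_map L volume
  have hc := Measure.isAddLeftInvariant_eq_smul (volume : Measure (Sys d)) μ
  have hpos := Measure.addHaarScalarFactor_pos_of_isAddHaarMeasure (volume : Measure (Sys d)) μ
  set c : ℝ≥0 := Measure.addHaarScalarFactor (volume : Measure (Sys d)) μ
  refine ⟨c, by exact_mod_cast hpos.ne', ENNReal.coe_ne_top, fun G hG => ?_⟩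
  rw [hc, lintegral_smul_measure]
  have h2 : ∫⁻ v : Sys d, G v ∂μ = ∫⁻ h : Idx d → ℂ, G (WithLp.toLp 2 h) := by
    have := lintegral_map (μ := (volume : Measure (Idx d → ℂ))) (f := G) (g := fun h : Idx d → ℂ => (WithLp.toLp 2 h : Sys d)) hG hT
    exact this
  rw [h2]
  rfl

private theorem wt_meas (t : ℝ) : Measurable (fun h : Sys d => wt t h) := by
  unfold wt
  fun_prop

theorem kac_rice_sys (hd : ∀ i, 1 ≤ d i) (t : ℝ) (ht : 0 < t) :
    ∫⁻ v : Sys d, SS (gSys d + v) * ENNReal.ofReal (Real.exp (-(t ^ 2 * ‖v‖ ^ 2))) ≤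
      ENNReal.ofReal ((n + 1) * n * t ^ 2) * (∏ i, (d i : ℝ≥0∞)) *
        ∫⁻ v : Sys d, ENNReal.ofReal (Real.exp (-(t ^ 2 * ‖v‖ ^ 2))) := by
  obtain ⟨c, hc0, hct, hc⟩ := transfer (d := d)
  have hw : ∀ v : Sys d, ENNReal.ofReal (Real.exp (-(t ^ 2 * ‖v‖ ^ 2))) = wt t (gSys d + v) := by
    intro v
    simp [wt]
  have e1 : ∫⁻ v : Sys d, SS (gSys d + v) * ENNReal.ofReal (Real.exp (-(t ^ 2 * ‖v‖ ^ 2))) =
      ∫⁻ h : Sys d, SS h * wt t h := by
    rw [← lintegral_add_left_eq_self (fun h : Sys d => SS h * wt t h) (gSys d)]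
    simp only [hw]
  have e2 : ∫⁻ v : Sys d, ENNReal.ofReal (Real.exp (-(t ^ 2 * ‖v‖ ^ 2))) =
      ∫⁻ h : Sys d, wt t h := by
    rw [← lintegral_add_left_eq_self (fun h : Sys d => wt t h) (gSys d)]
    simp only [hw]
  rw [e1, e2]
  have e3 : ∫⁻ h : Sys d, SS h * wt t h = ∑ k, ∫⁻ h : Sys d, Sk k h * wt t h := by
    simp only [SS, Finset.sum_mul]
    rw [lintegral_finsetSum]
    intro k _
    exact (Sk_meas' hd k).mul (wt_meas t)
  rw [e3]
  have e4 : ∀ k : Fin (n + 1), ∫⁻ h : Sys d, Sk k h * wt t h ≤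
      ENNReal.ofReal (n * t ^ 2) * (∏ i, (d i : ℝ≥0∞)) * ∫⁻ h : Sys d, wt t h := by
    intro k
    rw [hc (fun h => Sk k h * wt t h) ((Sk_meas' hd k).mul (wt_meas t)), hc (fun h => wt t h) (wt_meas t)]
    calc c * ∫⁻ h : Idx d → ℂ, Sk k (WithLp.toLp 2 h : Sys d) * wt t (WithLp.toLp 2 h : Sys d)
        ≤ c * (ENNReal.ofReal (n * t ^ 2) * (∏ i, (d i : ℝ≥0∞)) *
          ∫⁻ h : Idx d → ℂ, wt t (WithLp.toLp 2 h : Sys d)) := by
          gcongr
          exact kac_rice hd k t ht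
      _ = _ := by ring
  calc ∑ k, ∫⁻ h : Sys d, Sk k h * wt t h
      ≤ ∑ _k : Fin (n + 1), ENNReal.ofReal (n * t ^ 2) * (∏ i, (d i : ℝ≥0∞)) *
        ∫⁻ h : Sys d, wt t h := Finset.sum_le_sum fun k _ => e4 k
    _ = ENNReal.ofReal ((n + 1) * n * t ^ 2) * (∏ i, (d i : ℝ≥0∞)) *
        ∫⁻ h : Sys d, wt t h := by
      rw [Finset.sum_const, Finset.card_univ, Fintype.card_fin, nsmul_eq_mul, ← mul_assoc,
        ← mul_assoc]
      congr 2
      have hn1 : ((n + 1 : ℕ) : ℝ≥0∞) = ENNReal.ofReal ((n : ℝ) + 1) := by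
        rw [← Nat.cast_succ, ENNReal.ofReal_natCast]
      rw [hn1, ← ENNReal.ofReal_mul (by positivity)]
      congr 1
      ring

end Pool.Agent.Lib.CLN
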