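import Pool.Agent.Lib.CLN.LM1
import Pool.Agent.Lib.CLN.TR
/-! MP_bd3536_an, row SB.

Substitution `s = r / (1 + r)` (`lintegral_image_eq_lintegral_abs_deriv_mul`, image of `Ioi b`
under it is `Ioo (b/(1+b)) 1`, `b = a/(1-a) ≥ a`): `seg f s = (1 - s) • (gSys d + r • f)`, `NF_smul` gives
`SS (seg f s) = (1 - s)⁻² SS (gSys d + r • f)` (also `zset` is invariant) and `ds = (1-s)² dr`.
Measurability of the inner integral: Tonelli.
-/

set_option autoImplicit false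

open MeasureTheory
open scoped ENNReal NNReal ComplexConjugate

namespace Pool.Agent.Lib.CLN

variable {n : ℕ} {d : Fin n → ℕ}

private theorem sb_smul_apply (a : ℝ) (h : Sys d) (p : Idx d) : (a • h) p = (a : ℂ) * h p := by
  rw [PiLp.smul_apply, Complex.real_smul]

private theorem sb_ev_smul (a : ℝ) (h : Sys d) (z : Pt n) (i : Fin n) :
    ev (a • h) z i = (a : ℂ) * ev h z i := by
  show ∑ α : Mon n (d i), (a • h) ⟨i, α⟩ * mon (d i) z α =
    (a : ℂ) * ∑ α : Mon n (d i), h ⟨i, α⟩ * mon (d i) z α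
  rw [Finset.mul_sum]
  refine Finset.sum_congr rfl fun α _ => ?_
  rw [sb_smul_apply, mul_assoc]

private theorem sb_ev_zero (a : ℝ) (ha : a ≠ 0) (h : Sys d) (z : Pt n) :
    ev (a • h) z = 0 ↔ ev h z = 0 := by
  have hac : (a : ℂ) ≠ 0 := Complex.ofReal_ne_zero.2 ha
  constructor
  · intro h0
    ext i
    have := sb_ev_smul a h z i
    rw [h0] at this
    have h1 : (a : ℂ) * ev h z i = 0 := this.symm
    exact (mul_eq_zero.1 h1).resolve_left hac
  · intro h0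
    ext i
    rw [sb_ev_smul, h0]
    exact mul_zero _

private theorem sb_Jmat_smul (a : ℝ) (k : Fin (n + 1)) (h : Sys d) (x : Fin n → ℂ) :
    Jmat k (a • h) x = (a : ℂ) • Jmat k h x := by
  ext i j
  show (∑ α : Mon n (d i), (a • h) ⟨i, α⟩ * dmon (d i) (Zpt k x) (Pi.single (k.succAbove j) 1) α) =
    (a : ℂ) * ∑ α : Mon n (d i), h ⟨i, α⟩ * dmon (d i) (Zpt k x) (Pi.single (k.succAbove j) 1) α
  rw [Finset.mul_sum]
  refine Finset.sum_congr rfl fun α _ => ?_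
  rw [sb_smul_apply, mul_assoc]

private theorem sb_zset_smul (a : ℝ) (ha : a ≠ 0) (k : Fin (n + 1)) (h : Sys d) :
    zset k (a • h) = zset k h := by
  have hac : (a : ℂ) ≠ 0 := Complex.ofReal_ne_zero.2 ha
  apply Set.ext
  intro x
  show (ev (a • h) (Zpt k x) = 0 ∧ (Jmat k (a • h) x).det ≠ 0) ↔
    (ev h (Zpt k x) = 0 ∧ (Jmat k h x).det ≠ 0)
  rw [sb_ev_zero a ha, sb_Jmat_smul, Matrix.det_smul]
  have : ((a : ℂ) ^ Fintype.card (Fin n) * (Jmat k h x).det ≠ 0) ↔ ((Jmat k h x).det ≠ 0) := by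
    rw [Ne, mul_eq_zero, not_or]
    exact ⟨fun h => h.2, fun h => ⟨pow_ne_zero _ hac, h⟩⟩
  rw [this]

theorem SS_smul (hd : ∀ i, 1 ≤ d i) (a : ℝ) (ha : a ≠ 0) (h : Sys d) :
    SS (a • h) = ENNReal.ofReal ((a ^ 2)⁻¹) * SS h := by
  unfold SS
  rw [Finset.mul_sum]
  refine Finset.sum_congr rfl fun k _ => ?_
  unfold Sk
  rw [← ENNReal.tsum_mul_left]
  have h1 : ∑' x : zset k (a • h), NF (a • h) (Zpt k x) =
      ∑' x : zset k h, NF (a • h) (Zpt k x) :=
    tsum_congr_set_coe (fun x => NF (a • h) (Zpt k x)) (sb_zset_smul a ha k h)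
  rw [h1]
  exact tsum_congr fun x => NF_smul a ha h (Zpt k x)

private theorem sb_seg (f : Sys d) (s : ℝ) (hs : s < 1) :
    seg f s = (1 - s) • (gSys d + (s / (1 - s)) • f) := by
  unfold seg
  rw [smul_add, smul_smul, mul_div_cancel₀ s (by linarith : (1 : ℝ) - s ≠ 0)]

theorem seg_energy (hd : ∀ i, 1 ≤ d i) (f : Sys d) (a : ℝ) (ha : 0 < a) (ha1 : a < 1) :
    ∫⁻ s in Set.Icc a 1, SS (seg f s) ≤ ∫⁻ r in Set.Ioi a, SS (gSys d + r • f) := by
  have h1 : ∫⁻ s in Set.Icc a 1, SS (seg f s) = ∫⁻ s in Set.Ioo a 1, SS (seg f s) :=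
    setLIntegral_congr Ioo_ae_eq_Icc.symm
  have h2 : ∫⁻ s in Set.Ioo a 1, SS (seg f s) =
      ∫⁻ s in Set.Ioo a 1, ENNReal.ofReal |((1 - s) ^ 2)⁻¹| *
        SS (gSys d + (s / (1 - s)) • f) := by
    refine setLIntegral_congr_fun measurableSet_Ioo fun s hs => ?_
    have hs1 : (0 : ℝ) < 1 - s := by linarith [hs.2]
    show SS (seg f s) = ENNReal.ofReal |((1 - s) ^ 2)⁻¹| * SS (gSys d + (s / (1 - s)) • f)
    rw [sb_seg f s hs.2, SS_smul hd _ hs1.ne', abs_of_nonneg (by positivity)]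
  have hder : ∀ s ∈ Set.Ioo a 1, HasDerivWithinAt (fun s : ℝ => s / (1 - s)) (((1 - s) ^ 2)⁻¹)
      (Set.Ioo a 1) s := by
    intro s hs
    have hs1 : (1 : ℝ) - s ≠ 0 := by linarith [hs.2]
    have h3 : HasDerivAt (fun s : ℝ => 1 - s) (-1) s := by
      simpa using (hasDerivAt_id s).const_sub 1
    have h4 := (hasDerivAt_id s).div h3 hs1
    refine HasDerivAt.hasDerivWithinAt ?_
    refine h4.congr_deriv ?_
    simp only [id]
    field_simp
    ring
  have hinj : Set.InjOn (fun s : ℝ => s / (1 - s)) (Set.Ioo a 1) := by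
    intro s hs t ht hst
    have hs1 : (1 : ℝ) - s ≠ 0 := by linarith [hs.2]
    have ht1 : (1 : ℝ) - t ≠ 0 := by linarith [ht.2]
    have hst' : s / (1 - s) = t / (1 - t) := hst
    rw [div_eq_div_iff hs1 ht1] at hst'
    linarith
  have h5 := lintegral_image_eq_lintegral_abs_deriv_mul measurableSet_Ioo hder hinj
    (fun r => SS (gSys d + r • f))
  rw [h1, h2, ← h5]
  refine lintegral_mono_set ?_
  rintro r ⟨s, hs, rfl⟩
  have hs1 : (0 : ℝ) < 1 - s := by linarith [hs.2]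
  have hs0 : 0 < s := ha.trans hs.1
  show a < s / (1 - s)
  rw [lt_div_iff₀ hs1]
  nlinarith [hs.1]

end Pool.Agent.Lib.CLN
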