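import Pool.Agent.Lib.CLN.CL
import Pool.Agent.Lib.CLN.OD7
import Pool.Agent.Lib.CLN.SB
import Pool.Agent.Lib.CLN.FA
import Pool.Agent.Lib.CLN.TR
/-! MP_bd3536_an, row FI. Assembly and constants. -/

set_option autoImplicit false

open MeasureTheory
open scoped ENNReal NNReal ComplexConjugate

namespace Pool.Agent.Lib.CLN

variable {n : ℕ} {d : Fin n → ℕ}

private theorem NN_ge_two (hn : 1 ≤ n) (hd : ∀ i, 1 ≤ d i) : 2 ≤ NN d := by
  have h := n_add_one_le (d := d) hn hd
  have h1 : (1 : ℝ) ≤ n := by exact_mod_cast hn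
  linarith

private theorem KK_pos (hn : 1 ≤ n) (hd : ∀ i, 1 ≤ d i) : 0 < KK d := by
  have h := NN_ge_two (d := d) hn hd
  unfold KK
  positivity

private theorem sd_pos (hn : 1 ≤ n) (hd : ∀ i, 1 ≤ d i) : 0 < sd d := by
  have h := KK_pos (d := d) hn hd
  unfold sd
  positivity

private theorem sd_lt_one (hn : 1 ≤ n) (hd : ∀ i, 1 ≤ d i) : sd d < 1 := by
  have h := NN_ge_two (d := d) hn hd
  have h1 : (1 : ℝ) ≤ n := by exact_mod_cast hn
  unfold sd
  rw [div_lt_one]
  · have hK : 60 ≤ KK d := by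
      unfold KK
      nlinarith
    nlinarith [sq_nonneg (n : ℝ)]
  · have := KK_pos (d := d) hn hd
    positivity

private theorem sol_restrict {f : Sys d} {z : ℝ → Pt n} {a b c : ℝ} (hz : IsSol f z a b)
    (hc : c ≤ b) : IsSol f z a c := by
  intro s hs
  have h := hz s ⟨hs.1, hs.2.trans hc⟩
  exact ⟨h.1, h.2.mono (Set.Icc_subset_Icc le_rfl hc)⟩

private theorem energy_bound (hn : 1 ≤ n) (hd : ∀ i, 1 ≤ d i) (f : Sys d) (hf : ‖f‖ = 1)
    (z : ℝ → Pt n) (hz0 : z 0 = ptZero n) (hz : IsSol f z 0 1) :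
    ∫⁻ s in Set.Icc (0 : ℝ) 1, NF (seg f s) (z s) ≤
      ENNReal.ofReal (2 * (1 + (n : ℝ) ^ 2) * sd d) +
        ∫⁻ s in Set.Icc (sd d) 1, SS (seg f s) := by
  have hsd := sd_pos (d := d) hn hd
  have hseg0 : seg f 0 = gSys d := by simp [seg]
  have hnorm0 : ‖z 0‖ = 1 := by
    rw [hz0]; simp [ptZero]
  have hev0 : ev (seg f 0) (z 0) = 0 := by
    rw [hseg0, hz0]; exact ev_start hn hd
  have hinv := sol_inv hd f z 0 1 zero_le_one hz hnorm0 hev0
  have hsub : Set.Icc (0 : ℝ) 1 ⊆ Set.Icc 0 (sd d) ∪ Set.Icc (sd d) 1 := by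
    intro s hs
    rcases le_total s (sd d) with h | h
    · exact Or.inl ⟨hs.1, h⟩
    · exact Or.inr ⟨h, hs.2⟩
  have hsd1 := sd_lt_one (d := d) hn hd
  calc ∫⁻ s in Set.Icc (0 : ℝ) 1, NF (seg f s) (z s)
      ≤ ∫⁻ s in Set.Icc 0 (sd d) ∪ Set.Icc (sd d) 1, NF (seg f s) (z s) :=
        lintegral_mono_set hsub
    _ ≤ (∫⁻ s in Set.Icc 0 (sd d), NF (seg f s) (z s)) +
        ∫⁻ s in Set.Icc (sd d) 1, NF (seg f s) (z s) := lintegral_union_le _ _ _
    _ ≤ ENNReal.ofReal (2 * (1 + (n : ℝ) ^ 2) * sd d) +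
        ∫⁻ s in Set.Icc (sd d) 1, SS (seg f s) := by
        refine add_le_add ?_ ?_
        · calc ∫⁻ s in Set.Icc 0 (sd d), NF (seg f s) (z s)
              ≤ ∫⁻ _s in Set.Icc 0 (sd d), ENNReal.ofReal (2 * (1 + (n : ℝ) ^ 2)) := by
                apply setLIntegral_mono measurable_const
                intro s hs
                have hs1 : s ≤ 1 := hs.2.trans hsd1.le
                have hnear := near_bound hn hd f hf z s hs.1 hs1 (by linarith [hs.2]) hz0
                  (sol_restrict hz hs1)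
                have hI := hinv s ⟨hs.1, hs1⟩
                have hFr := Fr_eq hd (seg f s) (z s) hI.1 hI.2 (hz s ⟨hs.1, hs1⟩).1
                calc NF (seg f s) (z s) ≤ 1 + NF (seg f s) (z s) := le_add_self
                  _ = ENNReal.ofReal (Fr (seg f s) (z s)) := hFr.symm
                  _ ≤ _ := ENNReal.ofReal_le_ofReal hnear
            _ = ENNReal.ofReal (2 * (1 + (n : ℝ) ^ 2) * sd d) := by
                rw [setLIntegral_const, Real.volume_Icc, sub_zero,
                  ← ENNReal.ofReal_mul (by positivity)]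
        · apply setLIntegral_mono' measurableSet_Icc
          intro s hs
          have hs1 : s ∈ Set.Icc (0 : ℝ) 1 := ⟨hsd.le.trans hs.1, hs.2⟩
          have hI := hinv s hs1
          have hne : z s ≠ 0 := by
            intro h0
            have := hI.1
            rw [h0, norm_zero] at this
            exact zero_ne_one this
          apply NF_le_SS hd _ _ hne hI.2
          rw [← Lz_eq _ _ hI.1]
          exact (hz s hs1).1

private theorem finrank_sys : Module.finrank ℝ (Sys d) = 2 * Fintype.card (Idx d) := by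
  have h1 : Module.finrank ℂ (Sys d) = Fintype.card (Idx d) := finrank_euclideanSpace
  rw [← h1, ← Module.finrank_mul_finrank ℝ ℂ (Sys d), Complex.finrank_real_complex]

theorem main_bound (n : ℕ) (d : Fin n → ℕ) (hn : 1 ≤ n) (hd : ∀ i, 1 ≤ d i) :
    ∃ G : Metric.sphere (0 : Sys d) 1 → ℝ≥0∞, Measurable G ∧
      (∀ f : Metric.sphere (0 : Sys d) 1, C0 (f : Sys d) ≤ G f) ∧
      ∫⁻ f, G f ∂(unif d) ≤
        ENNReal.ofReal (1400 * (Fintype.card (Idx d) : ℝ) ^ 7 * ∏ i, (d i : ℝ)) := by
  have hsd := sd_pos (d := d) hn hd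
  have hsd1 := sd_lt_one (d := d) hn hd
  have hSSm := SS_measurable (d := d) hd
  set c0 : ℝ := 2 * Real.sqrt 2 with hc0
  have hc0pos : 0 < c0 := by positivity
  set H : Metric.sphere (0 : Sys d) 1 → ℝ≥0∞ :=
    fun f => ∫⁻ r in Set.Ioi (sd d), SS (gSys d + r • (f : Sys d)) with hH
  have hHm : Measurable H := by
    have h1 : Measurable (fun p : Metric.sphere (0 : Sys d) 1 × ℝ =>
        SS (gSys d + p.2 • (p.1 : Sys d))) := by
      apply hSSm.comp
      apply Continuous.measurable
      fun_prop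
    exact h1.lintegral_prod_right'
  refine ⟨fun f => ENNReal.ofReal (c0 * (2 * (1 + (n : ℝ) ^ 2) * sd d)) +
    ENNReal.ofReal c0 * H f, measurable_const.add (hHm.const_mul _), ?_, ?_⟩
  · intro f
    by_cases hE : H f = ⊤
    · have : ENNReal.ofReal (c0 * (2 * (1 + (n : ℝ) ^ 2) * sd d)) + ENNReal.ofReal c0 * H f = ⊤ := by
        rw [hE, ENNReal.mul_top (by simp [hc0pos]), add_top]
      simp only [this, le_top]
    · have hf : ‖(f : Sys d)‖ = 1 := by simp
      have hen := seg_energy hd (f : Sys d) (sd d) hsd hsd1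
      have hE' : ∫⁻ s in Set.Icc (sd d) 1, SS (seg (f : Sys d) s) ≠ ⊤ :=
        ne_top_of_le_ne_top hE hen
      obtain ⟨z, hz0, hz⟩ := global_sol hn hd (f : Sys d) hf hE'
      have h1 := C0_le hn hd (f : Sys d) hf z hz0 hz
      have h2 := energy_bound hn hd (f : Sys d) hf z hz0 hz
      calc C0 (f : Sys d) ≤ ENNReal.ofReal c0 *
            ∫⁻ s in Set.Icc (0 : ℝ) 1, NF (seg (f : Sys d) s) (z s) := h1
        _ ≤ ENNReal.ofReal c0 * (ENNReal.ofReal (2 * (1 + (n : ℝ) ^ 2) * sd d) + H f) := by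
            gcongr
            exact h2.trans (by gcongr)
        _ = _ := by
            rw [mul_add, ← ENNReal.ofReal_mul hc0pos.le]
  · have hN1 : 1 ≤ Fintype.card (Idx d) := by
      have := NN_ge_two (d := d) hn hd
      unfold NN at this
      have h3 : (1 : ℝ) ≤ (Fintype.card (Idx d) : ℝ) := by linarith
      exact_mod_cast h3
    set A : ℝ≥0∞ := ENNReal.ofReal ((n + 1) * n) * ∏ i, (d i : ℝ≥0∞) with hA
    have hfar := far (E := Sys d) (Fintype.card (Idx d)) hN1 finrank_sys
      (fun v => SS (gSys d + v)) (hSSm.comp (measurable_const_add _)) A (by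
        intro t ht
        have := kac_rice_sys (d := d) hd t ht
        refine this.trans (le_of_eq ?_)
        rw [hA, ENNReal.ofReal_mul (by positivity)]
        ring) (sd d) hsd
    set σ : Measure (Metric.sphere (0 : Sys d) 1) := (volume : Measure (Sys d)).toSphere with hσ
    have hσ0 : σ Set.univ ≠ 0 := by
      have hfin : 0 < Module.finrank ℝ (Sys d) := by rw [finrank_sys]; omega
      have : Nontrivial (Sys d) := Module.nontrivial_of_finrank_pos hfin
      rw [hσ, Measure.toSphere_apply_univ]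
      have hfr : ((Module.finrank ℝ (Sys d) : ℕ) : ℝ≥0∞) ≠ 0 := by
        exact_mod_cast hfin.ne'
      refine mul_ne_zero hfr ?_
      exact (Metric.measure_ball_pos _ _ one_pos).ne'
    have hσt : σ Set.univ ≠ ⊤ := measure_ne_top _ _
    have hint : ∫⁻ f, H f ∂(unif d) ≤ ENNReal.ofReal (4 * (Fintype.card (Idx d) : ℕ) / sd d) * A := by
      unfold unif
      rw [lintegral_smul_measure, ← hσ, smul_eq_mul]
      calc (σ Set.univ)⁻¹ * ∫⁻ f, H f ∂σ
          ≤ (σ Set.univ)⁻¹ * (ENNReal.ofReal (4 * (Fintype.card (Idx d) : ℕ) / sd d) * A *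
              σ Set.univ) := by
            gcongr
        _ = _ := by
            rw [mul_comm, mul_assoc, ENNReal.mul_inv_cancel hσ0 hσt, mul_one]
    have huniv : unif d Set.univ = 1 := by
      unfold unif
      rw [Measure.smul_apply, smul_eq_mul]
      exact ENNReal.inv_mul_cancel hσ0 hσt
    rw [lintegral_add_left measurable_const, lintegral_const, huniv, mul_one,
      lintegral_const_mul _ hHm]
    calc ENNReal.ofReal (c0 * (2 * (1 + (n : ℝ) ^ 2) * sd d)) +
          ENNReal.ofReal c0 * ∫⁻ f, H f ∂(unif d)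
        ≤ ENNReal.ofReal (c0 * (2 * (1 + (n : ℝ) ^ 2) * sd d)) +
          ENNReal.ofReal c0 * (ENNReal.ofReal (4 * (Fintype.card (Idx d) : ℕ) / sd d) * A) := by
          gcongr
      _ = ENNReal.ofReal (c0 * (2 * (1 + (n : ℝ) ^ 2) * sd d) +
            c0 * (4 * (Fintype.card (Idx d) : ℝ) / sd d * (((n + 1) * n) * ∏ i, (d i : ℝ)))) := by
          have hprod : ∏ i, (d i : ℝ≥0∞) = ENNReal.ofReal (∏ i, (d i : ℝ)) := by
            rw [ENNReal.ofReal_prod_of_nonneg (fun i _ => Nat.cast_nonneg _)]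
            simp
          rw [hA, hprod, ← ENNReal.ofReal_mul (by positivity), ← ENNReal.ofReal_mul (by positivity),
            ← ENNReal.ofReal_mul hc0pos.le, ← ENNReal.ofReal_add (by positivity) (by positivity)]
      _ ≤ _ := by
          apply ENNReal.ofReal_le_ofReal
          have hNn := n_add_one_le (d := d) hn hd
          have hN2 := NN_ge_two (d := d) hn hd
          have hKK := KK_pos (d := d) hn hd
          have hn1 : (1 : ℝ) ≤ n := by exact_mod_cast hn
          change c0 * (2 * (1 + (n : ℝ) ^ 2) * sd d) +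
            c0 * (4 * NN d / sd d * (((n + 1) * n) * ∏ i, (d i : ℝ))) ≤
              1400 * NN d ^ 7 * ∏ i, (d i : ℝ)
          have hD : 1 ≤ ∏ i, (d i : ℝ) := by
            have h : ∀ i ∈ (Finset.univ : Finset (Fin n)), (1 : ℝ) ≤ (d i : ℝ) := fun i _ => by
              exact_mod_cast hd i
            calc (1 : ℝ) = ∏ _i : Fin n, (1 : ℝ) := by simp
              _ ≤ ∏ i, (d i : ℝ) := Finset.prod_le_prod (fun _ _ => zero_le_one) h
          have hc0' : c0 ≤ 2.8285 := by
            rw [hc0]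
            have : Real.sqrt 2 ≤ 1.41425 := by
              rw [Real.sqrt_le_left (by norm_num)]
              norm_num
            linarith
          set D : ℝ := ∏ i, (d i : ℝ) with hDdef
          have e1 : 2 * (1 + (n : ℝ) ^ 2) * sd d = 1 / (4 * KK d) := by
            unfold sd
            field_simp
            ring
          have e2 : 4 * NN d / sd d * (((n + 1) * n) * D) =
              480 * NN d ^ 3 * (1 + (n : ℝ) ^ 2) * ((n + 1) * n) * D := by
            unfold sd KK
            field_simp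
            ring
          rw [e1, e2]
          have h4 : (1 + (n : ℝ) ^ 2) * ((n + 1) * n) ≤ NN d ^ 4 := by
            have a1 : 1 + (n : ℝ) ^ 2 ≤ NN d ^ 2 := by nlinarith
            have a2 : ((n : ℝ) + 1) * n ≤ NN d ^ 2 := by nlinarith
            calc (1 + (n : ℝ) ^ 2) * ((n + 1) * n) ≤ NN d ^ 2 * NN d ^ 2 := by gcongr
              _ = NN d ^ 4 := by ring
          have h5 : 480 * NN d ^ 3 * (1 + (n : ℝ) ^ 2) * ((n + 1) * n) * D ≤
              480 * NN d ^ 7 * D := by
            calc 480 * NN d ^ 3 * (1 + (n : ℝ) ^ 2) * ((n + 1) * n) * D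
                = 480 * NN d ^ 3 * ((1 + (n : ℝ) ^ 2) * ((n + 1) * n)) * D := by ring
              _ ≤ 480 * NN d ^ 3 * NN d ^ 4 * D := by gcongr
              _ = 480 * NN d ^ 7 * D := by ring
          have h6 : 1 / (4 * KK d) ≤ 1 / 240 := by
            apply one_div_le_one_div_of_le (by norm_num)
            unfold KK
            nlinarith
          have h7 : (1 : ℝ) ≤ NN d ^ 7 * D := by
            have : (1 : ℝ) ≤ NN d ^ 7 := one_le_pow₀ (by linarith)
            nlinarith
          have hX : 0 ≤ NN d ^ 7 * D := by linarith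
          calc c0 * (1 / (4 * KK d)) + c0 * (480 * NN d ^ 3 * (1 + (n : ℝ) ^ 2) * ((n + 1) * n) * D)
              ≤ 2.8285 * (1 / 240) + 2.8285 * (480 * NN d ^ 7 * D) := by gcongr
            _ ≤ 1400 * NN d ^ 7 * D := by nlinarith

end Pool.Agent.Lib.CLN
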