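import Pool.Agent.Lib.CLN.EV
/-! MP_bd3536_an, row FM1.

The map `Fmap k`. It is complex differentiable; in the coordinates (pur | not pur) its complex
derivative is `[[-Jmat, *], [0, 1]]` (the derivative of `ev h (Zpt k x)` in `x j` is
`Jmat k h x i j`, `h = Fmap k y`; the coordinate `pur` of `h` multiplies `mon = 1`, so
`ev (Fmap k y) (Zpt k x) = 0` identically), so the complex determinant is `± det Jmat`
(`Matrix.twoBlockTriangular_det` or `Matrix.det_fromBlocks_zero₂₁` after reindexing) and the real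
one is the square of its modulus (`LinearMap.det_restrictScalars`, `Algebra.norm_complex_eq`).
-/

set_option autoImplicit false

open MeasureTheory
open scoped ENNReal NNReal ComplexConjugate

namespace Pool.Agent.Lib.CLN

variable {n : ℕ} {d : Fin n → ℕ}

private lemma Zpt_same (k : Fin (n + 1)) (x : Fin n → ℂ) : Zpt k x k = 1 := by
  unfold Zpt
  simp

private lemma Zpt_above (k : Fin (n + 1)) (x : Fin n → ℂ) (i : Fin n) :
    Zpt k x (k.succAbove i) = x i := by
  unfold Zpt
  simp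

theorem mon_pur (k : Fin (n + 1)) (x : Fin n → ℂ) (i : Fin n) :
    mon (d i) (Zpt k x) (pur d k i) = 1 := by
  unfold mon pur
  simp only
  rw [Nat.multinomial_single, Finset.prod_eq_single k]
  · rw [Pi.single_eq_same, Zpt_same]
    simp
  · intro j _ hj
    rw [Pi.single_eq_of_ne hj, pow_zero]
  · intro h
    exact absurd (Finset.mem_univ _) h

theorem ev_Fmap (k : Fin (n + 1)) (y : Idx d → ℂ) :
    ev (WithLp.toLp 2 (Fmap k y) : Sys d) (Zpt k (xpart k y)) = 0 := by
  unfold ev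
  ext i
  simp only [PiLp.zero_apply]
  rw [← Finset.add_sum_erase _ _ (Finset.mem_univ (pur d k i)), mon_pur, mul_one]
  have h1 : Fmap k y ⟨i, pur d k i⟩ =
      - ∑ α ∈ Finset.univ.erase (pur d k i), y ⟨i, α⟩ * mon (d i) (Zpt k (xpart k y)) α := by
    unfold Fmap
    rw [if_pos rfl]
  have h2 : ∑ α ∈ Finset.univ.erase (pur d k i), Fmap k y ⟨i, α⟩ *
      mon (d i) (Zpt k (xpart k y)) α =
      ∑ α ∈ Finset.univ.erase (pur d k i), y ⟨i, α⟩ * mon (d i) (Zpt k (xpart k y)) α := by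
    apply Finset.sum_congr rfl
    intro α hα
    congr 1
    unfold Fmap
    rw [if_neg (Finset.mem_erase.1 hα).1]
  rw [h1, h2]
  exact neg_add_cancel _

/-- the derivative of `mon` along a differentiable map -/
private lemma hasFDerivAt_mon {E : Type} [NormedAddCommGroup E] [NormedSpace ℂ E] (m : ℕ)
    (f : E → (Fin (n + 1) → ℂ)) (f' : E →L[ℂ] (Fin (n + 1) → ℂ)) (y : E)
    (hf : HasFDerivAt f f' y) (α : Mon n m) :
    ∃ L : E →L[ℂ] ℂ, HasFDerivAt (fun y => mon m (f y) α) L y ∧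
      ∀ u, L u = dmon m (f y) (f' u) α := by
  have hc : ∀ j, HasFDerivAt (fun y => f y j)
      ((ContinuousLinearMap.proj j : (Fin (n + 1) → ℂ) →L[ℂ] ℂ).comp f') y := fun j =>
    (hasFDerivAt_pi'.1 hf) j
  have hp : ∀ j, HasFDerivAt (fun y => f y j ^ (α : Fin (n + 1) → ℕ) j)
      ((((α : Fin (n + 1) → ℕ) j : ℂ) * f y j ^ ((α : Fin (n + 1) → ℕ) j - 1)) •
        ((ContinuousLinearMap.proj j : (Fin (n + 1) → ℂ) →L[ℂ] ℂ).comp f')) y := by
    intro j
    have := (hc j).pow ((α : Fin (n + 1) → ℕ) j)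
    rw [nsmul_eq_mul] at this
    exact this
  have hprod := HasFDerivAt.finsetProd (u := Finset.univ) (fun j _ => hp j)
  refine ⟨_, hprod.const_mul _, fun u => ?_⟩
  unfold dmon
  simp only [ContinuousLinearMap.smul_apply, ContinuousLinearMap.sum_apply,
    ContinuousLinearMap.comp_apply, ContinuousLinearMap.proj_apply, smul_eq_mul]
  congr 1
  apply Finset.sum_congr rfl
  intro j _
  ring

/-- the derivative of the point -/
private lemma hasFDerivAt_Zpt (k : Fin (n + 1)) (y : Idx d → ℂ) :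
    ∃ L : (Idx d → ℂ) →L[ℂ] (Fin (n + 1) → ℂ),
      HasFDerivAt (fun y : Idx d → ℂ => (Zpt k (xpart k y) : Fin (n + 1) → ℂ)) L y ∧
      ∀ u, L u = Fin.insertNth (α := fun _ => ℂ) k 0 (xpart k u) := by
  have h : ∀ j : Fin (n + 1), ∃ L : (Idx d → ℂ) →L[ℂ] ℂ,
      HasFDerivAt (fun y : Idx d → ℂ => Zpt k (xpart k y) j) L y ∧
      ∀ u, L u = Fin.insertNth (α := fun _ => ℂ) k 0 (xpart k u) j := by
    intro j
    rcases Fin.eq_self_or_eq_succAbove k j with rfl | ⟨i, rfl⟩
    · refine ⟨0, ?_, fun u => by simp⟩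
      simp only [Zpt_same]
      exact hasFDerivAt_const _ _
    · refine ⟨ContinuousLinearMap.proj ⟨i, pur d k i⟩, ?_, fun u => by simp [xpart]⟩
      simp only [Zpt_above]
      exact hasFDerivAt_apply (𝕜 := ℂ) _ _
  choose L hL1 hL2 using h
  refine ⟨ContinuousLinearMap.pi L, hasFDerivAt_pi.2 hL1, fun u => ?_⟩
  funext j
  rw [ContinuousLinearMap.pi_apply, hL2]

/-- the complex derivative of `Fmap` -/
private lemma hasFDerivAt_Fmap (k : Fin (n + 1)) (y : Idx d → ℂ) :
    ∃ L : (Idx d → ℂ) →L[ℂ] (Idx d → ℂ), HasFDerivAt (Fmap k) L y ∧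
      ∀ u p, L u p = if p.2 = pur d k p.1 then
        - ∑ α ∈ Finset.univ.erase (pur d k p.1),
          (y ⟨p.1, α⟩ * dmon (d p.1) (Zpt k (xpart k y))
            (Fin.insertNth (α := fun _ => ℂ) k 0 (xpart k u)) α +
          mon (d p.1) (Zpt k (xpart k y)) α * u ⟨p.1, α⟩) else u p := by
  obtain ⟨Z, hZ1, hZ2⟩ := hasFDerivAt_Zpt (d := d) k y
  have h : ∀ p : Idx d, ∃ L : (Idx d → ℂ) →L[ℂ] ℂ, HasFDerivAt (fun y => Fmap k y p) L y ∧
      ∀ u, L u = if p.2 = pur d k p.1 then
        - ∑ α ∈ Finset.univ.erase (pur d k p.1),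
          (y ⟨p.1, α⟩ * dmon (d p.1) (Zpt k (xpart k y))
            (Fin.insertNth (α := fun _ => ℂ) k 0 (xpart k u)) α +
          mon (d p.1) (Zpt k (xpart k y)) α * u ⟨p.1, α⟩) else u p := by
    intro p
    by_cases hp : p.2 = pur d k p.1
    · choose L hL1 hL2 using fun α : Mon n (d p.1) => hasFDerivAt_mon (d p.1)
        (fun y : Idx d → ℂ => (Zpt k (xpart k y) : Fin (n + 1) → ℂ)) Z y hZ1 α
      have h1 : ∀ α : Mon n (d p.1), HasFDerivAt
          (fun y : Idx d → ℂ => y ⟨p.1, α⟩ * mon (d p.1) (Zpt k (xpart k y)) α)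
          (y ⟨p.1, α⟩ • L α + mon (d p.1) (Zpt k (xpart k y)) α •
            (ContinuousLinearMap.proj ⟨p.1, α⟩ : (Idx d → ℂ) →L[ℂ] ℂ)) y := fun α =>
        (hasFDerivAt_apply (𝕜 := ℂ) _ _).mul (hL1 α)
      have h2 := (HasFDerivAt.fun_sum (u := Finset.univ.erase (pur d k p.1))
        (fun α _ => h1 α)).neg
      refine ⟨-∑ α ∈ Finset.univ.erase (pur d k p.1), (y ⟨p.1, α⟩ • L α +
        mon (d p.1) (Zpt k (xpart k y)) α •
          (ContinuousLinearMap.proj ⟨p.1, α⟩ : (Idx d → ℂ) →L[ℂ] ℂ)), ?_, fun u => ?_⟩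
      · refine h2.congr_of_eventuallyEq (Filter.Eventually.of_forall fun y' => ?_)
        simp only [Fmap, if_pos hp]
        rfl
      · rw [if_pos hp]
        simp only [ContinuousLinearMap.neg_apply, ContinuousLinearMap.sum_apply,
          ContinuousLinearMap.add_apply, ContinuousLinearMap.smul_apply, hL2, hZ2,
          ContinuousLinearMap.proj_apply, smul_eq_mul]
    · refine ⟨ContinuousLinearMap.proj p, ?_, fun u => ?_⟩
      · refine (hasFDerivAt_apply (𝕜 := ℂ) p y).congr_of_eventuallyEq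
          (Filter.Eventually.of_forall fun y' => ?_)
        simp only [Fmap, if_neg hp]
      · rw [if_neg hp]
        rfl
  choose L hL1 hL2 using h
  refine ⟨ContinuousLinearMap.pi L, hasFDerivAt_pi.2 hL1, fun u p => ?_⟩
  rw [ContinuousLinearMap.pi_apply, hL2]

private lemma xpart_single (k : Fin (n + 1)) (j : Fin n) :
    xpart (d := d) k (Pi.single ⟨j, pur d k j⟩ 1) = Pi.single j 1 := by
  funext i
  unfold xpart
  by_cases h : i = j
  · subst h
    simp
  · rw [Pi.single_eq_of_ne h, Pi.single_eq_of_ne]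
    intro h2
    exact h (congrArg Sigma.fst h2)

private lemma insertNth_single (k : Fin (n + 1)) (j : Fin n) :
    (Fin.insertNth (α := fun _ => ℂ) k 0 (Pi.single j 1) : Fin (n + 1) → ℂ) =
      Pi.single (k.succAbove j) 1 := by
  funext l
  rcases Fin.eq_self_or_eq_succAbove k l with rfl | ⟨i, rfl⟩
  · rw [Fin.insertNth_apply_same, Pi.single_eq_of_ne (Fin.succAbove_ne l j).symm]
  · rw [Fin.insertNth_apply_succAbove]
    by_cases h : i = j
    · subst h
      simp
    · rw [Pi.single_eq_of_ne h, Pi.single_eq_of_ne]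
      intro h2
      exact h (Fin.succAbove_right_injective h2)

private lemma dmon_pur (k : Fin (n + 1)) (z : Fin (n + 1) → ℂ) (i j : Fin n) :
    dmon (d i) z (Pi.single (k.succAbove j) 1) (pur d k i) = 0 := by
  unfold dmon
  rw [Finset.sum_eq_zero, mul_zero]
  intro l _
  rcases Fin.eq_self_or_eq_succAbove k l with rfl | ⟨m, rfl⟩
  · rw [Pi.single_eq_of_ne (Fin.succAbove_ne l j).symm]
    ring
  · have : ((pur d k i : Mon n (d i)) : Fin (n + 1) → ℕ) (k.succAbove m) = 0 := by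
      unfold pur
      exact Pi.single_eq_of_ne (Fin.succAbove_ne k m) _
    rw [this]
    simp

private lemma Jmat_eq (k : Fin (n + 1)) (y : Idx d → ℂ) (i j : Fin n) :
    Jmat k (WithLp.toLp 2 (Fmap k y) : Sys d) (xpart k y) i j =
      ∑ α ∈ Finset.univ.erase (pur d k i), y ⟨i, α⟩ *
        dmon (d i) (Zpt k (xpart k y)) (Pi.single (k.succAbove j) 1) α := by
  unfold Jmat pder dev
  rw [Matrix.of_apply, ← Finset.add_sum_erase _ _ (Finset.mem_univ (pur d k i)), dmon_pur,
    mul_zero, zero_add]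
  apply Finset.sum_congr rfl
  intro α hα
  congr 1
  simp only [Fmap, if_neg (Finset.mem_erase.1 hα).1]

/-- the complex determinant -/
private lemma det_eq (k : Fin (n + 1)) (y : Idx d → ℂ) (L : (Idx d → ℂ) →L[ℂ] (Idx d → ℂ))
    (hL : ∀ u p, L u p = if p.2 = pur d k p.1 then
        - ∑ α ∈ Finset.univ.erase (pur d k p.1),
          (y ⟨p.1, α⟩ * dmon (d p.1) (Zpt k (xpart k y))
            (Fin.insertNth (α := fun _ => ℂ) k 0 (xpart k u)) α +
          mon (d p.1) (Zpt k (xpart k y)) α * u ⟨p.1, α⟩) else u p) :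
    LinearMap.det (L : (Idx d → ℂ) →ₗ[ℂ] (Idx d → ℂ)) =
      (-(Jmat k (WithLp.toLp 2 (Fmap k y) : Sys d) (xpart k y))).det := by
  classical
  set M := LinearMap.toMatrix' (L : (Idx d → ℂ) →ₗ[ℂ] (Idx d → ℂ)) with hM
  have hMe : ∀ p q, M p q = L (Pi.single q 1) p := fun p q => by
    rw [hM, LinearMap.toMatrix'_apply]
    rfl
  rw [← LinearMap.det_toMatrix', ← hM,
    Matrix.twoBlockTriangular_det M (fun p => p.2 = pur d k p.1)]
  · have h1 : (Matrix.toSquareBlockProp M fun p => ¬ p.2 = pur d k p.1) = 1 := by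
      ext p q
      rw [Matrix.toSquareBlockProp_def, Matrix.of_apply, hMe, hL, if_neg p.2, Matrix.one_apply,
        Pi.single_apply]
      simp only [Subtype.ext_iff]
    rw [h1, Matrix.det_one, mul_one]
    let e : Fin n ≃ {p : Idx d // p.2 = pur d k p.1} :=
      { toFun := fun i => ⟨⟨i, pur d k i⟩, rfl⟩
        invFun := fun p => p.1.1
        left_inv := fun i => rfl
        right_inv := by
          rintro ⟨⟨i, α⟩, h⟩
          simp only at h
          subst h
          rfl }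
    rw [← Matrix.det_submatrix_equiv_self e]
    congr 1
    ext i j
    rw [Matrix.submatrix_apply, Matrix.toSquareBlockProp_def, Matrix.of_apply, hMe, hL]
    rw [if_pos (e i).2, Matrix.neg_apply, Jmat_eq]
    congr 1
    apply Finset.sum_congr rfl
    intro α hα
    have h2 : (Pi.single ((e j : Idx d)) 1 : Idx d → ℂ) ⟨i, α⟩ = 0 := by
      rw [Pi.single_eq_of_ne]
      intro h3
      have h4 : i = j := congrArg Sigma.fst h3
      subst h4
      exact (Finset.mem_erase.1 hα).1 (eq_of_heq (Sigma.mk.inj h3).2)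
    change y ⟨i, α⟩ * dmon (d i) (Zpt k (xpart k y)) (Fin.insertNth (α := fun _ => ℂ) k 0
      (xpart k (Pi.single ⟨j, pur d k j⟩ 1))) α + mon (d i) (Zpt k (xpart k y)) α *
      (Pi.single ((e j : Idx d)) 1 : Idx d → ℂ) ⟨i, α⟩ = _
    rw [h2, mul_zero, add_zero, xpart_single, insertNth_single]
  · intro p hp q hq
    rw [hMe, hL, if_neg hp, Pi.single_eq_of_ne]
    rintro rfl
    exact hp hq

private lemma contDiff_Fmap (k : Fin (n + 1)) :
    ContDiff ℝ 1 (Fmap k : (Idx d → ℂ) → (Idx d → ℂ)) := by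
  rw [contDiff_pi]
  intro p
  have hy : ∀ q : Idx d, ContDiff ℝ 1 (fun y : Idx d → ℂ => y q) := fun q =>
    contDiff_apply ℝ ℂ q
  by_cases hp : p.2 = pur d k p.1
  · have hZ : ∀ j : Fin (n + 1), ContDiff ℝ 1 (fun y : Idx d → ℂ => Zpt k (xpart k y) j) := by
      intro j
      rcases Fin.eq_self_or_eq_succAbove k j with rfl | ⟨i, rfl⟩
      · simp only [Zpt_same]
        exact contDiff_const
      · simp only [Zpt_above]
        exact hy _
    have hm : ∀ α : Mon n (d p.1), ContDiff ℝ 1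
        (fun y : Idx d → ℂ => mon (d p.1) (Zpt k (xpart k y)) α) := by
      intro α
      unfold mon
      exact contDiff_const.mul (contDiff_prod fun j _ => (hZ j).pow _)
    have h1 : ContDiff ℝ 1 (fun y : Idx d → ℂ => - ∑ α ∈ Finset.univ.erase (pur d k p.1),
        y ⟨p.1, α⟩ * mon (d p.1) (Zpt k (xpart k y)) α) :=
      (ContDiff.sum fun α _ => (hy _).mul (hm α)).neg
    have h2 : (fun y : Idx d → ℂ => Fmap k y p) = fun y : Idx d → ℂ =>
        - ∑ α ∈ Finset.univ.erase (pur d k p.1),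
          y ⟨p.1, α⟩ * mon (d p.1) (Zpt k (xpart k y)) α := by
      funext y
      simp only [Fmap, if_pos hp]
    rw [h2]
    exact h1
  · have h2 : (fun y : Idx d → ℂ => Fmap k y p) = fun y : Idx d → ℂ => y p := by
      funext y
      simp only [Fmap, if_neg hp]
    rw [h2]
    exact hy p

theorem Fmap_deriv (k : Fin (n + 1)) :
    ∃ F' : (Idx d → ℂ) → ((Idx d → ℂ) →L[ℝ] (Idx d → ℂ)),
      (∀ y, HasFDerivAt (Fmap k) (F' y) y) ∧ Continuous F' ∧
      ∀ y, |(F' y).det| =
        ‖(Jmat k (WithLp.toLp 2 (Fmap k y) : Sys d) (xpart k y)).det‖ ^ 2 := by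
  have hC := contDiff_Fmap (d := d) k
  have hd : ∀ y, HasFDerivAt (Fmap k : (Idx d → ℂ) → (Idx d → ℂ)) (fderiv ℝ (Fmap k) y) y :=
    fun y => (hC.differentiable one_ne_zero y).hasFDerivAt
  refine ⟨fderiv ℝ (Fmap k), hd, hC.continuous_fderiv one_ne_zero, fun y => ?_⟩
  obtain ⟨L, hL1, hL2⟩ := hasFDerivAt_Fmap k y
  have h1 : fderiv ℝ (Fmap k) y = L.restrictScalars ℝ := (hL1.restrictScalars ℝ).fderiv
  have h2 := det_eq k y L hL2
  have h3 : (L.restrictScalars ℝ).det =
      Algebra.norm ℝ (LinearMap.det (L : (Idx d → ℂ) →ₗ[ℂ] (Idx d → ℂ))) := by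
    rw [← LinearMap.det_restrictScalars]
    rfl
  rw [h1, h3, h2, Algebra.norm_complex_apply, Matrix.det_neg, Complex.normSq_eq_norm_sq, norm_mul,
    norm_pow, norm_neg, norm_one, one_pow, one_mul, abs_of_nonneg (by positivity)]

end Pool.Agent.Lib.CLN
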