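import Pool.Agent.Lib.CLN.FM1
/-! MP_bd3536_an, row FM2.

The fibre of `Fmap k` over `h` is in bijection (by `xpart k`) with the zeros of `h` in the chart
`k`. Use `Equiv.tsum_eq`.
-/

set_option autoImplicit false

open MeasureTheory
open scoped ENNReal NNReal ComplexConjugate

namespace Pool.Agent.Lib.CLN

variable {n : ℕ} {d : Fin n → ℕ}

/-- The point of the fibre belonging to a zero. -/
private noncomputable def back (k : Fin (n + 1)) (h : Idx d → ℂ) (x : Fin n → ℂ) : Idx d → ℂ :=
  fun p => if p.2 = pur d k p.1 then x p.1 else h p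

private theorem xpart_back (k : Fin (n + 1)) (h : Idx d → ℂ) (x : Fin n → ℂ) :
    xpart k (back k h x) = x := by
  funext i
  simp [xpart, back]

private theorem Fmap_back (k : Fin (n + 1)) (h : Idx d → ℂ) (x : Fin n → ℂ)
    (hx : ev (WithLp.toLp 2 h : Sys d) (Zpt k x) = 0) : Fmap k (back k h x) = h := by
  funext p
  rcases p with ⟨i, β⟩
  by_cases hβ : β = pur d k i
  · have h1 : ev (WithLp.toLp 2 h : Sys d) (Zpt k x) i = 0 := by rw [hx]; rfl
    have h2 : ∑ α : Mon n (d i), h ⟨i, α⟩ * mon (d i) (Zpt k x) α = 0 := h1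
    rw [← Finset.add_sum_erase _ _ (Finset.mem_univ (pur d k i)), mon_pur, mul_one] at h2
    have h3 : ∑ α ∈ Finset.univ.erase (pur d k i),
        back k h x ⟨i, α⟩ * mon (d i) (Zpt k x) α =
        ∑ α ∈ Finset.univ.erase (pur d k i), h ⟨i, α⟩ * mon (d i) (Zpt k x) α := by
      refine Finset.sum_congr rfl fun α hα => ?_
      have : α ≠ pur d k i := (Finset.mem_erase.1 hα).1
      simp [back, this]
    subst hβ
    unfold Fmap
    rw [if_pos rfl, xpart_back]
    simp only
    rw [h3]
    linear_combination -h2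
  · unfold Fmap
    rw [if_neg hβ]
    simp [back, hβ]

theorem fibre_tsum (k : Fin (n + 1)) (h : Idx d → ℂ) (φ : (Fin n → ℂ) → ℝ≥0∞) :
    ∑' y : {y : Idx d → ℂ // Fmap k y = h ∧
        (Jmat k (WithLp.toLp 2 (Fmap k y) : Sys d) (xpart k y)).det ≠ 0},
      φ (xpart k (y : Idx d → ℂ)) =
    ∑' x : zset k (WithLp.toLp 2 h : Sys d), φ x := by
  let e : {y : Idx d → ℂ // Fmap k y = h ∧
        (Jmat k (WithLp.toLp 2 (Fmap k y) : Sys d) (xpart k y)).det ≠ 0} ≃
      zset k (WithLp.toLp 2 h : Sys d) :=
    { toFun := fun y => ⟨xpart k y.1, by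
        have h1 := ev_Fmap k y.1
        rw [y.2.1] at h1
        exact h1, by
        have h2 := y.2.2
        rw [y.2.1] at h2
        exact h2⟩
      invFun := fun x => ⟨back k h x.1, Fmap_back k h x.1 x.2.1, by
        rw [Fmap_back k h x.1 x.2.1, xpart_back]
        exact x.2.2⟩
      left_inv := by
        rintro ⟨y, hy1, hy2⟩
        apply Subtype.ext
        funext p
        by_cases hp : p.2 = pur d k p.1
        · obtain ⟨i, β⟩ := p
          simp only at hp
          subst hp
          simp [back, xpart]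
        · have := congrFun hy1 p
          unfold Fmap at this
          rw [if_neg hp] at this
          simp [back, hp, this]
      right_inv := by
        rintro ⟨x, hx⟩
        apply Subtype.ext
        exact xpart_back k h x }
  exact Equiv.tsum_eq e (fun x : zset k (WithLp.toLp 2 h : Sys d) => φ x)

end Pool.Agent.Lib.CLN
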