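import Pool.Agent.Lib.CLN.Base
/-! MP_bd3536_an, row GA.

Gaussian inequality on an affine subspace. Put `v w = b + M w`, `ℓ = ∑ q α v α`, `Q = ∑ ‖q α‖²`,
`A v = ‖c + ℓ v‖² exp(-t²|v|²)`, `B v = Q exp(-t²|v|²)` (`Q = 0` is trivial). For every `v` and the
vector `q' = conj q / √Q`: `∫_(s in ℂ) B (v + s q') ≤ t² ∫_(s in ℂ) A (v + s q')`: split
`v = v' + s₀ q'` orthogonally, then it is
`∫ Q exp(-t²|s|²) ≤ t² ∫ |k + √Q s|² exp(-t²|s|²)` (odd terms vanish by `s → -s`, and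
`t² ∫ |s|² exp(-t²|s|²) = ∫ exp(-t²|s|²)` over `ℂ`).
`M w0 = conj q`, so `w ↦ w + s w0 / √Q` shifts `v w` by `s q'`. With a probability density `ψ` on
`ℂ` and `κ v = ⟪q', v⟫`:
`∫_w B (v w) = ∫_w B (v w) ∫_s ψ (κ (v w) - s) = ∫_s ∫_w B (v w + s q') ψ (κ (v w))
= ∫_w ψ (κ (v w)) ∫_s B (v w + s q')`, and the same for `A` (Tonelli, translation invariance).
-/

set_option autoImplicit false

open MeasureTheory
open scoped ENNReal NNReal ComplexConjugate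

namespace Pool.Agent.Lib.CLN

variable {n : ℕ} {d : Fin n → ℕ}

private theorem shift_avg {ι : Type} [Fintype ι] (f : (ι → ℂ) → ℝ≥0∞) (hf : Measurable f)
    (k : (ι → ℂ) → ℂ) (hk : Measurable k) (w1 : ι → ℂ)
    (h1 : ∀ (w : ι → ℂ) (s : ℂ), k (w + s • w1) = k w + s) (ψ : ℂ → ℝ≥0∞) (hψ : Measurable ψ) :
    (∫⁻ s : ℂ, ψ s) * ∫⁻ w : ι → ℂ, f w = ∫⁻ w : ι → ℂ, (∫⁻ s : ℂ, f (w + s • w1)) * ψ (k w) := by
  calc (∫⁻ s : ℂ, ψ s) * ∫⁻ w : ι → ℂ, f w = ∫⁻ w : ι → ℂ, f w * ∫⁻ s : ℂ, ψ s := by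
        rw [lintegral_mul_const _ hf, mul_comm]
    _ = ∫⁻ w : ι → ℂ, ∫⁻ s : ℂ, f w * ψ (k w - s) := by
        refine lintegral_congr fun w => ?_
        rw [lintegral_const_mul _ (by fun_prop), lintegral_sub_left_eq_self ψ (k w)]
    _ = ∫⁻ s : ℂ, ∫⁻ w : ι → ℂ, f w * ψ (k w - s) := by
        refine lintegral_lintegral_swap ?_
        refine Measurable.aemeasurable ?_
        unfold Function.uncurry
        fun_prop
    _ = ∫⁻ s : ℂ, ∫⁻ w : ι → ℂ, f (w + s • w1) * ψ (k w) := by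
        refine lintegral_congr fun s => ?_
        rw [← lintegral_add_right_eq_self _ (s • w1)]
        refine lintegral_congr fun w => ?_
        rw [h1, add_sub_cancel_right]
    _ = ∫⁻ w : ι → ℂ, ∫⁻ s : ℂ, f (w + s • w1) * ψ (k w) := by
        refine lintegral_lintegral_swap ?_
        refine Measurable.aemeasurable ?_
        unfold Function.uncurry
        fun_prop
    _ = ∫⁻ w : ι → ℂ, (∫⁻ s : ℂ, f (w + s • w1)) * ψ (k w) := by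
        refine lintegral_congr fun w => ?_
        rw [lintegral_mul_const _ (by fun_prop)]

private theorem gauss_moment (t : ℝ) (ht : 0 < t) :
    ∫⁻ s : ℂ, ENNReal.ofReal (Real.exp (-(t ^ 2 * ‖s‖ ^ 2))) =
      ENNReal.ofReal (t ^ 2) * ∫⁻ s : ℂ, ENNReal.ofReal (‖s‖ ^ 2 * Real.exp (-(t ^ 2 * ‖s‖ ^ 2))) := by
  have ht2 : 0 < t ^ 2 := by positivity
  have e0 := Complex.integral_rpow_mul_exp_neg_mul_rpow (p := 2) (q := 0) (b := t ^ 2)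
    (by norm_num) (by norm_num) ht2
  have e2 := Complex.integral_rpow_mul_exp_neg_mul_rpow (p := 2) (q := 2) (b := t ^ 2)
    (by norm_num) (by norm_num) ht2
  have c0 : ∀ x : ℂ, ‖x‖ ^ (0 : ℝ) * Real.exp (-t ^ 2 * ‖x‖ ^ (2 : ℝ)) =
      Real.exp (-(t ^ 2 * ‖x‖ ^ 2)) := by
    intro x
    rw [Real.rpow_zero, one_mul, Real.rpow_two, neg_mul]
  have c2 : ∀ x : ℂ, ‖x‖ ^ (2 : ℝ) * Real.exp (-t ^ 2 * ‖x‖ ^ (2 : ℝ)) =
      ‖x‖ ^ 2 * Real.exp (-(t ^ 2 * ‖x‖ ^ 2)) := by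
    intro x
    rw [Real.rpow_two, neg_mul]
  simp only [c0] at e0
  simp only [c2] at e2
  have v0 : ∫ x : ℂ, Real.exp (-(t ^ 2 * ‖x‖ ^ 2)) = Real.pi / t ^ 2 := by
    rw [e0, show (-(0 + 2) / 2 : ℝ) = -1 by norm_num, show ((0 + 2) / 2 : ℝ) = 1 by norm_num,
      Real.Gamma_one, Real.rpow_neg_one]
    field_simp
  have v2 : ∫ x : ℂ, ‖x‖ ^ 2 * Real.exp (-(t ^ 2 * ‖x‖ ^ 2)) = Real.pi / t ^ 4 := by
    rw [e2, show (-(2 + 2) / 2 : ℝ) = -2 by norm_num, show ((2 + 2) / 2 : ℝ) = 2 by norm_num,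
      Real.Gamma_two, Real.rpow_neg ht2.le, Real.rpow_two]
    field_simp
  have i0 : Integrable (fun x : ℂ => Real.exp (-(t ^ 2 * ‖x‖ ^ 2))) := by
    by_contra h
    rw [integral_undef h] at v0
    have : 0 < Real.pi / t ^ 2 := by positivity
    linarith
  have i2 : Integrable (fun x : ℂ => ‖x‖ ^ 2 * Real.exp (-(t ^ 2 * ‖x‖ ^ 2))) := by
    by_contra h
    rw [integral_undef h] at v2
    have : 0 < Real.pi / t ^ 4 := by positivity
    linarith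
  rw [← ofReal_integral_eq_lintegral_ofReal i0 (Filter.Eventually.of_forall fun x => by positivity),
    ← ofReal_integral_eq_lintegral_ofReal i2 (Filter.Eventually.of_forall fun x => by positivity),
    v0, v2, ← ENNReal.ofReal_mul ht2.le]
  congr 1
  field_simp

private theorem gauss_line (t : ℝ) (ht : 0 < t) (c : ℂ) (r : ℝ) :
    ∫⁻ s : ℂ, ENNReal.ofReal (r ^ 2 * Real.exp (-(t ^ 2 * ‖s‖ ^ 2))) ≤
      ENNReal.ofReal (t ^ 2) *
        ∫⁻ s : ℂ, ENNReal.ofReal (‖c + (r : ℂ) * s‖ ^ 2 * Real.exp (-(t ^ 2 * ‖s‖ ^ 2))) := by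
  have h1 : ∫⁻ s : ℂ, ENNReal.ofReal (r ^ 2 * Real.exp (-(t ^ 2 * ‖s‖ ^ 2))) =
      ENNReal.ofReal (t ^ 2) *
        ∫⁻ s : ℂ, ENNReal.ofReal (r ^ 2 * (‖s‖ ^ 2 * Real.exp (-(t ^ 2 * ‖s‖ ^ 2)))) := by
    simp_rw [ENNReal.ofReal_mul (sq_nonneg r)]
    rw [lintegral_const_mul _ (by fun_prop), lintegral_const_mul _ (by fun_prop), gauss_moment t ht]
    ring
  rw [h1]
  refine mul_le_mul_right ?_ _
  have h2 : (2 : ℝ≥0∞) * ∫⁻ s : ℂ, ENNReal.ofReal (r ^ 2 * (‖s‖ ^ 2 * Real.exp (-(t ^ 2 * ‖s‖ ^ 2))))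
      ≤ 2 * ∫⁻ s : ℂ, ENNReal.ofReal (‖c + (r : ℂ) * s‖ ^ 2 * Real.exp (-(t ^ 2 * ‖s‖ ^ 2))) := by
    have h3 : ∫⁻ s : ℂ, ENNReal.ofReal (‖c + (r : ℂ) * s‖ ^ 2 * Real.exp (-(t ^ 2 * ‖s‖ ^ 2))) =
        ∫⁻ s : ℂ, ENNReal.ofReal (‖c - (r : ℂ) * s‖ ^ 2 * Real.exp (-(t ^ 2 * ‖s‖ ^ 2))) := by
      rw [← lintegral_neg_eq_self]
      refine lintegral_congr fun s => ?_
      rw [norm_neg, mul_neg, sub_eq_add_neg]
    calc (2 : ℝ≥0∞) * ∫⁻ s : ℂ, ENNReal.ofReal (r ^ 2 * (‖s‖ ^ 2 * Real.exp (-(t ^ 2 * ‖s‖ ^ 2))))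
        = ∫⁻ s : ℂ, 2 * ENNReal.ofReal (r ^ 2 * (‖s‖ ^ 2 * Real.exp (-(t ^ 2 * ‖s‖ ^ 2)))) := by
          rw [lintegral_const_mul _ (by fun_prop)]
      _ ≤ ∫⁻ s : ℂ, (ENNReal.ofReal (‖c + (r : ℂ) * s‖ ^ 2 * Real.exp (-(t ^ 2 * ‖s‖ ^ 2))) +
            ENNReal.ofReal (‖c - (r : ℂ) * s‖ ^ 2 * Real.exp (-(t ^ 2 * ‖s‖ ^ 2)))) := by
          refine lintegral_mono fun s => ?_
          rw [← ENNReal.ofReal_add (by positivity) (by positivity),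
            show (2 : ℝ≥0∞) = ENNReal.ofReal 2 by simp, ← ENNReal.ofReal_mul (by norm_num)]
          refine ENNReal.ofReal_le_ofReal ?_
          have h4 : ‖c + (r : ℂ) * s‖ ^ 2 + ‖c - (r : ℂ) * s‖ ^ 2 =
              2 * (‖c‖ ^ 2 + r ^ 2 * ‖s‖ ^ 2) := by
            have := parallelogram_law_with_norm ℝ c ((r : ℂ) * s)
            have h5 : ‖(r : ℂ) * s‖ ^ 2 = r ^ 2 * ‖s‖ ^ 2 := by
              rw [norm_mul, mul_pow, Complex.norm_real, Real.norm_eq_abs, sq_abs]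
            nlinarith [this, h5]
          have h6 : 0 ≤ ‖c‖ ^ 2 := by positivity
          have h7 : 0 < Real.exp (-(t ^ 2 * ‖s‖ ^ 2)) := Real.exp_pos _
          calc 2 * (r ^ 2 * (‖s‖ ^ 2 * Real.exp (-(t ^ 2 * ‖s‖ ^ 2))))
              ≤ (2 * (‖c‖ ^ 2 + r ^ 2 * ‖s‖ ^ 2)) * Real.exp (-(t ^ 2 * ‖s‖ ^ 2)) := by
                nlinarith [mul_nonneg h6 h7.le]
            _ = _ := by rw [← h4]; ring
      _ = _ := by
          rw [lintegral_add_left (by fun_prop), ← h3, two_mul]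
  exact (ENNReal.mul_le_mul_iff_right (by norm_num) (by norm_num)).1 h2

theorem gauss_ineq {ι κ : Type} [Fintype ι] [Fintype κ] (M : (ι → ℂ) →ₗ[ℂ] (κ → ℂ))
    (b q : κ → ℂ) (c : ℂ) (t : ℝ) (ht : 0 < t) (w0 : ι → ℂ)
    (hw0 : M w0 = fun α => conj (q α)) :
    ∫⁻ w : ι → ℂ, ENNReal.ofReal ((∑ α, ‖q α‖ ^ 2) *
        Real.exp (-(t ^ 2 * ∑ α, ‖b α + M w α‖ ^ 2))) ≤
      ENNReal.ofReal (t ^ 2) *
        ∫⁻ w : ι → ℂ, ENNReal.ofReal (‖c + ∑ α, q α * (b α + M w α)‖ ^ 2 *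
          Real.exp (-(t ^ 2 * ∑ α, ‖b α + M w α‖ ^ 2))) := by
  obtain ⟨Q, hQ⟩ : ∃ Q : ℝ, Q = ∑ α, ‖q α‖ ^ 2 := ⟨_, rfl⟩
  have hQ0 : 0 ≤ Q := by rw [hQ]; positivity
  rw [← hQ]
  rcases hQ0.eq_or_lt with h0 | hpos
  · rw [← h0]; simp
  obtain ⟨r, hr⟩ : ∃ r : ℝ, r = Real.sqrt Q := ⟨_, rfl⟩
  have hr0 : 0 < r := by rw [hr]; exact Real.sqrt_pos.2 hpos
  have hr2 : r ^ 2 = Q := by rw [hr]; exact Real.sq_sqrt hQ0
  have hrc : (r : ℂ) ≠ 0 := by exact_mod_cast hr0.ne'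
  have hqq : ∑ α, q α * conj (q α) = (r : ℂ) ^ 2 := by
    have h1 : ∀ α, q α * conj (q α) = ((‖q α‖ ^ 2 : ℝ) : ℂ) := by
      intro α
      rw [Complex.mul_conj, Complex.normSq_eq_norm_sq]
    simp_rw [h1]
    rw [← Complex.ofReal_sum, ← hQ, ← hr2]
    push_cast
    rfl
  obtain ⟨w1, hw1⟩ : ∃ w1 : ι → ℂ, w1 = ((r : ℂ)⁻¹) • w0 := ⟨_, rfl⟩
  have hM1 : ∀ (w : ι → ℂ) (s : ℂ) (α : κ),
      M (w + s • w1) α = M w α + s * ((r : ℂ)⁻¹ * conj (q α)) := by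
    intro w s α
    rw [hw1, map_add, map_smul, map_smul, hw0]
    simp [Pi.add_apply, Pi.smul_apply]
  obtain ⟨k, hk⟩ : ∃ k : (ι → ℂ) → ℂ, k = fun w => (r : ℂ)⁻¹ * ∑ α, q α * (b α + M w α) :=
    ⟨_, rfl⟩
  have hMc : Continuous (fun w => M w) := LinearMap.continuous_of_finiteDimensional M
  have hMa : ∀ α, Continuous (fun w => M w α) := fun α => (continuous_apply α).comp hMc
  have hMm : ∀ α, Measurable (fun w => M w α) := fun α => (hMa α).measurable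
  have hkm : Measurable k := by
    rw [hk]
    refine Measurable.const_mul ?_ _
    refine Finset.measurable_sum _ fun α _ => ?_
    exact Measurable.const_mul ((hMm α).const_add _) _
  have hlin : ∀ (w : ι → ℂ) (s : ℂ),
      ∑ α, q α * (b α + M (w + s • w1) α) = (r : ℂ) * (k w + s) := by
    intro w s
    have h1 : ∀ α, q α * (b α + M (w + s • w1) α) =
        q α * (b α + M w α) + s * (r : ℂ)⁻¹ * (q α * conj (q α)) := by
      intro α; rw [hM1]; ring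
    simp_rw [h1]
    rw [Finset.sum_add_distrib, ← Finset.mul_sum, hqq, hk]
    field_simp
  have hk1 : ∀ (w : ι → ℂ) (s : ℂ), k (w + s • w1) = k w + s := by
    intro w s
    have h1 : k (w + s • w1) = (r : ℂ)⁻¹ * ∑ α, q α * (b α + M (w + s • w1) α) := by
      rw [hk]
    rw [h1, hlin]
    field_simp
  have hk0 : ∀ w, ∑ α, q α * (b α + M w α) = (r : ℂ) * k w := by
    intro w
    have := hlin w 0
    simpa using this
  have hsq : ∀ (w : ι → ℂ) (s : ℂ), ∑ α, ‖b α + M (w + s • w1) α‖ ^ 2 =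
      (∑ α, ‖b α + M w α‖ ^ 2 - ‖k w‖ ^ 2) + ‖k w + s‖ ^ 2 := by
    intro w s
    have h1 : ∀ α, ‖b α + M (w + s • w1) α‖ ^ 2 = ‖b α + M w α‖ ^ 2 +
        (2 * (conj s * (r : ℂ)⁻¹ * (q α * (b α + M w α))).re + ‖s‖ ^ 2 * (r⁻¹) ^ 2 * ‖q α‖ ^ 2) := by
      intro α
      rw [hM1, ← add_assoc, ← Complex.normSq_eq_norm_sq, ← Complex.normSq_eq_norm_sq,
        ← Complex.normSq_eq_norm_sq, ← Complex.normSq_eq_norm_sq, Complex.normSq_add]
      have h2 : Complex.normSq (s * ((r : ℂ)⁻¹ * conj (q α))) =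
          Complex.normSq s * r⁻¹ ^ 2 * Complex.normSq (q α) := by
        rw [Complex.normSq_mul, Complex.normSq_mul, Complex.normSq_conj, Complex.normSq_inv,
          Complex.normSq_ofReal]
        field_simp
      have h3 : (b α + M w α) * conj (s * ((r : ℂ)⁻¹ * conj (q α))) =
          conj s * (r : ℂ)⁻¹ * (q α * (b α + M w α)) := by
        rw [map_mul, map_mul, Complex.conj_conj, map_inv₀, Complex.conj_ofReal]
        ring
      rw [h2, h3]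
      ring
    simp_rw [h1]
    rw [Finset.sum_add_distrib, Finset.sum_add_distrib, ← Finset.mul_sum, ← Complex.re_sum,
      ← Finset.mul_sum, ← Finset.mul_sum, ← hQ, hk0, ← hr2]
    rw [← Complex.normSq_eq_norm_sq (k w + s), Complex.normSq_add, Complex.normSq_eq_norm_sq,
      Complex.normSq_eq_norm_sq]
    have h4 : conj s * (r : ℂ)⁻¹ * ((r : ℂ) * k w) = k w * conj s := by
      field_simp
    have h5 : ‖s‖ ^ 2 * r⁻¹ ^ 2 * r ^ 2 = ‖s‖ ^ 2 := by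
      field_simp
    rw [h4, h5]
    ring
  obtain ⟨fB, hfB⟩ : ∃ fB : (ι → ℂ) → ℝ≥0∞, fB = fun w => ENNReal.ofReal (Q *
        Real.exp (-(t ^ 2 * ∑ α, ‖b α + M w α‖ ^ 2))) := ⟨_, rfl⟩
  obtain ⟨fA, hfA⟩ : ∃ fA : (ι → ℂ) → ℝ≥0∞, fA = fun w => ENNReal.ofReal
      (‖c + ∑ α, q α * (b α + M w α)‖ ^ 2 *
          Real.exp (-(t ^ 2 * ∑ α, ‖b α + M w α‖ ^ 2))) := ⟨_, rfl⟩
  have hsm : Measurable (fun w => ∑ α, ‖b α + M w α‖ ^ 2) := by
    refine Finset.measurable_sum _ fun α _ => ?_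
    exact (((hMm α).const_add _).norm).pow_const 2
  have hem : Measurable (fun w => Real.exp (-(t ^ 2 * ∑ α, ‖b α + M w α‖ ^ 2))) :=
    Real.measurable_exp.comp (hsm.const_mul _).neg
  have hlm : Measurable (fun w => ∑ α, q α * (b α + M w α)) := by
    refine Finset.measurable_sum _ fun α _ => ?_
    exact Measurable.const_mul ((hMm α).const_add _) _
  have mB : Measurable fB := by
    rw [hfB]
    exact ENNReal.measurable_ofReal.comp (hem.const_mul _)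
  have mA : Measurable fA := by
    rw [hfA]
    exact ENNReal.measurable_ofReal.comp ((((hlm.const_add _).norm).pow_const 2).mul hem)
  have key : ∀ w, ∫⁻ s : ℂ, fB (w + s • w1) ≤ ENNReal.ofReal (t ^ 2) * ∫⁻ s : ℂ, fA (w + s • w1) := by
    intro w
    obtain ⟨E, hE⟩ : ∃ E : ℝ, E = Real.exp (-(t ^ 2 *
      (∑ α, ‖b α + M w α‖ ^ 2 - ‖k w‖ ^ 2))) := ⟨_, rfl⟩
    have hE0 : 0 ≤ E := by rw [hE]; positivity
    have hexp : ∀ s : ℂ, Real.exp (-(t ^ 2 * ∑ α, ‖b α + M (w + s • w1) α‖ ^ 2)) =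
        E * Real.exp (-(t ^ 2 * ‖k w + s‖ ^ 2)) := by
      intro s
      rw [hsq, hE, ← Real.exp_add]
      congr 1
      ring
    have hB1 : ∀ s : ℂ, fB (w + s • w1) = ENNReal.ofReal E *
        ENNReal.ofReal (r ^ 2 * Real.exp (-(t ^ 2 * ‖k w + s‖ ^ 2))) := by
      intro s
      rw [hfB]
      simp only []
      rw [hexp, ← ENNReal.ofReal_mul hE0, hr2]
      congr 1
      ring
    have hA1 : ∀ s : ℂ, fA (w + s • w1) = ENNReal.ofReal E *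
        ENNReal.ofReal (‖c + (r : ℂ) * (k w + s)‖ ^ 2 * Real.exp (-(t ^ 2 * ‖k w + s‖ ^ 2))) := by
      intro s
      rw [hfA]
      simp only []
      rw [hexp, hlin, ← ENNReal.ofReal_mul hE0]
      congr 1
      ring
    simp_rw [hB1, hA1]
    rw [lintegral_const_mul _ (by fun_prop), lintegral_const_mul _ (by fun_prop)]
    rw [lintegral_add_left_eq_self (fun s : ℂ => ENNReal.ofReal (r ^ 2 * Real.exp (-(t ^ 2 * ‖s‖ ^ 2)))),
      lintegral_add_left_eq_self (fun s : ℂ => ENNReal.ofReal (‖c + (r : ℂ) * s‖ ^ 2 *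
        Real.exp (-(t ^ 2 * ‖s‖ ^ 2))))]
    calc _ ≤ ENNReal.ofReal E * (ENNReal.ofReal (t ^ 2) * ∫⁻ s : ℂ, ENNReal.ofReal
          (‖c + (r : ℂ) * s‖ ^ 2 * Real.exp (-(t ^ 2 * ‖s‖ ^ 2)))) :=
          mul_le_mul_right (gauss_line t ht c r) _
      _ = _ := by ring
  obtain ⟨ψ, hψ⟩ : ∃ ψ : ℂ → ℝ≥0∞, ψ = (Metric.ball (0 : ℂ) 1).indicator (fun _ => 1) := ⟨_, rfl⟩
  have mψ : Measurable ψ := by
    rw [hψ]
    exact measurable_const.indicator Metric.isOpen_ball.measurableSet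
  have iψ : ∫⁻ s, ψ s = volume (Metric.ball (0 : ℂ) 1) := by
    rw [hψ, lintegral_indicator Metric.isOpen_ball.measurableSet]
    simp
  have nψ : ∫⁻ s, ψ s ≠ 0 := by
    rw [iψ]
    exact (Metric.isOpen_ball.measure_pos volume ⟨0, by simp⟩).ne'
  have tψ : ∫⁻ s, ψ s ≠ ⊤ := by
    rw [iψ]
    exact (measure_ball_lt_top).ne
  have hB2 := shift_avg fB mB k hkm w1 hk1 ψ mψ
  have hA2 := shift_avg fA mA k hkm w1 hk1 ψ mψ
  have hfin : (∫⁻ s, ψ s) * ∫⁻ w, fB w ≤ (∫⁻ s, ψ s) * (ENNReal.ofReal (t ^ 2) * ∫⁻ w, fA w) := by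
    calc (∫⁻ s, ψ s) * ∫⁻ w, fB w = ∫⁻ w, (∫⁻ s, fB (w + s • w1)) * ψ (k w) := hB2
      _ ≤ ∫⁻ w, ENNReal.ofReal (t ^ 2) * ((∫⁻ s, fA (w + s • w1)) * ψ (k w)) := by
          refine lintegral_mono fun w => ?_
          calc (∫⁻ s, fB (w + s • w1)) * ψ (k w)
              ≤ (ENNReal.ofReal (t ^ 2) * ∫⁻ s : ℂ, fA (w + s • w1)) * ψ (k w) :=
                mul_le_mul_left (key w) _
            _ = _ := by ring
      _ = ENNReal.ofReal (t ^ 2) * ∫⁻ w, (∫⁻ s, fA (w + s • w1)) * ψ (k w) := by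
          rw [lintegral_const_mul']
          exact ENNReal.ofReal_ne_top
      _ = (∫⁻ s, ψ s) * (ENNReal.ofReal (t ^ 2) * ∫⁻ w, fA w) := by
          rw [← hA2]; ring
  rw [hfB, hfA] at hfin
  exact (ENNReal.mul_le_mul_iff_right nψ tψ).1 hfin

end Pool.Agent.Lib.CLN
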