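import Pool.Agent.Lib.CLN.GA
import Pool.Agent.Lib.CLN.BW2
import Pool.Agent.Lib.CLN.EV
import Pool.Agent.Lib.CLN.FM1
/-! MP_bd3536_an, row KI.

For fixed `i` integrate only over the coordinates `(i, α)`, `α ≠ pur d k i`, with
`lintegral_le_of_lmarginal_le` (`MeasureTheory.lmarginal`, the measure on `Idx d → ℂ` is
`Measure.pi`): the other coordinates of `y` and the point `Z = Zpt k (xpart k y)` are fixed.
Write `u j = adjugate j i.succ` (cofactors of row `i + 1`, they do not depend on row `i + 1`, hence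
not on the integration variables), `u ⟂ Z` because
row `0` of `Lmat` is `conj Z` (`Matrix.mul_adjugate`, off diagonal entry), and
`det Lmat = ∑ j, Lmat i.succ j * u j = dev h Z u i / scal d Z i = ∑ α, q α * h (i, α)` with
`q α = dmon (d i) Z u α / scal d Z i`, `∑ ‖q α‖² = ‖u‖²` (`sum_norm_dmon`). `h (i, ·) = M w + 0`
with `M w = w` off `pur` and `-∑ w α mon α` at `pur`; `M w0 = conj q` for `w0 = conj q` off
`pur`, by `sum_dmon_conj_mon`. Apply `gauss_ineq` with `b = - gSys (i, ·)`.
-/

set_option autoImplicit false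

open MeasureTheory
open scoped ENNReal NNReal ComplexConjugate

namespace Pool.Agent.Lib.CLN

variable {n : ℕ} {d : Fin n → ℕ}

namespace KI

theorem Zpt_apply_self (k : Fin (n + 1)) (x : Fin n → ℂ) : Zpt k x k = 1 := by
  simp [Zpt]

theorem Zpt_ne (k : Fin (n + 1)) (x : Fin n → ℂ) : Zpt k x ≠ 0 := by
  intro h
  have h1 := Zpt_apply_self k x
  rw [h] at h1
  simp at h1

theorem scal_ne (hd : ∀ i, 1 ≤ d i) (z : Pt n) (hz : z ≠ 0) (i : Fin n) : scal d z i ≠ 0 := by
  unfold scal
  have h1 : 0 < (d i : ℝ) := by exact_mod_cast hd i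
  have h2 : 0 < ‖z‖ := norm_pos_iff.2 hz
  positivity

theorem continuous_xpart (k : Fin (n + 1)) : Continuous (xpart k : (Idx d → ℂ) → Fin n → ℂ) := by
  unfold xpart
  fun_prop

theorem continuous_Zpt (k : Fin (n + 1)) : Continuous (Zpt k : (Fin n → ℂ) → Pt n) := by
  unfold Zpt
  refine (PiLp.continuous_toLp 2 _).comp ?_
  refine continuous_pi fun j => ?_
  refine Fin.succAboveCases k ?_ (fun l => ?_) j
  · simp only [Fin.insertNth_apply_same]
    exact continuous_const
  · simp only [Fin.insertNth_apply_succAbove]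
    exact continuous_apply l

theorem continuous_mon (k : ℕ) (α : Mon n k) : Continuous (fun z : Fin (n + 1) → ℂ => mon k z α) := by
  unfold mon
  fun_prop

theorem continuous_dmon (k : ℕ) (u : Fin (n + 1) → ℂ) (α : Mon n k) :
    Continuous (fun z : Fin (n + 1) → ℂ => dmon k z u α) := by
  unfold dmon
  fun_prop

theorem continuous_Fmap (k : Fin (n + 1)) : Continuous (Fmap k : (Idx d → ℂ) → Idx d → ℂ) := by
  refine continuous_pi fun p => ?_
  unfold Fmap
  by_cases hp : p.2 = pur d k p.1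
  · simp only [if_pos hp]
    refine Continuous.neg (continuous_finset_sum _ fun α _ => ?_)
    refine (continuous_apply _).mul ?_
    exact (continuous_mon (d p.1) α).comp
      ((PiLp.continuous_ofLp 2 _).comp ((continuous_Zpt k).comp (continuous_xpart k)))
  · simp only [if_neg hp]
    exact continuous_apply p

theorem continuous_Lmat (hd : ∀ i, 1 ≤ d i) (k : Fin (n + 1)) :
    Continuous (fun y : Idx d → ℂ =>
      Lmat (WithLp.toLp 2 (Fmap k y) : Sys d) (Zpt k (xpart k y))) := by
  have hZ : Continuous (fun y : Idx d → ℂ => Zpt k (xpart k y)) :=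
    (continuous_Zpt k).comp (continuous_xpart k)
  have hZ' : Continuous (fun y : Idx d → ℂ => ((Zpt k (xpart k y) : Pt n) : Fin (n + 1) → ℂ)) :=
    (PiLp.continuous_ofLp 2 _).comp hZ
  refine continuous_matrix fun a j => ?_
  refine Fin.cases ?_ (fun i => ?_) a
  · change Continuous fun y : Idx d → ℂ => conj ((Zpt k (xpart k y) : Pt n) j)
    exact Complex.continuous_conj.comp ((continuous_apply j).comp hZ')
  · change Continuous fun y : Idx d → ℂ =>
      pder (WithLp.toLp 2 (Fmap k y) : Sys d) (Zpt k (xpart k y)) i j /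
        (scal d (Zpt k (xpart k y)) i : ℂ)
    refine Continuous.div ?_ ?_ fun y => ?_
    · unfold pder dev
      refine continuous_finset_sum _ fun α _ => ?_
      refine Continuous.mul ?_ ((continuous_dmon (d i) _ α).comp hZ')
      exact (continuous_apply (⟨i, α⟩ : Idx d)).comp (continuous_Fmap k)
    · unfold scal
      refine Complex.continuous_ofReal.comp ?_
      exact continuous_const.mul (hZ.norm.pow _)
    · exact_mod_cast scal_ne hd _ (Zpt_ne k _) i

/-- The coordinates of equation `i` other than the one of `X_k^(d i)`. -/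
noncomputable def Srow (d : Fin n → ℕ) (k : Fin (n + 1)) (i : Fin n) : Finset (Idx d) := by
  classical
  exact Finset.univ.filter fun p => p.1 = i ∧ p.2 ≠ pur d k p.1

theorem mem_Srow (k : Fin (n + 1)) (i : Fin n) (p : Idx d) :
    p ∈ Srow d k i ↔ p.1 = i ∧ p.2 ≠ pur d k p.1 := by
  classical
  simp [Srow]

/-- Extension by zero at `X_k^(d i)`. -/
noncomputable def Er (k : Fin (n + 1)) (i : Fin n) (w : Srow d k i → ℂ) (β : Mon n (d i)) : ℂ :=
  if h : β ≠ pur d k i then w ⟨⟨i, β⟩, (mem_Srow k i _).2 ⟨rfl, h⟩⟩ else 0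

/-- Equation `i` as a linear function of the integration variables. -/
noncomputable def Mr (k : Fin (n + 1)) (i : Fin n) (z : Fin (n + 1) → ℂ) :
    (Srow d k i → ℂ) →ₗ[ℂ] (Mon n (d i) → ℂ) where
  toFun w α := if α = pur d k i then - ∑ β, Er k i w β * mon (d i) z β else Er k i w α
  map_add' w w' := by
    have h1 : ∀ β, Er k i (w + w') β = Er k i w β + Er k i w' β := by
      intro β
      unfold Er
      split_ifs <;> simp
    funext α
    simp only [Pi.add_apply, h1]
    by_cases hα : α = pur d k i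
    · simp only [if_pos hα, add_mul, Finset.sum_add_distrib, neg_add]
    · simp only [if_neg hα]
  map_smul' c w := by
    have h1 : ∀ β, Er k i (c • w) β = c * Er k i w β := by
      intro β
      unfold Er
      split_ifs <;> simp
    funext α
    simp only [Pi.smul_apply, h1, smul_eq_mul, RingHom.id_apply]
    by_cases hα : α = pur d k i
    · simp only [if_pos hα, mul_assoc, ← Finset.mul_sum, mul_neg]
    · simp only [if_neg hα]

theorem Mr_apply (k : Fin (n + 1)) (i : Fin n) (z : Fin (n + 1) → ℂ) (w : Srow d k i → ℂ)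
    (α : Mon n (d i)) :
    Mr k i z w α = if α = pur d k i then - ∑ β, Er k i w β * mon (d i) z β else Er k i w α :=
  rfl

section Fix

variable (k : Fin (n + 1)) (i : Fin n) (x : Idx d → ℂ)

theorem xpart_update (w : Srow d k i → ℂ) :
    xpart k (Function.updateFinset x (Srow d k i) w) = xpart k x := by
  funext i'
  unfold xpart Function.updateFinset
  rw [dif_neg]
  rw [mem_Srow]
  exact fun h => h.2 rfl

theorem update_other (w : Srow d k i → ℂ) (p : Idx d) (hp : p.1 ≠ i) :
    Function.updateFinset x (Srow d k i) w p = x p := by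
  unfold Function.updateFinset
  rw [dif_neg]
  rw [mem_Srow]
  exact fun h => hp h.1

theorem Fmap_other (w : Srow d k i → ℂ) (p : Idx d) (hp : p.1 ≠ i) :
    Fmap k (Function.updateFinset x (Srow d k i) w) p = Fmap k x p := by
  unfold Fmap
  rw [xpart_update]
  by_cases h : p.2 = pur d k p.1
  · rw [if_pos h, if_pos h]
    congr 1
    refine Finset.sum_congr rfl fun α _ => ?_
    rw [update_other k i x w ⟨p.1, α⟩ hp]
  · rw [if_neg h, if_neg h, update_other k i x w p hp]

theorem update_row (w : Srow d k i → ℂ) (α : Mon n (d i)) (hα : α ≠ pur d k i) :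
    Function.updateFinset x (Srow d k i) w ⟨i, α⟩ = Er k i w α := by
  unfold Function.updateFinset Er
  rw [dif_pos ((mem_Srow k i _).2 ⟨rfl, hα⟩), dif_pos hα]

theorem Er_pur (w : Srow d k i → ℂ) : Er k i w (pur d k i) = 0 := by
  unfold Er
  rw [dif_neg]
  exact fun h => h rfl

theorem Fmap_row (w : Srow d k i → ℂ) (α : Mon n (d i)) :
    Fmap k (Function.updateFinset x (Srow d k i) w) ⟨i, α⟩ =
      Mr k i (Zpt k (xpart k x)) w α := by
  rw [Mr_apply]
  unfold Fmap
  rw [xpart_update]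
  by_cases h : α = pur d k i
  · rw [if_pos h, if_pos h]
    congr 1
    have h1 : ∑ β, Er k i w β * mon (d i) (Zpt k (xpart k x)) β =
        ∑ β ∈ Finset.univ.erase (pur d k i), Er k i w β * mon (d i) (Zpt k (xpart k x)) β := by
      symm
      refine Finset.sum_erase _ ?_
      rw [Er_pur, zero_mul]
    rw [h1]
    refine Finset.sum_congr rfl fun β hβ => ?_
    rw [update_row k i x w β (Finset.ne_of_mem_erase hβ)]
  · rw [if_neg h, if_neg h]
    exact update_row k i x w α h

/-- The matrix `Lmat` at the fixed point. -/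
noncomputable def Aw (w : Srow d k i → ℂ) : Matrix (Fin (n + 1)) (Fin (n + 1)) ℂ :=
  Lmat (WithLp.toLp 2 (Fmap k (Function.updateFinset x (Srow d k i) w)) : Sys d)
    (Zpt k (xpart k x))

theorem Aw_row (w : Srow d k i → ℂ) (i' : Fin n) (hi : i' ≠ i) (j : Fin (n + 1)) :
    Aw k i x w i'.succ j = Lmat (WithLp.toLp 2 (Fmap k x) : Sys d) (Zpt k (xpart k x)) i'.succ j := by
  change pder _ _ i' j / _ = pder _ _ i' j / _
  congr 1
  unfold pder dev
  refine Finset.sum_congr rfl fun α _ => ?_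
  congr 1
  exact Fmap_other k i x w ⟨i', α⟩ hi

theorem adj_congr {A B : Matrix (Fin (n + 1)) (Fin (n + 1)) ℂ} (i0 : Fin (n + 1))
    (h : ∀ a, a ≠ i0 → A a = B a) (j : Fin (n + 1)) : A.adjugate j i0 = B.adjugate j i0 := by
  rw [Matrix.adjugate_apply, Matrix.adjugate_apply]
  have h1 : A.updateRow i0 (Pi.single j 1) = B.updateRow i0 (Pi.single j 1) := by
    ext a b
    by_cases ha : a = i0
    · rw [ha, Matrix.updateRow_self, Matrix.updateRow_self]
    · rw [Matrix.updateRow_ne ha, Matrix.updateRow_ne ha, h a ha]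
  rw [h1]

theorem Aw_adj (w : Srow d k i → ℂ) (j : Fin (n + 1)) :
    (Aw k i x w).adjugate j i.succ =
      (Lmat (WithLp.toLp 2 (Fmap k x) : Sys d) (Zpt k (xpart k x))).adjugate j i.succ := by
  refine adj_congr i.succ (fun a ha => ?_) j
  revert ha
  refine Fin.cases (fun _ => ?_) (fun i' ha => ?_) a
  · unfold Aw Lmat
    funext b
    simp only [Matrix.of_apply, Fin.cons_zero]
  · funext b
    exact Aw_row k i x w i' (fun h => ha (by rw [h])) b

/-- The cofactors of row `i + 1`. -/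
noncomputable def uu : Pt n :=
  WithLp.toLp 2 fun j =>
    (Lmat (WithLp.toLp 2 (Fmap k x) : Sys d) (Zpt k (xpart k x))).adjugate j i.succ

theorem inner_uu : inner ℂ (Zpt k (xpart k x)) (uu k i x) = (0 : ℂ) := by
  set A := Lmat (WithLp.toLp 2 (Fmap k x) : Sys d) (Zpt k (xpart k x)) with hA
  have h1 : (A * A.adjugate) 0 i.succ = 0 := by
    rw [Matrix.mul_adjugate, Matrix.smul_apply, Matrix.one_apply_ne (Fin.succ_ne_zero i).symm,
      smul_zero]
  rw [Matrix.mul_apply] at h1
  rw [PiLp.inner_apply, ← h1]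
  refine Finset.sum_congr rfl fun j _ => ?_
  change inner ℂ ((Zpt k (xpart k x) : Pt n) j) (A.adjugate j i.succ) = A 0 j * A.adjugate j i.succ
  have h2 : A 0 j = conj ((Zpt k (xpart k x) : Pt n) j) := rfl
  rw [h2]
  simp [mul_comm]

/-- The coefficients of the linear form `det`. -/
noncomputable def qq (α : Mon n (d i)) : ℂ :=
  dmon (d i) (Zpt k (xpart k x)) (uu k i x) α / (scal d (Zpt k (xpart k x)) i : ℂ)

theorem Aw_det (w : Srow d k i → ℂ) :
    (Aw k i x w).det = ∑ α : Mon n (d i), qq k i x α * Mr k i (Zpt k (xpart k x)) w α := by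
  rw [Matrix.det_eq_sum_mul_adjugate_row _ i.succ]
  have h1 : ∀ j, Aw k i x w i.succ j * (Aw k i x w).adjugate j i.succ =
      (uu k i x j * pder (WithLp.toLp 2 (Fmap k (Function.updateFinset x (Srow d k i) w)) : Sys d)
        (Zpt k (xpart k x)) i j) / (scal d (Zpt k (xpart k x)) i : ℂ) := by
    intro j
    rw [Aw_adj]
    change pder _ _ i j / (scal d (Zpt k (xpart k x)) i : ℂ) * uu k i x j = _
    ring
  rw [Finset.sum_congr rfl fun j _ => h1 j, ← Finset.sum_div]
  have h2 := dev_eq_sum (WithLp.toLp 2 (Fmap k (Function.updateFinset x (Srow d k i) w)) : Sys d)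
    (Zpt k (xpart k x)) (uu k i x) i
  rw [← h2]
  unfold dev
  rw [Finset.sum_div]
  refine Finset.sum_congr rfl fun α _ => ?_
  change Fmap k (Function.updateFinset x (Srow d k i) w) ⟨i, α⟩ * _ / _ = _
  rw [Fmap_row]
  unfold qq
  ring

theorem sum_qq (hd : ∀ i, 1 ≤ d i) : ∑ α : Mon n (d i), ‖qq k i x α‖ ^ 2 = ∑ j, ‖uu k i x j‖ ^ 2 := by
  have h1 := sum_norm_dmon (d i) (Zpt k (xpart k x)) (uu k i x) (inner_uu k i x)
  have h2 : scal d (Zpt k (xpart k x)) i ≠ 0 := scal_ne hd _ (Zpt_ne k _) i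
  have h3 : scal d (Zpt k (xpart k x)) i ^ 2 =
      (d i) * ‖Zpt k (xpart k x)‖ ^ (2 * (d i - 1)) := by
    unfold scal
    rw [mul_pow, Real.sq_sqrt (Nat.cast_nonneg _), ← pow_mul, mul_comm 2]
  have h4 : ∀ α, ‖qq k i x α‖ ^ 2 =
      ‖dmon (d i) (Zpt k (xpart k x)) (uu k i x) α‖ ^ 2 / scal d (Zpt k (xpart k x)) i ^ 2 := by
    intro α
    unfold qq
    rw [norm_div, div_pow, Complex.norm_real, Real.norm_eq_abs, sq_abs]
  rw [Finset.sum_congr rfl fun α _ => h4 α, ← Finset.sum_div, h1, ← h3,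
    EuclideanSpace.norm_sq_eq]
  field_simp

theorem Mr_w0 (hd : ∀ i, 1 ≤ d i) : ∃ w0 : Srow d k i → ℂ,
    Mr k i (Zpt k (xpart k x)) w0 = fun α => conj (qq k i x α) := by
  classical
  let w0 : Srow d k i → ℂ := fun p =>
    conj (dmon (d (p : Idx d).1) (Zpt k (xpart k x)) (uu k i x) (p : Idx d).2 /
      (scal d (Zpt k (xpart k x)) (p : Idx d).1 : ℂ))
  refine ⟨w0, ?_⟩
  have hE : ∀ α, α ≠ pur d k i → Er k i w0 α = conj (qq k i x α) := by
    intro α hα
    unfold Er
    rw [dif_pos hα]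
    rfl
  funext α
  rw [Mr_apply]
  by_cases hα : α = pur d k i
  · rw [if_pos hα, hα]
    have h1 := sum_dmon_conj_mon (d i) (Zpt k (xpart k x)) (uu k i x) (inner_uu k i x)
    have h2 : ∑ α : Mon n (d i), conj (qq k i x α) * mon (d i) (Zpt k (xpart k x)) α = 0 := by
      have h3 : ∀ α, conj (qq k i x α) * mon (d i) (Zpt k (xpart k x)) α =
          (conj (dmon (d i) (Zpt k (xpart k x)) (uu k i x) α) *
            mon (d i) (Zpt k (xpart k x)) α) / (scal d (Zpt k (xpart k x)) i : ℂ) := by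
        intro α
        unfold qq
        rw [map_div₀, Complex.conj_ofReal]
        ring
      rw [Finset.sum_congr rfl fun α _ => h3 α, ← Finset.sum_div, h1, zero_div]
    rw [← Finset.add_sum_erase _ _ (Finset.mem_univ (pur d k i)), mon_pur, mul_one] at h2
    have h3 : ∑ β, Er k i w0 β * mon (d i) (Zpt k (xpart k x)) β =
        ∑ β ∈ Finset.univ.erase (pur d k i), conj (qq k i x β) *
          mon (d i) (Zpt k (xpart k x)) β := by
      rw [← Finset.add_sum_erase _ _ (Finset.mem_univ (pur d k i)), Er_pur, zero_mul, zero_add]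
      refine Finset.sum_congr rfl fun β hβ => ?_
      rw [hE β (Finset.ne_of_mem_erase hβ)]
    rw [h3]
    linear_combination -h2
  · rw [if_neg hα, hE α hα]

theorem norm_split (w : Srow d k i → ℂ) :
    ‖(WithLp.toLp 2 (Fmap k (Function.updateFinset x (Srow d k i) w)) : Sys d) - gSys d‖ ^ 2 =
      (∑ i' ∈ Finset.univ.erase i, ∑ α, ‖Fmap k x ⟨i', α⟩ - gSys d ⟨i', α⟩‖ ^ 2) +
        ∑ α : Mon n (d i), ‖-(gSys d ⟨i, α⟩) + Mr k i (Zpt k (xpart k x)) w α‖ ^ 2 := by
  rw [EuclideanSpace.norm_sq_eq, Fintype.sum_sigma, ← Finset.sum_erase_add _ _ (Finset.mem_univ i)]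
  congr 1
  · refine Finset.sum_congr rfl fun i' hi => Finset.sum_congr rfl fun α _ => ?_
    change ‖Fmap k (Function.updateFinset x (Srow d k i) w) ⟨i', α⟩ - gSys d ⟨i', α⟩‖ ^ 2 = _
    rw [Fmap_other k i x w ⟨i', α⟩ (Finset.ne_of_mem_erase hi)]
  · refine Finset.sum_congr rfl fun α _ => ?_
    change ‖Fmap k (Function.updateFinset x (Srow d k i) w) ⟨i, α⟩ - gSys d ⟨i, α⟩‖ ^ 2 = _
    rw [Fmap_row, neg_add_eq_sub]

end Fix

end KI

theorem row_ineq (hd : ∀ i, 1 ≤ d i) (k : Fin (n + 1)) (i : Fin n) (t : ℝ) (ht : 0 < t)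
    (C : (Fin n → ℂ) → ℝ≥0∞) (hC : Measurable C) :
    ∫⁻ y : Idx d → ℂ, ENNReal.ofReal (∑ j,
        ‖(Lmat (WithLp.toLp 2 (Fmap k y) : Sys d) (Zpt k (xpart k y))).adjugate j i.succ‖ ^ 2) *
        C (xpart k y) * wt t (WithLp.toLp 2 (Fmap k y) : Sys d) ≤
      ENNReal.ofReal (t ^ 2) *
      ∫⁻ y : Idx d → ℂ, ENNReal.ofReal
        (‖(Lmat (WithLp.toLp 2 (Fmap k y) : Sys d) (Zpt k (xpart k y))).det‖ ^ 2) *
        C (xpart k y) * wt t (WithLp.toLp 2 (Fmap k y) : Sys d) := by
  classical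
  have hL := KI.continuous_Lmat hd k
  have hCm : Measurable (fun y : Idx d → ℂ => C (xpart k y)) :=
    hC.comp (KI.continuous_xpart k).measurable
  have hwt : Measurable (fun y : Idx d → ℂ => wt t (WithLp.toLp 2 (Fmap k y) : Sys d)) := by
    unfold wt
    refine ENNReal.measurable_ofReal.comp ?_
    refine Continuous.measurable ?_
    refine Real.continuous_exp.comp ?_
    refine Continuous.neg (continuous_const.mul (Continuous.pow (Continuous.norm ?_) 2))
    exact ((PiLp.continuous_toLp 2 _).comp (KI.continuous_Fmap k)).sub continuous_const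
  have hf : Measurable (fun y : Idx d → ℂ => ENNReal.ofReal (∑ j,
      ‖(Lmat (WithLp.toLp 2 (Fmap k y) : Sys d) (Zpt k (xpart k y))).adjugate j i.succ‖ ^ 2) *
      C (xpart k y) * wt t (WithLp.toLp 2 (Fmap k y) : Sys d)) := by
    refine Measurable.mul (Measurable.mul (ENNReal.measurable_ofReal.comp ?_) hCm) hwt
    refine Continuous.measurable ?_
    refine continuous_finset_sum _ fun j _ => Continuous.pow (Continuous.norm ?_) 2
    exact hL.matrix_adjugate.matrix_elem j i.succ
  have hg : Measurable (fun y : Idx d → ℂ => ENNReal.ofReal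
      (‖(Lmat (WithLp.toLp 2 (Fmap k y) : Sys d) (Zpt k (xpart k y))).det‖ ^ 2) *
      C (xpart k y) * wt t (WithLp.toLp 2 (Fmap k y) : Sys d)) := by
    refine Measurable.mul (Measurable.mul (ENNReal.measurable_ofReal.comp ?_) hCm) hwt
    exact (Continuous.pow (Continuous.norm hL.matrix_det) 2).measurable
  rw [← lintegral_const_mul _ hg, volume_pi]
  refine lintegral_le_of_lmarginal_le (KI.Srow d k i) hf (hg.const_mul _) fun x => ?_
  unfold lmarginal
  obtain ⟨w0, hw0⟩ := KI.Mr_w0 k i x hd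
  set R : ℝ := ∑ i' ∈ Finset.univ.erase i, ∑ α, ‖Fmap k x ⟨i', α⟩ - gSys d ⟨i', α⟩‖ ^ 2 with hR
  set K : ℝ≥0∞ := ENNReal.ofReal (Real.exp (-(t ^ 2 * R))) * C (xpart k x) with hK
  have hG := gauss_ineq (KI.Mr k i (Zpt k (xpart k x))) (fun α => -(gSys d ⟨i, α⟩))
    (KI.qq k i x) (∑ α : Mon n (d i), KI.qq k i x α * gSys d ⟨i, α⟩) t ht w0 hw0
  have hMc : Continuous (KI.Mr (d := d) k i (Zpt k (xpart k x))) :=
    LinearMap.continuous_of_finiteDimensional _
  have hMc' : ∀ α, Continuous fun w => KI.Mr (d := d) k i (Zpt k (xpart k x)) w α :=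
    fun α => (continuous_apply α).comp hMc
  have e1 : ∀ w : KI.Srow d k i → ℂ, wt t (WithLp.toLp 2 (Fmap k
      (Function.updateFinset x (KI.Srow d k i) w)) : Sys d) =
      ENNReal.ofReal (Real.exp (-(t ^ 2 * R))) * ENNReal.ofReal (Real.exp (-(t ^ 2 *
        ∑ α : Mon n (d i), ‖-(gSys d ⟨i, α⟩) + KI.Mr k i (Zpt k (xpart k x)) w α‖ ^ 2))) := by
    intro w
    unfold wt
    rw [KI.norm_split, ← ENNReal.ofReal_mul (Real.exp_pos _).le, ← Real.exp_add]
    congr 2
    ring
  have e2 : ∀ w : KI.Srow d k i → ℂ,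
      ENNReal.ofReal (∑ j, ‖(Lmat (WithLp.toLp 2 (Fmap k
        (Function.updateFinset x (KI.Srow d k i) w)) : Sys d)
        (Zpt k (xpart k (Function.updateFinset x (KI.Srow d k i) w)))).adjugate j i.succ‖ ^ 2) *
      C (xpart k (Function.updateFinset x (KI.Srow d k i) w)) *
      wt t (WithLp.toLp 2 (Fmap k (Function.updateFinset x (KI.Srow d k i) w)) : Sys d) =
      K * ENNReal.ofReal ((∑ α : Mon n (d i), ‖KI.qq k i x α‖ ^ 2) * Real.exp (-(t ^ 2 *
        ∑ α : Mon n (d i), ‖-(gSys d ⟨i, α⟩) + KI.Mr k i (Zpt k (xpart k x)) w α‖ ^ 2))) := by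
    intro w
    have h1 : ∑ j, ‖(Lmat (WithLp.toLp 2 (Fmap k
        (Function.updateFinset x (KI.Srow d k i) w)) : Sys d)
        (Zpt k (xpart k x))).adjugate j i.succ‖ ^ 2 = ∑ α : Mon n (d i), ‖KI.qq k i x α‖ ^ 2 := by
      rw [KI.sum_qq k i x hd]
      refine Finset.sum_congr rfl fun j _ => ?_
      have := KI.Aw_adj k i x w j
      unfold KI.Aw at this
      rw [this]
      rfl
    rw [e1, KI.xpart_update, h1, ENNReal.ofReal_mul (Finset.sum_nonneg fun α _ => by positivity),
      hK]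
    ring
  have e3 : ∀ w : KI.Srow d k i → ℂ,
      ENNReal.ofReal (t ^ 2) * (ENNReal.ofReal (‖(Lmat (WithLp.toLp 2 (Fmap k
        (Function.updateFinset x (KI.Srow d k i) w)) : Sys d)
        (Zpt k (xpart k (Function.updateFinset x (KI.Srow d k i) w)))).det‖ ^ 2) *
      C (xpart k (Function.updateFinset x (KI.Srow d k i) w)) *
      wt t (WithLp.toLp 2 (Fmap k (Function.updateFinset x (KI.Srow d k i) w)) : Sys d)) =
      K * (ENNReal.ofReal (t ^ 2) * ENNReal.ofReal (‖(∑ α : Mon n (d i), KI.qq k i x α * gSys d ⟨i, α⟩) +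
        ∑ α : Mon n (d i), KI.qq k i x α * (-(gSys d ⟨i, α⟩) + KI.Mr k i (Zpt k (xpart k x)) w α)‖ ^ 2 *
        Real.exp (-(t ^ 2 *
        ∑ α : Mon n (d i), ‖-(gSys d ⟨i, α⟩) + KI.Mr k i (Zpt k (xpart k x)) w α‖ ^ 2)))) := by
    intro w
    have h1 : (Lmat (WithLp.toLp 2 (Fmap k
        (Function.updateFinset x (KI.Srow d k i) w)) : Sys d)
        (Zpt k (xpart k x))).det = (∑ α : Mon n (d i), KI.qq k i x α * gSys d ⟨i, α⟩) +
        ∑ α : Mon n (d i), KI.qq k i x α * (-(gSys d ⟨i, α⟩) + KI.Mr k i (Zpt k (xpart k x)) w α) := by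
      have := KI.Aw_det k i x w
      unfold KI.Aw at this
      rw [this, ← Finset.sum_add_distrib]
      refine Finset.sum_congr rfl fun α _ => ?_
      ring
    rw [e1, KI.xpart_update, h1, ENNReal.ofReal_mul (by positivity), hK]
    ring
  rw [lintegral_congr e2, lintegral_congr e3]
  have m1 : Measurable (fun w : KI.Srow d k i → ℂ => ENNReal.ofReal
      ((∑ α : Mon n (d i), ‖KI.qq k i x α‖ ^ 2) * Real.exp (-(t ^ 2 *
        ∑ α : Mon n (d i), ‖-(gSys d ⟨i, α⟩) + KI.Mr k i (Zpt k (xpart k x)) w α‖ ^ 2)))) := by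
    refine ENNReal.measurable_ofReal.comp (Continuous.measurable ?_)
    refine continuous_const.mul (Real.continuous_exp.comp (Continuous.neg (continuous_const.mul ?_)))
    exact continuous_finset_sum _ fun α _ =>
      Continuous.pow (Continuous.norm (continuous_const.add (hMc' α))) 2
  have m2 : Measurable (fun w : KI.Srow d k i → ℂ => ENNReal.ofReal
      (‖(∑ α : Mon n (d i), KI.qq k i x α * gSys d ⟨i, α⟩) +
        ∑ α : Mon n (d i), KI.qq k i x α * (-(gSys d ⟨i, α⟩) + KI.Mr k i (Zpt k (xpart k x)) w α)‖ ^ 2 *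
        Real.exp (-(t ^ 2 *
        ∑ α : Mon n (d i), ‖-(gSys d ⟨i, α⟩) + KI.Mr k i (Zpt k (xpart k x)) w α‖ ^ 2)))) := by
    refine ENNReal.measurable_ofReal.comp (Continuous.measurable ?_)
    refine Continuous.mul ?_ (Real.continuous_exp.comp (Continuous.neg (continuous_const.mul ?_)))
    · refine Continuous.pow (Continuous.norm (continuous_const.add ?_)) 2
      exact continuous_finset_sum _ fun α _ =>
        continuous_const.mul (continuous_const.add (hMc' α))
    · exact continuous_finset_sum _ fun α _ =>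
        Continuous.pow (Continuous.norm (continuous_const.add (hMc' α))) 2
  rw [lintegral_const_mul _ m1, lintegral_const_mul _ (m2.const_mul _),
    lintegral_const_mul _ m2]
  exact mul_le_mul_right hG K

end Pool.Agent.Lib.CLN
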