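import Pool.Agent.Lib.CLN.EV
/-! MP_bd3536_an, row LM1.

The matrix `Lmat` at a zero. `det_Lmat`: with `Z = Zpt k x`, `Z k = 1`, add `Z j` times column `j`
to column `k` for all `j ≠ k`: by `dev_self` column `k` becomes `(‖Z‖², 0, …, 0)`; expand along it;
the remaining minor is `Jmat` with row `i` divided by `scal d Z i`.
Scaling: `Lmat h (c • z)` is `diag (conj c, phases) * Lmat h z`, `Lmat (a • h) z` is
`diag (1, a, …, a) * Lmat h z` (`a` real).
-/

set_option autoImplicit false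

open MeasureTheory
open scoped ENNReal NNReal ComplexConjugate

namespace Pool.Agent.Lib.CLN

variable {n : ℕ} {d : Fin n → ℕ}

theorem scal_pos (hd : ∀ i, 1 ≤ d i) (z : Pt n) (hz : z ≠ 0) (i : Fin n) : 0 < scal d z i := by
  unfold scal
  have h1 : 0 < ‖z‖ := norm_pos_iff.2 hz
  have h2 : (0 : ℝ) < (d i : ℝ) := by exact_mod_cast hd i
  positivity

private theorem Zpt_apply_self (k : Fin (n + 1)) (x : Fin n → ℂ) : (Zpt k x) k = 1 := by
  simp [Zpt]

theorem Zpt_ne_zero (k : Fin (n + 1)) (x : Fin n → ℂ) : Zpt k x ≠ 0 := by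
  intro h
  have h1 := Zpt_apply_self k x
  rw [h] at h1
  simp at h1

private theorem Lmat_zero (h : Sys d) (z : Pt n) (j : Fin (n + 1)) :
    Lmat h z 0 j = conj (z j) := by
  simp [Lmat]

private theorem Lmat_succ (h : Sys d) (z : Pt n) (i : Fin n) (j : Fin (n + 1)) :
    Lmat h z i.succ j = pder h z i j / (scal d z i : ℂ) := by
  simp [Lmat]

private theorem col_zero (z : Pt n) : ∑ j, z j * conj (z j) = ((‖z‖ ^ 2 : ℝ) : ℂ) := by
  rw [EuclideanSpace.norm_sq_eq]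
  push_cast
  refine Finset.sum_congr rfl fun j _ => ?_
  rw [Complex.mul_conj, Complex.normSq_eq_norm_sq]
  push_cast
  rfl

theorem det_Lmat (hd : ∀ i, 1 ≤ d i) (k : Fin (n + 1)) (h : Sys d) (x : Fin n → ℂ)
    (hx : ev h (Zpt k x) = 0) :
    ‖(Jmat k h x).det‖ ^ 2 * ‖Zpt k x‖ ^ 4 =
      ‖(Lmat h (Zpt k x)).det‖ ^ 2 * ∏ i, scal d (Zpt k x) i ^ 2 := by
  set Z : Pt n := Zpt k x with hZ
  have hZk : Z k = 1 := Zpt_apply_self k x
  have hZ0 : Z ≠ 0 := Zpt_ne_zero k x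
  have hcol := Matrix.det_updateCol_sum (Lmat h Z) k (fun j => Z j)
  have hv : (fun r => ∑ i, (fun j => Z j) i • Lmat h Z r i) = Pi.single 0 (((‖Z‖ ^ 2 : ℝ) : ℂ)) := by
    funext r
    refine Fin.cases ?_ (fun i => ?_) r
    · simp only [Lmat_zero, smul_eq_mul, Pi.single_eq_same]
      exact col_zero Z
    · rw [Pi.single_eq_of_ne (Fin.succ_ne_zero i)]
      have e1 : ∀ j, Z j • Lmat h Z i.succ j = (Z j * pder h Z i j) / (scal d Z i : ℂ) := by
        intro j
        rw [Lmat_succ, smul_eq_mul, mul_div_assoc]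
      simp only [e1]
      rw [← Finset.sum_div, ← dev_eq_sum h Z Z i, dev_self h Z i, hx]
      simp
  rw [hv] at hcol
  have hdet : (Lmat h Z).det = ((Lmat h Z).updateCol k (Pi.single 0 (((‖Z‖ ^ 2 : ℝ) : ℂ)))).det := by
    rw [hcol, hZk, one_smul]
  rw [Matrix.det_succ_column ((Lmat h Z).updateCol k (Pi.single 0 (((‖Z‖ ^ 2 : ℝ) : ℂ)))) k,
    Finset.sum_eq_single (0 : Fin (n + 1))] at hdet
  rotate_left
  · intro b _ hb
    rw [Matrix.updateCol_self, Pi.single_eq_of_ne hb]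
    ring
  · intro hh
    exact absurd (Finset.mem_univ _) hh
  have hsub : ((Lmat h Z).updateCol k (Pi.single 0 (((‖Z‖ ^ 2 : ℝ) : ℂ)))).submatrix
      (Fin.succAbove 0) k.succAbove =
      Matrix.of fun i j => ((scal d Z i : ℂ))⁻¹ * Jmat k h x i j := by
    ext i j
    rw [Matrix.submatrix_apply, Matrix.updateCol_ne (Fin.succAbove_ne k j), Fin.succAbove_zero,
      Lmat_succ, Matrix.of_apply, div_eq_inv_mul]
    rfl
  rw [hsub, Matrix.det_mul_column, Matrix.updateCol_self, Pi.single_eq_same] at hdet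
  have hsc : ∀ i, (0 : ℝ) < scal d Z i := fun i => scal_pos hd Z hZ0 i
  have hprod : (0 : ℝ) < ∏ i, scal d Z i := Finset.prod_pos fun i _ => hsc i
  rw [hdet, norm_mul, norm_mul, norm_mul, norm_pow, norm_neg, norm_one, one_pow, one_mul,
    norm_prod, Complex.norm_real, Real.norm_of_nonneg (by positivity : (0:ℝ) ≤ ‖Z‖ ^ 2)]
  have e2 : ∏ i, ‖((scal d Z i : ℂ))⁻¹‖ = (∏ i, scal d Z i)⁻¹ := by
    rw [← Finset.prod_inv_distrib]
    refine Finset.prod_congr rfl fun i _ => ?_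
    rw [norm_inv, Complex.norm_real, Real.norm_of_nonneg (hsc i).le]
  rw [e2, Finset.prod_pow]
  field_simp

private theorem pder_smul (a : ℝ) (h : Sys d) (z : Fin (n + 1) → ℂ) (i : Fin n) (j : Fin (n + 1)) :
    pder (a • h) z i j = (a : ℂ) * pder h z i j := by
  unfold pder
  exact dev_smul a h z _ i

/-- the row factors for a change of the representative -/
private noncomputable def vv (d : Fin n → ℕ) (c : ℂ) : Fin (n + 1) → ℂ :=
  Fin.cons (conj c) (fun i => c ^ (d i - 1) / ((‖c‖ ^ (d i - 1) : ℝ) : ℂ))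

private theorem vv_succ_norm (c : ℂ) (hc : c ≠ 0) (i : Fin n) : ‖vv d c i.succ‖ = 1 := by
  have h1 : 0 < ‖c‖ := norm_pos_iff.2 hc
  simp only [vv, Fin.cons_succ, norm_div, norm_pow, Complex.norm_real, norm_norm]
  exact div_self (by positivity)

private theorem vv_ne (c : ℂ) (hc : c ≠ 0) (r : Fin (n + 1)) : vv d c r ≠ 0 := by
  refine Fin.cases ?_ (fun i => ?_) r
  · simpa [vv] using hc
  · intro h0
    have := vv_succ_norm (d := d) c hc i
    rw [h0] at this
    simp at this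

private theorem Lmat_smul_pt (h : Sys d) (c : ℂ) (z : Pt n) :
    Lmat h (c • z) = Matrix.diagonal (vv d c) * Lmat h z := by
  ext r j
  rw [Matrix.diagonal_mul]
  refine Fin.cases ?_ (fun i => ?_) r
  · rw [Lmat_zero, Lmat_zero]
    simp [vv]
  · rw [Lmat_succ, Lmat_succ]
    have e := pder_smul_pt h c (z : Fin (n + 1) → ℂ) i j
    have e0 : ((c • z : Pt n) : Fin (n + 1) → ℂ) = c • (z : Fin (n + 1) → ℂ) := rfl
    rw [e0, e]
    simp only [vv, Fin.cons_succ, scal, norm_smul, mul_pow]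
    push_cast
    rw [div_mul_div_comm]
    congr 1
    ring

private theorem Lmat_smul (a : ℝ) (h : Sys d) (z : Pt n) :
    Lmat (a • h) z = Matrix.diagonal (Fin.cons 1 (fun _ => (a : ℂ)) : Fin (n + 1) → ℂ) * Lmat h z := by
  ext r j
  rw [Matrix.diagonal_mul]
  refine Fin.cases ?_ (fun i => ?_) r
  · rw [Lmat_zero, Lmat_zero]
    simp
  · rw [Lmat_succ, Lmat_succ, pder_smul, Fin.cons_succ, mul_div_assoc]

private theorem inv_diag_mul (v : Fin (n + 1) → ℂ) (hv : ∀ r, v r ≠ 0)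
    (A : Matrix (Fin (n + 1)) (Fin (n + 1)) ℂ) (j r : Fin (n + 1)) :
    (Matrix.diagonal v * A)⁻¹ j r = A⁻¹ j r * (v r)⁻¹ := by
  rw [Matrix.mul_inv_rev, Matrix.inv_diagonal, Matrix.mul_diagonal]
  congr 1
  have hu : IsUnit v := Pi.isUnit_iff.2 fun r => (hv r).isUnit
  rw [Ring.inverse_of_isUnit hu]
  have := congrFun (IsUnit.mul_val_inv hu) r
  rw [Pi.mul_apply, Pi.one_apply] at this
  exact eq_inv_of_mul_eq_one_right this

private theorem det_diag_mul (v : Fin (n + 1) → ℂ) (hv : ∀ r, v r ≠ 0)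
    (A : Matrix (Fin (n + 1)) (Fin (n + 1)) ℂ) :
    (Matrix.diagonal v * A).det = 0 ↔ A.det = 0 := by
  rw [Matrix.det_mul, Matrix.det_diagonal, mul_eq_zero]
  constructor
  · rintro (h0 | h0)
    · exact absurd h0 (Finset.prod_ne_zero_iff.2 fun r _ => hv r)
    · exact h0
  · exact fun h0 => Or.inr h0

theorem det_Lmat_smul (hd : ∀ i, 1 ≤ d i) (h : Sys d) (c : ℂ) (hc : c ≠ 0) (z : Pt n)
    (hz : z ≠ 0) : (Lmat h (c • z)).det = 0 ↔ (Lmat h z).det = 0 := by
  rw [Lmat_smul_pt]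
  exact det_diag_mul _ (vv_ne c hc) _

theorem NF_smul_pt (hd : ∀ i, 1 ≤ d i) (h : Sys d) (c : ℂ) (hc : c ≠ 0) (z : Pt n) (hz : z ≠ 0) :
    NF h (c • z) = NF h z := by
  unfold NF
  by_cases h0 : (Lmat h z).det = 0
  · rw [if_pos h0, if_pos ((det_Lmat_smul hd h c hc z hz).2 h0)]
  · rw [if_neg h0, if_neg (fun hh => h0 ((det_Lmat_smul hd h c hc z hz).1 hh)), Lmat_smul_pt]
    congr 1
    refine Finset.sum_congr rfl fun i _ => Finset.sum_congr rfl fun j _ => ?_
    rw [inv_diag_mul _ (vv_ne c hc), norm_mul, norm_inv, vv_succ_norm c hc, inv_one, mul_one]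

theorem NF_smul (a : ℝ) (ha : a ≠ 0) (h : Sys d) (z : Pt n) :
    NF (a • h) z = ENNReal.ofReal ((a ^ 2)⁻¹) * NF h z := by
  have hv : ∀ r, (Fin.cons 1 (fun _ => (a : ℂ)) : Fin (n + 1) → ℂ) r ≠ 0 := by
    intro r
    refine Fin.cases ?_ (fun i => ?_) r
    · simp
    · simpa using ha
  have hpos : 0 < (a ^ 2)⁻¹ := by positivity
  unfold NF
  rw [Lmat_smul]
  by_cases h0 : (Lmat h z).det = 0
  · rw [if_pos h0, if_pos ((det_diag_mul _ hv _).2 h0), ENNReal.mul_top]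
    exact (ENNReal.ofReal_pos.2 hpos).ne'
  · rw [if_neg h0, if_neg (fun hh => h0 ((det_diag_mul _ hv _).1 hh)), ← ENNReal.ofReal_mul hpos.le]
    congr 1
    rw [Finset.mul_sum]
    refine Finset.sum_congr rfl fun i _ => ?_
    rw [Finset.mul_sum]
    refine Finset.sum_congr rfl fun j _ => ?_
    rw [inv_diag_mul _ hv, norm_mul, Fin.cons_succ, norm_inv, Complex.norm_real, mul_pow, inv_pow,
      Real.norm_eq_abs, sq_abs]
    ring

theorem Lz_eq (h : Sys d) (z : Pt n) (hz : ‖z‖ = 1) : Lz h z = Lmat h z := by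
  unfold Lz Lmat scal
  simp [hz]

theorem NF_mul_det (h : Sys d) (z : Pt n) :
    NF h z * ENNReal.ofReal (‖(Lmat h z).det‖ ^ 2) ≤
      ∑ i : Fin n, ENNReal.ofReal (∑ j, ‖(Lmat h z).adjugate j i.succ‖ ^ 2) := by
  unfold NF
  by_cases h0 : (Lmat h z).det = 0
  · rw [if_pos h0, h0]
    simp
  · rw [if_neg h0, ← ENNReal.ofReal_mul (by positivity), ← ENNReal.ofReal_sum_of_nonneg
      (fun i _ => by positivity)]
    refine ENNReal.ofReal_le_ofReal (le_of_eq ?_)
    rw [Finset.sum_mul]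
    refine Finset.sum_congr rfl fun i _ => ?_
    rw [Finset.sum_mul]
    refine Finset.sum_congr rfl fun j _ => ?_
    have hn : ‖(Lmat h z).det‖ ≠ 0 := by simpa using h0
    rw [Matrix.inv_def, Matrix.smul_apply, smul_eq_mul, Ring.inverse_eq_inv', norm_mul, norm_inv]
    field_simp

end Pool.Agent.Lib.CLN
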