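import Pool.Agent.Lib.CLN.AR
import Pool.Agent.Lib.CLN.FM2
import Pool.Agent.Lib.CLN.KI
import Pool.Agent.Lib.CLN.BZ3
import Pool.Agent.Lib.CLN.LM1
/-! MP_bd3536_an, row KR.

`area_measurable`/`area_formula` for `Fmap k` and
`φ y = NF (Fmap k y) (Zpt k (xpart k y)) * wt t (Fmap k y)`, and for `φ y = wt t (Fmap k y)`.
`|det F'| = ‖det Jmat‖² = C(x) ‖det Lmat‖²` by `det_Lmat`; `NF_mul_det`; `row_ineq` for each `i`;
finally `zset_card`. (`NF · ·` is a measurable function of `y`.)
-/

set_option autoImplicit false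

open MeasureTheory
open scoped ENNReal NNReal ComplexConjugate

namespace Pool.Agent.Lib.CLN

variable {n : ℕ} {d : Fin n → ℕ}

private theorem continuous_xpart (k : Fin (n + 1)) :
    Continuous (fun y : Idx d → ℂ => xpart k y) := by
  unfold xpart
  fun_prop

private theorem continuous_Zpt (k : Fin (n + 1)) :
    Continuous (fun x : Fin n → ℂ => Zpt k x) := by
  unfold Zpt
  have h1 : Continuous (fun x : Fin n → ℂ => Fin.insertNth (α := fun _ => ℂ) k (1 : ℂ) x) := by
    refine continuous_pi fun j => ?_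
    refine Fin.succAboveCases k ?_ (fun i => ?_) j
    · simp only [Fin.insertNth_apply_same]
      exact continuous_const
    · simp only [Fin.insertNth_apply_succAbove]
      exact continuous_apply i
  exact (PiLp.continuous_toLp 2 _).comp h1

private theorem continuous_dmon (k : ℕ) (u : Fin (n + 1) → ℂ) (α : Mon n k) :
    Continuous (fun z : Fin (n + 1) → ℂ => dmon k z u α) := by
  unfold dmon
  fun_prop

private theorem continuous_mon (k : ℕ) (α : Mon n k) :
    Continuous (fun z : Fin (n + 1) → ℂ => mon k z α) := by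
  unfold mon
  fun_prop

private theorem measurable_Zx (k : Fin (n + 1)) :
    Measurable (fun y : Idx d → ℂ => Zpt k (xpart k y)) :=
  ((continuous_Zpt k).comp (continuous_xpart k)).measurable

private theorem continuous_Zx (k : Fin (n + 1)) :
    Continuous (fun y : Idx d → ℂ => ((Zpt k (xpart k y) : Pt n) : Fin (n + 1) → ℂ)) :=
  (PiLp.continuous_ofLp 2 _).comp ((continuous_Zpt k).comp (continuous_xpart k))

private theorem continuous_Fmap (k : Fin (n + 1)) :
    Continuous (fun y : Idx d → ℂ => Fmap k y) := by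
  refine continuous_pi fun p => ?_
  unfold Fmap
  by_cases hp : p.2 = pur d k p.1
  · simp only [hp, if_true]
    refine Continuous.neg (continuous_finset_sum _ fun α _ => ?_)
    exact (continuous_apply _).mul ((continuous_mon _ α).comp (continuous_Zx k))
  · simp only [hp, if_false]
    exact continuous_apply p

private theorem continuous_scal (i : Fin n) :
    Continuous (fun z : Pt n => scal d z i) := by
  unfold scal
  fun_prop

private theorem measurable_Lmat_entry (k : Fin (n + 1)) (a b : Fin (n + 1)) :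
    Measurable (fun y : Idx d → ℂ =>
      Lmat (WithLp.toLp 2 (Fmap k y) : Sys d) (Zpt k (xpart k y)) a b) := by
  refine Fin.cases ?_ (fun i => ?_) a
  · have : Continuous (fun y : Idx d → ℂ => conj ((Zpt k (xpart k y) : Pt n) b)) :=
      Complex.continuous_conj.comp ((continuous_apply b).comp (continuous_Zx k))
    exact this.measurable
  · have h1 : Continuous (fun y : Idx d → ℂ =>
        pder (WithLp.toLp 2 (Fmap k y) : Sys d) (Zpt k (xpart k y)) i b) := by
      unfold pder dev
      refine continuous_finset_sum _ fun α _ => ?_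
      refine Continuous.mul ?_ ?_
      · exact (continuous_apply (⟨i, α⟩ : Idx d)).comp (continuous_Fmap k)
      · exact (continuous_dmon _ _ α).comp (continuous_Zx k)
    have h2 : Continuous (fun y : Idx d → ℂ => (scal d (Zpt k (xpart k y)) i : ℂ)) :=
      Complex.continuous_ofReal.comp
        ((continuous_scal i).comp ((continuous_Zpt k).comp (continuous_xpart k)))
    exact h1.measurable.div h2.measurable

private theorem measurable_det_of {α : Type*} [MeasurableSpace α] {m : ℕ}
    (M : α → Matrix (Fin m) (Fin m) ℂ) (hM : ∀ a b, Measurable (fun y => M y a b)) :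
    Measurable (fun y => (M y).det) := by
  simp only [Matrix.det_apply]
  refine Finset.measurable_sum _ fun σ _ => ?_
  refine Measurable.const_smul ?_ _
  exact Finset.measurable_prod _ fun i _ => hM _ _

private theorem measurable_adj_of {α : Type*} [MeasurableSpace α] {m : ℕ}
    (M : α → Matrix (Fin m) (Fin m) ℂ) (hM : ∀ a b, Measurable (fun y => M y a b))
    (a b : Fin m) : Measurable (fun y => (M y).adjugate a b) := by
  simp only [Matrix.adjugate_apply]
  refine measurable_det_of _ fun i j => ?_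
  by_cases h : i = b
  · subst h
    simp only [Matrix.updateRow_self]
    exact measurable_const
  · simp only [Matrix.updateRow_ne h]
    exact hM i j

private theorem measurable_NF (k : Fin (n + 1)) :
    Measurable (fun y : Idx d → ℂ =>
      NF (WithLp.toLp 2 (Fmap k y) : Sys d) (Zpt k (xpart k y))) := by
  have hdet := measurable_det_of
    (fun y : Idx d → ℂ => Lmat (WithLp.toLp 2 (Fmap k y) : Sys d) (Zpt k (xpart k y)))
    (measurable_Lmat_entry k)
  unfold NF
  refine Measurable.ite (hdet (measurableSet_singleton 0)) measurable_const ?_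
  refine ENNReal.measurable_ofReal.comp ?_
  refine Finset.measurable_sum _ fun i _ => Finset.measurable_sum _ fun j _ => ?_
  refine Measurable.pow_const (Measurable.norm ?_) 2
  simp only [Matrix.inv_def, Matrix.smul_apply, smul_eq_mul, Ring.inverse_eq_inv']
  exact hdet.inv.mul (measurable_adj_of _ (measurable_Lmat_entry k) _ _)

private theorem measurable_wt (k : Fin (n + 1)) (t : ℝ) :
    Measurable (fun y : Idx d → ℂ => wt t (WithLp.toLp 2 (Fmap k y) : Sys d)) := by
  unfold wt
  have : Continuous (fun y : Idx d → ℂ =>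
      Real.exp (-(t ^ 2 * ‖(WithLp.toLp 2 (Fmap k y) : Sys d) - gSys d‖ ^ 2))) := by
    have h1 : Continuous (fun y : Idx d → ℂ => (WithLp.toLp 2 (Fmap k y) : Sys d)) :=
      (PiLp.continuous_toLp 2 _).comp (continuous_Fmap k)
    fun_prop
  exact ENNReal.measurable_ofReal.comp this.measurable

/-- A sum over the fibre for a function of the pair. -/
private theorem fibre_sum_eq (k : Fin (n + 1))
    (F' : (Idx d → ℂ) → ((Idx d → ℂ) →L[ℝ] (Idx d → ℂ)))
    (hF' : ∀ y, |(F' y).det| =
        ‖(Jmat k (WithLp.toLp 2 (Fmap k y) : Sys d) (xpart k y)).det‖ ^ 2)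
    (h : Idx d → ℂ) (Φ : (Idx d → ℂ) → (Fin n → ℂ) → ℝ≥0∞) :
    ∑' y : {y : Idx d → ℂ // Fmap k y = h ∧ (F' y).det ≠ 0},
      Φ (Fmap k (y : Idx d → ℂ)) (xpart k (y : Idx d → ℂ)) =
    ∑' x : zset k (WithLp.toLp 2 h : Sys d), Φ h x := by
  rw [← fibre_tsum k h (fun x => Φ h x)]
  have hiff : ∀ y : Idx d → ℂ, (Fmap k y = h ∧ (F' y).det ≠ 0) ↔
      (Fmap k y = h ∧ (Jmat k (WithLp.toLp 2 (Fmap k y) : Sys d) (xpart k y)).det ≠ 0) := by
    intro y
    refine and_congr_right fun _ => ?_
    rw [← abs_ne_zero, hF' y]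
    simp
  rw [← Equiv.tsum_eq (Equiv.subtypeEquivRight hiff)]
  refine tsum_congr fun y => ?_
  have h1 : Fmap k (y : Idx d → ℂ) = h := y.2.1
  simp only [Equiv.subtypeEquivRight_apply_coe]
  rw [h1]

theorem Sk_measurable (hd : ∀ i, 1 ≤ d i) (k : Fin (n + 1)) :
    Measurable (fun h : Idx d → ℂ => Sk k (WithLp.toLp 2 h : Sys d)) := by
  obtain ⟨F', hF, hc, hdet⟩ := Fmap_deriv (d := d) k
  have h1 := area_measurable hF hc (measurable_NF (d := d) k)
  have h2 : (fun h : Idx d → ℂ => Sk k (WithLp.toLp 2 h : Sys d)) =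
      fun h => ∑' y : {y : Idx d → ℂ // Fmap k y = h ∧ (F' y).det ≠ 0},
        NF (WithLp.toLp 2 (Fmap k (y : Idx d → ℂ)) : Sys d) (Zpt k (xpart k (y : Idx d → ℂ))) := by
    funext h
    exact (fibre_sum_eq k F' hdet h (fun h x => NF (WithLp.toLp 2 h : Sys d) (Zpt k x))).symm
  rw [h2]
  exact h1

theorem kac_rice (hd : ∀ i, 1 ≤ d i) (k : Fin (n + 1)) (t : ℝ) (ht : 0 < t) :
    ∫⁻ h : Idx d → ℂ, Sk k (WithLp.toLp 2 h : Sys d) * wt t (WithLp.toLp 2 h : Sys d) ≤
      ENNReal.ofReal (n * t ^ 2) * (∏ i, (d i : ℝ≥0∞)) *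
        ∫⁻ h : Idx d → ℂ, wt t (WithLp.toLp 2 h : Sys d) := by
  obtain ⟨F', hF, hc, hdet⟩ := Fmap_deriv (d := d) k
  set Cf : (Fin n → ℂ) → ℝ≥0∞ := fun x =>
    ENNReal.ofReal ((∏ i, scal d (Zpt k x) i ^ 2) / ‖Zpt k x‖ ^ 4) with hCf
  have hCm : Measurable Cf := by
    have h1 : Measurable (fun x : Fin n → ℂ => ∏ i, scal d (Zpt k x) i ^ 2) :=
      (continuous_finset_prod _ fun i _ =>
        ((continuous_scal i).comp (continuous_Zpt k)).pow 2).measurable
    have h2 : Measurable (fun x : Fin n → ℂ => ‖Zpt k x‖ ^ 4) :=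
      ((continuous_Zpt k).norm.pow 4).measurable
    exact ENNReal.measurable_ofReal.comp (h1.div h2)
  -- the determinant
  have hJ : ∀ y : Idx d → ℂ, ENNReal.ofReal |(F' y).det| =
      ENNReal.ofReal (‖(Lmat (WithLp.toLp 2 (Fmap k y) : Sys d) (Zpt k (xpart k y))).det‖ ^ 2) *
        Cf (xpart k y) := by
    intro y
    have h1 := det_Lmat hd k (WithLp.toLp 2 (Fmap k y) : Sys d) (xpart k y) (ev_Fmap k y)
    have h2 : (0 : ℝ) < ‖Zpt k (xpart k y)‖ ^ 4 :=
      pow_pos (norm_pos_iff.2 (Zpt_ne_zero k _)) 4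
    rw [hCf, hdet, ← ENNReal.ofReal_mul (by positivity)]
    congr 1
    rw [mul_div_assoc', eq_div_iff h2.ne']
    exact h1
  -- step 1
  have hphi : Measurable (fun y : Idx d → ℂ =>
      NF (WithLp.toLp 2 (Fmap k y) : Sys d) (Zpt k (xpart k y)) *
        wt t (WithLp.toLp 2 (Fmap k y) : Sys d)) :=
    (measurable_NF k).mul (measurable_wt k t)
  have e1 : ∫⁻ h : Idx d → ℂ, Sk k (WithLp.toLp 2 h : Sys d) * wt t (WithLp.toLp 2 h : Sys d) =
      ∫⁻ y : Idx d → ℂ, ENNReal.ofReal |(F' y).det| *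
        (NF (WithLp.toLp 2 (Fmap k y) : Sys d) (Zpt k (xpart k y)) *
        wt t (WithLp.toLp 2 (Fmap k y) : Sys d)) := by
    rw [← area_formula volume hF hc hphi]
    refine lintegral_congr fun h => ?_
    rw [fibre_sum_eq k F' hdet h (fun h x => NF (WithLp.toLp 2 h : Sys d) (Zpt k x) *
      wt t (WithLp.toLp 2 h : Sys d)), ENNReal.tsum_mul_right]
    rfl
  have e2 : ∫⁻ h : Idx d → ℂ, (∑' _x : zset k (WithLp.toLp 2 h : Sys d), (1 : ℝ≥0∞)) *
      wt t (WithLp.toLp 2 h : Sys d) =
      ∫⁻ y : Idx d → ℂ, ENNReal.ofReal |(F' y).det| *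
        wt t (WithLp.toLp 2 (Fmap k y) : Sys d) := by
    rw [← area_formula volume hF hc (measurable_wt k t)]
    refine lintegral_congr fun h => ?_
    rw [fibre_sum_eq k F' hdet h (fun h _ => wt t (WithLp.toLp 2 h : Sys d)),
      ← ENNReal.tsum_mul_right]
    simp
  rw [e1]
  have hadj : ∀ i : Fin n, Measurable (fun y : Idx d → ℂ => ENNReal.ofReal (∑ j,
        ‖(Lmat (WithLp.toLp 2 (Fmap k y) : Sys d) (Zpt k (xpart k y))).adjugate j i.succ‖ ^ 2) *
        Cf (xpart k y) * wt t (WithLp.toLp 2 (Fmap k y) : Sys d)) := by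
    intro i
    refine Measurable.mul (Measurable.mul ?_ ?_) (measurable_wt k t)
    · refine ENNReal.measurable_ofReal.comp (Finset.measurable_sum _ fun j _ => ?_)
      exact Measurable.pow_const (Measurable.norm
        (measurable_adj_of _ (measurable_Lmat_entry k) _ _)) 2
    · exact hCm.comp (continuous_xpart k).measurable
  calc ∫⁻ y : Idx d → ℂ, ENNReal.ofReal |(F' y).det| *
        (NF (WithLp.toLp 2 (Fmap k y) : Sys d) (Zpt k (xpart k y)) *
        wt t (WithLp.toLp 2 (Fmap k y) : Sys d))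
      ≤ ∫⁻ y : Idx d → ℂ, ∑ i : Fin n, ENNReal.ofReal (∑ j,
        ‖(Lmat (WithLp.toLp 2 (Fmap k y) : Sys d) (Zpt k (xpart k y))).adjugate j i.succ‖ ^ 2) *
        Cf (xpart k y) * wt t (WithLp.toLp 2 (Fmap k y) : Sys d) := by
        refine lintegral_mono fun y => ?_
        have h1 := NF_mul_det (WithLp.toLp 2 (Fmap k y) : Sys d) (Zpt k (xpart k y))
        simp only
        rw [hJ y, ← Finset.sum_mul, ← Finset.sum_mul]
        calc _ = (NF (WithLp.toLp 2 (Fmap k y) : Sys d) (Zpt k (xpart k y)) *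
              ENNReal.ofReal (‖(Lmat (WithLp.toLp 2 (Fmap k y) : Sys d)
                (Zpt k (xpart k y))).det‖ ^ 2)) * Cf (xpart k y) *
              wt t (WithLp.toLp 2 (Fmap k y) : Sys d) := by ring
          _ ≤ _ := mul_le_mul_left (mul_le_mul_left h1 _) _
    _ = ∑ i : Fin n, ∫⁻ y : Idx d → ℂ, ENNReal.ofReal (∑ j,
        ‖(Lmat (WithLp.toLp 2 (Fmap k y) : Sys d) (Zpt k (xpart k y))).adjugate j i.succ‖ ^ 2) *
        Cf (xpart k y) * wt t (WithLp.toLp 2 (Fmap k y) : Sys d) :=
        lintegral_finset_sum _ fun i _ => hadj i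
    _ ≤ ∑ _i : Fin n, ENNReal.ofReal (t ^ 2) *
        ∫⁻ y : Idx d → ℂ, ENNReal.ofReal |(F' y).det| *
        wt t (WithLp.toLp 2 (Fmap k y) : Sys d) := by
        refine Finset.sum_le_sum fun i _ => ?_
        have h1 := row_ineq hd k i t ht Cf hCm
        refine h1.trans (le_of_eq ?_)
        congr 1
        refine lintegral_congr fun y => ?_
        rw [hJ y]
    _ = ENNReal.ofReal (n * t ^ 2) * ∫⁻ y : Idx d → ℂ, ENNReal.ofReal |(F' y).det| *
        wt t (WithLp.toLp 2 (Fmap k y) : Sys d) := by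
        rw [Finset.sum_const, Finset.card_univ, Fintype.card_fin, nsmul_eq_mul, ← mul_assoc]
        congr 1
        rw [ENNReal.ofReal_mul (by positivity), ENNReal.ofReal_natCast]
    _ = ENNReal.ofReal (n * t ^ 2) *
        ∫⁻ h : Idx d → ℂ, (∑' _x : zset k (WithLp.toLp 2 h : Sys d), (1 : ℝ≥0∞)) *
          wt t (WithLp.toLp 2 h : Sys d) := by rw [e2]
    _ ≤ ENNReal.ofReal (n * t ^ 2) *
        ∫⁻ h : Idx d → ℂ, (∏ i, (d i : ℝ≥0∞)) * wt t (WithLp.toLp 2 h : Sys d) := by
        refine mul_le_mul_right ?_ _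
        refine lintegral_mono fun h => ?_
        exact mul_le_mul_left (zset_card hd k _) _
    _ = _ := by
        rw [lintegral_const_mul', mul_assoc]
        refine ENNReal.prod_ne_top fun i _ => ENNReal.natCast_ne_top _

end Pool.Agent.Lib.CLN
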