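import Pool.Agent.Lib.CLN.Base
/-! MP_bd3536_an, row MI.

Derivative of the Frobenius norm of the inverse: `M = A⁻¹` has derivative `- M A' M`
(by the slopes, `A(t)⁻¹ - A(s)⁻¹ = - A(t)⁻¹ (A(t) - A(s)) A(s)⁻¹`), and
`|(‖M‖_F²)'| = 2 |Re ⟨M, M A' M⟩| ≤ 2 ‖M‖_F³ ‖A'‖_F`.
-/

set_option autoImplicit false

open MeasureTheory
open scoped ENNReal NNReal ComplexConjugate

namespace Pool.Agent.Lib.CLN

variable {n : ℕ} {d : Fin n → ℕ}

open Filter Topology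

/-- Frobenius norm squared. -/
noncomputable def fsq {m : ℕ} (A : Matrix (Fin m) (Fin m) ℂ) : ℝ := ∑ i, ∑ j, ‖A i j‖ ^ 2

theorem fsq_nonneg {m : ℕ} (A : Matrix (Fin m) (Fin m) ℂ) : 0 ≤ fsq A :=
  Finset.sum_nonneg fun _ _ => Finset.sum_nonneg fun _ _ => by positivity

theorem sqrt_fsq_mul {m : ℕ} (A B : Matrix (Fin m) (Fin m) ℂ) :
    Real.sqrt (fsq (A * B)) ≤ Real.sqrt (fsq A) * Real.sqrt (fsq B) := by
  let _ := Matrix.frobeniusNormedRing (m := Fin m) (α := ℂ)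
  have h : ∀ C : Matrix (Fin m) (Fin m) ℂ, Real.sqrt (fsq C) = ‖C‖ := by
    intro C
    rw [Matrix.frobenius_norm_def, Real.sqrt_eq_rpow]
    simp [fsq]
  rw [h, h, h]
  exact Matrix.frobenius_norm_mul A B

theorem hasDerivWithinAt_inv_entry {m : ℕ} (A : ℝ → Matrix (Fin m) (Fin m) ℂ)
    (A' : Matrix (Fin m) (Fin m) ℂ) (S : Set ℝ) (s : ℝ)
    (hA : ∀ i j, HasDerivWithinAt (fun t => A t i j) (A' i j) S s) (hdet : (A s).det ≠ 0)
    (i j : Fin m) :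
    HasDerivWithinAt (fun t => (A t)⁻¹ i j) ((-((A s)⁻¹ * A' * (A s)⁻¹)) i j) S s := by
  have hAc : Tendsto A (𝓝[S \ {s}] s) (𝓝 (A s)) := by
    refine tendsto_pi_nhds.2 fun i => tendsto_pi_nhds.2 fun j => ?_
    exact ((hA i j).continuousWithinAt.mono Set.diff_subset).tendsto
  have hInv : Tendsto (fun t => (A t)⁻¹) (𝓝[S \ {s}] s) (𝓝 (A s)⁻¹) := by
    refine Tendsto.comp (g := Inv.inv) ?_ hAc
    refine continuousAt_matrix_inv (A s) ?_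
    rw [Ring.inverse_eq_inv']
    exact continuousAt_inv₀ hdet
  have hsl : Tendsto (fun t => (((t - s)⁻¹ : ℝ) • (A t - A s) : Matrix (Fin m) (Fin m) ℂ))
      (𝓝[S \ {s}] s) (𝓝 A') := by
    refine tendsto_pi_nhds.2 fun i => tendsto_pi_nhds.2 fun j => ?_
    have := hasDerivWithinAt_iff_tendsto_slope.1 (hA i j)
    refine this.congr fun t => ?_
    simp [slope, Matrix.smul_apply]
  have hprod : Tendsto (fun t => -((A t)⁻¹ * (((t - s)⁻¹ : ℝ) • (A t - A s)) * (A s)⁻¹))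
      (𝓝[S \ {s}] s) (𝓝 (-((A s)⁻¹ * A' * (A s)⁻¹))) :=
    ((hInv.mul hsl).mul tendsto_const_nhds).neg
  have hprod' := (tendsto_pi_nhds.1 ((tendsto_pi_nhds.1 hprod) i)) j
  rw [hasDerivWithinAt_iff_tendsto_slope]
  have hne : ∀ᶠ t in 𝓝[S \ {s}] s, (A t).det ≠ 0 := by
    have h1 : Tendsto (fun t => (A t).det) (𝓝[S \ {s}] s) (𝓝 (A s).det) :=
      (Continuous.matrix_det continuous_id).continuousAt.tendsto.comp hAc
    exact h1.eventually_ne hdet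
  refine hprod'.congr' ?_
  filter_upwards [hne] with t ht
  have h2 : (A t)⁻¹ - (A s)⁻¹ = -((A t)⁻¹ * (A t - A s) * (A s)⁻¹) := by
    have h3 : (A t)⁻¹ * A t = 1 := Matrix.nonsing_inv_mul _ (isUnit_iff_ne_zero.2 ht)
    have h4 : A s * (A s)⁻¹ = 1 := Matrix.mul_nonsing_inv _ (isUnit_iff_ne_zero.2 hdet)
    rw [Matrix.mul_sub, h3, Matrix.sub_mul, Matrix.one_mul, Matrix.mul_assoc, h4, Matrix.mul_one]
    abel
  have h5 : slope (fun t => (A t)⁻¹ i j) s t = ((t - s)⁻¹ : ℝ) • ((A t)⁻¹ - (A s)⁻¹) i j := by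
    simp [slope]
  rw [h5, h2]
  simp [Matrix.mul_smul, Matrix.smul_mul]

theorem frob_inv_deriv {m : ℕ} (A : ℝ → Matrix (Fin m) (Fin m) ℂ)
    (A' : Matrix (Fin m) (Fin m) ℂ) (S : Set ℝ) (s : ℝ)
    (hA : ∀ i j, HasDerivWithinAt (fun t => A t i j) (A' i j) S s) (hdet : (A s).det ≠ 0) :
    ∃ F' : ℝ, HasDerivWithinAt (fun t => ∑ i, ∑ j, ‖(A t)⁻¹ i j‖ ^ 2) F' S s ∧
      |F'| ≤ 2 * (∑ i, ∑ j, ‖(A s)⁻¹ i j‖ ^ 2) * Real.sqrt (∑ i, ∑ j, ‖(A s)⁻¹ i j‖ ^ 2) *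
        Real.sqrt (∑ i, ∑ j, ‖A' i j‖ ^ 2) := by
  set M := (A s)⁻¹ with hM
  set D := -(M * A' * M) with hD
  refine ⟨∑ i, ∑ j, 2 * inner ℝ (M i j) (D i j), ?_, ?_⟩
  · refine HasDerivWithinAt.fun_sum fun i _ => HasDerivWithinAt.fun_sum fun j _ => ?_
    exact (hasDerivWithinAt_inv_entry A A' S s hA hdet i j).norm_sq
  · have h1 : |∑ i, ∑ j, 2 * inner ℝ (M i j) (D i j)| ≤ 2 * ∑ p : Fin m × Fin m, ‖M p.1 p.2‖ * ‖D p.1 p.2‖ := by
      rw [Finset.mul_sum, ← Finset.univ_product_univ, Finset.sum_product]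
      refine (Finset.abs_sum_le_sum_abs _ _).trans (Finset.sum_le_sum fun i _ => ?_)
      refine (Finset.abs_sum_le_sum_abs _ _).trans (Finset.sum_le_sum fun j _ => ?_)
      rw [abs_mul, abs_of_pos (by norm_num : (0:ℝ) < 2)]
      exact mul_le_mul_of_nonneg_left (abs_real_inner_le_norm _ _) (by norm_num)
    have h2 : ∑ p : Fin m × Fin m, ‖M p.1 p.2‖ * ‖D p.1 p.2‖ ≤ Real.sqrt (fsq M) * Real.sqrt (fsq D) := by
      have h6 : ∀ C : Matrix (Fin m) (Fin m) ℂ, fsq C = ∑ p : Fin m × Fin m, ‖C p.1 p.2‖ ^ 2 := by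
        intro C
        rw [fsq, Fintype.sum_prod_type]
      rw [h6, h6]
      exact Real.sum_mul_le_sqrt_mul_sqrt (Finset.univ : Finset (Fin m × Fin m))
        (fun p => ‖M p.1 p.2‖) (fun p => ‖D p.1 p.2‖)
    have h3 : Real.sqrt (fsq D) ≤ fsq M * Real.sqrt (fsq A') := by
      have h4 : fsq D = fsq (M * A' * M) := by simp [fsq, hD]
      rw [h4]
      refine (sqrt_fsq_mul _ _).trans ?_
      refine (mul_le_mul_of_nonneg_right (sqrt_fsq_mul _ _) (Real.sqrt_nonneg _)).trans ?_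
      have h5 : Real.sqrt (fsq M) * Real.sqrt (fsq M) = fsq M := Real.mul_self_sqrt (fsq_nonneg M)
      refine le_of_eq ?_
      linear_combination Real.sqrt (fsq A') * h5
    calc |∑ i, ∑ j, 2 * inner ℝ (M i j) (D i j)| ≤ 2 * (Real.sqrt (fsq M) * Real.sqrt (fsq D)) :=
          h1.trans (mul_le_mul_of_nonneg_left h2 (by norm_num))
      _ ≤ 2 * (Real.sqrt (fsq M) * (fsq M * Real.sqrt (fsq A'))) :=
          mul_le_mul_of_nonneg_left (mul_le_mul_of_nonneg_left h3 (Real.sqrt_nonneg _)) (by norm_num)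
      _ = 2 * fsq M * Real.sqrt (fsq M) * Real.sqrt (fsq A') := by ring

end Pool.Agent.Lib.CLN
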