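import Pool.Agent.Lib.CLN.EV
/-! MP_bd3536_an, row OD0.

The field of the differential equation is `C^1` where `Lz` is invertible: the entries of
`Lz (seg f s) z` are smooth real functions of `(s, z)` (`pder` is polynomial in `z` and affine in the
system), the inverse is `adjugate / det`.
-/

set_option autoImplicit false

open MeasureTheory
open scoped ENNReal NNReal ComplexConjugate

namespace Pool.Agent.Lib.CLN

variable {n : ℕ} {d : Fin n → ℕ}

theorem contDiffAt_det_entries {X : Type*} [NormedAddCommGroup X] [NormedSpace ℝ X] {m : ℕ}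
    (A : X → Matrix (Fin m) (Fin m) ℂ) (x : X)
    (h : ∀ i j, ContDiffAt ℝ 1 (fun p => A p i j) x) : ContDiffAt ℝ 1 (fun p => (A p).det) x := by
  simp_rw [Matrix.det_apply]
  refine ContDiffAt.sum fun σ _ => ?_
  refine ContDiffAt.const_smul (Equiv.Perm.sign σ) ?_
  exact contDiffAt_prod fun i _ => h _ _

theorem contDiffAt_inv_entries {X : Type*} [NormedAddCommGroup X] [NormedSpace ℝ X] {m : ℕ}
    (A : X → Matrix (Fin m) (Fin m) ℂ) (x : X)
    (h : ∀ i j, ContDiffAt ℝ 1 (fun p => A p i j) x) (hdet : (A x).det ≠ 0) (i j : Fin m) :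
    ContDiffAt ℝ 1 (fun p => (A p)⁻¹ i j) x := by
  have h1 : (fun p => (A p)⁻¹ i j) = fun p => ((A p).det)⁻¹ * (A p).adjugate i j := by
    funext p
    rw [Matrix.inv_def, Ring.inverse_eq_inv', Matrix.smul_apply, smul_eq_mul]
  rw [h1]
  refine ((contDiffAt_det_entries A x h).inv hdet).mul ?_
  simp_rw [Matrix.adjugate_apply]
  refine contDiffAt_det_entries _ x fun i' j' => ?_
  simp only [Matrix.updateRow_apply]
  split_ifs
  · exact contDiffAt_const
  · exact h _ _

theorem dev_seg (f : Sys d) (s : ℝ) (z u : Fin (n + 1) → ℂ) (i : Fin n) :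
    dev (seg f s) z u i = ((1 - s : ℝ) : ℂ) * dev (gSys d) z u i + (s : ℂ) * dev f z u i := by
  unfold seg
  rw [dev_add, dev_smul, dev_smul]

theorem contDiffAt_Lz (f : Sys d) (p : ℝ × Pt n) (j m : Fin (n + 1)) :
    ContDiffAt ℝ 1 (fun p : ℝ × Pt n => Lz (seg f p.1) p.2 j m) p := by
  refine Fin.cases ?_ (fun i => ?_) j
  · have h1 : (fun p : ℝ × Pt n => Lz (seg f p.1) p.2 0 m) = fun p => conj (p.2 m) := by
      funext p
      simp [Lz]
    rw [h1]
    have h2 : ContDiff ℝ 1 (fun p : ℝ × Pt n => p.2 m) :=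
      ((EuclideanSpace.proj (𝕜 := ℂ) m).contDiff.restrict_scalars ℝ).comp contDiff_snd
    exact (Complex.conjCLE.contDiff.comp h2).contDiffAt
  · have h1 : (fun p : ℝ × Pt n => Lz (seg f p.1) p.2 i.succ m) = fun p : ℝ × Pt n =>
        (((1 - p.1 : ℝ) : ℂ) * dev (gSys d) p.2 (Pi.single m 1) i +
          ((p.1 : ℝ) : ℂ) * dev f p.2 (Pi.single m 1) i) / (Real.sqrt (d i) : ℂ) := by
      funext p
      rw [← dev_seg]
      simp [Lz, pder]
    rw [h1]
    have h2 : ∀ h : Sys d, ContDiff ℝ 1 (fun p : ℝ × Pt n => dev h p.2 (Pi.single m 1) i) := by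
      intro h
      exact (((contDiff_dev h (Pi.single m 1) i).of_le le_top).restrict_scalars ℝ).comp contDiff_snd
    have h3 : ContDiff ℝ 1 (fun p : ℝ × Pt n => ((p.1 : ℝ) : ℂ)) :=
      Complex.ofRealCLM.contDiff.comp contDiff_fst
    have h4 : ContDiff ℝ 1 (fun p : ℝ × Pt n => ((1 - p.1 : ℝ) : ℂ)) :=
      Complex.ofRealCLM.contDiff.comp (contDiff_const.sub contDiff_fst)
    exact (((h4.mul (h2 _)).add (h3.mul (h2 _))).div_const _).contDiffAt

theorem contDiffAt_field (f : Sys d) (p : ℝ × Pt n) (hp : (Lz (seg f p.1) p.2).det ≠ 0) :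
    ContDiffAt ℝ 1 (fun p : ℝ × Pt n => ((1 : ℝ), Xf f p.1 p.2)) p := by
  refine contDiffAt_const.prodMk ?_
  unfold Xf
  refine ContDiffAt.neg ?_
  rw [contDiffAt_piLp]
  intro j
  show ContDiffAt ℝ 1 (fun p : ℝ × Pt n => ∑ m, (Lz (seg f p.1) p.2)⁻¹ j m *
    (Fin.cons 0 (fun i => ev (f - gSys d) p.2 i / (Real.sqrt (d i) : ℂ)) : Fin (n + 1) → ℂ) m) p
  refine ContDiffAt.sum fun m _ => ?_
  refine (contDiffAt_inv_entries (fun p : ℝ × Pt n => Lz (seg f p.1) p.2) p
    (fun i j => contDiffAt_Lz f p i j) hp j m).mul ?_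
  refine Fin.cases ?_ (fun i => ?_) m
  · simp only [Fin.cons_zero]
    exact contDiffAt_const
  · simp only [Fin.cons_succ]
    have h1 : ContDiff ℝ 1 (fun p : ℝ × Pt n => ev (f - gSys d) p.2 i) := by
      have h2 : ContDiff ℂ ⊤ (fun z : Pt n => ev (f - gSys d) z i) :=
        (contDiff_euclidean.1 (contDiff_ev (f - gSys d))) i
      exact ((h2.of_le le_top).restrict_scalars ℝ).comp contDiff_snd
    exact (h1.div_const _).contDiffAt

end Pool.Agent.Lib.CLN
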