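import Pool.Agent.Lib.CLN.OD3
import Pool.Agent.Lib.CLN.BD
/-! MP_bd3536_an, row OD2.

Invariants of a solution. `Lz * ż = - (0, ev (f - ĝ) z i / √(d i))`: row `0` says `⟪z, ż⟫ = 0`, so
`‖z‖` is constant; row `i + 1` says `∑ j, pder (seg f s) z i j * ż j = - ev (f - ĝ) z i`, so the
derivative of `ev (seg f s) (z s)` is `0`. `norm_Xf_le`: `‖M v‖ ≤ ‖M‖_F ‖v‖`, `bd1`,
`‖f - ĝ‖ ≤ 2`, `1 ≤ √(d i)`.
-/

set_option autoImplicit false

open MeasureTheory
open scoped ENNReal NNReal ComplexConjugate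

namespace Pool.Agent.Lib.CLN

variable {n : ℕ} {d : Fin n → ℕ}

/-- `Lz` times the field. -/
private theorem Lz_mulVec_Xf (f : Sys d) (s : ℝ) (z : Pt n) (hdet : (Lz (seg f s) z).det ≠ 0) :
    (Lz (seg f s) z).mulVec (fun j => Xf f s z j) =
      fun m => - (Fin.cons 0 (fun i => ev (f - gSys d) z i / (Real.sqrt (d i) : ℂ)) :
        Fin (n + 1) → ℂ) m := by
  have h1 : (fun j => Xf f s z j) = - ((Lz (seg f s) z)⁻¹.mulVec
      (Fin.cons 0 (fun i => ev (f - gSys d) z i / (Real.sqrt (d i) : ℂ)))) := by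
    funext j
    simp [Xf]
  rw [h1, Matrix.mulVec_neg, Matrix.mulVec_mulVec,
    Matrix.mul_nonsing_inv _ (isUnit_iff_ne_zero.2 hdet), Matrix.one_mulVec]
  rfl

theorem inner_Xf (f : Sys d) (s : ℝ) (z : Pt n) (hdet : (Lz (seg f s) z).det ≠ 0) :
    inner ℂ z (Xf f s z) = (0 : ℂ) := by
  have h := congrFun (Lz_mulVec_Xf f s z hdet) 0
  simp only [Matrix.mulVec, dotProduct, Lz, Matrix.of_apply, Fin.cons_zero, neg_zero] at h
  rw [PiLp.inner_apply]
  rw [← h]
  refine Finset.sum_congr rfl fun j _ => ?_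
  simp [mul_comm]

theorem dev_Xf (hd : ∀ i, 1 ≤ d i) (f : Sys d) (s : ℝ) (z : Pt n)
    (hdet : (Lz (seg f s) z).det ≠ 0) (i : Fin n) :
    dev (seg f s) z (Xf f s z) i = - ev (f - gSys d) z i := by
  have h := congrFun (Lz_mulVec_Xf f s z hdet) i.succ
  simp only [Matrix.mulVec, dotProduct, Lz, Matrix.of_apply, Fin.cons_succ] at h
  rw [dev_eq_sum]
  have h0 : (Real.sqrt (d i) : ℂ) ≠ 0 := by
    have : (0 : ℝ) < d i := by exact_mod_cast hd i
    exact_mod_cast (Real.sqrt_pos.2 this).ne'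
  have h2 : ∑ j, Xf f s z j * pder (seg f s) z i j =
      (Real.sqrt (d i) : ℂ) * ∑ j, pder (seg f s) z i j / (Real.sqrt (d i) : ℂ) * Xf f s z j := by
    rw [Finset.mul_sum]
    refine Finset.sum_congr rfl fun j _ => ?_
    field_simp
  rw [h2, h]
  field_simp

theorem norm_Xf_le (hn : 1 ≤ n) (hd : ∀ i, 1 ≤ d i) (f : Sys d) (hf : ‖f‖ = 1) (s : ℝ) (z : Pt n)
    (hz : ‖z‖ = 1) (hdet : (Lz (seg f s) z).det ≠ 0) :
    ‖Xf f s z‖ ≤ 2 * Real.sqrt (Fr (seg f s) z) := by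
  set M := (Lz (seg f s) z)⁻¹ with hM
  set v : Fin (n + 1) → ℂ :=
    Fin.cons 0 (fun i => ev (f - gSys d) z i / (Real.sqrt (d i) : ℂ)) with hv
  have hX : ∀ j, Xf f s z j = - ∑ m, M j m * v m := by
    intro j
    simp [Xf, Matrix.mulVec, dotProduct, hM, hv]
  have hv1 : ∑ m, ‖v m‖ ^ 2 ≤ 4 := by
    rw [Fin.sum_univ_succ]
    simp only [hv, Fin.cons_zero, Fin.cons_succ, norm_zero]
    have h1 : ∑ i, ‖ev (f - gSys d) z i / (Real.sqrt (d i) : ℂ)‖ ^ 2 ≤
        ∑ i, ‖ev (f - gSys d) z i‖ ^ 2 := by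
      refine Finset.sum_le_sum fun i _ => ?_
      rw [norm_div]
      have h3 : (1 : ℝ) ≤ ‖(Real.sqrt (d i) : ℂ)‖ := by
        rw [Complex.norm_real, Real.norm_of_nonneg (Real.sqrt_nonneg _)]
        rw [Real.one_le_sqrt]
        exact_mod_cast hd i
      exact pow_le_pow_left₀ (by positivity) (div_le_self (norm_nonneg _) h3) 2
    have h2 : ∑ i, ‖ev (f - gSys d) z i‖ ^ 2 = ‖ev (f - gSys d) z‖ ^ 2 := by
      rw [EuclideanSpace.norm_sq_eq]
    have h3 : ‖ev (f - gSys d) z‖ ≤ 2 := by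
      refine (bd1 _ z hz).trans ?_
      calc ‖f - gSys d‖ ≤ ‖f‖ + ‖gSys d‖ := norm_sub_le _ _
        _ = 2 := by rw [hf, norm_gSys hn hd]; norm_num
    have h4 : ‖ev (f - gSys d) z‖ ^ 2 ≤ 4 := by
      have := pow_le_pow_left₀ (norm_nonneg _) h3 2
      linarith
    linarith
  have hFr : 0 ≤ Fr (seg f s) z := by
    unfold Fr; positivity
  have hsq : ‖Xf f s z‖ ^ 2 ≤ 4 * Fr (seg f s) z := by
    rw [EuclideanSpace.norm_sq_eq]
    calc ∑ j, ‖Xf f s z j‖ ^ 2 ≤ ∑ j, (∑ m, ‖M j m‖ ^ 2) * ∑ m, ‖v m‖ ^ 2 := by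
          refine Finset.sum_le_sum fun j _ => ?_
          rw [hX, norm_neg]
          calc ‖∑ m, M j m * v m‖ ^ 2 ≤ (∑ m, ‖M j m‖ * ‖v m‖) ^ 2 := by
                refine pow_le_pow_left₀ (norm_nonneg _) ?_ 2
                refine (norm_sum_le _ _).trans (Finset.sum_le_sum fun m _ => (norm_mul _ _).le)
            _ ≤ _ := Finset.sum_mul_sq_le_sq_mul_sq _ _ _
      _ = Fr (seg f s) z * ∑ m, ‖v m‖ ^ 2 := by
          rw [← Finset.sum_mul]; rfl
      _ ≤ Fr (seg f s) z * 4 := by gcongr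
      _ = _ := by ring
  have h5 : ‖Xf f s z‖ = Real.sqrt (‖Xf f s z‖ ^ 2) := (Real.sqrt_sq (norm_nonneg _)).symm
  rw [h5]
  refine (Real.sqrt_le_sqrt hsq).trans ?_
  rw [Real.sqrt_mul (by norm_num)]
  have : Real.sqrt 4 = 2 := by
    rw [show (4 : ℝ) = 2 ^ 2 by norm_num, Real.sqrt_sq (by norm_num)]
  rw [this]

theorem sol_inv (hd : ∀ i, 1 ≤ d i) (f : Sys d) (z : ℝ → Pt n)
    (a b : ℝ) (hab : a ≤ b) (hz : IsSol f z a b) (hz1 : ‖z a‖ = 1)
    (hz0 : ev (seg f a) (z a) = 0) :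
    ∀ s ∈ Set.Icc a b, ‖z s‖ = 1 ∧ ev (seg f s) (z s) = 0 := by
  -- norm
  have hnorm : ∀ s ∈ Set.Icc a b, HasDerivWithinAt (fun s => ‖z s‖ ^ 2) 0 (Set.Icc a b) s := by
    intro s hs
    obtain ⟨hdet, hder⟩ := hz s hs
    have h1 := hder.norm_sq
    have h2 : inner ℝ (z s) (Xf f s (z s)) = (0 : ℝ) := by
      have h3 := congrArg Complex.re (inner_Xf f s (z s) hdet)
      rw [PiLp.inner_apply, Complex.re_sum, Complex.zero_re] at h3
      rw [PiLp.inner_apply, ← h3]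
      refine Finset.sum_congr rfl fun j _ => ?_
      simp [Complex.inner]
    rw [h2, mul_zero] at h1
    exact h1
  have hev : ∀ i, ∀ s ∈ Set.Icc a b,
      HasDerivWithinAt (fun s => ev (seg f s) (z s) i) 0 (Set.Icc a b) s := by
    intro i s hs
    obtain ⟨hdet, hder⟩ := hz s hs
    have hcomp : ∀ h : Sys d, HasDerivWithinAt (fun s => ev h (z s) i)
        (dev h (z s) (Xf f s (z s)) i) (Set.Icc a b) s := by
      intro h
      have h1 := ((hasFDerivAt_ev h (z s)).1.restrictScalars ℝ).comp_hasDerivWithinAt s hder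
      have h2 := (((EuclideanSpace.proj i : Tgt n →L[ℂ] ℂ).restrictScalars ℝ).hasFDerivAt
        (x := (ev h ∘ z) s)).comp_hasDerivWithinAt s h1
      rw [← (hasFDerivAt_ev h (z s)).2]
      exact h2
    have hseg : ∀ s : ℝ, ev (seg f s) (z s) i =
        (1 - s : ℝ) • ev (gSys d) (z s) i + (s : ℝ) • ev f (z s) i := by
      intro s
      rw [seg, ev_add, ev_smul, ev_smul]
      rfl
    have h3 := ((((hasDerivWithinAt_id s (Set.Icc a b)).const_sub 1).smul (hcomp (gSys d))).add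
      ((hasDerivWithinAt_id s (Set.Icc a b)).smul (hcomp f)))
    have h4 := dev_Xf hd f s (z s) hdet i
    have h5 : dev (seg f s) (z s) (Xf f s (z s)) i =
        (1 - s : ℝ) • dev (gSys d) (z s) (Xf f s (z s)) i +
          (s : ℝ) • dev f (z s) (Xf f s (z s)) i := by
      rw [seg, dev_add, dev_smul, dev_smul, Complex.real_smul, Complex.real_smul]
    have h6 : ev (f - gSys d) (z s) i = ev f (z s) i - ev (gSys d) (z s) i := by
      have : f - gSys d = f + (-1 : ℝ) • gSys d := by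
        rw [neg_one_smul, sub_eq_add_neg]
      rw [this, ev_add, ev_smul]
      simp [sub_eq_add_neg]
    refine (h3.congr_deriv ?_).congr (fun t _ => hseg t) (hseg s)
    rw [h5, h6] at h4
    simp only [id, neg_smul, one_smul]
    linear_combination (exp := 1) h4
  intro s hs
  have hne : a < b ∨ a = b := hab.lt_or_eq
  have huniq : ∀ x ∈ Set.Ico a b, UniqueDiffWithinAt ℝ (Set.Icc a b) x := fun x hx =>
    (uniqueDiffOn_Icc (hx.1.trans_lt hx.2)) x (Set.Ico_subset_Icc_self hx)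
  constructor
  · have h := constant_of_derivWithin_zero (f := fun s => ‖z s‖ ^ 2)
      (fun x hx => (hnorm x hx).differentiableWithinAt)
      (fun x hx => (hnorm x (Set.Ico_subset_Icc_self hx)).derivWithin (huniq x hx)) s hs
    rw [hz1] at h
    have h' : ‖z s‖ ^ 2 = 1 := by rw [h]; norm_num
    nlinarith [norm_nonneg (z s)]
  · ext i
    have h := constant_of_derivWithin_zero (f := fun s => ev (seg f s) (z s) i)
      (fun x hx => (hev i x hx).differentiableWithinAt)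
      (fun x hx => (hev i x (Set.Ico_subset_Icc_self hx)).derivWithin (huniq x hx)) s hs
    rw [h, hz0]

end Pool.Agent.Lib.CLN
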