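import Pool.Agent.Lib.CLN.EV
/-! MP_bd3536_an, row OD3.

Start values. The coordinate of `gSys` is `1/√n` at `X_0^(d i - 1) X_(i+1)` (multinomial
coefficient `d i`), so `ev gSys z i = √(d i)/√n z_0^(d i - 1) z_(i+1)`.
-/

set_option autoImplicit false

open MeasureTheory
open scoped ENNReal NNReal ComplexConjugate

namespace Pool.Agent.Lib.CLN

variable {n : ℕ} {d : Fin n → ℕ}

/-- The exponent vector of `X_0^(d i - 1) X_(i+1)`. -/
def gmon (hd : ∀ i, 1 ≤ d i) (i : Fin n) : Mon n (d i) :=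
  ⟨Pi.single 0 (d i - 1) + Pi.single i.succ 1, by
    have := hd i
    simp [Finset.mem_piAntidiag, Finset.sum_add_distrib]
    omega⟩

theorem gSys_apply (hd : ∀ i, 1 ≤ d i) (i : Fin n) (α : Mon n (d i)) :
    gSys d ⟨i, α⟩ = if α = gmon hd i then ((Real.sqrt n)⁻¹ : ℂ) else 0 := by
  show (if (α : Fin (n + 1) → ℕ) = Pi.single 0 (d i - 1) + Pi.single i.succ 1
    then ((Real.sqrt n)⁻¹ : ℂ) else 0) = _
  by_cases h : α = gmon hd i
  · rw [if_pos h]
    exact if_pos (by rw [h]; rfl)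
  · rw [if_neg h]
    exact if_neg fun h' => h (Subtype.ext h')

theorem sum_gSys (hd : ∀ i, 1 ≤ d i) (i : Fin n) (F : Mon n (d i) → ℂ) :
    ∑ α : Mon n (d i), gSys d ⟨i, α⟩ * F α = ((Real.sqrt n)⁻¹ : ℂ) * F (gmon hd i) := by
  simp only [gSys_apply hd, ite_mul, zero_mul]
  rw [Finset.sum_ite_eq' Finset.univ (gmon hd i)]
  simp

theorem multinomial_gmon (hd : ∀ i, 1 ≤ d i) (i : Fin n) :
    Nat.multinomial Finset.univ (gmon hd i : Fin (n + 1) → ℕ) = d i := by
  have h1 := Nat.multinomial_spec Finset.univ (gmon hd i : Fin (n + 1) → ℕ)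
  have h2 : ∑ j, (gmon hd i : Fin (n + 1) → ℕ) j = d i :=
    (Finset.mem_piAntidiag.1 (gmon hd i).2).1
  have h3 : ∏ j, ((gmon hd i : Fin (n + 1) → ℕ) j).factorial = (d i - 1).factorial := by
    rw [Fin.prod_univ_succ]
    have h4 : ∀ j : Fin n, ((gmon hd i : Fin (n + 1) → ℕ) j.succ).factorial = 1 := by
      intro j
      by_cases hj : j = i
      · subst hj; simp [gmon]
      · simp [gmon, Pi.single_apply, hj]
    simp only [h4, Finset.prod_const_one, mul_one]
    simp [gmon]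
  rw [h2, h3] at h1
  have h5 : (d i).factorial = (d i - 1).factorial * d i := by
    obtain ⟨k, hk⟩ : ∃ k, d i = k + 1 := ⟨d i - 1, by have := hd i; omega⟩
    rw [hk, Nat.factorial_succ, Nat.add_sub_cancel, mul_comm]
  rw [h5] at h1
  exact Nat.eq_of_mul_eq_mul_left (Nat.factorial_pos _) h1

theorem norm_gSys (hn : 1 ≤ n) (hd : ∀ i, 1 ≤ d i) : ‖gSys d‖ = 1 := by
  have h1 : ‖gSys d‖ ^ 2 = 1 := by
    rw [EuclideanSpace.norm_sq_eq, Fintype.sum_sigma]
    have h2 : ∀ i : Fin n, ∑ α : Mon n (d i), ‖gSys d ⟨i, α⟩‖ ^ 2 = (n : ℝ)⁻¹ := by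
      intro i
      rw [Finset.sum_eq_single (gmon hd i)]
      · rw [gSys_apply hd, if_pos rfl]
        rw [norm_inv, Complex.norm_real, Real.norm_of_nonneg (Real.sqrt_nonneg _), inv_pow,
          Real.sq_sqrt (Nat.cast_nonneg n)]
      · intro α _ hα
        rw [gSys_apply hd, if_neg hα]
        simp
      · simp
    simp only [h2]
    simp
    have : (n : ℝ) ≠ 0 := by positivity
    field_simp
  have h2 := norm_nonneg (gSys d)
  nlinarith

theorem norm_seg_le (hn : 1 ≤ n) (hd : ∀ i, 1 ≤ d i) (f : Sys d) (hf : ‖f‖ = 1) (s : ℝ)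
    (hs : s ∈ Set.Icc (0 : ℝ) 1) : ‖seg f s‖ ≤ 1 := by
  unfold seg
  refine (norm_add_le _ _).trans ?_
  rw [norm_smul, norm_smul, norm_gSys hn hd, hf, Real.norm_of_nonneg (by linarith [hs.2]),
    Real.norm_of_nonneg hs.1]
  linarith

theorem ptZero_zero : (ptZero n) 0 = 1 := by simp [ptZero]

theorem ptZero_succ (i : Fin n) : (ptZero n) i.succ = 0 := by
  simp [ptZero]

theorem ev_start (hn : 1 ≤ n) (hd : ∀ i, 1 ≤ d i) : ev (gSys d) (ptZero n) = 0 := by
  ext i
  show ∑ α : Mon n (d i), gSys d ⟨i, α⟩ * mon (d i) (ptZero n) α = 0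
  rw [sum_gSys hd i]
  have h1 : mon (d i) (ptZero n) (gmon hd i) = 0 := by
    unfold mon
    rw [Finset.prod_eq_zero (Finset.mem_univ i.succ), mul_zero]
    rw [ptZero_succ]
    simp [gmon]
  rw [h1, mul_zero]

theorem dmon_start (hd : ∀ i, 1 ≤ d i) (i : Fin n) (j : Fin (n + 1)) :
    dmon (d i) (ptZero n) (Pi.single j 1) (gmon hd i) =
      if j = i.succ then (Real.sqrt (d i) : ℂ) else 0 := by
  unfold dmon
  rw [multinomial_gmon, Finset.sum_eq_single j]
  · refine Fin.cases ?_ (fun j' => ?_) j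
    · rw [if_neg (Fin.succ_ne_zero i).symm, Finset.prod_eq_zero (i := i.succ), mul_zero, mul_zero]
      · simp [Fin.succ_ne_zero]
      · rw [ptZero_succ]; simp [gmon]
    · by_cases hj : j' = i
      · subst hj
        rw [if_pos rfl]
        have h1 : ∏ l ∈ Finset.univ.erase j'.succ,
            (ptZero n) l ^ (gmon hd j' : Fin (n + 1) → ℕ) l = 1 := by
          refine Finset.prod_eq_one fun l hl => ?_
          have hl' := Finset.ne_of_mem_erase hl
          revert hl'
          refine Fin.cases ?_ (fun l' => ?_) l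
          · intro _
            rw [ptZero_zero, one_pow]
          · intro hl'
            have : l' ≠ j' := fun h => hl' (by rw [h])
            simp [gmon, Pi.single_apply, this]
        rw [h1]
        simp [gmon]
      · rw [if_neg (fun h => hj (Fin.succ_injective _ h))]
        simp [gmon, Pi.single_apply, hj]
  · intro l _ hl
    simp [Pi.single_apply, hl]
  · simp

theorem Lz_start (hn : 1 ≤ n) (hd : ∀ i, 1 ≤ d i) :
    Lz (gSys d) (ptZero n) =
      Matrix.diagonal (Fin.cons 1 (fun _ => ((Real.sqrt n)⁻¹ : ℂ))) := by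
  ext j m
  refine Fin.cases ?_ (fun i => ?_) j
  · refine Fin.cases ?_ (fun i => ?_) m
    · simp [Lz, ptZero_zero]
    · rw [Matrix.diagonal_apply_ne _ (Fin.succ_ne_zero i).symm]
      simp [Lz, ptZero_succ]
  · have h1 : Lz (gSys d) (ptZero n) i.succ m =
        ((Real.sqrt n)⁻¹ : ℂ) * dmon (d i) (ptZero n) (Pi.single m 1) (gmon hd i) /
          (Real.sqrt (d i) : ℂ) := by
      rw [← sum_gSys hd i]
      rfl
    rw [h1, dmon_start]
    by_cases hm : m = i.succ
    · rw [if_pos hm, hm, Matrix.diagonal_apply_eq, Fin.cons_succ]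
      have h2 : (Real.sqrt (d i) : ℂ) ≠ 0 := by
        have : 0 < Real.sqrt (d i) := Real.sqrt_pos.2 (by exact_mod_cast hd i)
        exact_mod_cast this.ne'
      field_simp
    · rw [if_neg hm, Matrix.diagonal_apply_ne _ (fun h => hm h.symm)]
      simp

theorem Fr_start (hn : 1 ≤ n) (hd : ∀ i, 1 ≤ d i) :
    (Lz (gSys d) (ptZero n)).det ≠ 0 ∧ Fr (gSys d) (ptZero n) = 1 + (n : ℝ) ^ 2 := by
  have h0 : (Real.sqrt n : ℂ) ≠ 0 := by
    have : 0 < Real.sqrt n := Real.sqrt_pos.2 (by exact_mod_cast hn)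
    exact_mod_cast this.ne'
  have hinv : (Matrix.diagonal (Fin.cons 1 (fun _ => ((Real.sqrt n)⁻¹ : ℂ)) : Fin (n + 1) → ℂ))⁻¹ =
      Matrix.diagonal (Fin.cons 1 (fun _ => (Real.sqrt n : ℂ)) : Fin (n + 1) → ℂ) := by
    refine Matrix.inv_eq_right_inv ?_
    rw [Matrix.diagonal_mul_diagonal, ← Matrix.diagonal_one]
    congr 1
    funext j
    refine Fin.cases ?_ (fun i => ?_) j
    · simp
    · simp [h0]
  constructor
  · rw [Lz_start hn hd, Matrix.det_diagonal, Fin.prod_univ_succ]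
    simp [h0]
  · unfold Fr
    rw [Lz_start hn hd, hinv]
    have h1 : ∀ j : Fin (n + 1), ∑ m, ‖(Matrix.diagonal (Fin.cons 1 (fun _ => (Real.sqrt n : ℂ)) :
        Fin (n + 1) → ℂ)) j m‖ ^ 2 = ‖(Fin.cons 1 (fun _ => (Real.sqrt n : ℂ)) :
        Fin (n + 1) → ℂ) j‖ ^ 2 := by
      intro j
      rw [Finset.sum_eq_single j]
      · rw [Matrix.diagonal_apply_eq]
      · intro m _ hm
        rw [Matrix.diagonal_apply_ne _ hm.symm]
        simp
      · simp
    simp only [h1]
    rw [Fin.sum_univ_succ]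
    simp only [Fin.cons_zero, Fin.cons_succ, norm_one, Complex.norm_real,
      Real.norm_of_nonneg (Real.sqrt_nonneg _), Real.sq_sqrt (Nat.cast_nonneg n)]
    simp
    ring

end Pool.Agent.Lib.CLN
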