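import Pool.Agent.Lib.CLN.OD2
import Pool.Agent.Lib.CLN.LM2
/-! MP_bd3536_an, row OD4.

Derivative of `L(s) = Lz (seg f s) (z s)` along a solution: row `0`: `conj ż`; row `i + 1`:
`(pder (f - ĝ) z i j + ddev (seg f s) z ż e_j i) / √(d i)`. Frobenius norm (with `bd2`, `bd3`,
`‖f - ĝ‖ ≤ 2`, `‖seg f s‖ ≤ 1`, `‖ż‖ ≤ 2 m`, `m = √Fr ≥ 1` by `Fr_eq`):
`≤ ‖ż‖ + 3 √NN 2 + 8 NN^(3/2) ‖ż‖ ≤ (2 + 6 √NN + 16 NN^(3/2)) m ≤ 15 NN² m`, as `NN ≥ 2`.
-/

set_option autoImplicit false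

open MeasureTheory
open scoped ENNReal NNReal ComplexConjugate

namespace Pool.Agent.Lib.CLN

variable {n : ℕ} {d : Fin n → ℕ}

private lemma od4_hasFDerivAt_dev (h : Sys d) (z : Pt n) (v : Fin (n + 1) → ℂ) (i : Fin n) :
    HasFDerivAt (fun w : Pt n => dev h w v i) (fderiv ℂ (fun w : Pt n => dev h w v i) z) z :=
  ((contDiff_dev h v i).differentiable (by simp)).differentiableAt.hasFDerivAt

private lemma od4_dev_curve (h : Sys d) (v : Fin (n + 1) → ℂ) (i : Fin n) (z : ℝ → Pt n)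
    (z' : Pt n) (S : Set ℝ) (s : ℝ) (hz : HasDerivWithinAt z z' S s) :
    HasDerivWithinAt (fun t => dev h (z t) v i) (ddev h (z s) z' v i) S s := by
  have h1 := (od4_hasFDerivAt_dev h (z s) v i).restrictScalars ℝ
  exact h1.comp_hasDerivWithinAt s hz

private lemma od4_dev_seg (f : Sys d) (t : ℝ) (w v : Fin (n + 1) → ℂ) (i : Fin n) :
    dev (seg f t) w v i = ((1 - t : ℝ) : ℂ) * dev (gSys d) w v i + (t : ℂ) * dev f w v i := by
  unfold seg
  rw [dev_add, dev_smul, dev_smul]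

private lemma od4_dev_sub (f g : Sys d) (w v : Fin (n + 1) → ℂ) (i : Fin n) :
    dev (f - g) w v i = dev f w v i - dev g w v i := by
  have h : f - g = f + (-1 : ℝ) • g := by
    rw [neg_smul, one_smul, sub_eq_add_neg]
  rw [h, dev_add, dev_smul]
  push_cast
  ring

private lemma od4_ddev_seg (f : Sys d) (s : ℝ) (w u : Pt n) (v : Fin (n + 1) → ℂ) (i : Fin n) :
    ddev (seg f s) w u v i =
      ((1 - s : ℝ) : ℂ) * ddev (gSys d) w u v i + (s : ℂ) * ddev f w u v i := by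
  have h1 := ((od4_hasFDerivAt_dev (gSys d) w v i).const_mul ((1 - s : ℝ) : ℂ)).add
    ((od4_hasFDerivAt_dev f w v i).const_mul (s : ℂ))
  have h2 : HasFDerivAt (fun w : Pt n => dev (seg f s) w v i)
      (((1 - s : ℝ) : ℂ) • fderiv ℂ (fun w : Pt n => dev (gSys d) w v i) w +
        (s : ℂ) • fderiv ℂ (fun w : Pt n => dev f w v i) w) w := by
    refine h1.congr_of_eventuallyEq (Filter.Eventually.of_forall fun w' => ?_)
    exact od4_dev_seg f s w' v i
  unfold ddev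
  rw [h2.fderiv]
  rfl

private lemma od4_pder_curve (f : Sys d) (i : Fin n) (m : Fin (n + 1)) (z : ℝ → Pt n)
    (z' : Pt n) (S : Set ℝ) (s : ℝ) (hz : HasDerivWithinAt z z' S s) :
    HasDerivWithinAt (fun t => pder (seg f t) (z t) i m)
      (pder (f - gSys d) (z s) i m + ddev (seg f s) (z s) z' (Pi.single m 1) i) S s := by
  have hg := od4_dev_curve (gSys d) (Pi.single m 1) i z z' S s hz
  have hf := od4_dev_curve f (Pi.single m 1) i z z' S s hz
  have ht : HasDerivWithinAt (fun t : ℝ => (t : ℂ)) 1 S s := by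
    have := (hasDerivAt_id s).ofReal_comp
    simpa using this.hasDerivWithinAt
  have ht1 : HasDerivWithinAt (fun t : ℝ => ((1 - t : ℝ) : ℂ)) (-1) S s := by
    have h := ht.const_sub 1
    simpa using h
  have h := (ht1.mul hg).add (ht.mul hf)
  refine (h.congr_deriv ?_).congr_of_eventuallyEq
    (Filter.Eventually.of_forall fun t => ?_) ?_
  · unfold pder
    rw [od4_dev_sub, od4_ddev_seg]
    push_cast
    ring
  · exact od4_dev_seg f t (z t) (Pi.single m 1) i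
  · exact od4_dev_seg f s (z s) (Pi.single m 1) i

private lemma od4_norm_sub (hn : 1 ≤ n) (hd : ∀ i, 1 ≤ d i) (f : Sys d) (hf : ‖f‖ = 1) :
    ‖f - gSys d‖ ≤ 2 := by
  calc ‖f - gSys d‖ ≤ ‖f‖ + ‖gSys d‖ := norm_sub_le _ _
    _ = 2 := by rw [hf, norm_gSys hn hd]; norm_num

private lemma od4_sq_add_le (a b : ℂ) :
    ‖a + b‖ ^ 2 ≤ 5 * ‖a‖ ^ 2 + (5 / 4) * ‖b‖ ^ 2 := by
  have h := norm_add_le a b
  have h0 := norm_nonneg (a + b)
  have ha := norm_nonneg a
  have hb := norm_nonneg b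
  nlinarith [sq_nonneg (2 * ‖a‖ - ‖b‖ / 2), mul_self_le_mul_self h0 h]

theorem Lz_deriv (hn : 1 ≤ n) (hd : ∀ i, 1 ≤ d i) (f : Sys d) (hf : ‖f‖ = 1) (z : ℝ → Pt n)
    (a b : ℝ) (hz : IsSol f z a b) (s : ℝ) (hs : s ∈ Set.Icc a b) (hs1 : s ∈ Set.Icc (0 : ℝ) 1)
    (hz1 : ‖z s‖ = 1) (hz0 : ev (seg f s) (z s) = 0) :
    ∃ L' : Matrix (Fin (n + 1)) (Fin (n + 1)) ℂ,
      (∀ j m, HasDerivWithinAt (fun t => Lz (seg f t) (z t) j m) (L' j m) (Set.Icc a b) s) ∧
      Real.sqrt (∑ j, ∑ m, ‖L' j m‖ ^ 2) ≤ KK d * Real.sqrt (Fr (seg f s) (z s)) := by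
  obtain ⟨hdet, hder⟩ := hz s hs
  set v : Pt n := Xf f s (z s) with hv
  set A : Fin n → Fin (n + 1) → ℂ := fun i m => pder (f - gSys d) (z s) i m with hA
  set B : Fin n → Fin (n + 1) → ℂ := fun i m => ddev (seg f s) (z s) v (Pi.single m 1) i with hB
  refine ⟨Matrix.of (Fin.cons (fun m => conj (v m))
    (fun i m => (A i m + B i m) / (Real.sqrt (d i) : ℂ))), ?_, ?_⟩
  · intro j m
    refine Fin.cases ?_ (fun i => ?_) j
    · have h1 : HasDerivWithinAt (fun t => z t m) (v m) (Set.Icc a b) s := by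
        have h2 : HasFDerivAt (fun w : Pt n => w m)
            ((EuclideanSpace.proj m : Pt n →L[ℂ] ℂ).restrictScalars ℝ) (z s) :=
          ((EuclideanSpace.proj m : Pt n →L[ℂ] ℂ).restrictScalars ℝ).hasFDerivAt
        exact h2.comp_hasDerivWithinAt s hder
      have h3 : HasDerivWithinAt (fun t => conj (z t m)) (conj (v m)) (Set.Icc a b) s := by
        have h4 : HasFDerivAt (fun w : ℂ => conj w) (Complex.conjCLE : ℂ →L[ℝ] ℂ) (z s m) :=
          (Complex.conjCLE : ℂ →L[ℝ] ℂ).hasFDerivAt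
        exact h4.comp_hasDerivWithinAt s h1
      exact h3
    · have h1 := (od4_pder_curve f i m z v (Set.Icc a b) s hder).div_const (Real.sqrt (d i) : ℂ)
      exact h1
  · -- the norm
    have hNN : (2 : ℝ) ≤ NN d := by
      have h1 := n_add_one_le (d := d) hn hd
      have h2 : (1 : ℝ) ≤ n := by exact_mod_cast hn
      linarith
    have hFr : 1 ≤ Fr (seg f s) (z s) := by
      have h1 := Fr_eq hd (seg f s) (z s) hz1 hz0 hdet
      have h2 : (1 : ℝ≥0∞) ≤ ENNReal.ofReal (Fr (seg f s) (z s)) := by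
        rw [h1]
        exact le_self_add
      exact ENNReal.one_le_ofReal.1 h2
    have hvn : ‖v‖ ≤ 2 * Real.sqrt (Fr (seg f s) (z s)) := norm_Xf_le hn hd f hf s (z s) hz1 hdet
    have hFr0 : 0 ≤ Fr (seg f s) (z s) := zero_le_one.trans hFr
    have hv2 : ‖v‖ ^ 2 ≤ 4 * Fr (seg f s) (z s) := by
      calc ‖v‖ ^ 2 ≤ (2 * Real.sqrt (Fr (seg f s) (z s))) ^ 2 :=
            pow_le_pow_left₀ (norm_nonneg _) hvn 2
        _ = 4 * Fr (seg f s) (z s) := by
            rw [mul_pow, Real.sq_sqrt hFr0]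
            norm_num
    have hdpos : ∀ i, (0 : ℝ) < d i := fun i => by exact_mod_cast hd i
    have hsum : ∑ j, ∑ m, ‖(Matrix.of (Fin.cons (fun m => conj (v m))
        (fun i m => (A i m + B i m) / (Real.sqrt (d i) : ℂ))) :
          Matrix (Fin (n + 1)) (Fin (n + 1)) ℂ) j m‖ ^ 2 =
        ‖v‖ ^ 2 + ∑ i, (∑ m, ‖A i m + B i m‖ ^ 2) / (d i : ℝ) := by
      rw [Fin.sum_univ_succ]
      congr 1
      · rw [EuclideanSpace.norm_sq_eq]
        refine Finset.sum_congr rfl fun m _ => ?_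
        simp
      · refine Finset.sum_congr rfl fun i _ => ?_
        rw [Finset.sum_div]
        refine Finset.sum_congr rfl fun m _ => ?_
        simp only [Matrix.of_apply, Fin.cons_succ, norm_div, Complex.norm_real, div_pow]
        rw [Real.norm_of_nonneg (Real.sqrt_nonneg _), Real.sq_sqrt (hdpos i).le]
    have h1 : ∑ i, (∑ m, ‖A i m + B i m‖ ^ 2) / (d i : ℝ) ≤
        5 * ∑ i, (∑ m, ‖A i m‖ ^ 2) / (d i : ℝ) +
          5 / 4 * ∑ i, (∑ m, ‖B i m‖ ^ 2) / (d i : ℝ) := by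
      rw [Finset.mul_sum, Finset.mul_sum, ← Finset.sum_add_distrib]
      refine Finset.sum_le_sum fun i _ => ?_
      rw [← mul_div_assoc, ← mul_div_assoc, ← add_div]
      refine div_le_div_of_nonneg_right ?_ (hdpos i).le
      rw [Finset.mul_sum, Finset.mul_sum, ← Finset.sum_add_distrib]
      exact Finset.sum_le_sum fun m _ => od4_sq_add_le _ _
    have h2 : ∑ i, (∑ m, ‖A i m‖ ^ 2) / (d i : ℝ) ≤ 36 * NN d := by
      have h3 := bd2 hd (f - gSys d) (z s) hz1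
      have h4 : ‖f - gSys d‖ ^ 2 ≤ 4 := by
        have := pow_le_pow_left₀ (norm_nonneg _) (od4_norm_sub hn hd f hf) 2
        linarith
      refine h3.trans ?_
      nlinarith
    have h3 : ∑ i, (∑ m, ‖B i m‖ ^ 2) / (d i : ℝ) ≤ 256 * NN d ^ 3 * Fr (seg f s) (z s) := by
      have h4 := bd3 hd (seg f s) (z s) v hz1
      have h5 : ‖seg f s‖ ^ 2 ≤ 1 := pow_le_one₀ (norm_nonneg _) (norm_seg_le hn hd f hf s hs1)
      refine h4.trans ?_
      have h6 : (0 : ℝ) ≤ 64 * NN d ^ 3 := by positivity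
      calc 64 * NN d ^ 3 * ‖seg f s‖ ^ 2 * ‖v‖ ^ 2 ≤ 64 * NN d ^ 3 * 1 * (4 * Fr (seg f s) (z s)) := by
            gcongr
        _ = 256 * NN d ^ 3 * Fr (seg f s) (z s) := by ring
    rw [hsum]
    have hK0 : 0 ≤ KK d := by unfold KK; positivity
    apply Real.sqrt_le_iff.2
    refine ⟨mul_nonneg hK0 (Real.sqrt_nonneg _), ?_⟩
    rw [mul_pow, Real.sq_sqrt hFr0]
    have h5 : ‖v‖ ^ 2 + ∑ i, (∑ m, ‖A i m + B i m‖ ^ 2) / (d i : ℝ) ≤
        4 * Fr (seg f s) (z s) + 180 * NN d + 320 * NN d ^ 3 * Fr (seg f s) (z s) := by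
      linarith
    refine h5.trans ?_
    have h6 : 180 * NN d ≤ 180 * NN d * Fr (seg f s) (z s) := by nlinarith
    have h7 : 4 + 180 * NN d + 320 * NN d ^ 3 ≤ KK d ^ 2 := by
      unfold KK
      have h8 : 2 * NN d ^ 3 ≤ NN d ^ 4 := by
        nlinarith [pow_nonneg (zero_le_two.trans hNN) 3]
      have h9 : 8 * NN d ≤ NN d ^ 4 := by
        nlinarith [sq_nonneg (NN d), mul_nonneg (sub_nonneg.2 hNN) (zero_le_two.trans hNN),
          pow_nonneg (zero_le_two.trans hNN) 3, mul_le_mul hNN hNN (by norm_num) (by linarith)]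
      nlinarith
    calc 4 * Fr (seg f s) (z s) + 180 * NN d + 320 * NN d ^ 3 * Fr (seg f s) (z s)
        ≤ (4 + 180 * NN d + 320 * NN d ^ 3) * Fr (seg f s) (z s) := by nlinarith
      _ ≤ KK d ^ 2 * Fr (seg f s) (z s) := mul_le_mul_of_nonneg_right h7 hFr0

end Pool.Agent.Lib.CLN
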