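import Pool.Agent.Lib.CLN.OD4
import Pool.Agent.Lib.CLN.MI
/-! MP_bd3536_an, row OD5.

`(1/Fr)' = - Fr'/Fr² ≥ - 2 KK` by `frob_inv_deriv` and `Lz_deriv`; mean value inequality on
`[a, b]`. (`Fr > 0` since the inverse is not `0`.)
-/

set_option autoImplicit false

open MeasureTheory
open scoped ENNReal NNReal ComplexConjugate

namespace Pool.Agent.Lib.CLN

variable {n : ℕ} {d : Fin n → ℕ}

private lemma od5_Fr_pos (h : Sys d) (z : Pt n) (hdet : (Lz h z).det ≠ 0) : 0 < Fr h z := by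
  have h0 : 0 ≤ Fr h z := Finset.sum_nonneg fun _ _ => Finset.sum_nonneg fun _ _ => by positivity
  refine lt_of_le_of_ne h0 fun h1 => ?_
  have h2 : (Lz h z)⁻¹ = 0 := by
    ext j m
    have h3 := (Finset.sum_eq_zero_iff_of_nonneg (fun j _ => Finset.sum_nonneg
      fun m _ => by positivity)).1 h1.symm j (Finset.mem_univ _)
    have h4 := (Finset.sum_eq_zero_iff_of_nonneg (fun m _ => by positivity)).1 h3 m
      (Finset.mem_univ _)
    rw [Matrix.zero_apply]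
    exact norm_eq_zero.1 (pow_eq_zero_iff (two_ne_zero)|>.1 h4)
  have h5 : Lz h z * (Lz h z)⁻¹ = 1 := Matrix.mul_nonsing_inv _ (isUnit_iff_ne_zero.2 hdet)
  rw [h2, mul_zero] at h5
  exact zero_ne_one h5

theorem sol_ineq (hn : 1 ≤ n) (hd : ∀ i, 1 ≤ d i) (f : Sys d) (hf : ‖f‖ = 1) (z : ℝ → Pt n)
    (a b : ℝ) (ha : 0 ≤ a) (hab : a ≤ b) (hb : b ≤ 1) (hz : IsSol f z a b) (hz1 : ‖z a‖ = 1)
    (hz0 : ev (seg f a) (z a) = 0) :
    (Fr (seg f a) (z a))⁻¹ - 2 * KK d * (b - a) ≤ (Fr (seg f b) (z b))⁻¹ := by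
  have hinv := sol_inv hd f z a b hab hz hz1 hz0
  have key : ∀ s ∈ Set.Icc a b, ∃ F : ℝ,
      HasDerivWithinAt (fun t => (Fr (seg f t) (z t))⁻¹) F (Set.Icc a b) s ∧
        ‖F‖ ≤ 2 * KK d := by
    intro s hs
    have hs1 : s ∈ Set.Icc (0 : ℝ) 1 := ⟨ha.trans hs.1, hs.2.trans hb⟩
    obtain ⟨L', hL, hL2⟩ := Lz_deriv hn hd f hf z a b hz s hs hs1 (hinv s hs).1 (hinv s hs).2
    obtain ⟨F', hF, hF2⟩ := frob_inv_deriv (fun t => Lz (seg f t) (z t)) L' (Set.Icc a b) s hL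
      (hz s hs).1
    have hpos := od5_Fr_pos (seg f s) (z s) (hz s hs).1
    refine ⟨_, hF.inv hpos.ne', ?_⟩
    have hF3 : |F'| ≤ 2 * Fr (seg f s) (z s) * Real.sqrt (Fr (seg f s) (z s)) *
        (KK d * Real.sqrt (Fr (seg f s) (z s))) := by
      refine hF2.trans ?_
      apply mul_le_mul_of_nonneg_left hL2
      exact mul_nonneg (mul_nonneg zero_le_two hpos.le) (Real.sqrt_nonneg _)
    have hF4 : |F'| ≤ 2 * KK d * Fr (seg f s) (z s) ^ 2 := by
      refine hF3.trans (le_of_eq ?_)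
      have h1 := Real.mul_self_sqrt hpos.le
      calc 2 * Fr (seg f s) (z s) * Real.sqrt (Fr (seg f s) (z s)) *
            (KK d * Real.sqrt (Fr (seg f s) (z s)))
          = 2 * Fr (seg f s) (z s) * KK d * (Real.sqrt (Fr (seg f s) (z s)) *
            Real.sqrt (Fr (seg f s) (z s))) := by ring
        _ = 2 * KK d * Fr (seg f s) (z s) ^ 2 := by rw [h1]; ring
    have hsq : 0 < Fr (seg f s) (z s) ^ 2 := by positivity
    rw [Real.norm_eq_abs]
    show |-F' / Fr (seg f s) (z s) ^ 2| ≤ 2 * KK d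
    rw [abs_div, abs_neg, abs_of_pos hsq, div_le_iff₀ hsq]
    exact hF4
  choose! F hF using key
  have h1 := (convex_Icc a b).norm_image_sub_le_of_norm_hasDerivWithin_le
    (fun s hs => (hF s hs).1) (fun s hs => (hF s hs).2) (Set.left_mem_Icc.2 hab)
    (Set.right_mem_Icc.2 hab)
  rw [Real.norm_eq_abs, Real.norm_eq_abs, abs_of_nonneg (sub_nonneg.2 hab)] at h1
  have h2 := (abs_le.1 h1).1
  linarith

end Pool.Agent.Lib.CLN
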