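import Pool.Agent.Lib.CLN.OD5
/-! MP_bd3536_an, row OD6.

A priori bound. For a solution on `[0, b]` from `e_0`: for `s ≤ 2 sd`,
`1/Fr ≥ 1/(1+n²) - 4 KK sd = 1/(2(1+n²))` (`near_bound`). If `b ≥ 2 sd`, put `y₁ = 1/Fr(b)`; then
`1/Fr(s) ≤ y₁ + 2 KK (b - s)` and, with `Fr_eq`, `NF_le_SS`,
`∫_(sd)^b ds/(y₁ + 2 KK (b - s)) ≤ ∫_(sd)^b (1 + SS (seg f s)) ds ≤ 1 + E`, and the left side is
`(1/(2 KK)) log ((y₁ + 2 KK (b - sd))/y₁) ≥ (1/(2 KK)) log (2 KK sd / y₁)`, so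
`y₁ ≥ 2 KK sd exp (-2 KK (1 + E))`.
-/

set_option autoImplicit false

open MeasureTheory
open scoped ENNReal NNReal ComplexConjugate

namespace Pool.Agent.Lib.CLN

variable {n : ℕ} {d : Fin n → ℕ}

private lemma KK_pos6 (hn : 1 ≤ n) : 0 < KK d := by
  have h1 : (0 : ℝ) < NN d := by
    have h2 := d_add_one_le (d := d) hn ⟨0, hn⟩
    have h3 : (0 : ℝ) ≤ (d ⟨0, hn⟩ : ℝ) := Nat.cast_nonneg _
    linarith
  unfold KK
  positivity

private lemma sd_pos6 (hn : 1 ≤ n) : 0 < sd d := by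
  have h1 := KK_pos6 (d := d) hn
  unfold sd
  positivity

private lemma seg_zero6 (f : Sys d) : seg f 0 = gSys d := by
  unfold seg
  simp

private lemma norm_ptZero6 : ‖ptZero n‖ = 1 := by
  unfold ptZero
  simp

private lemma IsSol.mono6 {f : Sys d} {z : ℝ → Pt n} {a b a' b' : ℝ} (h : IsSol f z a b)
    (ha : a ≤ a') (hb : b' ≤ b) : IsSol f z a' b' := by
  intro s hs
  have h1 := h s ⟨ha.trans hs.1, hs.2.trans hb⟩
  exact ⟨h1.1, h1.2.mono (Set.Icc_subset_Icc ha hb)⟩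

theorem near_bound (hn : 1 ≤ n) (hd : ∀ i, 1 ≤ d i) (f : Sys d) (hf : ‖f‖ = 1) (z : ℝ → Pt n)
    (b : ℝ) (hb0 : 0 ≤ b) (hb1 : b ≤ 1) (hb : b ≤ 2 * sd d) (hz0 : z 0 = ptZero n)
    (hz : IsSol f z 0 b) :
    Fr (seg f b) (z b) ≤ 2 * (1 + (n : ℝ) ^ 2) := by
  have hK := KK_pos6 (d := d) hn
  have hnn : (0 : ℝ) < 1 + (n : ℝ) ^ 2 := by positivity
  have h1 := sol_ineq hn hd f hf z 0 b le_rfl hb0 hb1 hz (by rw [hz0, norm_ptZero6])
    (by rw [hz0, seg_zero6]; exact ev_start hn hd)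
  rw [hz0, seg_zero6, (Fr_start hn hd).2, sub_zero] at h1
  have h2 : 2 * KK d * b ≤ (1 / 2) * (1 + (n : ℝ) ^ 2)⁻¹ := by
    calc 2 * KK d * b ≤ 2 * KK d * (2 * sd d) :=
          mul_le_mul_of_nonneg_left hb (by positivity)
      _ = (1 / 2) * (1 + (n : ℝ) ^ 2)⁻¹ := by
          unfold sd
          field_simp
          norm_num
  have h3 : (2 * (1 + (n : ℝ) ^ 2))⁻¹ ≤ (Fr (seg f b) (z b))⁻¹ := by
    have h4 : (2 * (1 + (n : ℝ) ^ 2))⁻¹ = (1 / 2) * (1 + (n : ℝ) ^ 2)⁻¹ := by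
      rw [mul_inv]
      norm_num
    rw [h4]
    linarith
  have h5 : 0 < (2 * (1 + (n : ℝ) ^ 2))⁻¹ := by positivity
  have h6 := inv_anti₀ h5 h3
  rwa [inv_inv, inv_inv] at h6

private lemma log_integral6 {K y a b : ℝ} (hK : 0 < K) (hy : 0 < y) (hab : a ≤ b) :
    ∫⁻ s in Set.Icc a b, ENNReal.ofReal ((y + K * (b - s))⁻¹) =
      ENNReal.ofReal (K⁻¹ * (Real.log (y + K * (b - a)) - Real.log y)) := by
  have hpos : ∀ s ∈ Set.Icc a b, 0 < y + K * (b - s) := by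
    intro s hs
    have := mul_nonneg hK.le (sub_nonneg.2 hs.2)
    linarith
  have hcont : ContinuousOn (fun s => (y + K * (b - s))⁻¹) (Set.Icc a b) := by
    apply ContinuousOn.inv₀
    · fun_prop
    · intro s hs
      exact (hpos s hs).ne'
  have hderiv : ∀ s ∈ Set.uIcc a b,
      HasDerivAt (fun s => -(K⁻¹ * Real.log (y + K * (b - s)))) ((y + K * (b - s))⁻¹) s := by
    intro s hs
    rw [Set.uIcc_of_le hab] at hs
    have h0 := hpos s hs
    have h1 : HasDerivAt (fun s => y + K * (b - s)) (K * (-1)) s := by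
      have h2 : HasDerivAt (fun s => b - s) (-1) s := by
        simpa using (hasDerivAt_id s).const_sub b
      simpa using (h2.const_mul K).const_add y
    have h3 := ((h1.log h0.ne').const_mul K⁻¹).neg
    have h4 : -(K⁻¹ * (K * (-1) / (y + K * (b - s)))) = (y + K * (b - s))⁻¹ := by
      rw [mul_div_assoc, ← mul_assoc, inv_mul_cancel₀ hK.ne', one_mul, neg_div, neg_neg, one_div]
    rw [← h4]
    exact h3
  have hint : ∫ s in a..b, (y + K * (b - s))⁻¹ =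
      K⁻¹ * (Real.log (y + K * (b - a)) - Real.log y) := by
    rw [intervalIntegral.integral_eq_sub_of_hasDerivAt hderiv]
    · simp only [sub_self, mul_zero, add_zero]
      ring
    · apply ContinuousOn.intervalIntegrable
      rwa [Set.uIcc_of_le hab]
  rw [← hint, intervalIntegral.integral_of_le hab, ← integral_Icc_eq_integral_Ioc,
    ofReal_integral_eq_lintegral_ofReal]
  · exact hcont.integrableOn_Icc
  · rw [Filter.EventuallyLE, ae_restrict_iff' measurableSet_Icc]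
    exact Filter.Eventually.of_forall fun s hs => (inv_pos.2 (hpos s hs)).le

theorem apriori (hn : 1 ≤ n) (hd : ∀ i, 1 ≤ d i) (f : Sys d) (hf : ‖f‖ = 1)
    (hE : ∫⁻ s in Set.Icc (sd d) 1, SS (seg f s) ≠ ⊤) :
    ∃ B : ℝ, ∀ (z : ℝ → Pt n) (b : ℝ), 0 ≤ b → b ≤ 1 → z 0 = ptZero n → IsSol f z 0 b →
      Fr (seg f b) (z b) ≤ B := by
  have hK := KK_pos6 (d := d) hn
  have hsd := sd_pos6 (d := d) hn
  set E := (∫⁻ s in Set.Icc (sd d) 1, SS (seg f s)).toReal with hEdef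
  have hE0 : 0 ≤ E := ENNReal.toReal_nonneg
  refine ⟨max (2 * (1 + (n : ℝ) ^ 2))
    (Real.exp (2 * KK d * (1 + E)) / (2 * KK d * sd d)), ?_⟩
  intro z b hb0 hb1 hz0 hz
  by_cases hb : b ≤ 2 * sd d
  · exact (near_bound hn hd f hf z b hb0 hb1 hb hz0 hz).trans (le_max_left _ _)
  push Not at hb
  refine le_trans ?_ (le_max_right _ _)
  have hinv := sol_inv hd f z 0 b hb0 hz (by rw [hz0, norm_ptZero6])
    (by rw [hz0, seg_zero6]; exact ev_start hn hd)
  have hFr : ∀ s ∈ Set.Icc 0 b, ENNReal.ofReal (Fr (seg f s) (z s)) ≤ 1 + SS (seg f s) ∧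
      0 < Fr (seg f s) (z s) := by
    intro s hs
    obtain ⟨h1, h2⟩ := hinv s hs
    have h3 := (hz s hs).1
    have h4 := Fr_eq hd (seg f s) (z s) h1 h2 h3
    have hz1 : z s ≠ 0 := by
      intro h
      rw [h, norm_zero] at h1
      exact zero_ne_one h1
    have h5 := NF_le_SS hd (seg f s) (z s) hz1 h2 (by rwa [← Lz_eq (seg f s) (z s) h1])
    refine ⟨h4.le.trans (add_le_add le_rfl h5), ?_⟩
    by_contra h6
    rw [ENNReal.ofReal_of_nonpos (not_lt.1 h6)] at h4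
    have h7 : (1 : ℝ≥0∞) ≤ 0 := by
      rw [h4]
      exact le_self_add
    exact absurd h7 (by simp)
  set y := (Fr (seg f b) (z b))⁻¹ with hy
  have hy0 : 0 < y := inv_pos.2 (hFr b ⟨hb0, le_rfl⟩).2
  have hsb : sd d ≤ b := by linarith
  have hpt : ∀ s ∈ Set.Icc (sd d) b, ENNReal.ofReal ((y + 2 * KK d * (b - s))⁻¹) ≤
      1 + SS (seg f s) := by
    intro s hs
    have hs0 : s ∈ Set.Icc 0 b := ⟨hsd.le.trans hs.1, hs.2⟩
    obtain ⟨h1, h2⟩ := hFr s hs0
    refine le_trans (ENNReal.ofReal_le_ofReal ?_) h1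
    have h3 := sol_ineq hn hd f hf z s b hs0.1 hs.2 hb1 (hz.mono6 hs0.1 le_rfl) (hinv s hs0).1
      (hinv s hs0).2
    have h4 : (Fr (seg f s) (z s))⁻¹ ≤ y + 2 * KK d * (b - s) := by linarith
    have h5 := inv_anti₀ (inv_pos.2 h2) h4
    rwa [inv_inv] at h5
  have hmain : ENNReal.ofReal ((2 * KK d)⁻¹ * (Real.log (y + 2 * KK d * (b - sd d)) -
      Real.log y)) ≤ ENNReal.ofReal (1 + E) := by
    rw [← log_integral6 (by positivity) hy0 hsb]
    calc ∫⁻ s in Set.Icc (sd d) b, ENNReal.ofReal ((y + 2 * KK d * (b - s))⁻¹)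
        ≤ ∫⁻ s in Set.Icc (sd d) b, (1 + SS (seg f s)) :=
          setLIntegral_mono' measurableSet_Icc hpt
      _ ≤ ∫⁻ s in Set.Icc (sd d) 1, (1 + SS (seg f s)) :=
          lintegral_mono_set (Set.Icc_subset_Icc le_rfl hb1)
      _ = (∫⁻ _s in Set.Icc (sd d) 1, (1 : ℝ≥0∞)) + ∫⁻ s in Set.Icc (sd d) 1, SS (seg f s) :=
          lintegral_add_left measurable_const _
      _ ≤ ENNReal.ofReal 1 + ENNReal.ofReal E := by
          refine add_le_add ?_ ?_
          · rw [setLIntegral_const, one_mul, Real.volume_Icc]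
            exact ENNReal.ofReal_le_ofReal (by linarith)
          · rw [hEdef, ENNReal.ofReal_toReal hE]
      _ = ENNReal.ofReal (1 + E) := (ENNReal.ofReal_add zero_le_one hE0).symm
  have h8 : (2 * KK d)⁻¹ * (Real.log (y + 2 * KK d * (b - sd d)) - Real.log y) ≤ 1 + E :=
    (ENNReal.ofReal_le_ofReal_iff (by linarith)).1 hmain
  have h9 : Real.log (y + 2 * KK d * (b - sd d)) - Real.log y ≤ 2 * KK d * (1 + E) := by
    rw [inv_mul_le_iff₀ (by positivity)] at h8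
    exact h8
  have h10 : 2 * KK d * sd d ≤ y + 2 * KK d * (b - sd d) := by
    have h11 : 2 * KK d * sd d ≤ 2 * KK d * (b - sd d) :=
      mul_le_mul_of_nonneg_left (by linarith) (by positivity)
    linarith
  have h12 : Real.log (2 * KK d * sd d) - Real.log y ≤ 2 * KK d * (1 + E) := by
    have h13 := Real.log_le_log (by positivity) h10
    linarith
  rw [← Real.log_div (by positivity) hy0.ne', Real.log_le_iff_le_exp (by positivity)] at h12
  rw [le_div_iff₀ (by positivity)]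
  have h14 : Fr (seg f b) (z b) = y⁻¹ := by rw [hy, inv_inv]
  rw [h14]
  calc y⁻¹ * (2 * KK d * sd d) = 2 * KK d * sd d / y := by
        rw [div_eq_mul_inv, mul_comm]
    _ ≤ _ := h12

end Pool.Agent.Lib.CLN
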