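import Pool.Agent.Lib.CLN.FI

/-! MP_bd3536_an: the definitions of the statement. -/

set_option autoImplicit false

open MeasureTheory
open scoped ENNReal NNReal ComplexConjugate

namespace Pool.Agent.Lib.CLN.St

variable {n : ℕ}

/-! ### Notions for an abstract space -/

section general

variable {E F : Type} [NormedAddCommGroup E] [InnerProductSpace ℂ E]
  [NormedAddCommGroup F] [NormedSpace ℂ F]

/-- `T` takes values in the orthogonal complement of `z`, and `A` composed with `T` is `D`; that is,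
`T` is the inverse of the restriction of `A` to the orthogonal complement of `z`, composed with
`D`. -/
def IsInverseOn (A : E →L[ℂ] F) (z : E) (D : F → F) (T : F →L[ℂ] E) : Prop :=
  (∀ y, inner ℂ z (T y) = 0) ∧ ∀ y, A (T y) = D y

/-- `c` times the norm of the inverse of the restriction of `A` to the orthogonal complement of `z`,
composed with `D`; `⊤` if there is no inverse. -/
noncomputable def invNorm (c : ℝ) (A : E →L[ℂ] F) (z : E) (D : F → F) : ℝ≥0∞ :=
  ⨅ (T : F →L[ℂ] E) (_ : IsInverseOn A z D T), ENNReal.ofReal (c * ‖T‖)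

/-- The Fubini-Study speed of the point of projective space represented by `z`, if `z` moves with
velocity `z'`: the norm of the part of `z'` orthogonal to `z`, divided by the norm of `z`. -/
noncomputable def ptSpeed (z z' : E) : ℝ :=
  ‖z' - (inner ℂ z z' / inner ℂ z z) • z‖ / ‖z‖

end general

section real

variable {E : Type} [NormedAddCommGroup E] [NormedSpace ℝ E]

/-- `z'` is the velocity of the path `z` on `[0, 1]`. -/
def HasVelocity (z z' : ℝ → E) : Prop :=
  ∀ s ∈ Set.Icc (0 : ℝ) 1, HasDerivWithinAt z (z' s) (Set.Icc 0 1) s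

/-- The speed at `s` of the path `c` projected to the unit sphere. -/
noncomputable def sphereSpeed (c : ℝ → E) (s : ℝ) : ℝ :=
  ‖deriv (fun t => (‖c t‖⁻¹ : ℝ) • c t) s‖

end real

section measure

variable (E : Type) [NormedAddCommGroup E] [NormedSpace ℝ E] [MeasureSpace E]

/-- The uniform probability measure on the unit sphere. -/
noncomputable def unif : Measure (Metric.sphere (0 : E) 1) :=
  ((volume : Measure E).toSphere Set.univ)⁻¹ • (volume : Measure E).toSphere

variable {E}

/-- The expectation of `C f`, `f` uniformly distributed on the unit sphere, is at most `b`: some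
measurable function `G ≥ C` on the sphere has integral at most `b`. -/
def MeanAtMost (C : E → ℝ≥0∞) (b : ℝ≥0∞) : Prop :=
  ∃ G : Metric.sphere (0 : E) 1 → ℝ≥0∞, Measurable G ∧
    (∀ f : Metric.sphere (0 : E) 1, C f ≤ G f) ∧ ∫⁻ f, G f ∂(unif E) ≤ b

end measure

/-- `MeanAtMost` for the space `ℂ^ι` with its Hermitian norm. -/
def ExpectationAtMost (ι : Type) [Fintype ι] (C : EuclideanSpace ℂ ι → ℝ≥0∞) (b : ℝ≥0∞) : Prop :=
  MeanAtMost C b

/-! ### The homotopy -/

variable {d : Fin n → ℕ}

/-- Multiplication of the coordinate `i` by `√(d i) r^(d i - 1)`. -/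
noncomputable def scaling (d : Fin n → ℕ) (r : ℝ) (y : Tgt n) : Tgt n :=
  WithLp.toLp 2 fun i => ((Real.sqrt (d i) * r ^ (d i - 1) : ℝ) : ℂ) * y i

/-- The normalized condition number of `h` at `z`. -/
noncomputable def mu (h : Sys d) (z : Pt n) : ℝ≥0∞ :=
  invNorm ‖h‖ (fderiv ℂ (ev h) z) z (scaling d ‖z‖)

/-- `z` (with derivative `z'`) is a lift to `ℂ^(n+1) ∖ 0` of a continuation of the zero `e_0` along
the homotopy, with `mu` finite everywhere on it. -/
structure IsLift (f : Sys d) (z z' : ℝ → Pt n) : Prop where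
  start : z 0 = ptZero n
  ne_zero : ∀ s ∈ Set.Icc (0 : ℝ) 1, z s ≠ 0
  deriv : HasVelocity z z'
  zero : ∀ s ∈ Set.Icc (0 : ℝ) 1, ev (seg f s) (z s) = 0
  finite : ∀ s ∈ Set.Icc (0 : ℝ) 1, mu (seg f s) (z s) ≠ ⊤

/-- The length of a lift in the condition metric. -/
noncomputable def condLength (f : Sys d) (z z' : ℝ → Pt n) : ℝ≥0∞ :=
  ∫⁻ s in Set.Icc (0 : ℝ) 1, mu (seg f s) (z s) *
    ENNReal.ofReal (Real.sqrt (sphereSpeed (seg f) s ^ 2 + ptSpeed (z s) (z' s) ^ 2))

/-- The condition length of the homotopy started at `e_0`; `⊤` if `e_0` has no continuation up to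
`s = 1` with `mu` finite. -/
noncomputable def C0 (f : Sys d) : ℝ≥0∞ :=
  ⨅ (z : ℝ → Pt n) (z' : ℝ → Pt n) (_ : IsLift f z z'), condLength f z z'

/-- The complex dimension `N` of the space of systems. -/
def dimSys (d : Fin n → ℕ) : ℕ := Fintype.card (Idx d)

/-- The number of the equations `i` with `2 ≤ d i` and `(d i)^m < n^(m+1)`. -/
def numLow (d : Fin n → ℕ) (m : ℕ) : ℕ :=
  (Finset.univ.filter fun i => 2 ≤ d i ∧ d i ^ m < n ^ (m + 1)).card

/-! ### Comparison with the definitions of the library -/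

theorem mu_eq (h : Sys d) (z : Pt n) : mu h z = Pool.Agent.Lib.CLN.mu h z := by
  unfold mu invNorm Pool.Agent.Lib.CLN.mu
  refine iInf_congr fun T => ?_
  have hiff : (∀ y, fderiv ℂ (ev h) z (T y) = scaling d ‖z‖ y) ↔
      (∀ y i, fderiv ℂ (ev h) z (T y) i = (Real.sqrt (d i) : ℂ) * (‖z‖ : ℂ) ^ (d i - 1) * y i) := by
    refine forall_congr' fun y => ?_
    constructor
    · intro hy i
      rw [hy]
      simp only [scaling]
      push_cast
      rfl
    · intro hy
      ext i
      rw [hy i]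
      simp only [scaling]
      push_cast
      rfl
  by_cases h1 : ∀ y, inner ℂ z (T y) = 0
  · by_cases h2 : ∀ y, fderiv ℂ (ev h) z (T y) = scaling d ‖z‖ y
    · have h3 := hiff.1 h2
      rw [iInf_pos (show IsInverseOn (fderiv ℂ (ev h) z) z (scaling d ‖z‖) T from ⟨h1, h2⟩),
        iInf_pos h1, iInf_pos h3]
    · have h3 : ¬ _ := fun hc => h2 (hiff.2 hc)
      rw [iInf_neg (show ¬ IsInverseOn (fderiv ℂ (ev h) z) z (scaling d ‖z‖) T from
        fun hc => h2 hc.2), iInf_pos h1, iInf_neg h3]
  · rw [iInf_neg (show ¬ IsInverseOn (fderiv ℂ (ev h) z) z (scaling d ‖z‖) T from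
        fun hc => h1 hc.1), iInf_neg h1]

theorem isLift_iff (f : Sys d) (z z' : ℝ → Pt n) :
    IsLift f z z' ↔ Pool.Agent.Lib.CLN.IsLift f z z' := by
  constructor
  · rintro ⟨h1, h2, h3, h4, h5⟩
    exact ⟨h1, h2, h3, h4, fun s hs => by rw [← mu_eq]; exact h5 s hs⟩
  · rintro ⟨h1, h2, h3, h4, h5⟩
    exact ⟨h1, h2, h3, h4, fun s hs => by rw [mu_eq]; exact h5 s hs⟩

theorem condLength_eq (f : Sys d) (z z' : ℝ → Pt n) :
    condLength f z z' = Pool.Agent.Lib.CLN.condLength f z z' := by
  unfold condLength Pool.Agent.Lib.CLN.condLength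
  refine lintegral_congr fun s => ?_
  rw [mu_eq]
  rfl

theorem C0_eq (f : Sys d) : C0 f = Pool.Agent.Lib.CLN.C0 f := by
  unfold C0 Pool.Agent.Lib.CLN.C0
  refine iInf_congr fun z => iInf_congr fun z' => ?_
  rw [condLength_eq]
  by_cases h : IsLift f z z'
  · rw [iInf_pos h, iInf_pos ((isLift_iff f z z').1 h)]
  · rw [iInf_neg h, iInf_neg (fun hc => h ((isLift_iff f z z').2 hc))]

end Pool.Agent.Lib.CLN.St
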